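import Pool.Agent.P.MP_0e1fd4_co.Eng

/-! The reducible configurations. -/

namespace Pool.Agent.P.MP_0e1fd4_co

set_option maxRecDepth 100000

def c14 : Cert :=
  (.spl 1 3 (.con (.k4 0 1 2 3))
  (.col [0, 2, 3, 1] [.save 0 1, .save 2 3, .col 1, .col 3]))

lemma c14_ok : c14.chk [(0, 4), (2, 4), (3, 4), (1, 4)] []
    (mk [(0, 1), (0, 2), (0, 3), (0, 4), (1, 2), (2, 3), (3, 4)])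
    (mk [(1, 4)]) (mk [(1, 3), (2, 4), (1, 4)]) = true := by
  decide +kernel

def c1adj : Cert :=
  (.dis 0 7 (.k4 0 1 5 6)
  (.dis 2 7 (.k4 1 2 5 6)
  (.dis 3 5 (.ov 3 [0, 1, 6, 7, 8])
  (.dis 3 6 (.k4 0 1 2 3)
  (.dis 3 8 (.k4 0 1 2 3)
  (.dis 4 5 (.an 1 4)
  (.dis 4 6 (.an 1 4)
  (.dis 4 8 (.an 1 4)
  (.spl 1 3 (.con (.k4 0 1 2 3))
  (.spl 1 7 (.con (.k4 1 5 6 7))
  (.dis 0 5 (.ov 0 [1, 3, 4, 6, 8])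
  (.dis 2 6 (.c6 0 1 5 2 3 4)
  (.dis 3 7 (.ov 3 [0, 2, 4, 5, 6])
  (.spl 2 7 (.con (.c6 0 3 2 7 5 1))
  (.spl 3 5 (.con (.ov 5 [1, 3, 6, 7, 8]))
  (.spl 3 6 (.con (.c6 0 2 1 5 6 3))
  (.spl 3 7 (.con (.c6 0 2 1 5 7 3))
  (.col [0, 2, 3, 1, 5, 6, 7] [.save 0 3, .save 5 1, .save 6 7, .save 2 1, .col 1, .col 3, .col 7]))))))))))))))))))

lemma c1adj_ok : c1adj.chk [(0, 4), (2, 4), (3, 4), (1, 5), (5, 4), (6, 4), (7, 4)] []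
    (mk [(0, 1), (0, 2), (0, 3), (0, 4), (1, 2), (2, 3), (3, 4), (5, 1), (5, 6), (5, 7), (5, 8), (1, 6), (6, 7), (7, 8), (8, 1)])
    (mk [(1, 4)]) (mk [(1, 3), (2, 4), (1, 4), (1, 7), (6, 8), (0, 6), (0, 8), (5, 2)]) = true := by
  decide +kernel

def c1opp : Cert :=
  (.dis 0 7 (.k4 0 1 5 6)
  (.dis 2 7 (.k4 1 2 5 6)
  (.dis 3 5 (.ov 3 [0, 1, 6, 7, 8])
  (.dis 3 6 (.k4 0 1 2 3)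
  (.dis 3 8 (.k4 0 1 2 3)
  (.dis 4 5 (.an 1 4)
  (.dis 4 6 (.an 1 4)
  (.dis 4 8 (.an 1 4)
  (.spl 1 3 (.con (.k4 0 1 2 3))
  (.spl 2 6 (.con (.c6 0 1 6 2 3 4))
  (.spl 2 8 (.con (.c6 0 1 8 2 3 4))
  (.spl 6 8 (.con (.k4 1 5 6 8))
  (.dis 0 5 (.ov 0 [1, 3, 4, 6, 8])
  (.dis 2 6 (.c6 0 1 5 2 3 4)
  (.dis 2 8 (.c6 0 1 5 2 3 4)
  (.dis 3 7 (.ov 3 [0, 2, 4, 5, 6])
  (.spl 2 5 (.con (.ov 5 [1, 2, 6, 7, 8]))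
  (.spl 3 5 (.con (.ov 5 [1, 3, 6, 7, 8]))
  (.spl 3 6 (.con (.c6 0 2 1 5 6 3))
  (.spl 3 8 (.con (.c6 0 2 1 5 8 3))
  (.col [0, 2, 3, 1, 5, 6, 8] [.save 0 3, .save 1 6, .save 3 2, .save 5 8, .col 2, .col 6, .col 8])))))))))))))))))))))

lemma c1opp_ok : c1opp.chk [(0, 4), (2, 4), (3, 4), (1, 5), (5, 4), (6, 4), (8, 4)] []
    (mk [(0, 1), (0, 2), (0, 3), (0, 4), (1, 2), (2, 3), (3, 4), (5, 1), (5, 6), (5, 7), (5, 8), (1, 6), (6, 7), (7, 8), (8, 1)])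
    (mk [(1, 4)]) (mk [(1, 3), (2, 4), (1, 4), (1, 7), (6, 8), (0, 6), (0, 8), (5, 2)]) = true := by
  decide +kernel

def c1B : Cert :=
  (.dis 0 7 (.k4 0 1 5 6)
  (.dis 2 7 (.k4 1 2 5 6)
  (.dis 3 5 (.ov 3 [0, 1, 6, 7, 8])
  (.dis 3 6 (.k4 0 1 2 3)
  (.dis 3 8 (.k4 0 1 2 3)
  (.dis 4 5 (.an 1 4)
  (.dis 4 6 (.an 1 4)
  (.dis 4 8 (.an 1 4)
  (.spl 0 5 (.con (.ov 0 [1, 2, 3, 4, 5]))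
  (.spl 1 3 (.con (.k4 0 1 2 3))
  (.spl 1 7 (.con (.k4 1 5 6 7))
  (.spl 2 6 (.con (.c6 0 1 6 2 3 4))
  (.spl 2 8 (.con (.c6 0 1 8 2 3 4))
  (.spl 6 8 (.con (.k4 1 5 6 8))
  (.dis 0 5 (.ov 0 [1, 3, 4, 6, 8])
  (.dis 2 6 (.c6 0 1 5 2 3 4)
  (.dis 2 8 (.c6 0 1 5 2 3 4)
  (.dis 3 7 (.ov 3 [0, 2, 4, 5, 6])
  (.dis 4 7 (.ov 7 [0, 3, 5, 6, 8])
  (.spl 0 6 (.con (.ov 0 [1, 2, 3, 4, 6]))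
  (.spl 0 7 (.con (.ov 0 [1, 2, 3, 4, 7]))
  (.spl 0 8 (.con (.ov 0 [1, 2, 3, 4, 8]))
  (.spl 2 5 (.con (.ov 5 [1, 2, 6, 7, 8]))
  (.spl 2 7 (.con (.c6 0 3 2 7 5 1))
  (.spl 3 5 (.con (.ov 5 [1, 3, 6, 7, 8]))
  (.spl 3 6 (.con (.c6 0 2 1 5 6 3))
  (.spl 3 7 (.con (.c6 0 2 1 5 7 3))
  (.spl 3 8 (.con (.c6 0 2 1 5 8 3))
  (.col [0, 2, 3, 1, 5, 6, 7, 8] [.abs 1 5 6 7 8, .save 0 1, .save 2 3, .col 1, .col 3])))))))))))))))))))))))))))))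

lemma c1B_ok : c1B.chk [(0, 4), (2, 4), (3, 4), (1, 5), (5, 4), (7, 4), (6, 5), (8, 5)] [6, 8]
    (mk [(0, 1), (0, 2), (0, 3), (0, 4), (1, 2), (2, 3), (3, 4), (5, 1), (5, 6), (5, 7), (5, 8), (1, 6), (6, 7), (7, 8), (8, 1)])
    (mk [(1, 4)]) (mk [(1, 3), (2, 4), (1, 4), (1, 7), (6, 8), (0, 6), (0, 8), (5, 2)]) = true := by
  decide +kernel

def c244 : Cert :=
  (.spl 2 4 (.con (.k4 0 2 3 4))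
  (.col [0, 2, 3, 1, 4] [.save 3 4, .save 1 2, .save 0 2, .col 2, .col 4]))

lemma c244_ok : c244.chk [(0, 4), (2, 5), (3, 4), (1, 4), (4, 4)] []
    (mk [(0, 1), (0, 2), (0, 3), (0, 4), (1, 2), (2, 3), (3, 4)])
    (mk [(1, 4)]) (mk [(1, 3), (2, 4), (1, 4)]) = true := by
  decide +kernel

def c24adj : Cert :=
  (.dis 0 7 (.k4 0 4 5 6)
  (.dis 1 5 (.an 1 4)
  (.dis 1 6 (.an 1 4)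
  (.dis 1 8 (.an 1 4)
  (.dis 2 5 (.ov 5 [0, 1, 4, 6, 8])
  (.dis 2 6 (.k4 0 2 3 4)
  (.dis 2 8 (.k4 0 2 3 4)
  (.dis 3 7 (.ov 3 [0, 2, 4, 6, 8])
  (.spl 2 4 (.con (.k4 0 2 3 4))
  (.spl 4 7 (.con (.k4 4 5 6 7))
  (.dis 0 5 (.ov 0 [1, 2, 4, 6, 8])
  (.dis 1 7 (.ov 1 [0, 2, 5, 6, 8])
  (.dis 2 7 (.ov 7 [0, 1, 5, 6, 8])
  (.dis 3 6 (.ov 3 [0, 2, 4, 5, 7])
  (.spl 0 7 (.con (.ov 0 [1, 2, 3, 4, 7]))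
  (.spl 1 7 (.con (.c6 0 2 1 7 5 4))
  (.spl 2 6 (.con (.c6 0 1 2 6 4 3))
  (.spl 2 7 (.con (.c6 0 1 2 7 5 4))
  (.spl 3 7 (.con (.c6 0 2 3 7 5 4))
  (.col [0, 2, 3, 1, 4, 5, 6, 7] [.save 5 7, .save 3 4, .save 1 2, .save 0 2, .save 6 4, .col 2, .col 4, .col 7]))))))))))))))))))))

lemma c24adj_ok : c24adj.chk [(0, 4), (2, 5), (3, 4), (1, 4), (4, 5), (5, 4), (6, 4), (7, 4)] []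
    (mk [(0, 1), (0, 2), (0, 3), (0, 4), (1, 2), (2, 3), (3, 4), (5, 4), (5, 6), (5, 7), (5, 8), (4, 6), (6, 7), (7, 8), (8, 4)])
    (mk [(1, 4)]) (mk [(1, 3), (2, 4), (1, 4), (4, 7), (6, 8), (0, 6), (0, 8), (5, 3)]) = true := by
  decide +kernel

def c24opp : Cert :=
  (.dis 0 7 (.k4 0 4 5 6)
  (.dis 1 5 (.an 1 4)
  (.dis 1 6 (.an 1 4)
  (.dis 1 8 (.an 1 4)
  (.dis 2 5 (.ov 5 [0, 1, 4, 6, 8])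
  (.dis 2 6 (.k4 0 2 3 4)
  (.dis 2 8 (.k4 0 2 3 4)
  (.spl 2 4 (.con (.k4 0 2 3 4))
  (.spl 3 6 (.con (.c6 0 1 2 3 6 4))
  (.spl 6 8 (.con (.k4 4 5 6 8))
  (.dis 0 5 (.ov 0 [1, 2, 4, 6, 8])
  (.dis 2 7 (.c6 0 1 2 5 4 3)
  (.dis 3 6 (.ov 3 [0, 2, 4, 5, 7])
  (.dis 3 8 (.ov 3 [0, 2, 4, 5, 7])
  (.spl 0 6 (.con (.ov 0 [1, 2, 3, 4, 6]))
  (.spl 1 6 (.con (.c6 0 1 6 4 3 2))
  (.spl 2 6 (.con (.c6 0 1 2 6 4 3))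
  (.col [0, 2, 3, 1, 4, 5, 6, 8] [.save 5 6, .col 8, .save 3 4, .save 1 2, .save 0 2, .save 6 4, .col 2, .col 4]))))))))))))))))))

lemma c24opp_ok : c24opp.chk [(0, 4), (2, 5), (3, 4), (1, 4), (4, 5), (5, 4), (6, 4), (8, 4)] []
    (mk [(0, 1), (0, 2), (0, 3), (0, 4), (1, 2), (2, 3), (3, 4), (5, 4), (5, 6), (5, 7), (5, 8), (4, 6), (6, 7), (7, 8), (8, 4)])
    (mk [(1, 4)]) (mk [(1, 3), (2, 4), (1, 4), (4, 7), (6, 8), (0, 6), (0, 8), (5, 3)]) = true := by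
  decide +kernel

def c24B : Cert :=
  (.dis 0 7 (.k4 0 4 5 6)
  (.dis 1 5 (.an 1 4)
  (.dis 1 6 (.an 1 4)
  (.dis 1 8 (.an 1 4)
  (.dis 2 5 (.ov 5 [0, 1, 4, 6, 8])
  (.dis 2 6 (.k4 0 2 3 4)
  (.dis 2 8 (.k4 0 2 3 4)
  (.dis 3 7 (.ov 3 [0, 2, 4, 6, 8])
  (.spl 0 5 (.con (.ov 0 [1, 2, 3, 4, 5]))
  (.spl 2 4 (.con (.k4 0 2 3 4))
  (.spl 3 6 (.con (.c6 0 1 2 3 6 4))
  (.spl 3 8 (.con (.c6 0 1 2 3 8 4))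
  (.spl 4 7 (.con (.k4 4 5 6 7))
  (.spl 6 8 (.con (.k4 4 5 6 8))
  (.dis 0 5 (.ov 0 [1, 2, 4, 6, 8])
  (.dis 1 7 (.ov 1 [0, 2, 5, 6, 8])
  (.dis 2 7 (.ov 7 [0, 1, 5, 6, 8])
  (.dis 3 6 (.ov 3 [0, 2, 4, 5, 7])
  (.dis 3 8 (.ov 3 [0, 2, 4, 5, 7])
  (.spl 0 6 (.con (.ov 0 [1, 2, 3, 4, 6]))
  (.spl 0 7 (.con (.ov 0 [1, 2, 3, 4, 7]))
  (.spl 0 8 (.con (.ov 0 [1, 2, 3, 4, 8]))
  (.spl 1 5 (.con (.ov 5 [1, 4, 6, 7, 8]))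
  (.spl 1 6 (.con (.c6 0 1 6 4 3 2))
  (.spl 1 7 (.con (.c6 0 2 1 7 5 4))
  (.spl 1 8 (.con (.c6 0 1 8 4 3 2))
  (.spl 2 5 (.con (.ov 5 [2, 4, 6, 7, 8]))
  (.spl 2 6 (.con (.c6 0 1 2 6 4 3))
  (.spl 2 7 (.con (.c6 0 1 2 7 5 4))
  (.spl 2 8 (.con (.c6 0 1 2 8 4 3))
  (.spl 3 5 (.con (.ov 5 [3, 4, 6, 7, 8]))
  (.spl 3 7 (.con (.c6 0 2 3 7 5 4))
  (.col [0, 2, 3, 1, 4, 5, 6, 7, 8] [.abs 4 5 6 7 8, .save 3 4, .save 1 2, .save 0 2, .col 2, .col 4])))))))))))))))))))))))))))))))))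

lemma c24B_ok : c24B.chk [(0, 4), (2, 5), (3, 4), (1, 4), (4, 5), (5, 4), (7, 4), (6, 5), (8, 5)] [6, 8]
    (mk [(0, 1), (0, 2), (0, 3), (0, 4), (1, 2), (2, 3), (3, 4), (5, 4), (5, 6), (5, 7), (5, 8), (4, 6), (6, 7), (7, 8), (8, 4)])
    (mk [(1, 4)]) (mk [(1, 3), (2, 4), (1, 4), (4, 7), (6, 8), (0, 6), (0, 8), (5, 3)]) = true := by
  decide +kernel

def c2adj4 : Cert :=
  (.dis 0 7 (.k4 0 1 5 6)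
  (.dis 2 7 (.k4 1 2 5 6)
  (.dis 3 5 (.ov 3 [0, 1, 6, 7, 8])
  (.dis 3 6 (.k4 0 1 2 3)
  (.dis 3 8 (.k4 0 1 2 3)
  (.dis 4 5 (.an 1 4)
  (.dis 4 6 (.an 1 4)
  (.dis 4 8 (.an 1 4)
  (.spl 1 7 (.con (.k4 1 5 6 7))
  (.spl 2 4 (.con (.k4 0 2 3 4))
  (.spl 2 6 (.con (.c6 0 1 6 2 3 4))
  (.dis 0 5 (.ov 0 [1, 3, 4, 6, 8])
  (.dis 2 6 (.c6 0 1 5 2 3 4)
  (.dis 3 7 (.ov 3 [0, 2, 4, 5, 6])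
  (.dis 4 7 (.ov 4 [0, 3, 5, 6, 8])
  (.spl 0 7 (.con (.ov 0 [1, 2, 3, 4, 7]))
  (.spl 2 7 (.con (.c6 0 3 2 7 5 1))
  (.spl 4 5 (.con (.ov 5 [1, 4, 6, 7, 8]))
  (.spl 4 6 (.con (.c6 0 1 6 4 3 2))
  (.spl 4 7 (.con (.c6 0 2 1 5 7 4))
  (.col [0, 2, 3, 1, 5, 6, 7, 4] [.save 3 4, .save 5 7, .save 1 2, .save 0 2, .save 7 6, .col 2, .col 4, .col 6])))))))))))))))))))))

lemma c2adj4_ok : c2adj4.chk [(0, 4), (2, 5), (3, 4), (1, 5), (5, 4), (6, 4), (7, 4), (4, 4)] []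
    (mk [(0, 1), (0, 2), (0, 3), (0, 4), (1, 2), (2, 3), (3, 4), (5, 1), (5, 6), (5, 7), (5, 8), (1, 6), (6, 7), (7, 8), (8, 1)])
    (mk [(1, 4)]) (mk [(1, 3), (2, 4), (1, 4), (1, 7), (6, 8), (0, 6), (0, 8), (5, 2)]) = true := by
  decide +kernel

def c2adjadj : Cert :=
  (.dis 0 7 (.k4 0 1 5 6)
  (.dis 0 11 (.k4 0 4 9 10)
  (.dis 1 9 (.an 1 4)
  (.dis 1 10 (.an 1 4)
  (.dis 1 12 (.an 1 4)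
  (.dis 2 7 (.k4 1 2 5 6)
  (.dis 2 9 (.ov 9 [0, 1, 4, 10, 12])
  (.dis 2 10 (.k4 0 2 3 4)
  (.dis 2 12 (.k4 0 2 3 4)
  (.dis 3 5 (.ov 3 [0, 1, 6, 7, 8])
  (.dis 3 6 (.k4 0 1 2 3)
  (.dis 3 8 (.k4 0 1 2 3)
  (.dis 3 11 (.ov 3 [0, 2, 4, 10, 12])
  (.dis 4 5 (.an 1 4)
  (.dis 4 6 (.an 1 4)
  (.dis 4 8 (.an 1 4)
  (.dis 5 10 (.c6 0 1 5 4 3 2)
  (.dis 5 11 (.c6 0 2 1 5 10 4)
  (.dis 5 12 (.c6 0 1 5 4 3 2)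
  (.dis 6 9 (.ov 6 [1, 4, 5, 10, 12])
  (.dis 6 10 (.c6 0 1 6 4 3 2)
  (.dis 6 12 (.c6 0 1 6 4 3 2)
  (.dis 7 9 (.ov 7 [4, 5, 6, 10, 12])
  (.dis 8 9 (.ov 9 [1, 4, 5, 10, 12])
  (.dis 8 10 (.c6 0 1 8 4 3 2)
  (.spl 1 3 (.con (.k4 0 1 2 3))
  (.spl 1 7 (.con (.k4 1 5 6 7))
  (.spl 2 4 (.con (.k4 0 2 3 4))
  (.spl 2 6 (.con (.c6 0 1 6 2 3 4))
  (.spl 4 11 (.con (.k4 4 9 10 11))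
  (.dis 0 5 (.ov 0 [1, 3, 4, 6, 8])
  (.dis 0 9 (.ov 0 [1, 2, 4, 10, 12])
  (.dis 1 11 (.ov 11 [0, 2, 5, 10, 12])
  (.dis 2 6 (.c6 0 1 5 2 3 4)
  (.dis 2 8 (.c6 0 1 5 2 3 4)
  (.dis 2 11 (.ov 11 [0, 1, 9, 10, 12])
  (.dis 3 7 (.ov 3 [0, 2, 4, 5, 6])
  (.dis 3 10 (.ov 3 [0, 2, 4, 9, 11])
  (.dis 3 12 (.ov 3 [0, 2, 4, 9, 11])
  (.dis 4 7 (.ov 7 [0, 3, 5, 6, 8])
  (.dis 5 9 (.ov 5 [1, 4, 6, 7, 8])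
  (.dis 6 11 (.ov 6 [1, 5, 9, 10, 12])
  (.dis 7 10 (.ov 7 [4, 5, 6, 8, 9])
  (.dis 7 11 (.ov 7 [5, 6, 8, 9, 10])
  (.dis 7 12 (.ov 7 [4, 5, 6, 8, 9])
  (.dis 8 11 (.ov 11 [1, 5, 7, 9, 10])
  (.spl 0 7 (.con (.ov 0 [1, 2, 3, 4, 7]))
  (.spl 0 11 (.con (.ov 0 [1, 2, 3, 4, 11]))
  (.spl 1 9 (.con (.ov 1 [0, 2, 5, 6, 8, 9]))
  (.spl 1 10 (.con (.ov 1 [0, 2, 5, 6, 8, 10]))
  (.spl 1 11 (.con (.ov 1 [0, 2, 5, 6, 8, 11]))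
  (.spl 2 5 (.con (.ov 5 [1, 2, 6, 7, 8]))
  (.spl 2 7 (.con (.c6 0 3 2 7 5 1))
  (.spl 2 9 (.con (.ov 9 [2, 4, 10, 11, 12]))
  (.spl 2 10 (.con (.c6 0 1 2 10 4 3))
  (.spl 2 11 (.con (.c6 0 1 2 11 9 4))
  (.spl 3 7 (.con (.c6 0 2 1 5 7 3))
  (.spl 3 11 (.con (.c6 0 2 3 11 9 4))
  (.spl 4 5 (.con (.ov 4 [0, 3, 5, 9, 10, 12]))
  (.spl 4 6 (.con (.ov 4 [0, 3, 6, 9, 10, 12]))
  (.spl 4 7 (.con (.ov 4 [0, 3, 7, 9, 10, 12]))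
  (.spl 6 10 (.con (.c6 0 2 1 6 10 4))
  (.spl 7 9 (.con (.ov 9 [4, 7, 10, 11, 12]))
  (.spl 6 11 (.spl 7 10 (.con (.c6 5 1 6 11 10 7))
  (.spl 7 11 (.con (.ov 11 [6, 7, 9, 10, 12]))
  (.col [0, 2, 3, 1, 5, 6, 7, 4, 9, 10, 11] [.save 0 1, .save 3 2, .save 5 7, .save 1 2, .save 9 4, .save 10 4, .save 6 11, .col 2, .col 4, .col 7, .col 11])))
  (.spl 7 10 (.spl 7 11 (.con (.ov 7 [5, 6, 8, 10, 11]))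
  (.col [0, 2, 3, 1, 5, 6, 7, 4, 9, 10, 11] [.save 0 1, .save 3 2, .save 9 4, .col 2, .save 5 1, .col 4, .save 10 11, .save 6 7, .col 1, .col 7, .col 11]))
  (.spl 7 11 (.col [0, 2, 3, 1, 5, 6, 7, 4, 9, 10, 11] [.save 0 1, .save 3 2, .save 9 4, .save 10 4, .col 2, .save 5 1, .save 7 11, .save 1 6, .col 4, .col 6, .col 11])
  (.col [0, 2, 3, 1, 5, 6, 7, 4, 9, 10, 11] [.save 5 7, .save 9 11, .save 3 4, .save 1 2, .save 0 2, .save 7 6, .save 10 4, .col 2, .col 4, .col 6, .col 11])))))))))))))))))))))))))))))))))))))))))))))))))))))))))))))))))))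

lemma c2adjadj_ok : c2adjadj.chk [(0, 4), (2, 5), (3, 4), (1, 5), (5, 4), (6, 4), (7, 4), (4, 5), (9, 4), (10, 4), (11, 4)] []
    (mk [(0, 1), (0, 2), (0, 3), (0, 4), (1, 2), (2, 3), (3, 4), (5, 1), (5, 6), (5, 7), (5, 8), (1, 6), (6, 7), (7, 8), (8, 1), (9, 4), (9, 10), (9, 11), (9, 12), (4, 10), (10, 11), (11, 12), (12, 4)])
    (mk [(1, 4)]) (mk [(1, 3), (2, 4), (1, 4), (1, 7), (6, 8), (0, 6), (0, 8), (5, 2), (4, 11), (10, 12), (0, 10), (0, 12), (9, 3)]) = true := by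
  decide +kernel

def c2adjopp : Cert :=
  (.dis 0 7 (.k4 0 1 5 6)
  (.dis 0 11 (.k4 0 4 9 10)
  (.dis 1 9 (.an 1 4)
  (.dis 1 10 (.an 1 4)
  (.dis 1 12 (.an 1 4)
  (.dis 2 7 (.k4 1 2 5 6)
  (.dis 2 9 (.ov 9 [0, 1, 4, 10, 12])
  (.dis 2 10 (.k4 0 2 3 4)
  (.dis 2 12 (.k4 0 2 3 4)
  (.dis 3 5 (.ov 3 [0, 1, 6, 7, 8])
  (.dis 3 6 (.k4 0 1 2 3)
  (.dis 3 8 (.k4 0 1 2 3)
  (.dis 4 5 (.an 1 4)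
  (.dis 4 6 (.an 1 4)
  (.dis 4 8 (.an 1 4)
  (.dis 5 10 (.c6 0 1 5 4 3 2)
  (.dis 5 12 (.c6 0 1 5 4 3 2)
  (.dis 6 9 (.ov 6 [1, 4, 5, 10, 12])
  (.dis 6 10 (.c6 0 1 6 4 3 2)
  (.dis 6 12 (.c6 0 1 6 4 3 2)
  (.dis 7 9 (.ov 7 [4, 5, 6, 10, 12])
  (.dis 8 9 (.ov 9 [1, 4, 5, 10, 12])
  (.dis 8 10 (.c6 0 1 8 4 3 2)
  (.dis 8 12 (.c6 0 1 8 4 3 2)
  (.spl 1 3 (.con (.k4 0 1 2 3))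
  (.spl 1 7 (.con (.k4 1 5 6 7))
  (.spl 2 4 (.con (.k4 0 2 3 4))
  (.spl 2 6 (.con (.c6 0 1 6 2 3 4))
  (.spl 3 10 (.con (.c6 0 1 2 3 10 4))
  (.spl 10 12 (.con (.k4 4 9 10 12))
  (.dis 0 5 (.ov 0 [1, 3, 4, 6, 8])
  (.dis 0 9 (.ov 0 [1, 2, 4, 10, 12])
  (.dis 2 6 (.c6 0 1 5 2 3 4)
  (.dis 2 8 (.c6 0 1 5 2 3 4)
  (.dis 2 11 (.c6 0 1 2 9 4 3)
  (.dis 3 7 (.ov 3 [0, 2, 4, 5, 6])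
  (.dis 3 10 (.ov 3 [0, 2, 4, 9, 11])
  (.dis 3 12 (.ov 3 [0, 2, 4, 9, 11])
  (.dis 4 7 (.ov 7 [0, 3, 5, 6, 8])
  (.dis 5 9 (.ov 5 [1, 4, 6, 7, 8])
  (.dis 7 10 (.ov 7 [4, 5, 6, 8, 9])
  (.dis 7 12 (.ov 7 [4, 5, 6, 8, 9])
  (.spl 0 7 (.con (.ov 0 [1, 2, 3, 4, 7]))
  (.spl 0 10 (.con (.ov 0 [1, 2, 3, 4, 10]))
  (.spl 1 9 (.con (.ov 1 [0, 2, 5, 6, 8, 9]))
  (.spl 1 10 (.con (.ov 1 [0, 2, 5, 6, 8, 10]))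
  (.spl 1 12 (.con (.ov 1 [0, 2, 5, 6, 8, 12]))
  (.spl 2 5 (.con (.ov 5 [1, 2, 6, 7, 8]))
  (.spl 2 7 (.con (.c6 0 3 2 7 5 1))
  (.spl 2 9 (.con (.ov 9 [2, 4, 10, 11, 12]))
  (.spl 2 10 (.con (.c6 0 1 2 10 4 3))
  (.spl 2 12 (.con (.c6 0 1 2 12 4 3))
  (.spl 4 5 (.con (.ov 4 [0, 3, 5, 9, 10, 12]))
  (.spl 4 6 (.con (.ov 4 [0, 3, 6, 9, 10, 12]))
  (.spl 4 7 (.con (.ov 4 [0, 3, 7, 9, 10, 12]))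
  (.spl 5 10 (.con (.ov 5 [1, 6, 7, 8, 10]))
  (.spl 5 12 (.con (.ov 5 [1, 6, 7, 8, 12]))
  (.spl 6 10 (.con (.c6 0 2 1 6 10 4))
  (.spl 6 12 (.con (.c6 0 2 1 6 12 4))
  (.spl 7 10 (.spl 7 12 (.con (.ov 7 [5, 6, 8, 10, 12]))
  (.col [0, 2, 3, 1, 5, 6, 7, 4, 9, 10, 12] [.save 0 1, .save 3 2, .save 9 4, .save 4 12, .col 2, .save 5 1, .save 7 10, .save 1 6, .col 6, .col 10, .col 12]))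
  (.col [0, 2, 3, 1, 5, 6, 7, 4, 9, 10, 12] [.save 9 10, .col 12, .save 3 4, .save 5 7, .save 1 2, .save 0 2, .save 7 6, .save 10 4, .col 2, .col 4, .col 6])))))))))))))))))))))))))))))))))))))))))))))))))))))))))))))

lemma c2adjopp_ok : c2adjopp.chk [(0, 4), (2, 5), (3, 4), (1, 5), (5, 4), (6, 4), (7, 4), (4, 5), (9, 4), (10, 4), (12, 4)] []
    (mk [(0, 1), (0, 2), (0, 3), (0, 4), (1, 2), (2, 3), (3, 4), (5, 1), (5, 6), (5, 7), (5, 8), (1, 6), (6, 7), (7, 8), (8, 1), (9, 4), (9, 10), (9, 11), (9, 12), (4, 10), (10, 11), (11, 12), (12, 4)])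
    (mk [(1, 4)]) (mk [(1, 3), (2, 4), (1, 4), (1, 7), (6, 8), (0, 6), (0, 8), (5, 2), (4, 11), (10, 12), (0, 10), (0, 12), (9, 3)]) = true := by
  decide +kernel

def c2adjB : Cert :=
  (.dis 0 7 (.k4 0 1 5 6)
  (.dis 0 11 (.k4 0 4 9 10)
  (.dis 1 9 (.an 1 4)
  (.dis 1 10 (.an 1 4)
  (.dis 1 12 (.an 1 4)
  (.dis 2 7 (.k4 1 2 5 6)
  (.dis 2 9 (.ov 9 [0, 1, 4, 10, 12])
  (.dis 2 10 (.k4 0 2 3 4)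
  (.dis 2 12 (.k4 0 2 3 4)
  (.dis 3 5 (.ov 3 [0, 1, 6, 7, 8])
  (.dis 3 6 (.k4 0 1 2 3)
  (.dis 3 8 (.k4 0 1 2 3)
  (.dis 3 11 (.ov 3 [0, 2, 4, 10, 12])
  (.dis 4 5 (.an 1 4)
  (.dis 4 6 (.an 1 4)
  (.dis 4 8 (.an 1 4)
  (.dis 5 10 (.c6 0 1 5 4 3 2)
  (.dis 5 11 (.c6 0 2 1 5 10 4)
  (.dis 5 12 (.c6 0 1 5 4 3 2)
  (.dis 6 9 (.ov 6 [1, 4, 5, 10, 12])
  (.dis 6 10 (.c6 0 1 6 4 3 2)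
  (.dis 6 12 (.c6 0 1 6 4 3 2)
  (.dis 7 9 (.ov 7 [4, 5, 6, 10, 12])
  (.dis 8 9 (.ov 9 [1, 4, 5, 10, 12])
  (.dis 8 10 (.c6 0 1 8 4 3 2)
  (.dis 8 12 (.c6 0 1 8 4 3 2)
  (.spl 0 9 (.con (.ov 0 [1, 2, 3, 4, 9]))
  (.spl 1 3 (.con (.k4 0 1 2 3))
  (.spl 1 7 (.con (.k4 1 5 6 7))
  (.spl 2 4 (.con (.k4 0 2 3 4))
  (.spl 2 6 (.con (.c6 0 1 6 2 3 4))
  (.spl 3 10 (.con (.c6 0 1 2 3 10 4))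
  (.spl 3 12 (.con (.c6 0 1 2 3 12 4))
  (.spl 4 11 (.con (.k4 4 9 10 11))
  (.spl 5 9 (.con (.ov 5 [1, 6, 7, 8, 9]))
  (.spl 10 12 (.con (.k4 4 9 10 12))
  (.dis 0 5 (.ov 0 [1, 3, 4, 6, 8])
  (.dis 0 9 (.ov 0 [1, 2, 4, 10, 12])
  (.dis 1 11 (.ov 11 [0, 2, 5, 10, 12])
  (.dis 2 6 (.c6 0 1 5 2 3 4)
  (.dis 2 8 (.c6 0 1 5 2 3 4)
  (.dis 2 11 (.ov 11 [0, 1, 9, 10, 12])
  (.dis 3 7 (.ov 3 [0, 2, 4, 5, 6])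
  (.dis 3 10 (.ov 3 [0, 2, 4, 9, 11])
  (.dis 3 12 (.ov 3 [0, 2, 4, 9, 11])
  (.dis 4 7 (.ov 7 [0, 3, 5, 6, 8])
  (.dis 5 9 (.ov 5 [1, 4, 6, 7, 8])
  (.dis 6 11 (.ov 6 [1, 5, 9, 10, 12])
  (.dis 7 10 (.ov 7 [4, 5, 6, 8, 9])
  (.dis 7 11 (.ov 7 [5, 6, 8, 9, 10])
  (.dis 7 12 (.ov 7 [4, 5, 6, 8, 9])
  (.dis 8 11 (.ov 11 [1, 5, 7, 9, 10])
  (.spl 0 7 (.con (.ov 0 [1, 2, 3, 4, 7]))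
  (.spl 0 10 (.con (.ov 0 [1, 2, 3, 4, 10]))
  (.spl 0 11 (.con (.ov 0 [1, 2, 3, 4, 11]))
  (.spl 0 12 (.con (.ov 0 [1, 2, 3, 4, 12]))
  (.spl 1 9 (.con (.ov 1 [0, 2, 5, 6, 8, 9]))
  (.spl 1 10 (.con (.ov 1 [0, 2, 5, 6, 8, 10]))
  (.spl 1 11 (.con (.ov 1 [0, 2, 5, 6, 8, 11]))
  (.spl 1 12 (.con (.ov 1 [0, 2, 5, 6, 8, 12]))
  (.spl 2 5 (.con (.ov 5 [1, 2, 6, 7, 8]))
  (.spl 2 7 (.con (.c6 0 3 2 7 5 1))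
  (.spl 2 9 (.con (.ov 9 [2, 4, 10, 11, 12]))
  (.spl 2 10 (.con (.c6 0 1 2 10 4 3))
  (.spl 2 11 (.con (.c6 0 1 2 11 9 4))
  (.spl 2 12 (.con (.c6 0 1 2 12 4 3))
  (.spl 3 9 (.con (.ov 9 [3, 4, 10, 11, 12]))
  (.spl 3 11 (.con (.c6 0 2 3 11 9 4))
  (.spl 4 5 (.con (.ov 4 [0, 3, 5, 9, 10, 12]))
  (.spl 4 6 (.con (.ov 4 [0, 3, 6, 9, 10, 12]))
  (.spl 4 7 (.con (.ov 4 [0, 3, 7, 9, 10, 12]))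
  (.spl 5 10 (.con (.ov 5 [1, 6, 7, 8, 10]))
  (.spl 5 11 (.con (.ov 5 [1, 6, 7, 8, 11]))
  (.spl 5 12 (.con (.ov 5 [1, 6, 7, 8, 12]))
  (.spl 6 9 (.con (.ov 9 [4, 6, 10, 11, 12]))
  (.spl 6 10 (.con (.c6 0 2 1 6 10 4))
  (.spl 6 12 (.con (.c6 0 2 1 6 12 4))
  (.spl 7 9 (.con (.ov 9 [4, 7, 10, 11, 12]))
  (.spl 8 10 (.con (.c6 0 2 1 8 10 4))
  (.spl 8 12 (.con (.c6 0 2 1 8 12 4))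
  (.spl 7 10 (.con (.atr 10 7 [5, 6, 8]))
  (.spl 7 12 (.con (.atr 12 7 [5, 6, 8]))
  (.spl 6 11 (.spl 7 11 (.con (.ov 11 [6, 7, 9, 10, 12]))
  (.col [0, 2, 3, 1, 5, 6, 7, 4, 9, 10, 11, 12] [.save 0 1, .save 3 2, .save 5 7, .save 1 2, .col 2, .col 4, .col 10, .save 9 12, .save 11 12, .save 7 6, .col 6, .col 12]))
  (.spl 7 11 (.col [0, 2, 3, 1, 5, 6, 7, 4, 9, 10, 11, 12] [.save 0 1, .save 3 2, .col 2, .save 5 1, .col 4, .col 10, .save 9 12, .save 11 12, .save 6 7, .col 1, .col 7, .col 12])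
  (.col [0, 2, 3, 1, 5, 6, 7, 4, 9, 10, 11, 12] [.abs 4 9 10 11 12, .save 3 4, .save 5 7, .save 1 2, .save 0 2, .save 7 6, .col 2, .col 4, .col 6])))))))))))))))))))))))))))))))))))))))))))))))))))))))))))))))))))))))))))))))))))))

lemma c2adjB_ok : c2adjB.chk [(0, 4), (2, 5), (3, 4), (1, 5), (5, 4), (6, 4), (7, 4), (4, 5), (9, 4), (11, 4), (10, 5), (12, 5)] [10, 12]
    (mk [(0, 1), (0, 2), (0, 3), (0, 4), (1, 2), (2, 3), (3, 4), (5, 1), (5, 6), (5, 7), (5, 8), (1, 6), (6, 7), (7, 8), (8, 1), (9, 4), (9, 10), (9, 11), (9, 12), (4, 10), (10, 11), (11, 12), (12, 4)])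
    (mk [(1, 4)]) (mk [(1, 3), (2, 4), (1, 4), (1, 7), (6, 8), (0, 6), (0, 8), (5, 2), (4, 11), (10, 12), (0, 10), (0, 12), (9, 3)]) = true := by
  decide +kernel

def c2opp4 : Cert :=
  (.dis 0 7 (.k4 0 1 5 6)
  (.dis 3 5 (.ov 3 [0, 1, 6, 7, 8])
  (.dis 3 6 (.k4 0 1 2 3)
  (.dis 3 8 (.k4 0 1 2 3)
  (.dis 4 5 (.an 1 4)
  (.dis 4 6 (.an 1 4)
  (.dis 4 8 (.an 1 4)
  (.spl 2 4 (.con (.k4 0 2 3 4))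
  (.spl 2 6 (.con (.c6 0 1 6 2 3 4))
  (.spl 6 8 (.con (.k4 1 5 6 8))
  (.dis 0 5 (.ov 0 [1, 3, 4, 6, 8])
  (.dis 2 6 (.c6 0 1 5 2 3 4)
  (.dis 2 8 (.c6 0 1 5 2 3 4)
  (.dis 4 7 (.ov 4 [0, 3, 5, 6, 8])
  (.spl 0 6 (.con (.ov 0 [1, 2, 3, 4, 6]))
  (.spl 0 8 (.con (.ov 0 [1, 2, 3, 4, 8]))
  (.spl 4 5 (.con (.ov 5 [1, 4, 6, 7, 8]))
  (.spl 4 6 (.con (.c6 0 1 6 4 3 2))
  (.spl 4 8 (.con (.c6 0 1 8 4 3 2))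
  (.col [0, 2, 3, 1, 5, 6, 8, 4] [.save 3 4, .save 5 6, .col 2, .save 1 8, .save 4 0, .col 0, .col 6, .col 8]))))))))))))))))))))

lemma c2opp4_ok : c2opp4.chk [(0, 4), (2, 5), (3, 4), (1, 5), (5, 4), (6, 4), (8, 4), (4, 4)] []
    (mk [(0, 1), (0, 2), (0, 3), (0, 4), (1, 2), (2, 3), (3, 4), (5, 1), (5, 6), (5, 7), (5, 8), (1, 6), (6, 7), (7, 8), (8, 1)])
    (mk [(1, 4)]) (mk [(1, 3), (2, 4), (1, 4), (1, 7), (6, 8), (0, 6), (0, 8), (5, 2)]) = true := by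
  decide +kernel

def c2oppadj : Cert :=
  (.dis 0 7 (.k4 0 1 5 6)
  (.dis 0 11 (.k4 0 4 9 10)
  (.dis 1 9 (.an 1 4)
  (.dis 1 10 (.an 1 4)
  (.dis 1 12 (.an 1 4)
  (.dis 2 7 (.k4 1 2 5 6)
  (.dis 2 9 (.ov 9 [0, 1, 4, 10, 12])
  (.dis 2 10 (.k4 0 2 3 4)
  (.dis 2 12 (.k4 0 2 3 4)
  (.dis 3 5 (.ov 3 [0, 1, 6, 7, 8])
  (.dis 3 6 (.k4 0 1 2 3)
  (.dis 3 8 (.k4 0 1 2 3)
  (.dis 3 11 (.ov 3 [0, 2, 4, 10, 12])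
  (.dis 4 5 (.an 1 4)
  (.dis 4 6 (.an 1 4)
  (.dis 4 8 (.an 1 4)
  (.dis 5 10 (.c6 0 1 5 4 3 2)
  (.dis 5 11 (.c6 0 2 1 5 10 4)
  (.dis 5 12 (.c6 0 1 5 4 3 2)
  (.dis 6 9 (.ov 6 [1, 4, 5, 10, 12])
  (.dis 6 10 (.c6 0 1 6 4 3 2)
  (.dis 6 12 (.c6 0 1 6 4 3 2)
  (.dis 7 9 (.ov 9 [4, 5, 6, 10, 12])
  (.dis 8 9 (.ov 8 [1, 4, 5, 10, 12])
  (.dis 8 10 (.c6 0 1 8 4 3 2)
  (.dis 8 12 (.c6 0 1 8 4 3 2)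
  (.spl 2 4 (.con (.k4 0 2 3 4))
  (.spl 2 6 (.con (.c6 0 1 6 2 3 4))
  (.spl 2 8 (.con (.c6 0 1 8 2 3 4))
  (.spl 3 10 (.con (.c6 0 1 2 3 10 4))
  (.spl 4 11 (.con (.k4 4 9 10 11))
  (.spl 6 8 (.con (.k4 1 5 6 8))
  (.dis 0 5 (.ov 0 [1, 3, 4, 6, 8])
  (.dis 0 9 (.ov 0 [1, 2, 4, 10, 12])
  (.dis 1 11 (.ov 11 [0, 2, 5, 10, 12])
  (.dis 2 6 (.c6 0 1 5 2 3 4)
  (.dis 2 8 (.c6 0 1 5 2 3 4)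
  (.dis 2 11 (.ov 11 [0, 1, 9, 10, 12])
  (.dis 3 10 (.ov 3 [0, 2, 4, 9, 11])
  (.dis 3 12 (.ov 3 [0, 2, 4, 9, 11])
  (.dis 4 7 (.ov 4 [0, 3, 5, 6, 8, 10])
  (.dis 5 9 (.ov 5 [1, 4, 6, 7, 8])
  (.dis 6 11 (.ov 6 [1, 5, 9, 10, 12])
  (.dis 7 10 (.ov 10 [4, 5, 6, 8, 9])
  (.dis 8 11 (.ov 8 [1, 5, 7, 9, 10])
  (.spl 0 6 (.con (.ov 0 [1, 2, 3, 4, 6]))
  (.spl 0 11 (.con (.ov 0 [1, 2, 3, 4, 11]))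
  (.spl 1 11 (.con (.ov 1 [0, 2, 5, 6, 8, 11]))
  (.spl 2 5 (.con (.ov 5 [1, 2, 6, 7, 8]))
  (.spl 2 9 (.con (.ov 9 [2, 4, 10, 11, 12]))
  (.spl 2 10 (.con (.c6 0 1 2 10 4 3))
  (.spl 2 11 (.con (.c6 0 1 2 11 9 4))
  (.spl 3 6 (.con (.c6 0 2 1 5 6 3))
  (.spl 3 8 (.con (.c6 0 2 1 5 8 3))
  (.spl 3 11 (.con (.c6 0 2 3 11 9 4))
  (.spl 4 6 (.con (.ov 4 [0, 3, 6, 9, 10, 12]))
  (.spl 4 8 (.con (.ov 4 [0, 3, 8, 9, 10, 12]))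
  (.spl 6 9 (.con (.ov 9 [4, 6, 10, 11, 12]))
  (.spl 6 10 (.con (.c6 0 2 1 6 10 4))
  (.spl 8 9 (.con (.ov 9 [4, 8, 10, 11, 12]))
  (.spl 8 10 (.con (.c6 0 2 1 8 10 4))
  (.spl 6 11 (.spl 8 11 (.con (.ov 11 [6, 8, 9, 10, 12]))
  (.col [0, 2, 3, 1, 5, 6, 8, 4, 9, 10, 11] [.save 0 2, .save 1 2, .save 5 8, .save 9 4, .save 11 6, .save 4 10, .save 2 3, .col 3, .col 6, .col 8, .col 10]))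
  (.col [0, 2, 3, 1, 5, 6, 8, 4, 9, 10, 11] [.save 5 6, .col 8, .save 9 11, .save 3 4, .save 1 2, .save 0 2, .save 10 4, .col 2, .col 4, .col 6, .col 11])))))))))))))))))))))))))))))))))))))))))))))))))))))))))))))))

lemma c2oppadj_ok : c2oppadj.chk [(0, 4), (2, 5), (3, 4), (1, 5), (5, 4), (6, 4), (8, 4), (4, 5), (9, 4), (10, 4), (11, 4)] []
    (mk [(0, 1), (0, 2), (0, 3), (0, 4), (1, 2), (2, 3), (3, 4), (5, 1), (5, 6), (5, 7), (5, 8), (1, 6), (6, 7), (7, 8), (8, 1), (9, 4), (9, 10), (9, 11), (9, 12), (4, 10), (10, 11), (11, 12), (12, 4)])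
    (mk [(1, 4)]) (mk [(1, 3), (2, 4), (1, 4), (1, 7), (6, 8), (0, 6), (0, 8), (5, 2), (4, 11), (10, 12), (0, 10), (0, 12), (9, 3)]) = true := by
  decide +kernel

def c2oppopp : Cert :=
  (.dis 0 7 (.k4 0 1 5 6)
  (.dis 0 11 (.k4 0 4 9 10)
  (.dis 1 9 (.an 1 4)
  (.dis 1 10 (.an 1 4)
  (.dis 1 12 (.an 1 4)
  (.dis 2 9 (.ov 9 [0, 1, 4, 10, 12])
  (.dis 2 10 (.k4 0 2 3 4)
  (.dis 2 12 (.k4 0 2 3 4)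
  (.dis 3 5 (.ov 3 [0, 1, 6, 7, 8])
  (.dis 3 6 (.k4 0 1 2 3)
  (.dis 3 8 (.k4 0 1 2 3)
  (.dis 4 5 (.an 1 4)
  (.dis 4 6 (.an 1 4)
  (.dis 4 8 (.an 1 4)
  (.dis 5 10 (.c6 0 1 5 4 3 2)
  (.dis 5 12 (.c6 0 1 5 4 3 2)
  (.dis 6 9 (.ov 6 [1, 4, 5, 10, 12])
  (.dis 6 10 (.c6 0 1 6 4 3 2)
  (.dis 6 12 (.c6 0 1 6 4 3 2)
  (.dis 8 9 (.ov 8 [1, 4, 5, 10, 12])
  (.dis 8 10 (.c6 0 1 8 4 3 2)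
  (.dis 8 12 (.c6 0 1 8 4 3 2)
  (.spl 2 4 (.con (.k4 0 2 3 4))
  (.spl 2 6 (.con (.c6 0 1 6 2 3 4))
  (.spl 3 10 (.con (.c6 0 1 2 3 10 4))
  (.spl 6 8 (.con (.k4 1 5 6 8))
  (.spl 10 12 (.con (.k4 4 9 10 12))
  (.dis 0 5 (.ov 0 [1, 3, 4, 6, 8])
  (.dis 0 9 (.ov 0 [1, 2, 4, 10, 12])
  (.dis 2 6 (.c6 0 1 5 2 3 4)
  (.dis 2 8 (.c6 0 1 5 2 3 4)
  (.dis 2 11 (.c6 0 1 2 9 4 3)
  (.dis 3 10 (.ov 3 [0, 2, 4, 9, 11])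
  (.dis 3 12 (.ov 3 [0, 2, 4, 9, 11])
  (.dis 4 7 (.ov 4 [0, 3, 5, 6, 8, 10])
  (.dis 5 9 (.ov 5 [1, 4, 6, 7, 8])
  (.dis 6 11 (.ov 6 [1, 5, 9, 10, 12])
  (.spl 0 6 (.con (.ov 0 [1, 2, 3, 4, 6]))
  (.spl 0 10 (.con (.ov 0 [1, 2, 3, 4, 10]))
  (.spl 1 10 (.con (.ov 1 [0, 2, 5, 6, 8, 10]))
  (.spl 2 10 (.con (.c6 0 1 2 10 4 3))
  (.spl 3 6 (.con (.c6 0 2 1 5 6 3))
  (.spl 4 6 (.con (.ov 4 [0, 3, 6, 9, 10, 12]))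
  (.spl 6 9 (.con (.ov 9 [4, 6, 10, 11, 12]))
  (.spl 6 10 (.con (.c6 0 2 1 6 10 4))
  (.spl 6 12 (.con (.c6 0 2 1 6 12 4))
  (.spl 8 10 (.con (.c6 0 2 1 8 10 4))
  (.col [0, 2, 3, 1, 5, 6, 8, 4, 9, 10, 12] [.save 5 6, .save 9 10, .col 8, .col 12, .save 3 4, .save 1 2, .save 0 2, .save 10 4, .col 2, .col 4, .col 6]))))))))))))))))))))))))))))))))))))))))))))))))

lemma c2oppopp_ok : c2oppopp.chk [(0, 4), (2, 5), (3, 4), (1, 5), (5, 4), (6, 4), (8, 4), (4, 5), (9, 4), (10, 4), (12, 4)] []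
    (mk [(0, 1), (0, 2), (0, 3), (0, 4), (1, 2), (2, 3), (3, 4), (5, 1), (5, 6), (5, 7), (5, 8), (1, 6), (6, 7), (7, 8), (8, 1), (9, 4), (9, 10), (9, 11), (9, 12), (4, 10), (10, 11), (11, 12), (12, 4)])
    (mk [(1, 4)]) (mk [(1, 3), (2, 4), (1, 4), (1, 7), (6, 8), (0, 6), (0, 8), (5, 2), (4, 11), (10, 12), (0, 10), (0, 12), (9, 3)]) = true := by
  decide +kernel

def c2oppB : Cert :=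
  (.dis 0 7 (.k4 0 1 5 6)
  (.dis 0 11 (.k4 0 4 9 10)
  (.dis 1 9 (.an 1 4)
  (.dis 1 10 (.an 1 4)
  (.dis 1 12 (.an 1 4)
  (.dis 2 7 (.k4 1 2 5 6)
  (.dis 2 9 (.ov 9 [0, 1, 4, 10, 12])
  (.dis 2 10 (.k4 0 2 3 4)
  (.dis 2 12 (.k4 0 2 3 4)
  (.dis 3 5 (.ov 3 [0, 1, 6, 7, 8])
  (.dis 3 6 (.k4 0 1 2 3)
  (.dis 3 8 (.k4 0 1 2 3)
  (.dis 3 11 (.ov 3 [0, 2, 4, 10, 12])
  (.dis 4 5 (.an 1 4)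
  (.dis 4 6 (.an 1 4)
  (.dis 4 8 (.an 1 4)
  (.dis 5 10 (.c6 0 1 5 4 3 2)
  (.dis 5 11 (.c6 0 2 1 5 10 4)
  (.dis 5 12 (.c6 0 1 5 4 3 2)
  (.dis 6 9 (.ov 6 [1, 4, 5, 10, 12])
  (.dis 6 10 (.c6 0 1 6 4 3 2)
  (.dis 6 12 (.c6 0 1 6 4 3 2)
  (.dis 7 9 (.ov 9 [4, 5, 6, 10, 12])
  (.dis 8 9 (.ov 8 [1, 4, 5, 10, 12])
  (.dis 8 10 (.c6 0 1 8 4 3 2)
  (.dis 8 12 (.c6 0 1 8 4 3 2)
  (.spl 0 9 (.con (.ov 0 [1, 2, 3, 4, 9]))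
  (.spl 2 4 (.con (.k4 0 2 3 4))
  (.spl 2 6 (.con (.c6 0 1 6 2 3 4))
  (.spl 2 8 (.con (.c6 0 1 8 2 3 4))
  (.spl 3 10 (.con (.c6 0 1 2 3 10 4))
  (.spl 3 12 (.con (.c6 0 1 2 3 12 4))
  (.spl 4 11 (.con (.k4 4 9 10 11))
  (.spl 6 8 (.con (.k4 1 5 6 8))
  (.spl 10 12 (.con (.k4 4 9 10 12))
  (.dis 0 5 (.ov 0 [1, 3, 4, 6, 8])
  (.dis 0 9 (.ov 0 [1, 2, 4, 10, 12])
  (.dis 1 11 (.ov 11 [0, 2, 5, 10, 12])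
  (.dis 2 6 (.c6 0 1 5 2 3 4)
  (.dis 2 8 (.c6 0 1 5 2 3 4)
  (.dis 2 11 (.ov 11 [0, 1, 9, 10, 12])
  (.dis 3 10 (.ov 3 [0, 2, 4, 9, 11])
  (.dis 3 12 (.ov 3 [0, 2, 4, 9, 11])
  (.dis 4 7 (.ov 4 [0, 3, 5, 6, 8, 10])
  (.dis 5 9 (.ov 5 [1, 4, 6, 7, 8])
  (.dis 6 11 (.ov 6 [1, 5, 9, 10, 12])
  (.dis 7 10 (.c6 0 2 1 5 7 4)
  (.dis 8 11 (.ov 8 [1, 5, 7, 9, 10])
  (.spl 0 6 (.con (.ov 0 [1, 2, 3, 4, 6]))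
  (.spl 0 10 (.con (.ov 0 [1, 2, 3, 4, 10]))
  (.spl 0 11 (.con (.ov 0 [1, 2, 3, 4, 11]))
  (.spl 0 12 (.con (.ov 0 [1, 2, 3, 4, 12]))
  (.spl 1 9 (.con (.ov 1 [0, 2, 5, 6, 8, 9]))
  (.spl 1 10 (.con (.ov 1 [0, 2, 5, 6, 8, 10]))
  (.spl 1 11 (.con (.ov 1 [0, 2, 5, 6, 8, 11]))
  (.spl 1 12 (.con (.ov 1 [0, 2, 5, 6, 8, 12]))
  (.spl 2 5 (.con (.ov 5 [1, 2, 6, 7, 8]))
  (.spl 2 9 (.con (.ov 9 [2, 4, 10, 11, 12]))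
  (.spl 2 10 (.con (.c6 0 1 2 10 4 3))
  (.spl 2 11 (.con (.c6 0 1 2 11 9 4))
  (.spl 2 12 (.con (.c6 0 1 2 12 4 3))
  (.spl 3 6 (.con (.c6 0 2 1 5 6 3))
  (.spl 3 8 (.con (.c6 0 2 1 5 8 3))
  (.spl 3 9 (.con (.ov 9 [3, 4, 10, 11, 12]))
  (.spl 3 11 (.con (.c6 0 2 3 11 9 4))
  (.spl 4 6 (.con (.ov 4 [0, 3, 6, 9, 10, 12]))
  (.spl 4 8 (.con (.ov 4 [0, 3, 8, 9, 10, 12]))
  (.spl 6 9 (.con (.ov 9 [4, 6, 10, 11, 12]))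
  (.spl 6 10 (.con (.c6 0 2 1 6 10 4))
  (.spl 6 12 (.con (.c6 0 2 1 6 12 4))
  (.spl 8 9 (.con (.ov 9 [4, 8, 10, 11, 12]))
  (.spl 8 10 (.con (.c6 0 2 1 8 10 4))
  (.spl 8 12 (.con (.c6 0 2 1 8 12 4))
  (.spl 6 11 (.spl 8 11 (.con (.ov 11 [6, 8, 9, 10, 12]))
  (.col [0, 2, 3, 1, 5, 6, 8, 4, 9, 10, 11, 12] [.save 0 2, .save 1 2, .save 5 8, .col 6, .abs 4 9 10 11 12, .save 3 4, .col 2, .col 4, .col 8]))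
  (.col [0, 2, 3, 1, 5, 6, 8, 4, 9, 10, 11, 12] [.save 5 6, .col 8, .abs 4 9 10 11 12, .save 3 4, .save 1 2, .save 0 2, .col 2, .col 4, .col 6])))))))))))))))))))))))))))))))))))))))))))))))))))))))))))))))))))))))))))

lemma c2oppB_ok : c2oppB.chk [(0, 4), (2, 5), (3, 4), (1, 5), (5, 4), (6, 4), (8, 4), (4, 5), (9, 4), (11, 4), (10, 5), (12, 5)] [10, 12]
    (mk [(0, 1), (0, 2), (0, 3), (0, 4), (1, 2), (2, 3), (3, 4), (5, 1), (5, 6), (5, 7), (5, 8), (1, 6), (6, 7), (7, 8), (8, 1), (9, 4), (9, 10), (9, 11), (9, 12), (4, 10), (10, 11), (11, 12), (12, 4)])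
    (mk [(1, 4)]) (mk [(1, 3), (2, 4), (1, 4), (1, 7), (6, 8), (0, 6), (0, 8), (5, 2), (4, 11), (10, 12), (0, 10), (0, 12), (9, 3)]) = true := by
  decide +kernel

def c2B4 : Cert :=
  (.dis 0 7 (.k4 0 1 5 6)
  (.dis 2 7 (.k4 1 2 5 6)
  (.dis 3 5 (.ov 3 [0, 1, 6, 7, 8])
  (.dis 3 6 (.k4 0 1 2 3)
  (.dis 3 8 (.k4 0 1 2 3)
  (.dis 4 5 (.an 1 4)
  (.dis 4 6 (.an 1 4)
  (.dis 4 8 (.an 1 4)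
  (.spl 0 5 (.con (.ov 0 [1, 2, 3, 4, 5]))
  (.spl 1 7 (.con (.k4 1 5 6 7))
  (.spl 2 4 (.con (.k4 0 2 3 4))
  (.spl 2 6 (.con (.c6 0 1 6 2 3 4))
  (.spl 2 8 (.con (.c6 0 1 8 2 3 4))
  (.spl 6 8 (.con (.k4 1 5 6 8))
  (.dis 0 5 (.ov 0 [1, 3, 4, 6, 8])
  (.dis 2 6 (.c6 0 1 5 2 3 4)
  (.dis 2 8 (.c6 0 1 5 2 3 4)
  (.dis 3 7 (.ov 3 [0, 2, 4, 5, 6])
  (.dis 4 7 (.ov 4 [0, 3, 5, 6, 8])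
  (.spl 0 6 (.con (.ov 0 [1, 2, 3, 4, 6]))
  (.spl 0 7 (.con (.ov 0 [1, 2, 3, 4, 7]))
  (.spl 0 8 (.con (.ov 0 [1, 2, 3, 4, 8]))
  (.spl 2 5 (.con (.ov 5 [1, 2, 6, 7, 8]))
  (.spl 2 7 (.con (.c6 0 3 2 7 5 1))
  (.spl 3 5 (.con (.ov 5 [1, 3, 6, 7, 8]))
  (.spl 3 6 (.con (.c6 0 2 1 5 6 3))
  (.spl 3 7 (.con (.c6 0 2 1 5 7 3))
  (.spl 3 8 (.con (.c6 0 2 1 5 8 3))
  (.spl 4 5 (.con (.ov 5 [1, 4, 6, 7, 8]))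
  (.spl 4 6 (.con (.c6 0 1 6 4 3 2))
  (.spl 4 7 (.con (.c6 0 2 1 5 7 4))
  (.spl 4 8 (.con (.c6 0 1 8 4 3 2))
  (.col [0, 2, 3, 1, 5, 6, 7, 8, 4] [.abs 1 5 6 7 8, .save 3 4, .save 1 2, .save 0 2, .col 2, .col 4])))))))))))))))))))))))))))))))))

lemma c2B4_ok : c2B4.chk [(0, 4), (2, 5), (3, 4), (1, 5), (5, 4), (7, 4), (6, 5), (8, 5), (4, 4)] [6, 8]
    (mk [(0, 1), (0, 2), (0, 3), (0, 4), (1, 2), (2, 3), (3, 4), (5, 1), (5, 6), (5, 7), (5, 8), (1, 6), (6, 7), (7, 8), (8, 1)])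
    (mk [(1, 4)]) (mk [(1, 3), (2, 4), (1, 4), (1, 7), (6, 8), (0, 6), (0, 8), (5, 2)]) = true := by
  decide +kernel

def c2Badj : Cert :=
  (.dis 0 7 (.k4 0 1 5 6)
  (.dis 0 11 (.k4 0 4 9 10)
  (.dis 1 9 (.an 1 4)
  (.dis 1 10 (.an 1 4)
  (.dis 1 12 (.an 1 4)
  (.dis 2 7 (.k4 1 2 5 6)
  (.dis 2 9 (.ov 9 [0, 1, 4, 10, 12])
  (.dis 2 10 (.k4 0 2 3 4)
  (.dis 2 12 (.k4 0 2 3 4)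
  (.dis 3 5 (.ov 3 [0, 1, 6, 7, 8])
  (.dis 3 6 (.k4 0 1 2 3)
  (.dis 3 8 (.k4 0 1 2 3)
  (.dis 3 11 (.ov 3 [0, 2, 4, 10, 12])
  (.dis 4 5 (.an 1 4)
  (.dis 4 6 (.an 1 4)
  (.dis 4 8 (.an 1 4)
  (.dis 5 10 (.c6 0 1 5 4 3 2)
  (.dis 5 11 (.c6 0 2 1 5 10 4)
  (.dis 5 12 (.c6 0 1 5 4 3 2)
  (.dis 6 9 (.ov 9 [1, 4, 5, 10, 12])
  (.dis 6 10 (.c6 0 1 6 4 3 2)
  (.dis 6 12 (.c6 0 1 6 4 3 2)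
  (.dis 7 9 (.ov 7 [4, 5, 6, 10, 12])
  (.dis 8 9 (.ov 9 [1, 4, 5, 10, 12])
  (.dis 8 10 (.c6 0 1 8 4 3 2)
  (.dis 8 12 (.c6 0 1 8 4 3 2)
  (.spl 0 5 (.con (.ov 0 [1, 2, 3, 4, 5]))
  (.spl 1 7 (.con (.k4 1 5 6 7))
  (.spl 2 4 (.con (.k4 0 2 3 4))
  (.spl 2 6 (.con (.c6 0 1 6 2 3 4))
  (.spl 2 8 (.con (.c6 0 1 8 2 3 4))
  (.spl 4 11 (.con (.k4 4 9 10 11))
  (.spl 5 9 (.con (.ov 5 [1, 6, 7, 8, 9]))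
  (.spl 6 8 (.con (.k4 1 5 6 8))
  (.dis 0 5 (.ov 0 [1, 3, 4, 6, 8])
  (.dis 0 9 (.ov 0 [1, 2, 4, 10, 12])
  (.dis 1 11 (.ov 11 [0, 2, 5, 10, 12])
  (.dis 2 6 (.c6 0 1 5 2 3 4)
  (.dis 2 8 (.c6 0 1 5 2 3 4)
  (.dis 2 11 (.ov 11 [0, 1, 9, 10, 12])
  (.dis 3 7 (.ov 3 [0, 2, 4, 5, 6])
  (.dis 3 10 (.ov 3 [0, 2, 4, 9, 11])
  (.dis 3 12 (.ov 3 [0, 2, 4, 9, 11])
  (.dis 4 7 (.ov 7 [0, 3, 5, 6, 8])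
  (.dis 5 9 (.ov 5 [1, 4, 6, 7, 8])
  (.dis 6 11 (.ov 11 [1, 5, 9, 10, 12])
  (.dis 7 10 (.ov 7 [4, 5, 6, 8, 9])
  (.dis 7 11 (.ov 7 [5, 6, 8, 9, 10])
  (.dis 7 12 (.ov 7 [4, 5, 6, 8, 9])
  (.dis 8 11 (.ov 11 [1, 5, 7, 9, 10])
  (.spl 0 6 (.con (.ov 0 [1, 2, 3, 4, 6]))
  (.spl 0 7 (.con (.ov 0 [1, 2, 3, 4, 7]))
  (.spl 0 8 (.con (.ov 0 [1, 2, 3, 4, 8]))
  (.spl 0 11 (.con (.ov 0 [1, 2, 3, 4, 11]))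
  (.spl 1 11 (.con (.ov 1 [0, 2, 5, 6, 8, 11]))
  (.spl 2 5 (.con (.ov 5 [1, 2, 6, 7, 8]))
  (.spl 2 7 (.con (.c6 0 3 2 7 5 1))
  (.spl 2 9 (.con (.ov 9 [2, 4, 10, 11, 12]))
  (.spl 2 10 (.con (.c6 0 1 2 10 4 3))
  (.spl 2 11 (.con (.c6 0 1 2 11 9 4))
  (.spl 3 5 (.con (.ov 5 [1, 3, 6, 7, 8]))
  (.spl 3 6 (.con (.c6 0 2 1 5 6 3))
  (.spl 3 7 (.con (.c6 0 2 1 5 7 3))
  (.spl 3 8 (.con (.c6 0 2 1 5 8 3))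
  (.spl 3 11 (.con (.c6 0 2 3 11 9 4))
  (.spl 4 5 (.con (.ov 4 [0, 3, 5, 9, 10, 12]))
  (.spl 4 6 (.con (.ov 4 [0, 3, 6, 9, 10, 12]))
  (.spl 4 7 (.con (.ov 4 [0, 3, 7, 9, 10, 12]))
  (.spl 4 8 (.con (.ov 4 [0, 3, 8, 9, 10, 12]))
  (.spl 5 10 (.con (.ov 5 [1, 6, 7, 8, 10]))
  (.spl 5 11 (.con (.ov 5 [1, 6, 7, 8, 11]))
  (.spl 6 9 (.con (.ov 9 [4, 6, 10, 11, 12]))
  (.spl 6 10 (.con (.c6 0 2 1 6 10 4))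
  (.spl 6 12 (.con (.c6 0 2 1 6 12 4))
  (.spl 7 9 (.con (.ov 9 [4, 7, 10, 11, 12]))
  (.spl 8 9 (.con (.ov 9 [4, 8, 10, 11, 12]))
  (.spl 8 10 (.con (.c6 0 2 1 8 10 4))
  (.spl 8 12 (.con (.c6 0 2 1 8 12 4))
  (.spl 6 11 (.con (.atr 6 11 [9, 10, 12]))
  (.spl 8 11 (.con (.atr 8 11 [9, 10, 12]))
  (.spl 7 10 (.col [0, 2, 3, 1, 5, 6, 7, 8, 4, 9, 10, 11] [.save 0 2, .save 1 2, .save 9 4, .col 6, .save 5 8, .save 7 8, .save 10 11, .save 3 4, .col 2, .col 4, .col 8, .col 11])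
  (.spl 7 11 (.col [0, 2, 3, 1, 5, 6, 7, 8, 4, 9, 10, 11] [.save 0 2, .save 1 2, .save 9 4, .col 6, .save 5 8, .save 7 8, .save 10 11, .save 3 4, .col 2, .col 4, .col 8, .col 11])
  (.col [0, 2, 3, 1, 5, 6, 7, 8, 4, 9, 10, 11] [.abs 1 5 6 7 8, .save 9 11, .save 3 4, .save 1 2, .save 0 2, .save 10 4, .col 2, .col 4, .col 11])))))))))))))))))))))))))))))))))))))))))))))))))))))))))))))))))))))))))))))))))))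

lemma c2Badj_ok : c2Badj.chk [(0, 4), (2, 5), (3, 4), (1, 5), (5, 4), (7, 4), (6, 5), (8, 5), (4, 5), (9, 4), (10, 4), (11, 4)] [6, 8]
    (mk [(0, 1), (0, 2), (0, 3), (0, 4), (1, 2), (2, 3), (3, 4), (5, 1), (5, 6), (5, 7), (5, 8), (1, 6), (6, 7), (7, 8), (8, 1), (9, 4), (9, 10), (9, 11), (9, 12), (4, 10), (10, 11), (11, 12), (12, 4)])
    (mk [(1, 4)]) (mk [(1, 3), (2, 4), (1, 4), (1, 7), (6, 8), (0, 6), (0, 8), (5, 2), (4, 11), (10, 12), (0, 10), (0, 12), (9, 3)]) = true := by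
  decide +kernel

def c2Bopp : Cert :=
  (.dis 0 7 (.k4 0 1 5 6)
  (.dis 0 11 (.k4 0 4 9 10)
  (.dis 1 9 (.an 1 4)
  (.dis 1 10 (.an 1 4)
  (.dis 1 12 (.an 1 4)
  (.dis 2 7 (.k4 1 2 5 6)
  (.dis 2 9 (.ov 9 [0, 1, 4, 10, 12])
  (.dis 2 10 (.k4 0 2 3 4)
  (.dis 2 12 (.k4 0 2 3 4)
  (.dis 3 5 (.ov 3 [0, 1, 6, 7, 8])
  (.dis 3 6 (.k4 0 1 2 3)
  (.dis 3 8 (.k4 0 1 2 3)
  (.dis 3 11 (.ov 3 [0, 2, 4, 10, 12])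
  (.dis 4 5 (.an 1 4)
  (.dis 4 6 (.an 1 4)
  (.dis 4 8 (.an 1 4)
  (.dis 5 10 (.c6 0 1 5 4 3 2)
  (.dis 5 12 (.c6 0 1 5 4 3 2)
  (.dis 6 9 (.ov 9 [1, 4, 5, 10, 12])
  (.dis 6 10 (.c6 0 1 6 4 3 2)
  (.dis 6 12 (.c6 0 1 6 4 3 2)
  (.dis 7 9 (.ov 7 [4, 5, 6, 10, 12])
  (.dis 8 9 (.ov 9 [1, 4, 5, 10, 12])
  (.dis 8 10 (.c6 0 1 8 4 3 2)
  (.dis 8 12 (.c6 0 1 8 4 3 2)
  (.spl 0 5 (.con (.ov 0 [1, 2, 3, 4, 5]))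
  (.spl 1 7 (.con (.k4 1 5 6 7))
  (.spl 2 4 (.con (.k4 0 2 3 4))
  (.spl 2 6 (.con (.c6 0 1 6 2 3 4))
  (.spl 2 8 (.con (.c6 0 1 8 2 3 4))
  (.spl 3 10 (.con (.c6 0 1 2 3 10 4))
  (.spl 3 12 (.con (.c6 0 1 2 3 12 4))
  (.spl 6 8 (.con (.k4 1 5 6 8))
  (.spl 10 12 (.con (.k4 4 9 10 12))
  (.dis 0 5 (.ov 0 [1, 3, 4, 6, 8])
  (.dis 0 9 (.ov 0 [1, 2, 4, 10, 12])
  (.dis 2 6 (.c6 0 1 5 2 3 4)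
  (.dis 2 8 (.c6 0 1 5 2 3 4)
  (.dis 2 11 (.c6 0 1 2 9 4 3)
  (.dis 3 7 (.ov 3 [0, 2, 4, 5, 6])
  (.dis 3 10 (.ov 3 [0, 2, 4, 9, 11])
  (.dis 3 12 (.ov 3 [0, 2, 4, 9, 11])
  (.dis 4 7 (.ov 7 [0, 3, 5, 6, 8])
  (.dis 5 9 (.ov 5 [1, 4, 6, 7, 8])
  (.dis 7 10 (.ov 7 [4, 5, 6, 8, 9])
  (.dis 7 12 (.ov 7 [4, 5, 6, 8, 9])
  (.dis 8 11 (.ov 8 [1, 5, 7, 9, 10, 12])
  (.spl 0 6 (.con (.ov 0 [1, 2, 3, 4, 6]))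
  (.spl 0 7 (.con (.ov 0 [1, 2, 3, 4, 7]))
  (.spl 0 8 (.con (.ov 0 [1, 2, 3, 4, 8]))
  (.spl 0 10 (.con (.ov 0 [1, 2, 3, 4, 10]))
  (.spl 1 10 (.con (.ov 1 [0, 2, 5, 6, 8, 10]))
  (.spl 2 5 (.con (.ov 5 [1, 2, 6, 7, 8]))
  (.spl 2 7 (.con (.c6 0 3 2 7 5 1))
  (.spl 2 9 (.con (.ov 9 [2, 4, 10, 11, 12]))
  (.spl 2 10 (.con (.c6 0 1 2 10 4 3))
  (.spl 2 12 (.con (.c6 0 1 2 12 4 3))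
  (.spl 3 5 (.con (.ov 5 [1, 3, 6, 7, 8]))
  (.spl 3 6 (.con (.c6 0 2 1 5 6 3))
  (.spl 3 7 (.con (.c6 0 2 1 5 7 3))
  (.spl 3 8 (.con (.c6 0 2 1 5 8 3))
  (.spl 3 9 (.con (.ov 9 [3, 4, 10, 11, 12]))
  (.spl 4 5 (.con (.ov 4 [0, 3, 5, 9, 10, 12]))
  (.spl 4 6 (.con (.ov 4 [0, 3, 6, 9, 10, 12]))
  (.spl 4 7 (.con (.ov 4 [0, 3, 7, 9, 10, 12]))
  (.spl 4 8 (.con (.ov 4 [0, 3, 8, 9, 10, 12]))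
  (.spl 5 10 (.con (.ov 5 [1, 6, 7, 8, 10]))
  (.spl 5 12 (.con (.ov 5 [1, 6, 7, 8, 12]))
  (.spl 6 10 (.con (.c6 0 2 1 6 10 4))
  (.spl 6 12 (.con (.c6 0 2 1 6 12 4))
  (.spl 8 9 (.con (.ov 9 [4, 8, 10, 11, 12]))
  (.spl 8 10 (.con (.c6 0 2 1 8 10 4))
  (.spl 8 12 (.con (.c6 0 2 1 8 12 4))
  (.spl 7 10 (.spl 7 12 (.con (.ov 7 [5, 6, 8, 10, 12]))
  (.col [0, 2, 3, 1, 5, 6, 7, 8, 4, 9, 10, 12] [.save 0 2, .save 1 2, .save 4 12, .save 2 3, .col 3, .col 6, .save 5 8, .save 7 8, .save 9 10, .col 8, .col 10, .col 12]))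
  (.col [0, 2, 3, 1, 5, 6, 7, 8, 4, 9, 10, 12] [.save 9 10, .col 12, .abs 1 5 6 7 8, .save 3 4, .save 1 2, .save 0 2, .save 10 4, .col 2, .col 4])))))))))))))))))))))))))))))))))))))))))))))))))))))))))))))))))))))))))))

lemma c2Bopp_ok : c2Bopp.chk [(0, 4), (2, 5), (3, 4), (1, 5), (5, 4), (7, 4), (6, 5), (8, 5), (4, 5), (9, 4), (10, 4), (12, 4)] [6, 8]
    (mk [(0, 1), (0, 2), (0, 3), (0, 4), (1, 2), (2, 3), (3, 4), (5, 1), (5, 6), (5, 7), (5, 8), (1, 6), (6, 7), (7, 8), (8, 1), (9, 4), (9, 10), (9, 11), (9, 12), (4, 10), (10, 11), (11, 12), (12, 4)])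
    (mk [(1, 4)]) (mk [(1, 3), (2, 4), (1, 4), (1, 7), (6, 8), (0, 6), (0, 8), (5, 2), (4, 11), (10, 12), (0, 10), (0, 12), (9, 3)]) = true := by
  decide +kernel

def c2BB : Cert :=
  (.dis 0 7 (.k4 0 1 5 6)
  (.dis 0 11 (.k4 0 4 9 10)
  (.dis 1 9 (.an 1 4)
  (.dis 1 10 (.an 1 4)
  (.dis 1 12 (.an 1 4)
  (.dis 2 7 (.k4 1 2 5 6)
  (.dis 2 9 (.ov 9 [0, 1, 4, 10, 12])
  (.dis 2 10 (.k4 0 2 3 4)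
  (.dis 2 12 (.k4 0 2 3 4)
  (.dis 3 5 (.ov 3 [0, 1, 6, 7, 8])
  (.dis 3 6 (.k4 0 1 2 3)
  (.dis 3 8 (.k4 0 1 2 3)
  (.dis 3 11 (.ov 3 [0, 2, 4, 10, 12])
  (.dis 4 5 (.an 1 4)
  (.dis 4 6 (.an 1 4)
  (.dis 4 8 (.an 1 4)
  (.dis 5 10 (.c6 0 1 5 4 3 2)
  (.dis 5 11 (.c6 0 2 1 5 10 4)
  (.dis 5 12 (.c6 0 1 5 4 3 2)
  (.dis 6 9 (.ov 9 [1, 4, 5, 10, 12])
  (.dis 6 10 (.c6 0 1 6 4 3 2)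
  (.dis 6 12 (.c6 0 1 6 4 3 2)
  (.dis 7 9 (.ov 7 [4, 5, 6, 10, 12])
  (.dis 8 9 (.ov 9 [1, 4, 5, 10, 12])
  (.dis 8 10 (.c6 0 1 8 4 3 2)
  (.dis 8 12 (.c6 0 1 8 4 3 2)
  (.spl 0 5 (.con (.ov 0 [1, 2, 3, 4, 5]))
  (.spl 0 9 (.con (.ov 0 [1, 2, 3, 4, 9]))
  (.spl 1 7 (.con (.k4 1 5 6 7))
  (.spl 2 4 (.con (.k4 0 2 3 4))
  (.spl 2 6 (.con (.c6 0 1 6 2 3 4))
  (.spl 2 8 (.con (.c6 0 1 8 2 3 4))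
  (.spl 3 10 (.con (.c6 0 1 2 3 10 4))
  (.spl 3 12 (.con (.c6 0 1 2 3 12 4))
  (.spl 4 11 (.con (.k4 4 9 10 11))
  (.spl 5 9 (.con (.ov 5 [1, 6, 7, 8, 9]))
  (.spl 6 8 (.con (.k4 1 5 6 8))
  (.spl 10 12 (.con (.k4 4 9 10 12))
  (.dis 0 5 (.ov 0 [1, 3, 4, 6, 8])
  (.dis 0 9 (.ov 0 [1, 2, 4, 10, 12])
  (.dis 1 11 (.ov 11 [0, 2, 5, 10, 12])
  (.dis 2 6 (.c6 0 1 5 2 3 4)
  (.dis 2 8 (.c6 0 1 5 2 3 4)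
  (.dis 2 11 (.ov 11 [0, 1, 9, 10, 12])
  (.dis 3 7 (.ov 3 [0, 2, 4, 5, 6])
  (.dis 3 10 (.ov 3 [0, 2, 4, 9, 11])
  (.dis 3 12 (.ov 3 [0, 2, 4, 9, 11])
  (.dis 4 7 (.ov 7 [0, 3, 5, 6, 8])
  (.dis 5 9 (.ov 5 [1, 4, 6, 7, 8])
  (.dis 6 11 (.ov 11 [1, 5, 9, 10, 12])
  (.dis 7 10 (.ov 7 [4, 5, 6, 8, 9])
  (.dis 7 11 (.ov 7 [5, 6, 8, 9, 10])
  (.dis 7 12 (.ov 7 [4, 5, 6, 8, 9])
  (.dis 8 11 (.ov 11 [1, 5, 7, 9, 10])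
  (.spl 0 6 (.con (.ov 0 [1, 2, 3, 4, 6]))
  (.spl 0 7 (.con (.ov 0 [1, 2, 3, 4, 7]))
  (.spl 0 8 (.con (.ov 0 [1, 2, 3, 4, 8]))
  (.spl 0 10 (.con (.ov 0 [1, 2, 3, 4, 10]))
  (.spl 0 11 (.con (.ov 0 [1, 2, 3, 4, 11]))
  (.spl 0 12 (.con (.ov 0 [1, 2, 3, 4, 12]))
  (.spl 1 9 (.con (.ov 1 [0, 2, 5, 6, 8, 9]))
  (.spl 1 10 (.con (.ov 1 [0, 2, 5, 6, 8, 10]))
  (.spl 1 11 (.con (.ov 1 [0, 2, 5, 6, 8, 11]))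
  (.spl 1 12 (.con (.ov 1 [0, 2, 5, 6, 8, 12]))
  (.spl 2 5 (.con (.ov 5 [1, 2, 6, 7, 8]))
  (.spl 2 7 (.con (.c6 0 3 2 7 5 1))
  (.spl 2 9 (.con (.ov 9 [2, 4, 10, 11, 12]))
  (.spl 2 10 (.con (.c6 0 1 2 10 4 3))
  (.spl 2 11 (.con (.c6 0 1 2 11 9 4))
  (.spl 2 12 (.con (.c6 0 1 2 12 4 3))
  (.spl 3 5 (.con (.ov 5 [1, 3, 6, 7, 8]))
  (.spl 3 6 (.con (.c6 0 2 1 5 6 3))
  (.spl 3 7 (.con (.c6 0 2 1 5 7 3))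
  (.spl 3 8 (.con (.c6 0 2 1 5 8 3))
  (.spl 3 9 (.con (.ov 9 [3, 4, 10, 11, 12]))
  (.spl 3 11 (.con (.c6 0 2 3 11 9 4))
  (.spl 4 5 (.con (.ov 4 [0, 3, 5, 9, 10, 12]))
  (.spl 4 6 (.con (.ov 4 [0, 3, 6, 9, 10, 12]))
  (.spl 4 7 (.con (.ov 4 [0, 3, 7, 9, 10, 12]))
  (.spl 4 8 (.con (.ov 4 [0, 3, 8, 9, 10, 12]))
  (.spl 5 10 (.con (.ov 5 [1, 6, 7, 8, 10]))
  (.spl 5 11 (.con (.ov 5 [1, 6, 7, 8, 11]))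
  (.spl 5 12 (.con (.ov 5 [1, 6, 7, 8, 12]))
  (.spl 6 9 (.con (.ov 9 [4, 6, 10, 11, 12]))
  (.spl 6 10 (.con (.c6 0 2 1 6 10 4))
  (.spl 6 12 (.con (.c6 0 2 1 6 12 4))
  (.spl 7 9 (.con (.ov 9 [4, 7, 10, 11, 12]))
  (.spl 8 9 (.con (.ov 9 [4, 8, 10, 11, 12]))
  (.spl 8 10 (.con (.c6 0 2 1 8 10 4))
  (.spl 8 12 (.con (.c6 0 2 1 8 12 4))
  (.spl 6 11 (.con (.atr 6 11 [9, 10, 12]))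
  (.spl 7 10 (.con (.atr 10 7 [5, 6, 8]))
  (.spl 7 12 (.con (.atr 12 7 [5, 6, 8]))
  (.spl 8 11 (.con (.atr 8 11 [9, 10, 12]))
  (.spl 7 11 (.col [0, 2, 3, 1, 5, 6, 7, 8, 4, 9, 10, 11, 12] [.save 0 2, .save 1 2, .col 6, .save 5 8, .save 7 8, .abs 4 9 10 11 12, .save 3 4, .col 2, .col 4, .col 8])
  (.col [0, 2, 3, 1, 5, 6, 7, 8, 4, 9, 10, 11, 12] [.abs 1 5 6 7 8, .abs 4 9 10 11 12, .save 3 4, .save 1 2, .save 0 2, .col 2, .col 4]))))))))))))))))))))))))))))))))))))))))))))))))))))))))))))))))))))))))))))))))))))))))))))))))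

lemma c2BB_ok : c2BB.chk [(0, 4), (2, 5), (3, 4), (1, 5), (5, 4), (7, 4), (6, 5), (8, 5), (4, 5), (9, 4), (11, 4), (10, 5), (12, 5)] [6, 8, 10, 12]
    (mk [(0, 1), (0, 2), (0, 3), (0, 4), (1, 2), (2, 3), (3, 4), (5, 1), (5, 6), (5, 7), (5, 8), (1, 6), (6, 7), (7, 8), (8, 1), (9, 4), (9, 10), (9, 11), (9, 12), (4, 10), (10, 11), (11, 12), (12, 4)])
    (mk [(1, 4)]) (mk [(1, 3), (2, 4), (1, 4), (1, 7), (6, 8), (0, 6), (0, 8), (5, 2), (4, 11), (10, 12), (0, 10), (0, 12), (9, 3)]) = true := by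
  decide +kernel

variable {V C : Type} [Fintype V] {G : SimpleGraph V} {M : V → C → V → C → Prop} {I : V → Prop}

structure Pth (G : SimpleGraph V) (v a b c d : V) : Prop where
  va : G.Adj v a
  vb : G.Adj v b
  vc : G.Adj v c
  vd : G.Adj v d
  ab : G.Adj a b
  bc : G.Adj b c
  cd : G.Adj c d
  ac : a ≠ c
  bd : b ≠ d
  ad : a ≠ d

structure Fan (G : SimpleGraph V) (v a b c d : V) : Prop extends Pth G v a b c d where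
  nad : ¬ G.Adj a d

structure Whl (G : SimpleGraph V) (c z y o x : V) : Prop where
  cz : G.Adj c z
  cy : G.Adj c y
  co : G.Adj c o
  cx : G.Adj c x
  zy : G.Adj z y
  yo : G.Adj y o
  ox : G.Adj o x
  xz : G.Adj x z
  zo : z ≠ o
  yx : y ≠ x

def Lo (G : SimpleGraph V) (I : V → Prop) (k : ℕ) (v : V) : Prop := dg G v ≤ k ∧ I v

def Eff (G : SimpleGraph V) (I : V → Prop) (v b z : V) : Prop :=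
  Lo G I 4 z ∨ Lo G I 5 z ∧ ∃ c y o x, Whl G c z y o x ∧ Lo G I 4 c ∧ v ≠ y ∧ v ≠ x ∧ c ≠ b ∧
    (Lo G I 4 y ∧ Lo G I 4 o ∨ Lo G I 4 y ∧ Lo G I 4 x ∨
      Lo G I 4 o ∧ Lo G I 5 y ∧ Lo G I 5 x ∧ AllTri G y ∧ AllTri G x)

variable [Inhabited C]

lemma diamond (g : Glob G M I) {v a b c : V} (va : G.Adj v a) (vb : G.Adj v b) (vc : G.Adj v c)
    (ab : G.Adj a b) (bc : G.Adj b c) (ac : a ≠ c) (hv : Lo G I 4 v) (ha : Lo G I 4 a)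
    (hb : Lo G I 4 b) (hc : Lo G I 4 c) : False :=
  engine g (fun i => [v, a, b, c].getD i v) [(0, 1), (0, 2), (0, 3), (1, 2), (2, 3)] [] [(1, 3)]
    [(0, 4), (1, 4), (2, 4), (3, 4)] []
    (.spl 1 3 (.con (.k4 0 1 2 3)) (.col [0, 1, 2, 3] [.save 0 1, .col 3, .col 2, .col 1]))
    (by decide +kernel) ⟨va, vb, vc, ab, bc⟩ trivial ac ⟨hv, ha, hb, hc⟩ trivial

lemma red1 (g : Glob G M I) {v a b c d : V} (F : Fan G v a b c d) (hv : Lo G I 4 v)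
    (hb : Lo G I 4 b) (hc : Lo G I 4 c) (h1 : Eff G I v b a) : False := by
  rcases h1 with z1 | ⟨z1, c1, y1, o1, x1, W1, k1, e1, f1, g1, ⟨p1, q1⟩ | ⟨p1, q1⟩ | ⟨p1, q1, r1, s1, t1⟩⟩
  · exact engine g (fun i => [v, a, b, c, d].getD i v) _ _ _ _ _ _ c14_ok
      ⟨F.va, F.vb, F.vc, F.vd, F.ab, F.bc, F.cd⟩
      F.nad ⟨F.ac, F.bd, F.ad⟩
      ⟨hv, hb, hc, z1⟩ trivial
  · exact engine g (fun i => [v, a, b, c, d, c1, y1, o1, x1].getD i v) _ _ _ _ _ _ c1adj_ok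
      ⟨F.va, F.vb, F.vc, F.vd, F.ab, F.bc, F.cd, W1.cz, W1.cy, W1.co, W1.cx, W1.zy, W1.yo, W1.ox, W1.xz⟩
      F.nad ⟨F.ac, F.bd, F.ad, W1.zo, W1.yx, e1, f1, g1⟩
      ⟨hv, hb, hc, z1, k1, p1, q1⟩ trivial
  · exact engine g (fun i => [v, a, b, c, d, c1, y1, o1, x1].getD i v) _ _ _ _ _ _ c1opp_ok
      ⟨F.va, F.vb, F.vc, F.vd, F.ab, F.bc, F.cd, W1.cz, W1.cy, W1.co, W1.cx, W1.zy, W1.yo, W1.ox, W1.xz⟩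
      F.nad ⟨F.ac, F.bd, F.ad, W1.zo, W1.yx, e1, f1, g1⟩
      ⟨hv, hb, hc, z1, k1, p1, q1⟩ trivial
  · exact engine g (fun i => [v, a, b, c, d, c1, y1, o1, x1].getD i v) _ _ _ _ _ _ c1B_ok
      ⟨F.va, F.vb, F.vc, F.vd, F.ab, F.bc, F.cd, W1.cz, W1.cy, W1.co, W1.cx, W1.zy, W1.yo, W1.ox, W1.xz⟩
      F.nad ⟨F.ac, F.bd, F.ad, W1.zo, W1.yx, e1, f1, g1⟩
      ⟨hv, hb, hc, z1, k1, p1, q1, r1⟩ ⟨s1, t1⟩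

lemma red2 (g : Glob G M I) {v a b c d : V} (F : Fan G v a b c d) (hv : Lo G I 4 v)
    (hb : Lo G I 5 b) (hc : Lo G I 4 c) (h1 : Eff G I v b a) (h2 : Eff G I v c d) : False := by
  rcases h1 with z1 | ⟨z1, c1, y1, o1, x1, W1, k1, e1, f1, g1, ⟨p1, q1⟩ | ⟨p1, q1⟩ | ⟨p1, q1, r1, s1, t1⟩⟩ <;>
  rcases h2 with z2 | ⟨z2, c2, y2, o2, x2, W2, k2, e2, f2, g2, ⟨p2, q2⟩ | ⟨p2, q2⟩ | ⟨p2, q2, r2, s2, t2⟩⟩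
  · exact engine g (fun i => [v, a, b, c, d].getD i v) _ _ _ _ _ _ c244_ok
      ⟨F.va, F.vb, F.vc, F.vd, F.ab, F.bc, F.cd⟩
      F.nad ⟨F.ac, F.bd, F.ad⟩
      ⟨hv, hb, hc, z1, z2⟩ trivial
  · exact engine g (fun i => [v, a, b, c, d, c2, y2, o2, x2].getD i v) _ _ _ _ _ _ c24adj_ok
      ⟨F.va, F.vb, F.vc, F.vd, F.ab, F.bc, F.cd, W2.cz, W2.cy, W2.co, W2.cx, W2.zy, W2.yo, W2.ox, W2.xz⟩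
      F.nad ⟨F.ac, F.bd, F.ad, W2.zo, W2.yx, e2, f2, g2⟩
      ⟨hv, hb, hc, z1, z2, k2, p2, q2⟩ trivial
  · exact engine g (fun i => [v, a, b, c, d, c2, y2, o2, x2].getD i v) _ _ _ _ _ _ c24opp_ok
      ⟨F.va, F.vb, F.vc, F.vd, F.ab, F.bc, F.cd, W2.cz, W2.cy, W2.co, W2.cx, W2.zy, W2.yo, W2.ox, W2.xz⟩
      F.nad ⟨F.ac, F.bd, F.ad, W2.zo, W2.yx, e2, f2, g2⟩
      ⟨hv, hb, hc, z1, z2, k2, p2, q2⟩ trivial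
  · exact engine g (fun i => [v, a, b, c, d, c2, y2, o2, x2].getD i v) _ _ _ _ _ _ c24B_ok
      ⟨F.va, F.vb, F.vc, F.vd, F.ab, F.bc, F.cd, W2.cz, W2.cy, W2.co, W2.cx, W2.zy, W2.yo, W2.ox, W2.xz⟩
      F.nad ⟨F.ac, F.bd, F.ad, W2.zo, W2.yx, e2, f2, g2⟩
      ⟨hv, hb, hc, z1, z2, k2, p2, q2, r2⟩ ⟨s2, t2⟩
  · exact engine g (fun i => [v, a, b, c, d, c1, y1, o1, x1].getD i v) _ _ _ _ _ _ c2adj4_ok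
      ⟨F.va, F.vb, F.vc, F.vd, F.ab, F.bc, F.cd, W1.cz, W1.cy, W1.co, W1.cx, W1.zy, W1.yo, W1.ox, W1.xz⟩
      F.nad ⟨F.ac, F.bd, F.ad, W1.zo, W1.yx, e1, f1, g1⟩
      ⟨hv, hb, hc, z1, k1, p1, q1, z2⟩ trivial
  · exact engine g (fun i => [v, a, b, c, d, c1, y1, o1, x1, c2, y2, o2, x2].getD i v) _ _ _ _ _ _ c2adjadj_ok
      ⟨F.va, F.vb, F.vc, F.vd, F.ab, F.bc, F.cd, W1.cz, W1.cy, W1.co, W1.cx, W1.zy, W1.yo, W1.ox, W1.xz, W2.cz, W2.cy, W2.co, W2.cx, W2.zy, W2.yo, W2.ox, W2.xz⟩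
      F.nad ⟨F.ac, F.bd, F.ad, W1.zo, W1.yx, e1, f1, g1, W2.zo, W2.yx, e2, f2, g2⟩
      ⟨hv, hb, hc, z1, k1, p1, q1, z2, k2, p2, q2⟩ trivial
  · exact engine g (fun i => [v, a, b, c, d, c1, y1, o1, x1, c2, y2, o2, x2].getD i v) _ _ _ _ _ _ c2adjopp_ok
      ⟨F.va, F.vb, F.vc, F.vd, F.ab, F.bc, F.cd, W1.cz, W1.cy, W1.co, W1.cx, W1.zy, W1.yo, W1.ox, W1.xz, W2.cz, W2.cy, W2.co, W2.cx, W2.zy, W2.yo, W2.ox, W2.xz⟩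
      F.nad ⟨F.ac, F.bd, F.ad, W1.zo, W1.yx, e1, f1, g1, W2.zo, W2.yx, e2, f2, g2⟩
      ⟨hv, hb, hc, z1, k1, p1, q1, z2, k2, p2, q2⟩ trivial
  · exact engine g (fun i => [v, a, b, c, d, c1, y1, o1, x1, c2, y2, o2, x2].getD i v) _ _ _ _ _ _ c2adjB_ok
      ⟨F.va, F.vb, F.vc, F.vd, F.ab, F.bc, F.cd, W1.cz, W1.cy, W1.co, W1.cx, W1.zy, W1.yo, W1.ox, W1.xz, W2.cz, W2.cy, W2.co, W2.cx, W2.zy, W2.yo, W2.ox, W2.xz⟩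
      F.nad ⟨F.ac, F.bd, F.ad, W1.zo, W1.yx, e1, f1, g1, W2.zo, W2.yx, e2, f2, g2⟩
      ⟨hv, hb, hc, z1, k1, p1, q1, z2, k2, p2, q2, r2⟩ ⟨s2, t2⟩
  · exact engine g (fun i => [v, a, b, c, d, c1, y1, o1, x1].getD i v) _ _ _ _ _ _ c2opp4_ok
      ⟨F.va, F.vb, F.vc, F.vd, F.ab, F.bc, F.cd, W1.cz, W1.cy, W1.co, W1.cx, W1.zy, W1.yo, W1.ox, W1.xz⟩
      F.nad ⟨F.ac, F.bd, F.ad, W1.zo, W1.yx, e1, f1, g1⟩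
      ⟨hv, hb, hc, z1, k1, p1, q1, z2⟩ trivial
  · exact engine g (fun i => [v, a, b, c, d, c1, y1, o1, x1, c2, y2, o2, x2].getD i v) _ _ _ _ _ _ c2oppadj_ok
      ⟨F.va, F.vb, F.vc, F.vd, F.ab, F.bc, F.cd, W1.cz, W1.cy, W1.co, W1.cx, W1.zy, W1.yo, W1.ox, W1.xz, W2.cz, W2.cy, W2.co, W2.cx, W2.zy, W2.yo, W2.ox, W2.xz⟩
      F.nad ⟨F.ac, F.bd, F.ad, W1.zo, W1.yx, e1, f1, g1, W2.zo, W2.yx, e2, f2, g2⟩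
      ⟨hv, hb, hc, z1, k1, p1, q1, z2, k2, p2, q2⟩ trivial
  · exact engine g (fun i => [v, a, b, c, d, c1, y1, o1, x1, c2, y2, o2, x2].getD i v) _ _ _ _ _ _ c2oppopp_ok
      ⟨F.va, F.vb, F.vc, F.vd, F.ab, F.bc, F.cd, W1.cz, W1.cy, W1.co, W1.cx, W1.zy, W1.yo, W1.ox, W1.xz, W2.cz, W2.cy, W2.co, W2.cx, W2.zy, W2.yo, W2.ox, W2.xz⟩
      F.nad ⟨F.ac, F.bd, F.ad, W1.zo, W1.yx, e1, f1, g1, W2.zo, W2.yx, e2, f2, g2⟩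
      ⟨hv, hb, hc, z1, k1, p1, q1, z2, k2, p2, q2⟩ trivial
  · exact engine g (fun i => [v, a, b, c, d, c1, y1, o1, x1, c2, y2, o2, x2].getD i v) _ _ _ _ _ _ c2oppB_ok
      ⟨F.va, F.vb, F.vc, F.vd, F.ab, F.bc, F.cd, W1.cz, W1.cy, W1.co, W1.cx, W1.zy, W1.yo, W1.ox, W1.xz, W2.cz, W2.cy, W2.co, W2.cx, W2.zy, W2.yo, W2.ox, W2.xz⟩
      F.nad ⟨F.ac, F.bd, F.ad, W1.zo, W1.yx, e1, f1, g1, W2.zo, W2.yx, e2, f2, g2⟩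
      ⟨hv, hb, hc, z1, k1, p1, q1, z2, k2, p2, q2, r2⟩ ⟨s2, t2⟩
  · exact engine g (fun i => [v, a, b, c, d, c1, y1, o1, x1].getD i v) _ _ _ _ _ _ c2B4_ok
      ⟨F.va, F.vb, F.vc, F.vd, F.ab, F.bc, F.cd, W1.cz, W1.cy, W1.co, W1.cx, W1.zy, W1.yo, W1.ox, W1.xz⟩
      F.nad ⟨F.ac, F.bd, F.ad, W1.zo, W1.yx, e1, f1, g1⟩
      ⟨hv, hb, hc, z1, k1, p1, q1, r1, z2⟩ ⟨s1, t1⟩
  · exact engine g (fun i => [v, a, b, c, d, c1, y1, o1, x1, c2, y2, o2, x2].getD i v) _ _ _ _ _ _ c2Badj_ok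
      ⟨F.va, F.vb, F.vc, F.vd, F.ab, F.bc, F.cd, W1.cz, W1.cy, W1.co, W1.cx, W1.zy, W1.yo, W1.ox, W1.xz, W2.cz, W2.cy, W2.co, W2.cx, W2.zy, W2.yo, W2.ox, W2.xz⟩
      F.nad ⟨F.ac, F.bd, F.ad, W1.zo, W1.yx, e1, f1, g1, W2.zo, W2.yx, e2, f2, g2⟩
      ⟨hv, hb, hc, z1, k1, p1, q1, r1, z2, k2, p2, q2⟩ ⟨s1, t1⟩
  · exact engine g (fun i => [v, a, b, c, d, c1, y1, o1, x1, c2, y2, o2, x2].getD i v) _ _ _ _ _ _ c2Bopp_ok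
      ⟨F.va, F.vb, F.vc, F.vd, F.ab, F.bc, F.cd, W1.cz, W1.cy, W1.co, W1.cx, W1.zy, W1.yo, W1.ox, W1.xz, W2.cz, W2.cy, W2.co, W2.cx, W2.zy, W2.yo, W2.ox, W2.xz⟩
      F.nad ⟨F.ac, F.bd, F.ad, W1.zo, W1.yx, e1, f1, g1, W2.zo, W2.yx, e2, f2, g2⟩
      ⟨hv, hb, hc, z1, k1, p1, q1, r1, z2, k2, p2, q2⟩ ⟨s1, t1⟩
  · exact engine g (fun i => [v, a, b, c, d, c1, y1, o1, x1, c2, y2, o2, x2].getD i v) _ _ _ _ _ _ c2BB_ok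
      ⟨F.va, F.vb, F.vc, F.vd, F.ab, F.bc, F.cd, W1.cz, W1.cy, W1.co, W1.cx, W1.zy, W1.yo, W1.ox, W1.xz, W2.cz, W2.cy, W2.co, W2.cx, W2.zy, W2.yo, W2.ox, W2.xz⟩
      F.nad ⟨F.ac, F.bd, F.ad, W1.zo, W1.yx, e1, f1, g1, W2.zo, W2.yx, e2, f2, g2⟩
      ⟨hv, hb, hc, z1, k1, p1, q1, r1, z2, k2, p2, q2, r2⟩ ⟨s1, t1, s2, t2⟩

end Pool.Agent.P.MP_0e1fd4_co
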