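import Pool.Agent.P.MP_0e1fd4_co.Shape

/-! Moving the charge of the faces to the edges. -/

namespace Pool.Agent.P.MP_0e1fd4_co

open Finset MP_5fbfb9_co
open scoped Classical

section
variable {V : Type} [Fintype V] (G : SimpleGraph V)

def Inner (u v : V) : Prop := ∃ a b, a ≠ b ∧ G.Adj u a ∧ G.Adj v a ∧ G.Adj u b ∧ G.Adj v b

def InTri (u v : V) : Prop := ∃ t, G.Adj u t ∧ G.Adj v t

def Free (u v : V) : Prop := dg G u ≤ 4 ∧ ∃ y a b, G.Adj u y ∧ G.Adj u a ∧ G.Adj u b ∧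
  G.Adj y a ∧ G.Adj y b ∧ a ≠ b ∧ v ≠ y ∧ v ≠ a ∧ v ≠ b ∧ ¬ Inner G u a ∧ ¬ Inner G u b

noncomputable def ex (u : V) : ℤ := if dg G u = 2 then 4 else if dg G u = 3 then 3 else 0

noncomputable def nu (u v : V) : ℤ :=
  (if Inner G u v then -5 else 0) + (if Free G u v then 5 else 0) - ex G u

noncomputable def q4 (u v : V) : ℤ :=
  if InTri G u v then (if dg G u ≤ 3 ∨ dg G v ≤ 3 then 2 else 5) else -2

noncomputable def om (n : ℕ) (u v : V) : ℤ :=
  if n = 6 then -5 else if n = 8 then q4 G u v else if n = 10 then 3 else 5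

variable {G}

omit [Fintype V] in
lemma Inner.symm {u v : V} (h : Inner G u v) : Inner G v u := by
  obtain ⟨a, b, h1, h2, h3, h4, h5⟩ := h
  exact ⟨a, b, h1, h3, h2, h5, h4⟩

omit [Fintype V] in
lemma InTri.symm {u v : V} (h : InTri G u v) : InTri G v u := by
  obtain ⟨a, h1, h2⟩ := h
  exact ⟨a, h2, h1⟩

lemma q4_comm (u v : V) : q4 G u v = q4 G v u := by
  unfold q4
  simp only [show InTri G u v ↔ InTri G v u from ⟨InTri.symm, InTri.symm⟩, or_comm]

omit [Fintype V] in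
lemma NoC6.out (h : NoC6 G) {a b c d e f : V} (ab : G.Adj a b) (bc : G.Adj b c) (cd : G.Adj c d)
    (de : G.Adj d e) (ef : G.Adj e f) (fa : G.Adj f a) (ac : a ≠ c) (ad : a ≠ d) (ae : a ≠ e)
    (bd : b ≠ d) (be : b ≠ e) (bf : b ≠ f) (ce : c ≠ e) (cf : c ≠ f) (df : d ≠ f) :
    ¬ G.Adj a c ∧ ¬ G.Adj a d :=
  h a b c d e f ab bc cd de ef fa (by simp [*, ab.ne, bc.ne, cd.ne, de.ne, ef.ne, fa.ne.symm])

end

variable {V : Type} [DecidableEq V] [Fintype V] {G : SimpleGraph V} {A K : Finset V}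
variable {F : Type} [Fintype F] {c : F → EF V}

namespace Pla

variable (H : Pla G A K c)
include H

lemma corner {f : F} {a b d p q : V} (ba : c f b a ≠ 0) (bd : c f b d ≠ 0) (hp : c f p q ≠ 0)
    (pa : p ≠ a) (pb : p ≠ b) (pd : p ≠ d) : ¬ G.Adj a d := by
  intro ad
  obtain ⟨g, g1, g2, -, g4⟩ := H.tri (H.adj ba) (H.adj bd) ad
  exact H.no2 (H.adj ba) (H.adj bd) ad fun x hx => H.close2 ad.ne
    (show f ≠ g by rintro rfl; have := g4 _ _ hp; tauto) ba bd g1 g2 hx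

lemma pent {f : F} {u v w x y t : V} (uv : c f u v ≠ 0) (vw : c f v w ≠ 0) (wx : c f w x ≠ 0)
    (xy : c f x y ≠ 0) (yu : c f y u ≠ 0) (uw : u ≠ w) (ux : u ≠ x) (vx : v ≠ x) (vy : v ≠ y)
    (wy : w ≠ y) (ut : G.Adj u t) (vt : G.Adj v t) : False := by
  have n1 := H.corner (H.sym uv) vw xy ux.symm vx.symm (H.adj wx).ne.symm
  have n2 := H.corner (H.sym vw) wx yu vy.symm wy.symm (H.adj xy).ne.symm
  have n3 := H.corner uv (H.sym yu) wx (H.adj vw).ne.symm uw.symm wy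
  exact (H.c6.out ut vt.symm (H.adj vw) (H.adj wx) (H.adj xy) (H.adj yu) (H.adj uv).ne uw ux
    (by rintro rfl; exact n1 ut) (by rintro rfl; exact n2 vt) (by rintro rfl; exact n3 vt)
    vx vy wy).1 (H.adj uv)

section quad
variable {f : F} {a b d e : V} (ab : c f a b ≠ 0) (bd : c f b d ≠ 0) (de : c f d e ≠ 0)
  (ea : c f e a ≠ 0) (ad : a ≠ d) (be : b ≠ e)
include ab bd de ea ad be

omit ad in
lemma quad1 : ¬ G.Adj a d :=
  H.corner (H.sym ab) bd ea (H.adj ea).ne be.symm (H.adj de).ne.symm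

omit be in
lemma quad2 : ¬ G.Adj b e :=
  H.corner ab (H.sym ea) de (H.adj bd).ne.symm ad.symm (H.adj de).ne

omit be in
lemma quad3 {x : V} (xa : G.Adj a x) (xb : G.Adj b x) (xd : G.Adj d x) : dg G b ≤ 3 := by
  obtain ⟨g, g1, g2, -, g4⟩ := H.tri (H.adj ab).symm xb xa
  obtain ⟨k, k1, k2, -, k4⟩ := H.tri xb (H.adj bd) xd.symm
  have := (H.adj bd).ne; have := (H.adj ab).ne; have := xa.ne; have := xd.ne
  refine dg_le [a, x, d] fun q hq => ?_
  simpa using H.close3 xa.ne ad xd.ne.symm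
    (show g ≠ k by rintro rfl; have := g4 _ _ (H.sym k2); grind)
    (show k ≠ f by rintro rfl; have := k4 _ _ ab; grind)
    (show f ≠ g by rintro rfl; have := g4 _ _ de; grind) (H.sym ab) g1 g2 k1 k2 bd hq

lemma quad_adj (h1 : InTri G a b) (h2 : InTri G b d) : dg G b ≤ 3 := by
  obtain ⟨x, xa, xb⟩ := h1
  obtain ⟨y, yb, yd⟩ := h2
  have n1 := H.quad1 ab bd de ea be
  have n2 := H.quad2 ab bd de ea ad
  by_cases e1 : x = y
  · subst e1; exact H.quad3 ab bd de ea ad xa xb yd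
  exact absurd (H.adj ab) (H.c6.out xa xb.symm yb yd.symm (H.adj de) (H.adj ea) (H.adj ab).ne
    (by rintro rfl; exact n1 yd.symm) ad e1 (by rintro rfl; exact n1 xa)
    (by rintro rfl; exact n2 xb) (H.adj bd).ne be (by rintro rfl; exact n2 yb)).1

lemma quad_opp (h1 : InTri G a b) (h2 : InTri G d e) : False := by
  obtain ⟨x, xa, xb⟩ := h1
  obtain ⟨y, yd, ye⟩ := h2
  have n1 := H.quad1 ab bd de ea be
  have n2 := H.quad2 ab bd de ea ad
  by_cases e1 : x = y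
  · subst e1
    have d1 := H.quad3 ab bd de ea ad xa xb yd
    have d2 := H.quad3 de ea ab bd ad.symm yd ye xa
    have k : ∀ v ∈ A, dg G v ≤ 3 → v ∈ K := fun v hv h => by
      by_contra hc
      have := H.deg v hv hc
      omega
    exact n2 (H.clq (k b (H.supp _ _ xb) d1) (k e (H.supp _ _ ye) d2) be)
  exact (H.c6.out xa xb.symm (H.adj bd) yd ye.symm (H.adj ea) (H.adj ab).ne ad
    (by rintro rfl; exact n1 yd.symm) (by rintro rfl; exact n1 xa) e1
    (by rintro rfl; exact n2 xb) (by rintro rfl; exact n2 ye.symm) be (H.adj de).ne).1 (H.adj ab)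

lemma quad_sum : q4 G a b + q4 G b d + q4 G d e + q4 G e a ≤ 0 := by
  have o1 := H.quad_opp ab bd de ea ad be
  have o2 := H.quad_opp bd de ea ab be ad.symm
  have a1 := H.quad_adj ab bd de ea ad be
  have a2 := H.quad_adj bd de ea ab be ad.symm
  have a3 := H.quad_adj de ea ab bd ad.symm be.symm
  have a4 := H.quad_adj ea ab bd de be.symm ad
  unfold q4
  by_cases t1 : InTri G a b <;> by_cases t2 : InTri G b d <;> by_cases t3 : InTri G d e <;>
    by_cases t4 : InTri G e a <;> simp only [t1, t2, t3, t4, if_true, if_false,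
      forall_true_left, IsEmpty.forall_iff] at * <;> (try split_ifs) <;> omega

lemma quad_quad {g : F} (fg : f ≠ g) {x y : V} (ab' : c g a b ≠ 0) (bx : c g b x ≠ 0)
    (xy : c g x y ≠ 0) (ya : c g y a ≠ 0) (ax : a ≠ x) (by' : b ≠ y) :
    dg G a ≤ 2 ∨ dg G b ≤ 2 := by
  by_cases e1 : x = d
  · subst e1
    exact Or.inr (dg_le [a, x] fun q hq => by
      simpa using H.close2 ad fg (H.sym ab) bd (H.sym ab') bx hq)
  by_cases e2 : y = e
  · subst e2
    exact Or.inl (dg_le [b, y] fun q hq => by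
      simpa using H.close2 be fg ab (H.sym ea) ab' (H.sym ya) hq)
  have n1 := H.quad1 ab bd de ea be
  have n2 := H.quad2 ab bd de ea ad
  exact absurd (H.adj ab) (H.c6.out (H.adj ea).symm (H.adj de).symm (H.adj bd).symm (H.adj bx)
    (H.adj xy) (H.adj ya) ad (H.adj ab).ne ax be.symm (by rintro rfl; exact n2 (H.adj bx))
    (Ne.symm e2) (Ne.symm e1) (by rintro rfl; exact n1 (H.adj ya).symm) by').2

end quad

lemma free_big {f : F} {u v : V} (h : Free G u v) (hf : c f u v ≠ 0) : 12 ≤ sz (c f) := by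
  obtain ⟨hd, y, a, b, uy, ua, ub, ya, yb, ab, vy, va, vb, na, nb⟩ := h
  have uv := H.adj hf
  have main : ∀ a b, G.Adj u a → G.Adj u b → G.Adj y a → G.Adj y b → a ≠ b → v ≠ a → v ≠ b →
      ¬ Inner G u a → c f u a ≠ 0 → 12 ≤ sz (c f) := by
    intro a b ua ub ya yb ab va vb na fa
    have R : sz (c f) < 12 → ∀ x, c f u x ≠ 0 → a ≠ x → x = v := fun hs x hx ax =>
      (reg' (H.fa.cyc f) hs va.symm fa hf hx).resolve_left ax.symm
    rcases shape (H.fa.cyc f) (H.sym fa) with h | ⟨h, w, h1, h2⟩ | ⟨h, w, x, h1, h2, h3, h4, h5⟩ |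
      ⟨h, w, x, t, h1, h2, h3, h4, h5, h6, h7, h8, h9⟩
    · exact h
    · obtain rfl := R (by omega) w h1 (H.adj h2).ne.symm
      exact absurd ⟨y, w, vy.symm, uy, ya.symm, uv, (H.adj h2).symm⟩ na
    · obtain rfl := R (by omega) w h1 h4
      have n2 := H.quad2 (H.sym fa) h1 h2 h3 h4
      exact absurd ua.symm (H.c6.out ya.symm yb ub.symm uv (H.adj h2) (H.adj h3) ab ua.ne.symm h4
        uy.ne.symm vy.symm (by rintro rfl; exact n2 uy) vb.symm
        (by rintro rfl; exact na ⟨y, b, yb.ne, uy, ya.symm, ub, (H.adj h3).symm⟩) h5).2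
    · exact (H.pent (H.sym fa) h1 h2 h3 h4 h5 h6 h7 h8 h9 ya.symm uy).elim
  obtain ⟨w, w1, w2⟩ := other (H.fa.cyc f) (H.sym hf)
  have := mem_of_dg (G := G) (v := u) (l := [v, y, a, b]) (by simp [*, ya.ne, yb.ne])
    (by simp [*]) hd (H.adj w2)
  simp only [List.mem_cons, List.not_mem_nil, or_false] at this
  rcases this with rfl | rfl | rfl | rfl
  · exact absurd rfl w1
  · obtain ⟨g, g1, g2, -, g4⟩ := H.tri uy ua ya
    obtain ⟨k, k1, k2, -, k4⟩ := H.tri uy ub yb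
    have := uv.ne; have := ua.ne; have := ya.ne
    rcases H.fa.two u w f g k w2 g1 k1 with rfl | rfl | rfl
    · have := g4 _ _ (H.sym hf); grind
    · have := k4 _ _ (H.sym hf); grind
    · have := k4 _ _ (H.sym g2); grind
  · exact main w b ua ub ya yb ab va vb na w2
  · exact main w a ub ua yb ya ab.symm vb va nb w2

lemma edge {u v : V} {f g : F} (fg : f ≠ g) (hf : c f u v ≠ 0) (hg : c g u v ≠ 0) :
    nu G u v + nu G v u ≤ om G (sz (c f)) u v + om G (sz (c g)) u v := by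
  have uv := H.adj hf
  have d1 := H.two_le (H.supp _ _ uv)
  have d2 := H.two_le (H.supp _ _ uv.symm)
  have x1 : 0 ≤ ex G u ∧ (dg G u ≤ 3 → 3 ≤ ex G u) ∧ (dg G u ≤ 2 → 4 ≤ ex G u) := by
    unfold ex; split_ifs <;> omega
  have x2 : 0 ≤ ex G v ∧ (dg G v ≤ 3 → 3 ≤ ex G v) ∧ (dg G v ≤ 2 → 4 ≤ ex G v) := by
    unfold ex; split_ifs <;> omega
  by_cases fr : Free G u v ∨ Free G v u
  · have b : ∀ k, c k u v ≠ 0 → om G (sz (c k)) u v = 5 := fun k hk => by
      have := fr.elim (fun h => H.free_big h hk) fun h => H.free_big h (H.sym hk)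
      unfold om
      split_ifs <;> omega
    rw [b f hf, b g hg]
    unfold nu
    split_ifs <;> omega
  push Not at fr
  have q1 : -2 ≤ q4 G u v := by unfold q4; split_ifs <;> omega
  by_cases hi : Inner G u v
  · simp only [nu, hi, hi.symm, fr.1, fr.2, if_true, if_false, om]
    split_ifs <;> omega
  have hi' : ¬ Inner G v u := fun h => hi h.symm
  simp only [nu, hi, hi', fr.1, fr.2, if_false]
  have q2 : InTri G u v → q4 G u v = 5 ∨ (q4 G u v = 2 ∧ (dg G u ≤ 3 ∨ dg G v ≤ 3)) := fun h => by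
    unfold q4; split_ifs <;> tauto
  have s1 := shape (H.fa.cyc f) hf
  have s2 := shape (H.fa.cyc g) hg
  have t5 : ∀ {f g}, c f u v ≠ 0 → (∃ w, c f v w ≠ 0 ∧ c f w u ≠ 0) → c g u v ≠ 0 →
      (∃ w x y, c g v w ≠ 0 ∧ c g w x ≠ 0 ∧ c g x y ≠ 0 ∧ c g y u ≠ 0 ∧ u ≠ w ∧ u ≠ x ∧
      v ≠ x ∧ v ≠ y ∧ w ≠ y) → False := by
    rintro f g - ⟨t, t1, t2⟩ hg ⟨w, x, y, h1, h2, h3, h4, h5, h6, h7, h8, h9⟩
    exact H.pent hg h1 h2 h3 h4 h5 h6 h7 h8 h9 (H.adj t2).symm (H.adj t1)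
  have t4 : ∀ {f}, (∃ w, c f v w ≠ 0 ∧ c f w u ≠ 0) → InTri G u v :=
    fun ⟨t, t1, t2⟩ => ⟨t, (H.adj t2).symm, H.adj t1⟩
  rcases s1 with s1 | ⟨s1, p1⟩ | ⟨s1, p1⟩ | ⟨s1, p1⟩ <;>
    rcases s2 with s2 | ⟨s2, p2⟩ | ⟨s2, p2⟩ | ⟨s2, p2⟩ <;> unfold om
  any_goals (split_ifs <;> omega)
  · obtain ⟨t, t1, t2⟩ := p1
    obtain ⟨r, r1, r2⟩ := p2
    by_cases e : t = r
    · subst e
      exact (H.no2 uv (H.adj t2).symm (H.adj t1) fun x hx =>
        H.close2 (H.adj t1).ne fg hf (H.sym t2) hg (H.sym r2) hx).elim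
    · exact absurd ⟨t, r, e, (H.adj t2).symm, H.adj t1, (H.adj r2).symm, H.adj r1⟩ hi
  · have := q2 (t4 p1); split_ifs <;> omega
  · exact (t5 hf p1 hg p2).elim
  · have := q2 (t4 p2); split_ifs <;> omega
  · obtain ⟨w, x, h1, h2, h3, h4, h5⟩ := p1
    obtain ⟨w', x', k1, k2, k3, k4, k5⟩ := p2
    have := H.quad_quad hf h1 h2 h3 h4 h5 fg hg k1 k2 k3 k4 k5
    split_ifs <;> omega
  · exact (t5 hg p2 hf p1).elim

lemma face {f : F} (hf : c f ≠ 0) :
    ∑ u, ∑ v ∈ zs (c f) u, om G (sz (c f)) u v ≤ 15 * sz (c f) - 120 := by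
  obtain ⟨a, b, ab⟩ : ∃ a b, c f a b ≠ 0 := by
    by_contra hc
    push Not at hc
    exact hf (by ext a b; exact hc a b)
  have k : ∀ r : ℤ, ∑ u, ∑ v ∈ zs (c f) u, r = r * sz (c f) := fun r => by
    simp [sz, mul_sum, mul_comm]
  rcases shape (H.fa.cyc f) ab with s | ⟨s, -⟩ | ⟨s, d, e, h1, h2, h3, h4, h5⟩ | ⟨s, -⟩
  · have : ∀ u v, om G (sz (c f)) u v = 5 := fun u v => by unfold om; split_ifs <;> omega
    simp only [this, k]; omega
  · have : ∀ u v, om G (sz (c f)) u v = -5 := fun u v => by simp [om, s]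
    simp only [this, k]; omega
  · rw [sum_quad (H.fa.cyc f) s ab h1 h2 h3 h4 h5]
    have := H.quad_sum ab h1 h2 h3 h4 h5
    simp only [om, s, q4_comm b a, q4_comm d b, q4_comm e d, q4_comm a e]
    norm_num
    omega
  · have : ∀ u v, om G (sz (c f)) u v = 3 := fun u v => by simp [om, s]
    simp only [this, k]; omega

lemma swap (w : F → V → V → ℤ) (r : V → V → ℤ)
    (h : ∀ u v f g, f ≠ g → c f u v ≠ 0 → c g u v ≠ 0 → r u v ≤ w f u v + w g u v) :
    ∑ u, ∑ v ∈ nb G u, r u v ≤ ∑ f, ∑ u, ∑ v ∈ zs (c f) u, w f u v := by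
  rw [sum_comm (s := (univ : Finset F))]
  refine sum_le_sum fun u _ => ?_
  have : ∀ f, ∑ v ∈ zs (c f) u, w f u v = ∑ v ∈ nb G u, if c f u v ≠ 0 then w f u v else 0 := by
    intro f
    rw [← sum_filter]
    congr 1
    ext v
    simpa using fun h => H.adj h
  simp only [this]
  rw [sum_comm]
  refine sum_le_sum fun v hv => ?_
  obtain ⟨f, g, fg, hf, hg⟩ := H.faces (mem_nb.1 hv)
  rw [Fintype.sum_eq_add f g fg, if_pos hf, if_pos hg]
  · exact h u v f g fg hf hg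
  · intro k hk
    rw [H.val fg hf hg k]
    simp [hk.1, hk.2]

omit H [DecidableEq V] in
lemma sum_swap (r : V → V → ℤ) : ∑ u, ∑ v ∈ nb G u, r u v = ∑ u, ∑ v ∈ nb G u, r v u :=
  sum_comm' (by simp [G.adj_comm])

theorem charge : ∑ u ∈ A, (15 * ((dg G u : ℤ) - 4) + ∑ v ∈ nb G u, nu G u v) ≤ -120 := by
  obtain ⟨a, ha, -⟩ := H.ne
  obtain ⟨b, hb⟩ : (nb G a).Nonempty := card_pos.1 (by have := H.two_le ha; unfold dg at this; omega)
  obtain ⟨f0, -, -, hf0, -⟩ := H.faces (mem_nb.1 hb)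
  have e1 := euler H.fa H.zero H.supp ha (f0 := f0) (fun e => hf0 (by rw [e]; rfl))
  have e2 := H.swap (fun f => om G (sz (c f))) (fun u v => nu G u v + nu G v u)
    fun u v f g => H.edge
  have e3 := H.swap (fun _ _ _ => -1) (fun _ _ => -2) fun _ _ _ _ _ _ _ => by norm_num
  have e4 : ∑ f, ∑ u, ∑ v ∈ zs (c f) u, om G (sz (c f)) u v ≤
      ∑ f, (15 * (sz (c f) : ℤ) - if c f ≠ 0 then 120 else 0) := sum_le_sum fun f _ => by
    split_ifs with h
    · exact H.face h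
    · simp [not_not.1 h, zs, sz]
  have out : ∀ u ∈ (univ : Finset V), u ∉ A → nb G u = ∅ := fun u _ hu =>
    eq_empty_iff_forall_notMem.2 fun v hv => hu (H.supp _ _ (mem_nb.1 hv))
  have e5 : ∑ u ∈ A, (dg G u : ℤ) = ∑ u, (dg G u : ℤ) :=
    sum_subset (subset_univ _) fun u h1 h2 => by simp [dg, out u h1 h2]
  have e6 : ∑ u ∈ A, ∑ v ∈ nb G u, nu G u v = ∑ u, ∑ v ∈ nb G u, nu G u v :=
    sum_subset (subset_univ _) fun u h1 h2 => by simp [out u h1 h2]
  simp only [sum_add_distrib, ← sum_swap (nu G)] at e2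
  rw [sum_sub_distrib, ← mul_sum, ← sum_filter] at e4
  simp only [sum_const, nsmul_eq_mul, mul_neg, sum_neg_distrib, ← sum_mul, mul_one] at e3 e4
  rw [sum_add_distrib, ← mul_sum, sum_sub_distrib, e5, e6]
  have e7 : ((∑ v, dg G v : ℕ) : ℤ) = ∑ v, (#(nb G v) : ℤ) := by simp [dg]
  have e8 : ∑ f, (sz (c f) : ℤ) = ∑ f, ∑ u, (#(zs (c f) u) : ℤ) := by simp [sz]
  simp only [sum_const, nsmul_eq_mul, dg]
  zify at e1
  simp only [dg] at e1
  linarith

end Pla

end Pool.Agent.P.MP_0e1fd4_co
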