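import Pool.Agent.P.MP_0e1fd4_co.WhB

/-! Extending strictly degenerate transversals for weights at most two: deletion, deletion with a
saved neighbour, and the absorbing wheel. -/

namespace Pool.Agent.P.MP_0e1fd4_co

open Finset
open scoped Classical

variable {ι C : Type}

/-- A symmetric conflict relation that is a matching between any two lists. -/
structure Mat (M : ι → C → ι → C → Prop) : Prop where
  symm : ∀ u a w b, M u a w b → M w b u a
  uniq : ∀ u a w b b', M u a w b → M u a w b' → b = b'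

/-- the number of conflicting neighbours that are not later -/
noncomputable def cnt (R : ι → ι → Prop) (M : ι → C → ι → C → Prop) (S : Finset ι) (ψ : ι → C)
    (r : ι → ℕ) (i : ι) : ℕ :=
  #(S.filter fun j => R i j ∧ M i (ψ i) j (ψ j) ∧ r j ≤ r i)

/-- a choice of colours and an ordering that respect the weights -/
def Sol (R : ι → ι → Prop) (M : ι → C → ι → C → Prop) (S : Finset ι) (U : Finset C)
    (f : ι → C → ℕ) : Prop :=
  ∃ ψ : ι → C, ∃ r : ι → ℕ, ∀ i ∈ S, ψ i ∈ U ∧ cnt R M S ψ r i < f i (ψ i)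

/-- The set `S` can be coloured for all weights whose sum exceeds the degree inside `S` by `σ`. -/
def Red (R : ι → ι → Prop) (M : ι → C → ι → C → Prop) (S : Finset ι) (σ : ι → ℤ) : Prop :=
  ∀ (U : Finset C) (f : ι → C → ℕ), (∀ i a, f i a ≤ 2) →
    (∀ i ∈ S, σ i + #(S.filter (R i)) ≤ (∑ a ∈ U, f i a : ℕ)) → Sol R M S U f

variable {R : ι → ι → Prop} {M : ι → C → ι → C → Prop} {S : Finset ι} {σ : ι → ℤ}

lemma Red.empty [Inhabited C] : Red R M ∅ σ :=
  fun _ _ _ _ => ⟨fun _ => default, fun _ => 0, by simp⟩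

lemma Red.mono {σ' : ι → ℤ} (h : Red R M S σ) (hσ : ∀ i ∈ S, σ i ≤ σ' i) : Red R M S σ' :=
  fun U f h2 hL => h U f h2 fun i hi => by linarith [hL i hi, hσ i hi]

lemma card_filter_not_le {L : Finset C} {P : C → Prop} (h : ∀ b b', P b → P b' → b = b') :
    #L ≤ #(L.filter fun b => ¬ P b) + 1 := by
  have h1 := card_filter_add_card_filter_not (s := L) P
  have h2 : #(L.filter P) ≤ 1 := card_le_one.2 fun a ha b hb =>
    h a b (mem_filter.1 ha).2 (mem_filter.1 hb).2
  omega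

lemma unm {L T : Finset C} (h : #T < #L) {m : C → C → Prop}
    (hm : ∀ a a' b, m a b → m a' b → a = a') : ∃ a ∈ L, ∀ b ∈ T, ¬ m a b := by
  by_contra hc
  push Not at hc
  choose! g hg using hc
  have := card_le_card_of_injOn g (fun a ha => (hg a ha).1) fun a ha a' ha' e =>
    hm a a' (g a) (hg a ha).2 (e ▸ (hg a' ha').2)
  omega

lemma av1 {L : Finset C} (h : 2 ≤ #L) {P : C → Prop} (hP : ∀ b b', P b → P b' → b = b') :
    ∃ b ∈ L, ¬ P b := by
  have := card_filter_not_le (L := L) hP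
  obtain ⟨b, hb⟩ := card_pos.1 (show 0 < #(L.filter fun b => ¬ P b) by omega)
  exact ⟨b, mem_filter.1 hb⟩

lemma av2 {L : Finset C} (h : 3 ≤ #L) {P Q : C → Prop} (hP : ∀ b b', P b → P b' → b = b')
    (hQ : ∀ b b', Q b → Q b' → b = b') : ∃ b ∈ L, ¬ P b ∧ ¬ Q b := by
  have := card_filter_not_le (L := L) hP
  obtain ⟨b, hb, h2⟩ := av1 (L := L.filter fun b => ¬ P b) (by omega) hQ
  exact ⟨b, (mem_filter.1 hb).1, (mem_filter.1 hb).2, h2⟩

lemma card_le_add {S S' : Finset ι} {P P' : ι → Prop} [DecidablePred P] [DecidablePred P']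
    (l : List ι) (h : ∀ j ∈ S, P j → j ∈ l ∨ (j ∈ S' ∧ P' j)) :
    #(S.filter P) ≤ #(S'.filter P') + (l.map fun j => ind (P j)).sum := by
  have h1 : #(l.toFinset.filter P) ≤ (l.map fun j => ind (P j)).sum := by
    clear h
    induction l with
    | nil => simp
    | cons a l ih =>
      rw [List.toFinset_cons, filter_insert, List.map_cons, List.sum_cons, ind]
      split_ifs
      · exact (card_insert_le _ _).trans (by omega)
      · omega
  refine le_trans (card_le_card (t := S'.filter P' ∪ l.toFinset.filter P) fun j hj => ?_)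
    ((card_union_le _ _).trans (by omega))
  simp only [mem_filter, mem_union, List.mem_toFinset] at hj ⊢
  exact (h j hj.1 hj.2).symm.imp id fun a => ⟨a, hj.2⟩

lemma lose (U : Finset C) (g : C → ℕ) (p : Prop) {Q : C → Prop}
    (hQ : ∀ b b', Q b → Q b' → b = b') :
    ∑ b ∈ U, g b ≤ ∑ b ∈ U, (g b - ind (p ∧ Q b)) + ind p := by
  have h1 : ∑ b ∈ U, ind (p ∧ Q b) ≤ ind p := by
    by_cases hp : p
    · simp only [ind, hp, true_and, if_true, sum_boole, Nat.cast_id]
      exact card_le_one.2 fun a ha b hb => hQ a b (mem_filter.1 ha).2 (mem_filter.1 hb).2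
    · simp [ind, hp]
  refine le_trans (sum_le_sum fun b _ => ?_) (sum_add_distrib.trans_le (Nat.add_le_add_left h1 _))
  omega

lemma pick {U : Finset C} {g : C → ℕ} (h2 : ∀ a, g a ≤ 2) {N : ℕ} (h0 : 0 < N)
    (hN : N ≤ ∑ a ∈ U, g a) : ∃ p ≤ N / 2, ∃ col : ℕ → C,
      (∀ i, 0 < wt p (N - p) i → col i ∈ U ∧ wt p (N - p) i ≤ g (col i)) ∧
      (∀ i j, 0 < wt p (N - p) i → 0 < wt p (N - p) j → col i = col j → i = j) ∧
      (p = 0 → N ≤ #(U.filter fun a => 1 ≤ g a)) := by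
  obtain ⟨d, -⟩ : U.Nonempty := by
    rw [nonempty_iff_ne_empty]
    rintro rfl
    simp at hN
    omega
  set T2 := U.filter fun a => g a = 2
  set T1 := U.filter fun a => g a = 1
  have hs : ∑ a ∈ U, g a ≤ 2 * #T2 + #T1 := by
    rw [card_filter, card_filter, mul_sum, ← sum_add_distrib]
    refine sum_le_sum fun a _ => ?_
    have := h2 a
    split_ifs <;> omega
  have dj : Disjoint T2 T1 := disjoint_filter.2 fun a _ h => by omega
  let l := T2.toList ++ T1.toList
  have nd : l.Nodup := List.Nodup.append T2.nodup_toList T1.nodup_toList fun a h h' =>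
    disjoint_left.1 dj (mem_toList.1 h) (mem_toList.1 h')
  have len : l.length = #T2 + #T1 := by simp [l]
  have hw : ∀ i, 0 < wt (min #T2 (N / 2)) (N - min #T2 (N / 2)) i → i < l.length := fun i h => by
    simp only [wt, Bool.cond_eq_ite, Nat.blt_eq] at h
    split_ifs at h <;> omega
  refine ⟨min #T2 (N / 2), min_le_right _ _, fun i => l.getD i d, fun i h => ?_,
    fun i j hi hj e => ?_, fun h => ?_⟩
  · have hi := hw i h
    simp only [List.getD_eq_getElem _ _ hi]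
    by_cases c : i < #T2
    · have : l[i] ∈ T2 := by
        rw [List.getElem_append_left (by simpa using c)]
        exact mem_toList.1 (List.getElem_mem _)
      refine ⟨(mem_filter.1 this).1, ?_⟩
      rw [(mem_filter.1 this).2]
      simp only [wt, Bool.cond_eq_ite]
      split_ifs <;> omega
    · have : l[i] ∈ T1 := by
        rw [List.getElem_append_right (by simpa using c)]
        exact mem_toList.1 (List.getElem_mem _)
      refine ⟨(mem_filter.1 this).1, ?_⟩
      rw [(mem_filter.1 this).2]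
      simp only [wt, Bool.cond_eq_ite, Nat.blt_eq]
      split_ifs <;> omega
  · simp only [List.getD_eq_getElem _ _ (hw i hi), List.getD_eq_getElem _ _ (hw j hj)] at e
    exact (nd.getElem_inj_iff).1 e
  · have : #T2 + #T1 ≤ #(U.filter fun a => 1 ≤ g a) := by
      rw [← card_union_of_disjoint dj]
      refine card_le_card fun a ha => ?_
      simp only [T1, T2, mem_union, mem_filter] at ha ⊢
      exact ⟨by tauto, by omega⟩
    omega

lemma wheel (hM : Mat M) (z c y o x : ι) {Z Lc Ly Lo Lx : Finset C} (hz : 3 ≤ #Z) (hc : 4 ≤ #Lc)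
    (hy : 2 ≤ #Ly) (ho : 3 ≤ #Lo) (hx : 2 ≤ #Lx) :
    ∃ a ∈ Z, ∃ k ∈ Lc, ∃ b ∈ Ly, ∃ d ∈ Lo, ∃ e ∈ Lx, ¬ M c k z a ∧ ¬ M c k y b ∧ ¬ M c k o d ∧
      ¬ M c k x e ∧ ¬ M y b z a ∧ ¬ M y b o d ∧ ¬ M x e o d ∧ ¬ M x e z a := by
  obtain ⟨Z, sZ, hz⟩ := exists_subset_card_eq hz
  obtain ⟨Y, sY, hy⟩ := exists_subset_card_eq hy
  obtain ⟨O, sO, ho⟩ := exists_subset_card_eq ho
  obtain ⟨X, sX, hx⟩ := exists_subset_card_eq hx
  suffices ∃ a ∈ Z, ∃ k ∈ Lc, ∃ b ∈ Y, ∃ d ∈ O, ∃ e ∈ X, ¬ M c k z a ∧ ¬ M c k y b ∧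
      ¬ M c k o d ∧ ¬ M c k x e ∧ ¬ M y b z a ∧ ¬ M y b o d ∧ ¬ M x e o d ∧ ¬ M x e z a by
    obtain ⟨a, h1, k, h2, b, h3, d, h4, e, h5, h⟩ := this
    exact ⟨a, sZ h1, k, h2, b, sY h3, d, sO h4, e, sX h5, h⟩
  have U : ∀ u a w b b', M u a w b → M u a w b' → b = b' := hM.uniq
  have U' : ∀ u w a a' b, M u a w b → M u a' w b → a = a' := fun u w a a' b m m' =>
    hM.uniq _ _ _ _ _ (hM.symm _ _ _ _ m) (hM.symm _ _ _ _ m')
  have key : ∀ (z y o x : ι) (Z Y O X : Finset C), #Z = 3 → #Y = 2 → #O = 3 → #X = 2 →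
      ∀ k, (∀ d ∈ O, ¬ M c k o d) → (∀ e ∈ X, ¬ M c k x e) →
      ∃ a ∈ Z, ∃ b ∈ Y, ∃ d ∈ O, ∃ e ∈ X, ¬ M c k z a ∧ ¬ M c k y b ∧
      ¬ M c k o d ∧ ¬ M c k x e ∧ ¬ M y b z a ∧ ¬ M y b o d ∧ ¬ M x e o d ∧ ¬ M x e z a := by
    intro z y o x Z Y O X hz hy ho hx k h1 h2
    obtain ⟨b, b1, b2⟩ := av1 hy.ge (U c k y)
    obtain ⟨a, a1, a2, a3⟩ := av2 hz.ge (U c k z) (U y b z)
    obtain ⟨e, e1, e2⟩ := av1 hx.ge (P := fun e => M x e z a) fun e e' => U' _ _ _ _ _
    obtain ⟨d, d1, d2, d3⟩ := av2 ho.ge (U y b o) (U x e o)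
    exact ⟨a, a1, b, b1, d, d1, e, e1, a2, b2, h1 d d1, h2 e e1, a3, d2, d3, e2⟩
  obtain ⟨k, k1, k2⟩ := unm (L := Lc) (T := O) (by omega) (U' c o)
  obtain ⟨l, l1, l2⟩ := unm (L := Lc) (T := Z) (by omega) (U' c z)
  by_cases c1 : ∀ e ∈ X, ¬ M c k x e
  · obtain ⟨a, h1, b, h3, d, h4, e, h5, h⟩ := key z y o x Z Y O X hz hy ho hx k k2 c1
    exact ⟨a, h1, k, k1, b, h3, d, h4, e, h5, h⟩
  by_cases c2 : ∀ e ∈ Y, ¬ M c k y e
  · obtain ⟨a, h1, b, h3, d, h4, e, h5, h⟩ := key z x o y Z X O Y hz hx ho hy k k2 c2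
    exact ⟨a, h1, k, k1, e, h5, d, h4, b, h3, by tauto⟩
  by_cases c3 : ∀ e ∈ X, ¬ M c l x e
  · obtain ⟨a, h1, b, h3, d, h4, e, h5, h⟩ := key o y z x O Y Z X ho hy hz hx l l2 c3
    exact ⟨d, h4, l, l1, b, h3, a, h1, e, h5, by tauto⟩
  by_cases c4 : ∀ e ∈ Y, ¬ M c l y e
  · obtain ⟨a, h1, b, h3, d, h4, e, h5, h⟩ := key o x z y O X Z Y ho hx hz hy l l2 c4
    exact ⟨d, h4, l, l1, e, h5, a, h1, b, h3, by tauto⟩
  by_cases kl : k = l
  · subst kl
    obtain ⟨b, b1, b2⟩ := av1 hy.ge (U c k y)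
    obtain ⟨e, e1, e2⟩ := av1 hx.ge (U c k x)
    obtain ⟨a, a1, a2, a3⟩ := av2 hz.ge (U y b z) (U x e z)
    obtain ⟨d, d1, d2, d3⟩ := av2 ho.ge (U y b o) (U x e o)
    exact ⟨a, a1, k, k1, b, b1, d, d1, e, e1, l2 a a1, b2, k2 d d1, e2, a2, d2, d3, a3⟩
  obtain ⟨d, d1, d2⟩ := unm (L := O) (T := Y) (m := fun d b => M y b o d) (by omega)
    fun d d' b => U _ _ _ _ _
  obtain ⟨t, t1, t2⟩ := av1 (L := (Lc.erase k).erase l) (P := fun t => M c t o d)
    (by rw [card_erase_of_mem (mem_erase.2 ⟨Ne.symm kl, l1⟩), card_erase_of_mem k1]; omega)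
    fun t t' => U' _ _ _ _ _
  simp only [mem_erase] at t1
  have three : ∀ (w : ι) (W : Finset C), #W = 2 → ¬ (∀ e ∈ W, ¬ M c k w e) →
      ¬ (∀ e ∈ W, ¬ M c l w e) → ∀ e ∈ W, ¬ M c t w e := by
    intro w W hW n1 n2
    obtain ⟨s, s1, s2⟩ := unm (L := {k, l, t}) (T := W)
      (by rw [card_eq_three.2 ⟨k, l, t, kl, Ne.symm t1.2.1, Ne.symm t1.1, rfl⟩]; omega) (U' c w)
    simp only [mem_insert, mem_singleton] at s1
    rcases s1 with rfl | rfl | rfl
    exacts [absurd s2 n1, absurd s2 n2, s2]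
  obtain ⟨e, e1, e2⟩ := av1 hx.ge (P := fun e => M x e o d) fun e e' => U' _ _ _ _ _
  obtain ⟨a, a1, a2, a3⟩ := av2 hz.ge (U c t z) (U x e z)
  obtain ⟨b, b1, b2⟩ := av1 hy.ge (P := fun b => M y b z a) fun e e' => U' _ _ _ _ _
  exact ⟨a, a1, t, t1.2.2, b, b1, d, d1, e, e1, a2, three y Y hy c2 c4 b b1, t2,
    three x X hx c1 c3 e e1, b2, d2 b b1, e2, a3⟩

/-- the wheel can be completed when `z` has colour `a` and weight `t` -/
def WEx (M : ι → C → ι → C → Prop) (U : Finset C) (f : ι → C → ℕ) (z c y o x : ι) (a : C)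
    (t : ℕ) : Prop :=
  ∃ k ∈ U, ∃ b ∈ U, ∃ d ∈ U, ∃ e ∈ U, ∃ rz rc ry ro rx : ℕ,
    ind (M c k z a ∧ rc ≤ rz) + ind (M z a y b ∧ ry ≤ rz) + ind (M x e z a ∧ rx ≤ rz) < t ∧
    ind (M c k z a ∧ rz ≤ rc) + ind (M c k y b ∧ ry ≤ rc) + ind (M c k o d ∧ ro ≤ rc) +
      ind (M c k x e ∧ rx ≤ rc) < f c k ∧
    ind (M c k y b ∧ rc ≤ ry) + ind (M z a y b ∧ rz ≤ ry) + ind (M y b o d ∧ ro ≤ ry) < f y b ∧
    ind (M c k o d ∧ rc ≤ ro) + ind (M y b o d ∧ ry ≤ ro) + ind (M o d x e ∧ rx ≤ ro) < f o d ∧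
    ind (M c k x e ∧ rc ≤ rx) + ind (M o d x e ∧ ro ≤ rx) + ind (M x e z a ∧ rz ≤ rx) < f x e

lemma wheel2 (hM : Mat M) (z c y o x : ι) {U : Finset C} {f : ι → C → ℕ} {g : C → ℕ}
    (f2 : ∀ i a, f i a ≤ 2) (g2 : ∀ a, g a ≤ 2) (hz : 3 ≤ ∑ a ∈ U, g a)
    (hc : 4 ≤ ∑ a ∈ U, f c a) (hy : 2 ≤ ∑ a ∈ U, f y a) (ho : 3 ≤ ∑ a ∈ U, f o a)
    (hx : 2 ≤ ∑ a ∈ U, f x a) : ∃ a ∈ U, WEx M U f z c y o x a (g a) := by
  obtain ⟨pz, z1, cz, z2, z3, z4⟩ := pick g2 (by omega) hz
  obtain ⟨pc, c1, cc, c2, c3, c4⟩ := pick (f2 c) (by omega) hc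
  obtain ⟨py, y1, cy, y2, y3, y4⟩ := pick (f2 y) (by omega) hy
  obtain ⟨po, o1, co, o2, o3, o4⟩ := pick (f2 o) (by omega) ho
  obtain ⟨px, x1, cx, x2, x3, x4⟩ := pick (f2 x) (by omega) hx
  by_cases h0 : pz + 2 * py + 4 * po + 8 * px + 16 * pc = 0
  · obtain ⟨a, h1, k, h2, b, h3, d, h4, e, h5, m1, m2, m3, m4, m5, m6, m7, m8⟩ :=
      wheel hM z c y o x (z4 (by omega)) (c4 (by omega)) (y4 (by omega)) (o4 (by omega))
        (x4 (by omega))
    simp only [mem_filter] at h1 h2 h3 h4 h5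
    have m9 : ¬ M z a y b := fun m => m5 (hM.symm _ _ _ _ m)
    have m10 : ¬ M o d x e := fun m => m7 (hM.symm _ _ _ _ m)
    refine ⟨a, h1.1, k, h2.1, b, h3.1, d, h4.1, e, h5.1, 0, 0, 0, 0, 0, ?_⟩
    simp only [ind, m1, m2, m3, m4, m6, m8, m9, m10, false_and, if_false]
    omega
  obtain ⟨cd, hcd⟩ := tr_all _ h0 (by omega)
  set K := pz + 2 * py + 4 * po + 8 * px + 16 * pc with hK
  have e0 : wts K 0 = wt pz (3 - pz) := by
    have : twos K 0 = pz := by simp only [twos, List.getD_cons_zero]; omega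
    funext i; rw [wts, this]; rfl
  have e1 : wts K 1 = wt pc (4 - pc) := by
    have : twos K 1 = pc := by simp only [twos, List.getD_cons_succ, List.getD_cons_zero]; omega
    funext i; rw [wts, this]; rfl
  have e2 : wts K 2 = wt py (2 - py) := by
    have : twos K 2 = py := by simp only [twos, List.getD_cons_succ, List.getD_cons_zero]; omega
    funext i; rw [wts, this]; rfl
  have e3 : wts K 3 = wt po (3 - po) := by
    have : twos K 3 = po := by simp only [twos, List.getD_cons_succ, List.getD_cons_zero]; omega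
    funext i; rw [wts, this]; rfl
  have e4 : wts K 4 = wt px (2 - px) := by
    have : twos K 4 = px := by simp only [twos, List.getD_cons_succ, List.getD_cons_zero]; omega
    funext i; rw [wts, this]; rfl
  obtain ⟨t, r, hp, q0, q1, q2, q3, q4⟩ := wheel_fin hM.symm hM.uniq
    (fun v => [z, c, y, o, x].getD v z) (fun v => [cz, cc, cy, co, cx].getD v cz) (fun v hv => by
      interval_cases v
      · rw [e0]; exact z3
      · rw [e1]; exact c3
      · rw [e2]; exact y3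
      · rw [e3]; exact o3
      · rw [e4]; exact x3) hcd
  have p0 := hp 0 (by omega)
  have p1 := hp 1 (by omega)
  have p2 := hp 2 (by omega)
  have p3 := hp 3 (by omega)
  have p4 := hp 4 (by omega)
  simp only [e0, e1, e2, e3, e4] at p0 p1 p2 p3 p4 q0 q1 q2 q3 q4
  exact ⟨_, (z2 _ p0).1, _, (c2 _ p1).1, _, (y2 _ p2).1, _, (o2 _ p3).1, _, (x2 _ p4).1,
    r 0, r 1, r 2, r 3, r 4, q0.trans_le (z2 _ p0).2, q1.trans_le (c2 _ p1).2,
    q2.trans_le (y2 _ p2).2, q3.trans_le (o2 _ p3).2, q4.trans_le (x2 _ p4).2⟩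

variable [DecidableEq ι]

lemma card_erase_filter {u : ι} (hu : u ∈ S) (i : ι) :
    (#(S.filter (R i)) : ℤ) = #((S.erase u).filter (R i)) + if R i u then 1 else 0 := by
  conv_lhs => rw [← insert_erase hu, filter_insert]
  split_ifs
  · rw [card_insert_of_notMem (by simp)]; push_cast; ring
  · simp

lemma stepA (hM : Mat M) (hi : ∀ i, ¬ R i i) (u : ι) {U : Finset C} {f : ι → C → ℕ} {a : C}
    (ha : a ∈ U) (h1 : 1 ≤ f u a) {ψ : ι → C} {r : ι → ℕ} (h : ∀ i ∈ S.erase u, ψ i ∈ U ∧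
      cnt R M (S.erase u) ψ r i + ind (R i u ∧ M u a i (ψ i)) < f i (ψ i)) : Sol R M S U f := by
  refine ⟨Function.update ψ u a, fun j => if j = u then 0 else r j + 1, fun i hi' => ?_⟩
  by_cases e : i = u
  · subst e
    rw [Function.update_self]
    refine ⟨ha, lt_of_le_of_lt (card_le_add (S' := ∅) (P' := fun _ => False) [] ?_) (by simpa)⟩
    rintro j - ⟨a1, -, a3⟩
    by_cases e' : j = i
    · exact absurd (e' ▸ a1) (hi _)
    · simp [e'] at a3
  · obtain ⟨h2, h3⟩ := h i (mem_erase.2 ⟨e, hi'⟩)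
    rw [Function.update_of_ne e]
    refine ⟨h2, lt_of_le_of_lt (le_trans (card_le_add [u] ?_) (Nat.add_le_add_left ?_ _)) h3⟩
    · rintro j hj ⟨a1, a2, a3⟩
      by_cases e' : j = u
      · simp [e']
      · simp only [Function.update_of_ne e, Function.update_of_ne e', if_neg e, if_neg e'] at a2 a3
        exact Or.inr ⟨mem_erase.2 ⟨e', hj⟩, a1, a2, by omega⟩
    · simp only [List.map_cons, List.map_nil, List.sum_cons, List.sum_nil, add_zero,
        Function.update_of_ne e, Function.update_self]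
      exact ind_mono fun h => ⟨h.1, hM.symm _ _ _ _ h.2.1⟩

lemma stepB (hM : Mat M) (hs : ∀ i j, R i j → R j i) (hi : ∀ i, ¬ R i i) (u : ι) {w : ι}
    (hw : w ∈ S.erase u) {U : Finset C} {f : ι → C → ℕ} {a : C} (ha : a ∈ U) (h1 : 2 ≤ f u a)
    {ψ : ι → C} {r : ι → ℕ} (h0 : cnt R M (S.erase u) ψ r w = 0) (hw1 : ψ w ∈ U)
    (hw2 : 1 ≤ f w (ψ w)) (h : ∀ i ∈ S.erase u, i ≠ w → ψ i ∈ U ∧
      cnt R M (S.erase u) ψ r i + ind (R i u ∧ M u a i (ψ i)) < f i (ψ i)) : Sol R M S U f := by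
  have wu : w ≠ u := (mem_erase.1 hw).1
  refine ⟨Function.update ψ u a, fun j => if j = w then 0 else if j = u then 1 else r j + 2,
    fun i hi' => ?_⟩
  by_cases e : i = u
  · subst e
    rw [Function.update_self]
    refine ⟨ha, lt_of_le_of_lt (card_le_one.2 fun j hj k hk => ?_) h1⟩
    have key : ∀ j, R i j → (if j = w then 0 else if j = i then 1 else r j + 2) ≤
        (if i = w then 0 else if i = i then 1 else r i + 2) → j = w := fun j a1 a3 => by
      by_contra e1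
      have e2 : j ≠ i := fun e' => hi _ (e' ▸ a1)
      simp [e1, e2, wu.symm] at a3
    rw [key j (mem_filter.1 hj).2.1 (mem_filter.1 hj).2.2.2,
      key k (mem_filter.1 hk).2.1 (mem_filter.1 hk).2.2.2]
  rw [Function.update_of_ne e]
  by_cases e1 : i = w
  · subst e1
    refine ⟨hw1, lt_of_le_of_lt (card_le_add (S' := ∅) (P' := fun _ => False) [] ?_) (by simpa)⟩
    rintro j - ⟨a1, -, a3⟩
    by_cases e' : j = i
    · exact absurd (e' ▸ a1) (hi _)
    · simp only [if_neg e', if_true] at a3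
      split_ifs at a3 <;> omega
  · obtain ⟨h2, h3⟩ := h i (mem_erase.2 ⟨e, hi'⟩) e1
    refine ⟨h2, lt_of_le_of_lt (le_trans (card_le_add [u] ?_) (Nat.add_le_add_left ?_ _)) h3⟩
    · rintro j hj ⟨a1, a2, a3⟩
      by_cases e' : j = u
      · simp [e']
      · simp only [Function.update_of_ne e, Function.update_of_ne e', if_neg e, if_neg e',
          if_neg e1] at a2 a3
        refine Or.inr ⟨mem_erase.2 ⟨e', hj⟩, a1, a2, ?_⟩
        by_cases e2 : j = w
        · subst e2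
          by_contra hc
          exact filter_eq_empty_iff.1 (card_eq_zero.1 h0) (mem_erase.2 ⟨e, hi'⟩)
            ⟨hs _ _ a1, hM.symm _ _ _ _ a2, by omega⟩
        · rw [if_neg e2] at a3
          omega
    · simp only [List.map_cons, List.map_nil, List.sum_cons, List.sum_nil, add_zero,
        Function.update_of_ne e, Function.update_self]
      exact ind_mono fun h => ⟨h.1, hM.symm _ _ _ _ h.2.1⟩

lemma colour (hM : Mat M) (hi : ∀ i, ¬ R i i) {u : ι} (hu : u ∈ S) {σ' : ι → ℤ}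
    (h : Red R M (S.erase u) σ') {U : Finset C} {f : ι → C → ℕ} (f2 : ∀ i a, f i a ≤ 2)
    (h1 : 1 ≤ ∑ a ∈ U, f u a)
    (hL : ∀ i ∈ S.erase u, σ' i + #(S.filter (R i)) ≤ (∑ a ∈ U, f i a : ℕ)) : Sol R M S U f := by
  obtain ⟨a, ha, h2⟩ := exists_ne_zero_of_sum_ne_zero (show ∑ a ∈ U, f u a ≠ 0 by omega)
  obtain ⟨ψ, r, q⟩ := h U (fun i b => f i b - ind (R i u ∧ M u a i b))
    (fun i b => (Nat.sub_le _ _).trans (f2 i b)) fun i hi => by
      have := hL i hi
      have := card_erase_filter (R := R) hu i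
      have := lose U (f i) (R i u) (hM.uniq u a i)
      unfold ind at *
      split_ifs at * <;> omega
  refine stepA hM hi u ha (by omega) (ψ := ψ) (r := r) fun i hi => ⟨(q i hi).1, ?_⟩
  have := (q i hi).2
  beta_reduce at this
  omega

lemma Red.col (hM : Mat M) (_hs : ∀ i j, R i j → R j i) (hi : ∀ i, ¬ R i i) {u : ι} (hu : u ∈ S)
    (h1 : 1 ≤ σ u + #(S.filter (R u))) (h : Red R M (S.erase u) σ) : Red R M S σ :=
  fun _ _ f2 hL => colour hM hi hu h f2 (by have := hL u hu; omega)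
    fun i hi => hL i (mem_erase.1 hi).2

lemma Red.save (hM : Mat M) (hs : ∀ i j, R i j → R j i) (hi : ∀ i, ¬ R i i) {u w : ι}
    (hu : u ∈ S) (hw : w ∈ S) (uw : R u w) (h1 : 1 ≤ σ u + #(S.filter (R u)))
    (h2 : σ w + #(S.filter (R w)) < σ u + #(S.filter (R u)))
    (h : Red R M (S.erase u) fun k => if k = w then σ k + 1 else σ k) : Red R M S σ := by
  intro U f f2 hL
  have wu : w ≠ u := fun e => hi u (e ▸ uw)
  have hw' : w ∈ S.erase u := mem_erase.2 ⟨wu, hw⟩
  by_cases big : σ w + 1 + #(S.filter (R w)) ≤ (∑ a ∈ U, f w a : ℕ)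
  · refine colour hM hi hu h f2 (by have := hL u hu; omega) fun i hi => ?_
    split_ifs with e
    · rw [e]; exact big
    · exact hL i (mem_erase.1 hi).2
  obtain ⟨a, ha, a1, a2⟩ : ∃ a ∈ U, 1 ≤ f u a ∧ ∀ b ∈ U, M u a w b → f w b < f u a := by
    by_contra hc
    push Not at hc
    choose! g g1 g2 g3 using hc
    have e1 : ∑ a ∈ U, f u a = ∑ a ∈ U.filter fun a => 1 ≤ f u a, f u a :=
      (sum_filter_of_ne fun a _ h => by omega).symm
    have e2 : ∑ a ∈ U.filter fun a => 1 ≤ f u a, f u a ≤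
        ∑ a ∈ U.filter fun a => 1 ≤ f u a, f w (g a) :=
      sum_le_sum fun a ha => g3 a (mem_filter.1 ha).1 (mem_filter.1 ha).2
    have e3 : ∑ a ∈ U.filter fun a => 1 ≤ f u a, f w (g a) ≤ ∑ b ∈ U, f w b := by
      rw [← sum_image (f := f w) (g := g) fun a ha a' ha' (e : g a = g a') => hM.uniq _ _ _ _ _
        (hM.symm _ _ _ _ (g2 a (mem_filter.1 ha).1 (mem_filter.1 ha).2))
        (e ▸ hM.symm _ _ _ _ (g2 a' (mem_filter.1 ha').1 (mem_filter.1 ha').2))]
      refine sum_le_sum_of_subset fun b hb => ?_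
      obtain ⟨a, ha, rfl⟩ := mem_image.1 hb
      exact g1 a (mem_filter.1 ha).1 (mem_filter.1 ha).2
    have := hL u hu
    omega
  obtain ⟨ψ, r, q⟩ := h U (fun i b => f i b - ind ((i ≠ w ∧ R i u) ∧ M u a i b))
    (fun i b => (Nat.sub_le _ _).trans (f2 i b)) fun i hi => by
      have := hL i (mem_erase.1 hi).2
      have := card_erase_filter (R := R) hu i
      have := lose U (f i) (i ≠ w ∧ R i u) (hM.uniq u a i)
      by_cases e : i = w
      · subst e
        simp only [hs _ _ uw, if_true, ind, ne_eq, not_true, false_and, if_false] at *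
        omega
      · simp only [e, if_false, ind, ne_eq, not_false_eq_true, true_and] at *
        split_ifs at * <;> omega
  have q' : ∀ i ∈ S.erase u, i ≠ w → ψ i ∈ U ∧
      cnt R M (S.erase u) ψ r i + ind (R i u ∧ M u a i (ψ i)) < f i (ψ i) := fun i hi e => by
    have := (q i hi).2
    simp only [ne_eq, e, not_false_eq_true, true_and] at this
    exact ⟨(q i hi).1, by omega⟩
  have qw := q w hw'
  simp only [ne_eq, not_true, false_and, ind, if_false, Nat.sub_zero] at qw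
  by_cases m : M u a w (ψ w)
  · have := a2 _ qw.1 m
    have := f2 u a
    exact stepB hM hs hi u hw' ha (by omega) (ψ := ψ) (r := r) (by omega) qw.1 (by omega) q'
  · refine stepA hM hi u ha a1 (ψ := ψ) (r := r) fun i hi => ?_
    by_cases e : i = w
    · subst e
      rw [ind_false fun h => m h.2]
      exact qw
    · exact q' i hi e

lemma Red.absorb (hM : Mat M) (hs : ∀ i j, R i j → R j i) (hi : ∀ i, ¬ R i i) {z c y o x : ι}
    (hz : z ∈ S) (hc : c ∈ S) (hy : y ∈ S) (ho : o ∈ S) (hx : x ∈ S)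
    (nd : [z, c, y, o, x].Nodup) (zc : R z c) (zy : R z y) (zx : R z x)
    (zo : ¬ R z o) (yx : ¬ R y x)
    (cl : ∀ k ∈ S, k ∉ [z, c, y, o, x] → ¬ R c k ∧ ¬ R y k ∧ ¬ R o k ∧ ¬ R x k)
    (bc : 4 ≤ σ c + #(S.filter (R c))) (by' : 2 ≤ σ y + #(S.filter (R y)))
    (bo : 3 ≤ σ o + #(S.filter (R o))) (bx : 2 ≤ σ x + #(S.filter (R x)))
    (h : Red R M ((((S.erase c).erase y).erase o).erase x)
      fun k => if k = z then σ k + 1 else σ k) : Red R M S σ := by
  intro U f f2 hL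
  simp only [List.nodup_cons, List.mem_cons, List.not_mem_nil, or_false, not_or,
    not_false_eq_true, List.nodup_nil, and_true] at nd
  obtain ⟨⟨n1, n2, n3, n4⟩, ⟨n5, n6, n7⟩, ⟨n8, n9⟩, n10⟩ := nd
  let g : C → ℕ := fun a => Nat.findGreatest (fun t => ¬ WEx M U f z c y o x a t) (f z a)
  have g1 : ∀ a, g a ≤ f z a := fun a => Nat.findGreatest_le _
  have bad : ∑ a ∈ U, g a ≤ 2 := by
    by_contra hb
    obtain ⟨a, -, a2⟩ := wheel2 hM z c y o x (U := U) (g := g) f2
      (fun a => (g1 a).trans (f2 z a)) (by omega) (by have := hL c hc; omega)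
      (by have := hL y hy; omega) (by have := hL o ho; omega) (by have := hL x hx; omega)
    refine Nat.findGreatest_spec (P := fun t => ¬ WEx M U f z c y o x a t) (Nat.zero_le _) ?_ a2
    rintro ⟨k, -, b, -, d, -, e, -, rz, rc, ry, ro, rx, q, -⟩
    omega
  have m1 : y ∈ S.erase c := mem_erase.2 ⟨Ne.symm n5, hy⟩
  have m2 : o ∈ (S.erase c).erase y := mem_erase.2 ⟨Ne.symm n8, mem_erase.2 ⟨Ne.symm n6, ho⟩⟩
  have m3 : x ∈ ((S.erase c).erase y).erase o :=
    mem_erase.2 ⟨Ne.symm n10, mem_erase.2 ⟨Ne.symm n9, mem_erase.2 ⟨Ne.symm n7, hx⟩⟩⟩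
  obtain ⟨ψ, r, p⟩ := h U (Function.update f z fun a => f z a - g a) (fun i a => by
    by_cases e : i = z
    · rw [e, Function.update_self]
      exact (Nat.sub_le _ _).trans (f2 z a)
    · rw [Function.update_of_ne e]
      exact f2 i a) (by
    intro i hi
    have e1 := card_erase_filter (R := R) hc i
    have e2 := card_erase_filter (R := R) m1 i
    have e3 := card_erase_filter (R := R) m2 i
    have e4 := card_erase_filter (R := R) m3 i
    have e5 := hL i (mem_of_mem_erase (mem_of_mem_erase (mem_of_mem_erase (mem_of_mem_erase hi))))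
    by_cases e : i = z
    · subst e
      have : ∑ a ∈ U, f i a = ∑ a ∈ U, (f i a - g a) + ∑ a ∈ U, g a := by
        rw [← sum_add_distrib]
        exact sum_congr rfl fun a _ => (Nat.sub_add_cancel (g1 a)).symm
      simp only [zc, zy, zx, zo, if_true, if_false, Function.update_self] at *
      omega
    · simp only [e, if_false, Function.update_of_ne e]
      split_ifs at e1 e2 e3 e4 <;> omega)
  set S' := (((S.erase c).erase y).erase o).erase x with hS'
  have zS : z ∈ S' := by simp [hS', n1, n2, n3, n4, hz]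
  obtain ⟨pz1, pz2⟩ := p z zS
  rw [Function.update_self] at pz2
  obtain ⟨k, k1, b, b1, d, d1, e, e1, rz, rc, ry, ro, rx, q0, q1, q2, q3, q4⟩ :
      WEx M U f z c y o x (ψ z) (g (ψ z) + 1) :=
    not_not.1 (Nat.findGreatest_is_greatest (P := fun t => ¬ WEx M U f z c y o x (ψ z) t)
      (Nat.lt_succ_self _) (show g (ψ z) + 1 ≤ f z (ψ z) by omega))
  let F : ℕ → ℕ := fun n => if n < rz then n else n + r z + 1
  have F1 : ∀ n n', F n ≤ F n' → n ≤ n' := fun n n' h => by
    simp only [F] at h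
    split_ifs at h <;> omega
  have F2 : ∀ n, F n ≤ r z + rz → n ≤ rz := fun n h => by
    simp only [F] at h
    split_ifs at h <;> omega
  have F3 : ∀ n, r z + rz ≤ F n → rz ≤ n := fun n h => by
    simp only [F] at h
    split_ifs at h <;> omega
  let ψ' : ι → C := fun i => if i = c then k else if i = y then b else if i = o then d else
    if i = x then e else ψ i
  let r' : ι → ℕ := fun i => if i = c then F rc else if i = y then F ry else if i = o then F ro
    else if i = x then F rx else r i + rz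
  have vc : ψ' c = k ∧ r' c = F rc := by simp [ψ', r']
  have vy : ψ' y = b ∧ r' y = F ry := by simp [ψ', r', Ne.symm n5]
  have vo : ψ' o = d ∧ r' o = F ro := by simp [ψ', r', Ne.symm n6, Ne.symm n8]
  have vx : ψ' x = e ∧ r' x = F rx := by simp [ψ', r', Ne.symm n7, Ne.symm n9, Ne.symm n10]
  have vS : ∀ i ∈ S', ψ' i = ψ i ∧ r' i = r i + rz := fun i hi => by
    simp only [hS', mem_erase] at hi
    simp [ψ', r', hi.1, hi.2.1, hi.2.2.1, hi.2.2.2.1]
  have cs : ∀ i ∈ S, i = c ∨ i = y ∨ i = o ∨ i = x ∨ i ∈ S' := fun i hi => by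
    simp only [hS', mem_erase]
    tauto
  have out : ∀ i ∈ S', i ≠ z → ¬ R c i ∧ ¬ R y i ∧ ¬ R o i ∧ ¬ R x i := fun i hi e => by
    simp only [hS', mem_erase] at hi
    exact cl i hi.2.2.2.2 (by simp [e, hi.1, hi.2.1, hi.2.2.1, hi.2.2.2.1])
  have rest : ∀ i ∈ S', ∀ j ∈ S', M i (ψ' i) j (ψ' j) → r' j ≤ r' i →
      M i (ψ i) j (ψ j) ∧ r j ≤ r i := fun i hi j hj a1 a2 => by
    rw [(vS i hi).1, (vS j hj).1] at a1
    rw [(vS i hi).2, (vS j hj).2] at a2
    exact ⟨a1, by omega⟩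
  have sy := hM.symm
  have vz := vS z zS
  refine ⟨ψ', r', fun i hi' => ?_⟩
  rcases cs i hi' with rfl | rfl | rfl | rfl | hS
  · refine ⟨vc.1 ▸ k1, lt_of_le_of_lt (le_trans (card_le_add (S' := ∅) (P' := fun _ => False)
      [z, y, o, x] ?_) ?_) (vc.1 ▸ q1)⟩
    · rintro j hj ⟨a1, -⟩
      rcases cs j hj with rfl | rfl | rfl | rfl | hS
      exacts [absurd a1 (hi _), by simp, by simp, by simp,
        Or.inl (by by_contra e; exact (out j hS (by rintro rfl; simp at e)).1 a1)]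
    · simp only [List.map_cons, List.map_nil, List.sum_cons, List.sum_nil, vc, vy, vo, vx, vz,
        filter_empty, card_empty, zero_add, add_zero, ← add_assoc]
      gcongr <;> exact ind_mono fun h => ⟨h.2.1, by first | exact F1 _ _ h.2.2 | exact F3 _ h.2.2⟩
  · refine ⟨vy.1 ▸ b1, lt_of_le_of_lt (le_trans (card_le_add (S' := ∅) (P' := fun _ => False)
      [c, z, o] ?_) ?_) (vy.1 ▸ q2)⟩
    · rintro j hj ⟨a1, -⟩
      rcases cs j hj with rfl | rfl | rfl | rfl | hS
      exacts [by simp, absurd a1 (hi _), by simp, absurd a1 yx,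
        Or.inl (by by_contra e; exact (out j hS (by rintro rfl; simp at e)).2.1 a1)]
    · simp only [List.map_cons, List.map_nil, List.sum_cons, List.sum_nil, vc, vy, vo, vz,
        filter_empty, card_empty, zero_add, add_zero, ← add_assoc]
      gcongr <;> exact ind_mono fun h => ⟨by first | exact h.2.1 | exact sy _ _ _ _ h.2.1,
        by first | exact F1 _ _ h.2.2 | exact F3 _ h.2.2⟩
  · refine ⟨vo.1 ▸ d1, lt_of_le_of_lt (le_trans (card_le_add (S' := ∅) (P' := fun _ => False)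
      [c, y, x] ?_) ?_) (vo.1 ▸ q3)⟩
    · rintro j hj ⟨a1, -⟩
      rcases cs j hj with rfl | rfl | rfl | rfl | hS
      exacts [by simp, by simp, absurd a1 (hi _), by simp,
        absurd a1 (by
          by_cases e : j = z
          · rw [e]; exact fun h => zo (hs _ _ h)
          · exact (out j hS e).2.2.1)]
    · simp only [List.map_cons, List.map_nil, List.sum_cons, List.sum_nil, vc, vy, vo, vx,
        filter_empty, card_empty, zero_add, add_zero, ← add_assoc]
      gcongr <;> exact ind_mono fun h => ⟨by first | exact h.2.1 | exact sy _ _ _ _ h.2.1,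
        F1 _ _ h.2.2⟩
  · refine ⟨vx.1 ▸ e1, lt_of_le_of_lt (le_trans (card_le_add (S' := ∅) (P' := fun _ => False)
      [c, o, z] ?_) ?_) (vx.1 ▸ q4)⟩
    · rintro j hj ⟨a1, -⟩
      rcases cs j hj with rfl | rfl | rfl | rfl | hS
      exacts [by simp, absurd (hs _ _ a1) yx, by simp, absurd a1 (hi _),
        Or.inl (by by_contra e; exact (out j hS (by rintro rfl; simp at e)).2.2.2 a1)]
    · simp only [List.map_cons, List.map_nil, List.sum_cons, List.sum_nil, vc, vo, vx, vz,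
        filter_empty, card_empty, zero_add, add_zero, ← add_assoc]
      gcongr <;> exact ind_mono fun h => ⟨by first | exact h.2.1 | exact sy _ _ _ _ h.2.1,
        by first | exact F1 _ _ h.2.2 | exact F3 _ h.2.2⟩
  · rw [(vS i hS).1]
    refine ⟨(p i hS).1, ?_⟩
    by_cases e : i = z
    · subst e
      refine lt_of_le_of_lt (le_trans (card_le_add (S' := S') [c, y, x] ?_)
        (Nat.add_le_add_left (le_trans ?_ (Nat.lt_succ_iff.1 q0)) (cnt R M S' ψ r i))) (by omega)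
      · rintro j hj ⟨a1, a2, a3⟩
        rcases cs j hj with rfl | rfl | rfl | rfl | hS'
        exacts [by simp, by simp, absurd a1 zo, by simp, Or.inr ⟨hS', a1, rest i hS j hS' a2 a3⟩]
      · simp only [List.map_cons, List.map_nil, List.sum_cons, List.sum_nil, vc, vy, vx, vz,
          add_zero, ← add_assoc]
        gcongr <;> exact ind_mono fun h => ⟨by first | exact h.2.1 | exact sy _ _ _ _ h.2.1,
          F2 _ h.2.2⟩
    · have := (p i hS).2
      rw [Function.update_of_ne e] at this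
      refine lt_of_le_of_lt (card_le_add (S' := S') [] ?_) this
      rintro j hj ⟨a1, a2, a3⟩
      obtain ⟨u1, u2, u3, u4⟩ := out i hS e
      rcases cs j hj with rfl | rfl | rfl | rfl | hS'
      exacts [absurd (hs _ _ a1) u1, absurd (hs _ _ a1) u2, absurd (hs _ _ a1) u3,
        absurd (hs _ _ a1) u4, Or.inr ⟨hS', a1, rest i hS j hS' a2 a3⟩]

omit [DecidableEq ι] in
lemma Red.image [Nonempty ι] {V : Type} [DecidableEq V] {G : V → V → Prop} {N : V → C → V → C → Prop} (φ : ι → V)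
    (hφ : Set.InjOn φ S) {τ : V → ℤ}
    (h : Red (fun i j => G (φ i) (φ j)) (fun i a j b => N (φ i) a (φ j) b) S fun i => τ (φ i)) :
    Red G N (S.image φ) τ := by
  intro U f f2 hL
  obtain ⟨ψ, r, p⟩ := h U (fun i => f (φ i)) (fun i => f2 (φ i)) (by
    intro i hi
    have := hL (φ i) (mem_image_of_mem φ hi)
    rw [filter_image, card_image_of_injOn (hφ.mono (by simp [Set.subset_def]; tauto))] at this
    exact this)
  have inv : ∀ i ∈ S, Function.invFunOn φ S (φ i) = i := fun i hi =>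
    hφ.leftInvOn_invFunOn hi
  refine ⟨fun v => ψ (Function.invFunOn φ S v), fun v => r (Function.invFunOn φ S v), ?_⟩
  simp only [mem_image]
  rintro _ ⟨i, hi, rfl⟩
  rw [inv i hi]
  refine ⟨(p i hi).1, lt_of_le_of_lt ?_ (p i hi).2⟩
  rw [cnt, filter_image]
  refine card_image_le.trans (card_le_card fun j hj => ?_)
  rw [mem_filter] at hj ⊢
  simpa only [inv i hi, inv j hj.1] using hj

end Pool.Agent.P.MP_0e1fd4_co
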