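import Pool.Agent.P.MP_0e1fd4_co.Poor

/-! The discharging argument. -/

namespace Pool.Agent.P.MP_0e1fd4_co

open Finset MP_5fbfb9_co
open scoped Classical

section
variable {V C : Type} [Fintype V] {G : SimpleGraph V} {M : V → C → V → C → Prop} {I : V → Prop}
  [Inhabited C]

lemma Lo.five {v : V} (h : Lo G I 4 v) : Lo G I 5 v := ⟨h.1.trans (by omega), h.2⟩

lemma Five.lo {v : V} (h : Five G I v) : Lo G I 5 v := ⟨h.2.le, h.1⟩

namespace Glob

variable (g : Glob G M I)
include g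

omit [Inhabited C] in
lemma pay_end {v a b c d : V} (P : Fan G v a b c d) (hv : Lo G I 4 v) :
    1 ≤ tau G I a v ∨ Eff G I v b a := by
  have pv : Poor G I v := ⟨hv, _, _, _, _, P.toPth⟩
  have na : ¬ Inner G a v := fun k => by
    obtain ⟨t, t1, t2, t3⟩ := k.other b
    rcases P.mem hv.1 t3 with rfl | rfl | rfl | rfl
    exacts [t2.ne rfl, t1 rfl, g.nac P.toPth t2, P.nad t2]
  by_cases h4 : Lo G I 4 a
  · exact Or.inr (Or.inl h4)
  by_cases h5 : Five G I a ∧ Heavy G I a
  · obtain ⟨h5, k, y, o, x, W, hk, h⟩ := h5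
    have pk : Poor G I k := ⟨hk, _, _, _, _, W.pth⟩
    have ik := W.rot.rot.rot.pth.inb
    refine Or.inr (Or.inr ⟨h5.lo, k, y, o, x, W, hk, ?_, ?_, ?_, ?_⟩)
    · rintro rfl; exact g.p2 pk W.cz ik W.cy W.zy pv
    · rintro rfl; exact g.p2 pk W.cz ik W.cx W.xz.symm pv
    · rintro rfl; exact g.p3 pv P.vb P.inb pk
    · rcases h with h | h | ⟨h1, h2, h3, h4, h5⟩
      exacts [Or.inl h, Or.inr (Or.inl h), Or.inr (Or.inr ⟨h1, h2.lo, h3.lo, g.allTri W hk h2 h4,
        g.allTri W.rev hk h3 h5⟩)]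
  · left
    simp only [tau, pv, h4, na, if_true, if_false]
    split_ifs <;> first | omega | tauto

omit g [Inhabited C] in
lemma pay_in {v b : V} (pv : Poor G I v) (hi : Inner G v b) :
    Lo G I 4 b ∨ (Lo G I 5 b ∧ 1 ≤ tau G I b v) ∨ 2 ≤ tau G I b v := by
  by_cases h4 : Lo G I 4 b
  · exact Or.inl h4
  by_cases h5 : Five G I b
  · refine Or.inr (Or.inl ⟨h5.lo, ?_⟩)
    simp only [tau, pv, h4, h5, hi.symm, if_true, if_false]
    split_ifs <;> omega
  · simp [tau, pv, h4, h5, hi.symm]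

lemma fan_in {v a b c d : V} (P : Fan G v a b c d) (hv : Lo G I 4 v) :
    2 ≤ tau G I a v + tau G I b v + tau G I c v + tau G I d v := by
  have pv : Poor G I v := ⟨hv, _, _, _, _, P.toPth⟩
  have := tau_nonneg (G := G) (I := I) a v
  have := tau_nonneg (G := G) (I := I) b v
  have := tau_nonneg (G := G) (I := I) c v
  have := tau_nonneg (G := G) (I := I) d v
  rcases pay_in pv P.inb with hb | ⟨hb, tb⟩ | tb <;>
    rcases pay_in pv P.rev.inb with hc | ⟨hc, tc⟩ | tc <;>
    rcases g.pay_end P hv with ha | ha <;> rcases g.pay_end P.rev hv with hd | hd <;>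
    first
    | omega
    | exact (red1 g P hv hb hc ha).elim
    | exact (red1 g P.rev hv hc hb hd).elim
    | exact (red2 g P hv hb hc ha hd).elim
    | exact (red2 g P.rev hv hc hb hd ha).elim

omit g [Inhabited C] in
lemma pay_rim {c z y o x : V} (W : Whl G c z y o x) (hc : Lo G I 4 c) (hz : ¬ Lo G I 4 z) :
    1 ≤ tau G I z c ∧ (Heavy G I z ∨ ¬ (Five G I z ∧ Link G I z) → 2 ≤ tau G I z c) := by
  have pc : Poor G I c := ⟨hc, _, _, _, _, W.pth⟩
  have ic := W.rot.rot.rot.pth.inb.symm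
  have w : ∃ z y o x, Whl G c z y o x := ⟨_, _, _, _, W⟩
  simp only [tau, pc, hz, ic, w, if_true, if_false, true_and]
  split_ifs <;> first | omega | tauto

omit g [Inhabited C] in
lemma pay_two {c z y o x : V} (W : Whl G c z y o x) (hc : Lo G I 4 c) (hz : ¬ Lo G I 4 z)
    (h : Lo G I 4 y ∧ Lo G I 4 o ∨ Lo G I 4 y ∧ Lo G I 4 x ∨ Lo G I 4 x ∧ Lo G I 4 o) :
    2 ≤ tau G I z c := by
  refine (pay_rim W hc hz).2 (Or.inl ?_)
  rcases h with h | h | h
  exacts [⟨c, y, o, x, W, hc, Or.inl h⟩, ⟨c, y, o, x, W, hc, Or.inr (Or.inl h)⟩,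
    ⟨c, x, o, y, W.rev, hc, Or.inl h⟩]

omit g [Inhabited C] in
lemma pay_one {c z y o x : V} (W : Whl G c z y o x) (hc : Lo G I 4 c) (hz : ¬ Lo G I 4 z)
    (hy : ¬ Lo G I 4 y) (ho : Lo G I 4 o) (hx : ¬ Lo G I 4 x) :
    4 ≤ tau G I z c + tau G I y c + tau G I x c := by
  obtain ⟨z1, z2⟩ := pay_rim W hc hz
  obtain ⟨y1, y2⟩ := pay_rim W.rot hc hy
  obtain ⟨x1, x2⟩ := pay_rim W.rot.rot.rot hc hx
  by_cases a : Five G I y ∧ Link G I y
  · by_cases b : Five G I x ∧ Link G I x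
    · have := z2 (Or.inl ⟨c, y, o, x, W, hc, Or.inr (Or.inr ⟨ho, a.1, b.1, a.2, b.2⟩)⟩)
      omega
    · have := x2 (Or.inr b); omega
  · have := y2 (Or.inr a); omega

lemma whl_in {c z y o x : V} (W : Whl G c z y o x) (hc : Lo G I 4 c) :
    4 ≤ tau G I z c + tau G I y c + tau G I o c + tau G I x c := by
  have d : ∀ {z y o x}, Whl G c z y o x → Lo G I 4 z → Lo G I 4 y → ¬ Lo G I 4 o :=
    fun W h1 h2 h3 => diamond g W.cz W.cy W.co W.zy W.yo W.zo hc h1 h2 h3
  have d1 := d W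
  have d2 := d W.rot
  have d3 := d W.rot.rot
  have d4 := d W.rot.rot.rot
  have a1 := fun h => (pay_rim W hc h).1
  have a2 := fun h => (pay_rim W.rot hc h).1
  have a3 := fun h => (pay_rim W.rot.rot hc h).1
  have a4 := fun h => (pay_rim W.rot.rot.rot hc h).1
  have b1 := pay_two W hc
  have b2 := pay_two W.rot hc
  have b3 := pay_two W.rot.rot hc
  have b4 := pay_two W.rot.rot.rot hc
  have c1 := pay_one W hc
  have c2 := pay_one W.rot hc
  have c3 := pay_one W.rot.rot hc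
  have c4 := pay_one W.rot.rot.rot hc
  have := tau_nonneg (G := G) (I := I) z c
  have := tau_nonneg (G := G) (I := I) y c
  have := tau_nonneg (G := G) (I := I) o c
  have := tau_nonneg (G := G) (I := I) x c
  by_cases h1 : Lo G I 4 z <;> by_cases h2 : Lo G I 4 y <;> by_cases h3 : Lo G I 4 o <;>
    by_cases h4 : Lo G I 4 x <;>
    simp only [h1, h2, h3, h4, not_true_eq_false, not_false_eq_true, forall_true_left, and_self,
      and_true, and_false, or_false, or_true, or_self, IsEmpty.forall_iff] at * <;> omega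

omit g [Inhabited C] in
lemma sum4 {u a b c d : V} (h : dg G u ≤ 4) (ua : G.Adj u a) (ub : G.Adj u b) (uc : G.Adj u c)
    (ud : G.Adj u d) (nd : [a, b, c, d].Pairwise (· ≠ ·)) (r : V → ℤ) :
    ∑ v ∈ nb G u, r v = r a + r b + r c + r d := by
  have : nb G u = [a, b, c, d].toFinset := by
    ext t
    rw [mem_nb, List.mem_toFinset]
    refine ⟨mem_of_dg nd (by simp [*]) h, ?_⟩
    simp only [List.mem_cons, List.not_mem_nil, or_false]
    rintro (rfl | rfl | rfl | rfl) <;> assumption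
  rw [this, List.sum_toFinset _ nd]
  simp [add_assoc]

lemma four {u : V} (h : Lo G I 4 u) (h4 : dg G u = 4) :
    0 ≤ ∑ v ∈ nb G u, (nu G u v + 5 * tau G I v u) := by
  have e : ex G u = 0 := by simp [ex, h4]
  have lo : ∀ v, -5 ≤ nu G u v ∧ (¬ Inner G u v → 0 ≤ nu G u v) ∧
      (¬ Inner G u v → Free G u v → 5 ≤ nu G u v) := fun v => by
    unfold nu; rw [e]; split_ifs <;> simp_all
  by_cases hp : Poor G I u
  · obtain ⟨-, a, b, c, d, P⟩ := hp
    rw [sum4 h.1 P.va P.vb P.vc P.vd (by simp [P.ab.ne, P.ac, P.ad, P.bc.ne, P.bd, P.cd.ne])]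
    have := (lo a).1; have := (lo b).1; have := (lo c).1; have := (lo d).1
    by_cases ad : G.Adj a d
    · have := g.whl_in ⟨P.va, P.vb, P.vc, P.vd, P.ab, P.bc, P.cd, ad.symm, P.ac, P.bd⟩ h
      omega
    · have key : ∀ a b c d, Fan G u a b c d → ¬ Inner G u a := fun a b c d P k => by
        obtain ⟨t, t1, t2, t3⟩ := k.other b
        rcases P.mem h.1 t2 with rfl | rfl | rfl | rfl
        exacts [t3.ne rfl, t1 rfl, g.nac P.toPth t3, P.nad t3]
      have F : Fan G u a b c d := ⟨P, ad⟩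
      have := g.fan_in F h
      have := (lo a).2.1 (key _ _ _ _ F)
      have := (lo d).2.1 (key _ _ _ _ F.rev)
      omega
  have t0 : ∀ v, tau G I v u = 0 := fun v => by simp [tau, hp]
  simp only [t0, mul_zero, add_zero]
  by_cases hi : ∃ y, G.Adj u y ∧ Inner G u y
  swap
  · exact sum_nonneg fun v hv => (lo v).2.1 fun k => hi ⟨v, mem_nb.1 hv, k⟩
  obtain ⟨y, uy, a, b, ab, ua, ya, ub, yb⟩ := hi
  obtain ⟨t, ut, ht⟩ := exists_mem_notMem_of_card_lt_card (s := {y, a, b}) (t := nb G u)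
    (by have : #({y, a, b} : Finset V) ≤ 3 := card_le_three
        unfold dg at h4; omega)
  simp only [mem_insert, mem_singleton, not_or] at ht
  rw [mem_nb] at ut
  have key : ∀ a b, a ≠ b → G.Adj u a → G.Adj u b → G.Adj y a → G.Adj y b → ¬ Inner G u a := by
    intro a b ab ua ub ya yb k
    obtain ⟨s, s1, s2, s3⟩ := k.other y
    exact hp ⟨h, b, y, a, s, ub, uy, ua, s2, yb.symm, ya, s3, ab.symm, s1.symm, by
      rintro rfl; exact g.k4 u y a b uy ua ub ya yb s3⟩
  have na := key a b ab ua ub ya yb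
  have nb' := key b a ab.symm ub ua yb ya
  have nd : [y, a, b, t].Pairwise (· ≠ ·) := by simp [ya.ne, yb.ne, ab, Ne.symm, ht]
  have nt : ¬ Inner G u t := fun k => by
    obtain ⟨s, s1, s2, s3⟩ := k.other y
    have := mem_of_dg (G := G) nd (by simp [*]) h.1 s2
    simp only [List.mem_cons, List.not_mem_nil, or_false] at this
    rcases this with rfl | rfl | rfl | rfl
    · exact s1 rfl
    · exact na ⟨y, t, Ne.symm ht.1, uy, ya.symm, ut, s3.symm⟩
    · exact nb' ⟨y, t, Ne.symm ht.1, uy, yb.symm, ut, s3.symm⟩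
    · exact s3.ne rfl
  rw [sum4 h.1 uy ua ub ut nd]
  have := (lo y).1
  have := (lo a).2.1 na
  have := (lo b).2.1 nb'
  have := (lo t).2.2 nt ⟨h.1, y, a, b, uy, ua, ub, ya, yb, ab, ht.1, ht.2.1, ht.2.2, na, nb'⟩
  omega

end Glob

end

variable {V C : Type} [DecidableEq V] [Fintype V] {G : SimpleGraph V} {A K : Finset V}
  {M : V → C → V → C → Prop} [Inhabited C]

theorem core (H : Conn G A K) (hp : Pl G) (hM : Mat M)
    (hmin : ∀ X : Finset V, X.Nonempty → (∀ v ∈ X, v ∈ A ∧ v ∉ K) →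
      ¬ Red G.Adj M X fun v => 4 - dg G v) : False := by
  obtain ⟨F, _, c, hc, h0⟩ := hp.norm
  have P : Pla G A K c := ⟨H, hc, h0⟩
  let I : V → Prop := fun v => v ∈ A ∧ v ∉ K
  have g : Glob G M I := ⟨hM, H.c6, P.k4, P.t3, hmin⟩
  have hw : ∀ {w a b d e}, Whl G w a b d e → dg G w ≤ 4 := fun W =>
    P.whl W.cz W.cy W.co W.cx W.zy W.yo W.ox W.xz W.zo W.yx
  let ch : V → ℤ := fun u => 15 * ((dg G u : ℤ) - 4) +
    ∑ v ∈ nb G u, (nu G u v + 5 * tau G I v u - 5 * tau G I u v)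
  have out : ∀ u ∈ (univ : Finset V), u ∉ A → nb G u = ∅ := fun u _ hu =>
    eq_empty_iff_forall_notMem.2 fun v hv => hu (H.supp _ _ (mem_nb.1 hv))
  have e0 : ∀ r : V → V → ℤ, ∑ u ∈ A, ∑ v ∈ nb G u, r u v = ∑ u, ∑ v ∈ nb G u, r u v := fun r =>
    sum_subset (subset_univ _) fun u h1 h2 => by simp [out u h1 h2]
  have tot : ∑ u ∈ A, ch u ≤ -120 := by
    have := P.charge
    simp only [ch, sum_add_distrib, sum_sub_distrib, e0] at this ⊢
    rw [Pla.sum_swap fun u v => 5 * tau G I u v]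
    linarith
  have lo : ∀ u, 15 * ((dg G u : ℤ) - 4) - 5 * ∑ v ∈ nb G u, cost G I u v - dg G u * ex G u ≤
      ch u := by
    intro u
    have : ∑ v ∈ nb G u, (-5 * cost G I u v - ex G u) ≤
        ∑ v ∈ nb G u, (nu G u v + 5 * tau G I v u - 5 * tau G I u v) := sum_le_sum fun v _ => by
      have := tau_nonneg (G := G) (I := I) v u
      unfold nu cost
      split_ifs <;> omega
    rw [sum_sub_distrib, ← mul_sum, sum_const, nsmul_eq_mul] at this
    simp only [ch, dg] at this ⊢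
    linarith
  have b1 : ∀ u ∈ A \ K, 0 ≤ ch u := by
    intro u hu
    have iu : I u := mem_sdiff.1 hu
    have d := H.deg u iu.1 iu.2
    by_cases h4 : dg G u = 4
    · have l : Lo G I 4 u := ⟨h4.le, iu⟩
      have := g.four l h4
      have t0 : ∀ v, tau G I u v = 0 := fun v => by simp [tau, l]
      simpa [ch, t0, h4] using this
    have l := lo u
    rw [show ex G u = 0 by unfold ex; split_ifs <;> omega] at l
    by_cases h5 : dg G u = 5
    · have := g.cost_five hw ⟨iu, h5⟩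
      omega
    · have := g.cost_big u
      omega
  have b2 : ∀ u ∈ K, -39 ≤ ch u := by
    intro u hu
    have d := H.two_le (H.sub hu)
    have l := lo u
    have := g.cost_big u
    by_cases h2 : dg G u = 2
    · have nt : ∀ v t, G.Adj u v → G.Adj u t → ¬ G.Adj v t := fun v t uv ut vt =>
        H.no2 uv ut vt fun x hx => by
          simpa using mem_of_dg (G := G) (l := [v, t]) (by simp [vt.ne]) (by simp [*]) h2.le hx
      have : ∑ v ∈ nb G u, cost G I u v = 0 := sum_eq_zero fun v hv => by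
        have uv := mem_nb.1 hv
        have ni : ¬ Inner G u v := fun ⟨a, _, _, h1, h2, _⟩ => nt v a uv h1 h2
        refine (cost_le u v).1 ni fun k => ?_
        obtain ⟨b, b1, b2, -⟩ := g.q1 k uv ni
        exact nt v b uv b2 b1
      simp only [ex, h2] at l
      omega
    by_cases h3 : dg G u = 3
    · simp only [ex, h3] at l
      omega
    · simp only [ex, h2, h3, if_false] at l
      omega
  rw [← sum_sdiff H.sub] at tot
  have s1 := sum_nonneg b1
  have s2 : #K • (-39 : ℤ) ≤ ∑ u ∈ K, ch u := card_nsmul_le_sum K ch _ b2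
  have := H.card
  rw [nsmul_eq_mul] at s2
  omega

end Pool.Agent.P.MP_0e1fd4_co
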