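import Pool.Agent.P.MP_0e1fd4_co.Col

/-! A verified checker for reducible configurations. -/

namespace Pool.Agent.P.MP_0e1fd4_co

open Finset

section defs
variable {V : Type} [Fintype V] (G : SimpleGraph V)

open scoped Classical in
noncomputable def nb (v : V) : Finset V := univ.filter (G.Adj v)

noncomputable def dg (v : V) : ℕ := #(nb G v)

def NoC6 : Prop := ∀ a b c d e f, G.Adj a b → G.Adj b c → G.Adj c d → G.Adj d e → G.Adj e f →
  G.Adj f a → [a, b, c, d, e, f].Pairwise (· ≠ ·) → ¬ G.Adj a c ∧ ¬ G.Adj a d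

def AllTri (v : V) : Prop := ∀ x, G.Adj v x → ∃ t, G.Adj v t ∧ G.Adj x t

structure Glob {C : Type} (M : V → C → V → C → Prop) (I : V → Prop) : Prop where
  mat : Mat M
  c6 : NoC6 G
  k4 : ∀ a b c d, G.Adj a b → G.Adj a c → G.Adj a d → G.Adj b c → G.Adj b d → ¬ G.Adj c d
  t3 : ∀ a b c d e, G.Adj a b → G.Adj a c → G.Adj b c → G.Adj a d → G.Adj b d → G.Adj a e →
    G.Adj b e → c = d ∨ c = e ∨ d = e
  min : ∀ X : Finset V, X.Nonempty → (∀ v ∈ X, I v) → ¬ Red G.Adj M X fun v => 4 - dg G v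

variable {G}

@[simp] lemma mem_nb {v x : V} : x ∈ nb G v ↔ G.Adj v x := by simp [nb]

lemma le_dg {v : V} {l : List V} (h : l.Pairwise (· ≠ ·)) (ha : ∀ x ∈ l, G.Adj v x) :
    l.length ≤ dg G v := by
  classical
  rw [← List.toFinset_card_of_nodup h]
  exact card_le_card fun x hx => mem_nb.2 (ha x (List.mem_toFinset.1 hx))

lemma mem_of_dg {v : V} {l : List V} (h : l.Pairwise (· ≠ ·)) (ha : ∀ x ∈ l, G.Adj v x)
    (hd : dg G v ≤ l.length) {t : V} (ht : G.Adj v t) : t ∈ l := by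
  by_contra hc
  have := le_dg (G := G) (v := v) (l := t :: l)
    (List.pairwise_cons.2 ⟨fun x hx e => hc (e ▸ hx), h⟩) (by simpa [ht] using ha)
  simp at this
  omega

end defs

def tb (m i j : ℕ) : Bool := Nat.blt j 16 && m.testBit (16 * i + j)

def ins (m i j : ℕ) : ℕ := m ||| 2 ^ (16 * i + j) ||| 2 ^ (16 * j + i)

lemma tb_ins {m i j a b : ℕ} (hi : i < 16) (hj : j < 16) (h : tb (ins m i j) a b = true) :
    tb m a b = true ∨ (a = i ∧ b = j) ∨ (a = j ∧ b = i) := by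
  simp only [tb, ins, Bool.and_eq_true, Nat.blt_eq, Nat.testBit_or, Bool.or_eq_true,
    Nat.testBit_two_pow, decide_eq_true_eq] at h ⊢
  obtain ⟨h1, (h2 | h2) | h2⟩ := h
  · exact Or.inl ⟨h1, h2⟩
  · right; left; omega
  · right; right; omega

def mk : List (ℕ × ℕ) → ℕ
  | [] => 0
  | p :: l => if p.1 < 16 ∧ p.2 < 16 then ins (mk l) p.1 p.2 else mk l

lemma tb_mk {l : List (ℕ × ℕ)} {a b : ℕ} (h : tb (mk l) a b = true) : (a, b) ∈ l ∨ (b, a) ∈ l := by
  induction l with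
  | nil => simp [mk, tb] at h
  | cons p l ih =>
    simp only [mk] at h
    split_ifs at h with hp
    · rcases tb_ins hp.1 hp.2 h with h | ⟨rfl, rfl⟩ | ⟨rfl, rfl⟩
      · rcases ih h with h | h <;> simp [h]
      · simp
      · simp
    · rcases ih h with h | h <;> simp [h]

def lk : List (ℕ × ℕ) → ℕ → ℕ
  | [], _ => 0
  | p :: l, i => if p.1 = i then p.2 else lk l i

lemma lk_mem {l : List (ℕ × ℕ)} {i : ℕ} (h : lk l i ≠ 0) : (i, lk l i) ∈ l := by
  induction l with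
  | nil => simp [lk] at h
  | cons p l ih =>
    simp only [lk] at h ⊢
    split_ifs at h ⊢ with hp
    · simp [← hp]
    · simp [ih h]

structure Vw where
  a : ℕ → ℕ → Bool
  n : ℕ → ℕ → Bool
  d : ℕ → ℕ → Bool

def vw (a n d : ℕ) : Vw := ⟨tb a, tb n, fun i j => tb d i j || tb a i j⟩

def sw (i j a : ℕ) : ℕ := if a = i then j else if a = j then i else a

def mg (f : ℕ → ℕ → Bool) (i j : ℕ) (a b : ℕ) : Bool :=
  f a b || f (sw i j a) b || f a (sw i j b) || f (sw i j a) (sw i j b)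

def Vw.mg (v : Vw) (i j : ℕ) : Vw := ⟨MP_0e1fd4_co.mg v.a i j, MP_0e1fd4_co.mg v.n i j,
  MP_0e1fd4_co.mg v.d i j⟩

def pw (f : ℕ → ℕ → Bool) : List ℕ → Bool
  | [] => true
  | x :: l => l.all (f x) && pw f l

inductive Con
  | loop (i : ℕ)
  | an (i j : ℕ)
  | ov (i : ℕ) (l : List ℕ)
  | k4 (a b c d : ℕ)
  | t3 (a b c d e : ℕ)
  | c6 (a b c d e f : ℕ)
  | atr (i j : ℕ) (l : List ℕ)

def Con.chk (v : Vw) (dl : List (ℕ × ℕ)) (al : List ℕ) : Con → Bool
  | .loop i => v.a i i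
  | .an i j => v.a i j && v.n i j
  | .ov i l => lk dl i != 0 && Nat.blt (lk dl i) l.length && l.all (v.a i) && pw v.d l
  | .k4 a b c d => v.a a b && v.a a c && v.a a d && v.a b c && v.a b d && v.a c d
  | .t3 a b c d e => v.a a b && v.a a c && v.a b c && v.a a d && v.a b d && v.a a e && v.a b e &&
      pw v.d [c, d, e]
  | .c6 a b c d e f => v.a a b && v.a b c && v.a c d && v.a d e && v.a e f && v.a f a &&
      (v.a a c || v.a a d) && pw v.d [a, b, c, d, e, f]
  | .atr i j l => al.elem i && lk dl j != 0 && Nat.ble (lk dl j) (i :: l).length &&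
      (i :: l).all (v.a j) && pw v.d (i :: l) && l.all (v.n i)

inductive Op
  | col (u : ℕ)
  | save (u w : ℕ)
  | abs (z c y o x : ℕ)

def low (v : Vw) (S : List ℕ) (u : ℕ) : ℤ := (S.filter (v.a u)).length

def upp (v : Vw) (S : List ℕ) (u : ℕ) : ℤ := (S.filter fun j => j != u && !v.n u j).length

def rm (S : List ℕ) (u : ℕ) : List ℕ := S.filter (· != u)

def run (v : Vw) : List Op → List ℕ → (ℕ → ℤ) → Bool
  | [], S, _ => S.isEmpty
  | .col u :: r, S, σ => S.elem u && decide (1 ≤ σ u + low v S u) && run v r (rm S u) σ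
  | .save u w :: r, S, σ => S.elem u && S.elem w && v.a u w && decide (1 ≤ σ u + low v S u) &&
      decide (σ w + upp v S w < σ u + low v S u) &&
      run v r (rm S u) fun k => if k = w then σ k + 1 else σ k
  | .abs z c y o x :: r, S, σ => [z, c, y, o, x].all S.elem && pw v.d [z, c, y, o, x] &&
      v.a z c && v.a z y && v.a z x && v.n z o && v.n y x &&
      S.all (fun k => [z, c, y, o, x].elem k || (v.n c k && v.n y k && v.n o k && v.n x k)) &&
      decide (4 ≤ σ c + low v S c) && decide (2 ≤ σ y + low v S y) &&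
      decide (3 ≤ σ o + low v S o) && decide (2 ≤ σ x + low v S x) &&
      run v r (rm (rm (rm (rm S c) y) o) x) fun k => if k = z then σ k + 1 else σ k

inductive Cert
  | con (w : Con)
  | dis (i j : ℕ) (w : Con) (r : Cert)
  | spl (i j : ℕ) (r s : Cert)
  | col (S : List ℕ) (ops : List Op)

def Cert.chk (dl : List (ℕ × ℕ)) (al : List ℕ) : Cert → ℕ → ℕ → ℕ → Bool
  | .con w, a, n, d => w.chk (vw a n d) dl al
  | .dis i j w r, a, n, d => Nat.blt i 16 && Nat.blt j 16 && w.chk ((vw a n d).mg i j) dl al &&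
      r.chk dl al a n (ins d i j)
  | .spl i j r s, a, n, d => Nat.blt i 16 && Nat.blt j 16 && r.chk dl al (ins a i j) n d &&
      s.chk dl al a (ins n i j) d
  | .col S ops, a, n, d => !S.isEmpty && pw (vw a n d).d S && S.all (fun i => lk dl i != 0) &&
      run (vw a n d) ops S fun i => 4 - lk dl i

variable {V C : Type} [Fintype V] {G : SimpleGraph V} {M : V → C → V → C → Prop} {I : V → Prop}
  {φ : ℕ → V}

structure Vw.Ok (G : SimpleGraph V) (φ : ℕ → V) (v : Vw) : Prop where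
  a : ∀ i j, v.a i j = true → G.Adj (φ i) (φ j)
  n : ∀ i j, v.n i j = true → ¬ G.Adj (φ i) (φ j)
  d : ∀ i j, v.d i j = true → φ i ≠ φ j

omit [Fintype V] in
lemma Vw.Ok.mg {v : Vw} (h : v.Ok G φ) {i j : ℕ} (e : φ i = φ j) : (v.mg i j).Ok G φ := by
  have s : ∀ a, φ (sw i j a) = φ a := by
    intro a; unfold sw; split_ifs with h1 h2
    · rw [h1, e]
    · rw [h2, e]
    · rfl
  have k : ∀ (f : ℕ → ℕ → Bool) (P : V → V → Prop), (∀ a b, f a b = true → P (φ a) (φ b)) →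
      ∀ a b, MP_0e1fd4_co.mg f i j a b = true → P (φ a) (φ b) := by
    intro f P hf a b hab
    simp only [MP_0e1fd4_co.mg, Bool.or_eq_true] at hab
    rcases hab with ((h | h) | h) | h <;> simpa only [s] using hf _ _ h
  exact ⟨k _ _ h.a, k _ (fun x y => ¬ G.Adj x y) h.n, k _ (· ≠ ·) h.d⟩

omit [Fintype V] in
lemma Vw.Ok.pw {v : Vw} (h : v.Ok G φ) {l : List ℕ} (hl : pw v.d l = true) :
    (l.map φ).Pairwise (· ≠ ·) := by
  induction l with
  | nil => simp
  | cons x l ih =>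
    simp only [MP_0e1fd4_co.pw, Bool.and_eq_true, List.all_eq_true] at hl
    simp only [List.map_cons, List.pairwise_cons, List.mem_map]
    exact ⟨by rintro _ ⟨y, hy, rfl⟩; exact h.d _ _ (hl.1 y hy), ih hl.2⟩

lemma Con.sound (g : Glob G M I) {v : Vw} (h : v.Ok G φ) {dl : List (ℕ × ℕ)} {al : List ℕ}
    (hd : ∀ p ∈ dl, dg G (φ p.1) ≤ p.2 ∧ I (φ p.1)) (ha : ∀ i ∈ al, AllTri G (φ i)) (w : Con) :
    w.chk v dl al = true → False := by
  cases w <;> simp only [Con.chk, Bool.and_eq_true, Bool.or_eq_true, List.all_eq_true,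
    bne_iff_ne, Nat.blt_eq, Nat.ble_eq, List.elem_eq_mem, decide_eq_true_eq, and_imp]
  · exact fun h1 => (h.a _ _ h1).ne rfl
  · exact fun h1 h2 => h.n _ _ h2 (h.a _ _ h1)
  · intro h1 h2 h3 h4
    have := le_dg (G := G) (h.pw h4) (by
      simp only [List.mem_map]; rintro _ ⟨y, hy, rfl⟩; exact h.a _ _ (h3 y hy))
    have := (hd _ (lk_mem h1)).1
    simp only [List.length_map] at *
    omega
  · exact fun h1 h2 h3 h4 h5 h6 => g.k4 _ _ _ _ (h.a _ _ h1) (h.a _ _ h2) (h.a _ _ h3)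
      (h.a _ _ h4) (h.a _ _ h5) (h.a _ _ h6)
  · intro h1 h2 h3 h4 h5 h6 h7 h8
    have := g.t3 _ _ _ _ _ (h.a _ _ h1) (h.a _ _ h2) (h.a _ _ h3) (h.a _ _ h4) (h.a _ _ h5)
      (h.a _ _ h6) (h.a _ _ h7)
    have h9 := h.pw h8
    simp at h9
    tauto
  · intro h1 h2 h3 h4 h5 h6 h7 h8
    have := g.c6 _ _ _ _ _ _ (h.a _ _ h1) (h.a _ _ h2) (h.a _ _ h3) (h.a _ _ h4) (h.a _ _ h5)
      (h.a _ _ h6) (h.pw h8)
    rcases h7 with h7 | h7
    exacts [this.1 (h.a _ _ h7), this.2 (h.a _ _ h7)]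
  · rename_i i j l
    intro h1 h2 h3 h4 h5 h6
    obtain ⟨t, t1, t2⟩ := ha i h1 (φ j) (h.a _ _ (h4 i (by simp))).symm
    have := mem_of_dg (G := G) (h.pw h5) (by
      simp only [List.mem_map]; rintro _ ⟨y, hy, rfl⟩; exact h.a _ _ (h4 y hy))
      (by simpa using (hd _ (lk_mem h2)).1.trans h3) t2
    simp only [List.map_cons, List.mem_cons, List.mem_map] at this
    rcases this with rfl | ⟨y, hy, rfl⟩
    exacts [t1.ne rfl, h.n _ _ (h6 y hy) t1]

section
open scoped Classical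

omit [Fintype V] in
lemma low_le {v : Vw} (h : v.Ok G φ) {S : List ℕ} (hS : S.Nodup) (u : ℕ) :
    low v S u ≤ #(S.toFinset.filter fun j => G.Adj (φ u) (φ j)) := by
  unfold low
  rw [← List.toFinset_card_of_nodup (hS.filter _)]
  exact_mod_cast card_le_card fun j hj => by
    simp only [List.mem_toFinset, List.mem_filter, mem_filter] at hj ⊢
    exact ⟨hj.1, h.a _ _ hj.2⟩

omit [Fintype V] in
lemma le_upp {v : Vw} (h : v.Ok G φ) (S : List ℕ) (u : ℕ) :
    #(S.toFinset.filter fun j => G.Adj (φ u) (φ j)) ≤ upp v S u := by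
  unfold upp
  refine Int.ofNat_le.2 (le_trans (card_le_card fun j hj => ?_) (List.toFinset_card_le _))
  simp only [List.mem_toFinset, List.mem_filter, mem_filter, Bool.and_eq_true, bne_iff_ne,
    Bool.not_eq_true'] at hj ⊢
  refine ⟨hj.1, fun e => hj.2.ne (by rw [e]), ?_⟩
  by_contra hc
  exact h.n _ _ (by simpa using hc) hj.2

end

lemma rm_fin (S : List ℕ) (u : ℕ) : (rm S u).toFinset = S.toFinset.erase u := by
  ext; simp [rm, and_comm]

omit [Fintype V] in
lemma run_sound [Inhabited C] (hM : Mat M) {v : Vw} (h : v.Ok G φ) (ops : List Op) :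
    ∀ (S : List ℕ) (σ : ℕ → ℤ), S.Nodup → run v ops S σ = true →
      Red (fun i j => G.Adj (φ i) (φ j)) (fun i a j b => M (φ i) a (φ j) b) S.toFinset σ := by
  have hM' : Mat fun i a j b => M (φ i) a (φ j) b :=
    ⟨fun _ _ _ _ => hM.symm _ _ _ _, fun _ _ _ _ _ => hM.uniq _ _ _ _ _⟩
  have hs : ∀ i j, G.Adj (φ i) (φ j) → G.Adj (φ j) (φ i) := fun _ _ => G.symm.symm _ _
  have hi : ∀ i, ¬ G.Adj (φ i) (φ i) := fun _ => G.irrefl
  induction ops with
  | nil =>
    intro S σ _ hr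
    simp only [run, List.isEmpty_iff] at hr
    subst hr
    exact Red.empty
  | cons op r ih =>
    intro S σ hS hr
    cases op <;> simp only [run, Bool.and_eq_true, Bool.or_eq_true, List.all_eq_true,
      List.elem_eq_mem, decide_eq_true_eq] at hr
    · obtain ⟨⟨h1, h2⟩, h3⟩ := hr
      refine Red.col hM' hs hi (List.mem_toFinset.2 h1) (by linarith [low_le h hS ‹ℕ›]) ?_
      rw [← rm_fin]; exact ih _ _ (hS.filter _) h3
    · rename_i u w
      obtain ⟨⟨⟨⟨⟨h1, h2⟩, h3⟩, h4⟩, h5⟩, h6⟩ := hr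
      refine Red.save hM' hs hi (List.mem_toFinset.2 h1) (List.mem_toFinset.2 h2) (h.a _ _ h3)
        (by linarith [low_le h hS u]) (by linarith [low_le h hS u, le_upp h S w]) ?_
      rw [← rm_fin]; exact ih _ _ (hS.filter _) h6
    · rename_i z c y o x
      obtain ⟨⟨⟨⟨⟨⟨⟨⟨⟨⟨⟨⟨h1, h2⟩, h3⟩, h4⟩, h5⟩, h6⟩, h7⟩, h8⟩, h9⟩, h10⟩, h11⟩, h12⟩, h13⟩ := hr
      have m : ∀ k ∈ [z, c, y, o, x], k ∈ S.toFinset := fun k hk => List.mem_toFinset.2 (h1 k hk)
      refine Red.absorb hM' hs hi (m z (by simp)) (m c (by simp)) (m y (by simp)) (m o (by simp))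
        (m x (by simp)) (List.Nodup.of_map φ (h.pw h2)) (h.a _ _ h3) (h.a _ _ h4) (h.a _ _ h5)
        (h.n _ _ h6) (h.n _ _ h7) (fun k hk hk' => ?_) (by linarith [low_le h hS c])
        (by linarith [low_le h hS y]) (by linarith [low_le h hS o])
        (by linarith [low_le h hS x]) ?_
      · obtain ⟨⟨⟨a1, a2⟩, a3⟩, a4⟩ := (h8 k (List.mem_toFinset.1 hk)).resolve_left hk'
        exact ⟨h.n _ _ a1, h.n _ _ a2, h.n _ _ a3, h.n _ _ a4⟩
      · simp only [← rm_fin]
        exact ih _ _ ((((hS.filter _).filter _).filter _).filter _) h13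

lemma Cert.sound [Inhabited C] (g : Glob G M I) {dl : List (ℕ × ℕ)} {al : List ℕ}
    (hd : ∀ p ∈ dl, dg G (φ p.1) ≤ p.2 ∧ I (φ p.1)) (ha : ∀ i ∈ al, AllTri G (φ i)) (c : Cert) :
    ∀ a n d, (∀ i j, tb a i j = true → G.Adj (φ i) (φ j)) →
      (∀ i j, tb n i j = true → ¬ G.Adj (φ i) (φ j)) → (∀ i j, tb d i j = true → φ i ≠ φ j) →
      c.chk dl al a n d = true → False := by
  classical
  have ok : ∀ a n d, (∀ i j, tb a i j = true → G.Adj (φ i) (φ j)) →
      (∀ i j, tb n i j = true → ¬ G.Adj (φ i) (φ j)) → (∀ i j, tb d i j = true → φ i ≠ φ j) →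
      (vw a n d).Ok G φ := fun a n d h1 h2 h3 => ⟨h1, h2, fun i j h => by
        simp only [vw, Bool.or_eq_true] at h
        exact h.elim (h3 i j) fun h => (h1 i j h).ne⟩
  have up : ∀ (P : V → V → Prop), (∀ x y, P x y → P y x) → ∀ m i j, i < 16 → j < 16 →
      P (φ i) (φ j) → (∀ i j, tb m i j = true → P (φ i) (φ j)) →
      ∀ a b, tb (ins m i j) a b = true → P (φ a) (φ b) := by
    intro P hP m i j hi hj h1 h2 a b h
    rcases tb_ins hi hj h with h | ⟨rfl, rfl⟩ | ⟨rfl, rfl⟩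
    exacts [h2 _ _ h, h1, hP _ _ h1]
  induction c with
  | con w => exact fun a n d h1 h2 h3 => w.sound g (ok a n d h1 h2 h3) hd ha
  | dis i j w r ih =>
    intro a n d h1 h2 h3 h
    simp only [Cert.chk, Bool.and_eq_true, Nat.blt_eq] at h
    obtain ⟨⟨⟨hi, hj⟩, h4⟩, h5⟩ := h
    have ne : φ i ≠ φ j := fun e => w.sound g ((ok a n d h1 h2 h3).mg e) hd ha h4
    exact ih _ _ _ h1 h2 (up (· ≠ ·) (fun _ _ => Ne.symm) d i j hi hj ne h3) h5
  | spl i j r s ih1 ih2 =>
    intro a n d h1 h2 h3 h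
    simp only [Cert.chk, Bool.and_eq_true, Nat.blt_eq] at h
    obtain ⟨⟨⟨hi, hj⟩, h4⟩, h5⟩ := h
    by_cases e : G.Adj (φ i) (φ j)
    · exact ih1 _ _ _ (up G.Adj (fun _ _ h => h.symm) a i j hi hj e h1) h2 h3 h4
    · exact ih2 _ _ _ h1 (up (fun x y => ¬ G.Adj x y) (fun _ _ h h' => h h'.symm) n i j hi hj e h2)
        h3 h5
  | col S ops =>
    intro a n d h1 h2 h3 h
    simp only [Cert.chk, Bool.and_eq_true, List.all_eq_true, bne_iff_ne, Bool.not_eq_true',
      List.isEmpty_eq_false_iff] at h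
    obtain ⟨⟨⟨h4, h5⟩, h6⟩, h7⟩ := h
    have o := ok a n d h1 h2 h3
    have nd : (S.map φ).Nodup := o.pw h5
    have r := run_sound (M := M) g.mat o ops S _ (List.Nodup.of_map φ nd) h7
    refine g.min (S.toFinset.image φ) ?_ ?_ (Red.image φ ?_ (r.mono fun i hi => ?_))
    · simpa using h4
    · simp only [mem_image, List.mem_toFinset]
      rintro _ ⟨i, hi, rfl⟩
      exact (hd _ (lk_mem (h6 i hi))).2
    · intro i hi j hj e
      exact List.inj_on_of_nodup_map nd (by simpa using hi) (by simpa using hj) e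
    · have := (hd _ (lk_mem (h6 i (List.mem_toFinset.1 hi)))).1
      simp only at this ⊢
      omega

theorem engine [Inhabited C] (g : Glob G M I) (φ : ℕ → V) (la ln ld dl : List (ℕ × ℕ))
    (al : List ℕ) (c : Cert) (hc : c.chk dl al (mk la) (mk ln) (mk ld) = true)
    (h1 : la.Forall fun p => G.Adj (φ p.1) (φ p.2))
    (h2 : ln.Forall fun p => ¬ G.Adj (φ p.1) (φ p.2)) (h3 : ld.Forall fun p => φ p.1 ≠ φ p.2)
    (hd : dl.Forall fun p => dg G (φ p.1) ≤ p.2 ∧ I (φ p.1))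
    (ha : al.Forall fun i => AllTri G (φ i)) : False := by
  rw [List.forall_iff_forall_mem] at h1 h2 h3 hd ha
  refine c.sound g hd ha _ _ _ (fun i j h => ?_) (fun i j h => ?_) (fun i j h => ?_) hc
  · exact (tb_mk h).elim (h1 _) fun h => (h1 _ h).symm
  · exact (tb_mk h).elim (h2 _) fun h h' => h2 _ h h'.symm
  · exact (tb_mk h).elim (h3 _) fun h => (h3 _ h).symm

end Pool.Agent.P.MP_0e1fd4_co
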