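import Pool.Agent.P.MP_0e1fd4_co.Eng
import Pool.Agent.P.MP_5fbfb9_co.Faces

/-! Faces of a planar graph without small clique cutsets. -/

namespace Pool.Agent.P.MP_0e1fd4_co

open Finset MP_5fbfb9_co

variable {V : Type} [DecidableEq V] [Fintype V] {G : SimpleGraph V}

structure Conn (G : SimpleGraph V) (A K : Finset V) : Prop where
  supp : Supp G A
  cut : ∀ S : Finset V, G.IsClique (S : Set V) → #S ≤ 3 → ∀ p ∈ A, ∀ q ∈ A, p ∉ S → q ∉ S →
    Rch G S p q
  sub : K ⊆ A
  clq : G.IsClique (K : Set V)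
  card : #K ≤ 3
  deg : ∀ v ∈ A, v ∉ K → 4 ≤ dg G v
  ne : ∃ v ∈ A, v ∉ K
  c6 : NoC6 G

variable {A K : Finset V}

lemma Conn.five (H : Conn G A K) : 5 ≤ #A := by
  obtain ⟨v, hv, hK⟩ := H.ne
  have h1 := H.deg v hv hK
  have h2 : insert v (nb G v) ⊆ A := by
    intro x hx
    rcases mem_insert.1 hx with rfl | hx
    exacts [hv, H.supp _ _ (mem_nb.1 hx).symm]
  have := card_le_card h2
  rw [card_insert_of_notMem (by simp)] at this
  unfold dg at h1
  omega

lemma Conn.noclq (H : Conn G A K) {v : V} (hv : v ∈ A) (S : Finset V) (hS : G.IsClique (S : Set V))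
    (h3 : #S ≤ 3) (vS : v ∉ S) (h : ∀ x, G.Adj v x → x ∈ S) : False := by
  obtain ⟨p, hp, pS⟩ := exists_mem_notMem_of_card_lt_card (s := insert v S) (t := A) (by
    have := H.five
    have := card_insert_le v S
    omega)
  simp only [mem_insert, not_or] at pS
  rcases (H.cut S hS h3 v hv p hp vS pS.2).cases_head with e | ⟨b, hb, -⟩
  · exact pS.1 e.symm
  · exact hb.2.2 (h b hb.1)

lemma Conn.no1 (H : Conn G A K) {v a : V} (hv : v ∈ A) (va : v ≠ a) (h : ∀ x, G.Adj v x → x = a) :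
    False :=
  H.noclq hv {a} (by simp) (by simp) (by simpa using va) (by simpa using h)

lemma Conn.no2 (H : Conn G A K) {v a b : V} (va : G.Adj v a) (vb : G.Adj v b) (ab : G.Adj a b)
    (h : ∀ x, G.Adj v x → x = a ∨ x = b) : False :=
  H.noclq (H.supp _ _ va) {a, b} (by simpa using fun _ => ab) (card_le_two.trans (by omega))
    (by simp [va.ne, vb.ne]) (by simpa using h)

omit [Fintype V] in
lemma clq3 {a b d : V} (ab : G.Adj a b) (ad : G.Adj a d) (bd : G.Adj b d) :
    G.IsClique (({a, b, d} : Finset V) : Set V) := by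
  intro x hx y hy xy
  simp only [coe_insert, coe_singleton, Set.mem_insert_iff, Set.mem_singleton_iff] at hx hy
  rcases hx with rfl | rfl | rfl <;> rcases hy with rfl | rfl | rfl <;>
    first | exact absurd rfl xy | assumption | (symm; assumption)

lemma Conn.two_le (H : Conn G A K) {v : V} (hv : v ∈ A) : 2 ≤ dg G v := by
  by_contra hc
  rcases (nb G v).eq_empty_or_nonempty with e | ⟨a, ha⟩
  · exact H.noclq hv ∅ (by simp) (by simp) (by simp) fun x hx => e ▸ mem_nb.2 hx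
  · exact H.no1 hv (mem_nb.1 ha).ne fun x hx =>
      card_le_one.1 (show #(nb G v) ≤ 1 by unfold dg at hc; omega) x (mem_nb.2 hx) a ha

lemma dg_le {v : V} (l : List V) (h : ∀ x, G.Adj v x → x ∈ l) : dg G v ≤ l.length :=
  (card_le_card fun x hx => List.mem_toFinset.2 (h x (mem_nb.1 hx))).trans (List.toFinset_card_le l)

variable {F : Type} [Fintype F] {c : F → EF V}

structure Pla (G : SimpleGraph V) (A K : Finset V) (c : F → EF V) : Prop extends Conn G A K where
  fa : Fa G c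
  zero : ∑ f, c f = 0

namespace Pla

variable (H : Pla G A K c)
include H

lemma adj {f : F} {u v : V} (h : c f u v ≠ 0) : G.Adj u v := (H.fa.cyc f).supp _ _ h

lemma sym {f : F} {u v : V} (h : c f u v ≠ 0) : c f v u ≠ 0 := (H.fa.cyc f).symm u v ▸ h

lemma rot {v p q : V} (E : Finset V) (hE : ∀ f, ∑ u ∈ E, c f v u = 0) (hp : G.Adj v p)
    (hq : G.Adj v q) (pE : p ∈ E) : q ∈ E := by
  by_contra qE
  obtain ⟨φ, hφ⟩ := H.fa.pot (∑ u ∈ E, evl v u) (by simpa [evl] using hE)
  have e : ∀ a b, Rch G {v} a b → φ a = φ b := by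
    intro a b hab
    induction hab with
    | refl => rfl
    | tail _ hb ih =>
      have := hφ _ _ hb.1
      simp only [mem_singleton] at hb
      simp [evl, El, Ne.symm hb.2.1, Ne.symm hb.2.2] at this
      exact ih.trans (K2_eq this.symm)
  have e1 := hφ _ _ hp
  have e2 := hφ _ _ hq
  rw [e p q (H.cut {v} (by simp) (by simp) p (H.supp _ _ hp.symm) q (H.supp _ _ hq.symm)
    (by simpa using hp.ne.symm) (by simpa using hq.ne.symm)), ← e2] at e1
  simp [evl, El, hp.ne, hq.ne, pE, qE] at e1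

lemma faces {u v : V} (h : G.Adj u v) : ∃ f g, f ≠ g ∧ c f u v ≠ 0 ∧ c g u v ≠ 0 := by
  obtain ⟨f, hf⟩ : ∃ f, c f u v ≠ 0 := by
    by_contra hc
    push Not at hc
    exact H.no1 (H.supp _ _ h) h.ne fun x hx => by
      simpa using H.rot {v} (by simpa using hc) h hx (by simp)
  obtain ⟨g, h1, h2⟩ := exists_other H.zero hf
  exact ⟨f, g, h1.symm, hf, h2⟩

open scoped Classical in
lemma val {f g : F} {u v : V} (fg : f ≠ g) (hf : c f u v ≠ 0) (hg : c g u v ≠ 0) (k : F) :
    c k u v = (if k = f then 1 else 0) + if k = g then 1 else 0 := by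
  by_cases e1 : k = f
  · subst e1; simp [fg, K2_one hf]
  by_cases e2 : k = g
  · subst e2; simp [e1, K2_one hg]
  by_contra hc
  simp only [e1, e2, if_false, add_zero] at hc
  rcases H.fa.two u v f g k hf hg hc with e | e | e
  exacts [fg e, e1 e.symm, e2 e.symm]

lemma close2 {w a b : V} {f g : F} (ab : a ≠ b) (fg : f ≠ g) (fa : c f w a ≠ 0) (fb : c f w b ≠ 0)
    (ga : c g w a ≠ 0) (gb : c g w b ≠ 0) {q : V} (hq : G.Adj w q) : q = a ∨ q = b := by
  simpa using H.rot {a, b} (fun k => by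
    rw [sum_pair ab, H.val fg fa ga, H.val fg fb gb, K2_add]) (H.adj fa) hq (by simp)

lemma close3 {w a b d : V} {f g k : F} (ab : a ≠ b) (ad : a ≠ d) (bd : b ≠ d) (fg : f ≠ g)
    (gk : g ≠ k) (kf : k ≠ f) (ka : c k w a ≠ 0) (fa : c f w a ≠ 0) (fb : c f w b ≠ 0)
    (gb : c g w b ≠ 0) (gd : c g w d ≠ 0) (kd : c k w d ≠ 0) {q : V} (hq : G.Adj w q) :
    q = a ∨ q = b ∨ q = d := by
  classical
  simpa using H.rot {a, b, d} (fun j => by
    rw [sum_insert (by simp [ab, ad]), sum_pair bd, H.val kf ka fa, H.val fg fb gb, H.val gk gd kd]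
    linear_combination K2_add (if j = f then 1 else 0) + K2_add (if j = g then 1 else 0) +
      K2_add (if j = k then 1 else 0)) (H.adj fa) hq (by simp)

lemma close4 {w a b d e : V} {f g k l : F} (ab : a ≠ b) (ad : a ≠ d) (ae : a ≠ e) (bd : b ≠ d)
    (be : b ≠ e) (de : d ≠ e) (fg : f ≠ g) (gk : g ≠ k) (kl : k ≠ l) (lf : l ≠ f)
    (la : c l w a ≠ 0) (fa : c f w a ≠ 0) (fb : c f w b ≠ 0) (gb : c g w b ≠ 0)
    (gd : c g w d ≠ 0) (kd : c k w d ≠ 0) (ke : c k w e ≠ 0) (le : c l w e ≠ 0) {q : V}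
    (hq : G.Adj w q) : q = a ∨ q = b ∨ q = d ∨ q = e := by
  classical
  simpa using H.rot {a, b, d, e} (fun j => by
    rw [sum_insert (by simp [ab, ad, ae]), sum_insert (by simp [bd, be]), sum_pair de,
      H.val lf la fa, H.val fg fb gb, H.val gk gd kd, H.val kl ke le]
    linear_combination K2_add (if j = f then 1 else 0) + K2_add (if j = g then 1 else 0) +
      K2_add (if j = k then 1 else 0) + K2_add (if j = l then 1 else 0)) (H.adj fa) hq (by simp)

lemma tri_face {a b d : V} (ab : G.Adj a b) (bd : G.Adj b d) (da : G.Adj d a) :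
    ∃ f, c f = Tri a b d := by
  classical
  obtain ⟨x, hx⟩ := H.fa.span ab bd da
  let T : Finset V := {a, b, d}
  have off : ∀ u v, u ∉ T → Tri a b d u v = 0 := fun u v hu => by
    by_contra e
    have := Tri_ne e
    simp only [T, mem_insert, mem_singleton, not_or] at hu
    tauto
  have same : ∀ u v f g, Tri a b d u v = 0 → c f u v ≠ 0 → c g u v ≠ 0 → x f = x g := by
    intro u v f g h0 hf hg
    by_cases e : f = g
    · rw [e]
    · have := H.fa.sum_two x e hf hg
      rw [← hx, h0] at this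
      exact K2_eq this.symm
  have loc : ∀ u v v' f g, u ∉ T → c f u v ≠ 0 → c g u v' ≠ 0 → x f = x g := by
    intro u v v' f g hu hf hg
    have := H.rot (univ.filter fun r => ∃ k, x k = x f ∧ c k u r ≠ 0) (fun k => ?_) (H.adj hf)
      (H.adj hg) (by simpa using ⟨f, rfl, hf⟩)
    · obtain ⟨k, k1, k2⟩ := (mem_filter.1 this).2
      rw [← k1]; exact same u v' k g (off _ _ hu) k2 hg
    by_cases e : x k = x f
    · refine Eq.trans (sum_subset (subset_univ _) fun r _ hr => ?_) ((H.fa.cyc k).even u)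
      by_contra h
      exact hr (mem_filter.2 ⟨mem_univ _, k, e, h⟩)
    · refine sum_eq_zero fun r hr => ?_
      obtain ⟨j, j1, j2⟩ := (mem_filter.1 hr).2
      by_contra h
      exact e ((same u r k j (off _ _ hu) h j2).trans j1)
  obtain ⟨p, hp, pT⟩ := exists_mem_notMem_of_card_lt_card (s := T) (t := A) (by
    have := H.five
    have : #T ≤ 3 := card_le_three
    omega)
  obtain ⟨p', hp'⟩ : (nb G p).Nonempty := card_pos.1 (by have := H.two_le hp; unfold dg at this; omega)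
  obtain ⟨f0, -, -, hf0, -⟩ := H.faces (mem_nb.1 hp')
  have glob : ∀ u, Rch G T p u → u ∉ T → ∀ v g, c g u v ≠ 0 → x g = x f0 := by
    intro u hu
    induction hu with
    | refl => exact fun _ v g hg => loc p v p' g f0 pT hg hf0
    | tail _ hb ih =>
      intro hT v g hg
      obtain ⟨k, -, -, hk, -⟩ := H.faces hb.1
      exact (loc _ _ _ g k hT hg (H.sym hk)).trans (ih hb.2.1 _ k hk)
  have all : ∀ u v g, u ∉ T → c g u v ≠ 0 → x g = x f0 := fun u v g hu hg =>
    glob u (H.cut T (clq3 ab da.symm bd) card_le_three p hp u (H.supp _ _ (H.adj hg)) pT hu) hu v g hg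
  obtain ⟨g, g1, g2⟩ : ∃ g, c g a b ≠ 0 ∧ x g ≠ x f0 := by
    obtain ⟨f, g, fg, hf, hg⟩ := H.faces ab
    have := H.fa.sum_two x fg hf hg
    rw [← hx, Tri_ab ab.ne da.ne.symm bd.ne] at this
    by_cases e : x f = x f0
    · refine ⟨g, hg, fun e' => ?_⟩
      rw [e, e', K2_add] at this
      exact one_ne_zero this
    · exact ⟨f, hf, e⟩
  have ins : ∀ u v, c g u v ≠ 0 → u ∈ T ∧ v ∈ T := fun u v h =>
    ⟨by_contra fun hu => g2 (all u v g hu h), by_contra fun hu => g2 (all v u g hu (H.sym h))⟩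
  have oth : ∀ u v w, c g u v ≠ 0 → (∀ r ∈ T, r = u ∨ r = v ∨ r = w) → c g u w ≠ 0 := by
    intro u v w h hT h0
    have := (H.fa.cyc g).even u
    rw [Fintype.sum_eq_single v fun r hr => by
      by_contra e
      rcases hT r (ins _ _ e).2 with rfl | rfl | rfl
      exacts [(H.adj e).ne rfl, hr rfl, e h0]] at this
    exact h this
  have gad := oth a b d g1 (by simp [T])
  have gbd := oth b a d (H.sym g1) (by simp [T])
  refine ⟨g, ?_⟩
  ext u v
  by_cases e : c g u v = 0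
  · rw [e]
    by_contra e'
    rcases Tri_ne (Ne.symm e') with h | h | h | h | h | h <;> rw [h.1, h.2] at e
    exacts [g1 e, H.sym g1 e, gbd e, H.sym gbd e, H.sym gad e, gad e]
  · rw [K2_one e]
    have h1 := ins _ _ e
    have h2 := (H.adj e).ne
    have := ab.ne
    have := bd.ne
    have := da.ne
    simp only [T, mem_insert, mem_singleton] at h1
    obtain ⟨rfl | rfl | rfl, rfl | rfl | rfl⟩ := h1 <;> simp_all [Tri, El, eq_comm]

/-- A triangle is a face, recognisable by its edges. -/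
lemma tri {a b d : V} (ab : G.Adj a b) (ad : G.Adj a d) (bd : G.Adj b d) :
    ∃ f, c f a b ≠ 0 ∧ c f a d ≠ 0 ∧ c f b d ≠ 0 ∧
      ∀ u v, c f u v ≠ 0 → u = a ∨ u = b ∨ u = d := by
  obtain ⟨f, hf⟩ := H.tri_face ab bd ad.symm
  refine ⟨f, ?_, ?_, ?_, fun u v h => ?_⟩
  · rw [hf, Tri_ab ab.ne ad.ne bd.ne]; exact one_ne_zero
  · rw [hf, Tri_ac ab.ne ad.ne bd.ne]; exact one_ne_zero
  · rw [hf, Tri_bc ab.ne ad.ne bd.ne]; exact one_ne_zero
  · rw [hf] at h
    have := Tri_ne h
    tauto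

lemma t3 (a b d e g : V) (ab : G.Adj a b) (ad : G.Adj a d) (bd : G.Adj b d) (ae : G.Adj a e)
    (be : G.Adj b e) (ag : G.Adj a g) (bg : G.Adj b g) : d = e ∨ d = g ∨ e = g := by
  obtain ⟨f1, p1, p2, -, p4⟩ := H.tri ab ad bd
  obtain ⟨f2, q1, q2, -, q4⟩ := H.tri ab ae be
  obtain ⟨f3, r1, r2, -, r4⟩ := H.tri ab ag bg
  have := ad.ne; have := bd.ne; have := ae.ne; have := be.ne
  rcases H.fa.two a b f1 f2 f3 p1 q1 r1 with rfl | rfl | rfl
  · have := q4 _ _ (H.sym p2); grind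
  · have := r4 _ _ (H.sym p2); grind
  · have := r4 _ _ (H.sym q2); grind

lemma k4 (a b d e : V) (ab : G.Adj a b) (ad : G.Adj a d) (ae : G.Adj a e) (bd : G.Adj b d)
    (be : G.Adj b e) : ¬ G.Adj d e := by
  intro de
  obtain ⟨f1, p1, p2, -, p4⟩ := H.tri ab ad bd
  obtain ⟨f2, q1, q2, -, q4⟩ := H.tri ad ae de
  obtain ⟨f3, r1, r2, -, r4⟩ := H.tri ab ae be
  have := ab.ne; have := ad.ne; have := bd.ne; have := ae.ne; have := be.ne; have := de.ne
  refine H.noclq (H.supp _ _ ab) {b, d, e} (clq3 bd be de) card_le_three (by simp [*]) fun x hx => ?_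
  simpa using H.close3 bd.ne be.ne de.ne
    (show f1 ≠ f2 by rintro rfl; have := q4 _ _ (H.sym p1); grind)
    (show f2 ≠ f3 by rintro rfl; have := r4 _ _ (H.sym q1); grind)
    (show f3 ≠ f1 by rintro rfl; have := p4 _ _ (H.sym r2); grind) r1 p1 p2 q1 q2 r2 hx

lemma whl {w a b d e : V} (wa : G.Adj w a) (wb : G.Adj w b) (wd : G.Adj w d) (we : G.Adj w e)
    (ab : G.Adj a b) (bd : G.Adj b d) (de : G.Adj d e) (ea : G.Adj e a) (ad : a ≠ d) (be : b ≠ e) :
    dg G w ≤ 4 := by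
  obtain ⟨f1, p1, p2, -, p4⟩ := H.tri wa wb ab
  obtain ⟨f2, q1, q2, -, q4⟩ := H.tri wb wd bd
  obtain ⟨f3, r1, r2, -, r4⟩ := H.tri wd we de
  obtain ⟨f4, s1, s2, -, s4⟩ := H.tri we wa ea
  have := wa.ne; have := wb.ne; have := wd.ne; have := we.ne
  have := ab.ne; have := bd.ne; have := de.ne; have := ea.ne
  refine dg_le [a, b, d, e] fun x hx => ?_
  simpa using H.close4 ab.ne ad ea.ne.symm bd.ne be de.ne
    (show f1 ≠ f2 by rintro rfl; have := q4 _ _ (H.sym p1); grind)
    (show f2 ≠ f3 by rintro rfl; have := r4 _ _ (H.sym q1); grind)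
    (show f3 ≠ f4 by rintro rfl; have := s4 _ _ (H.sym r1); grind)
    (show f4 ≠ f1 by rintro rfl; have := p4 _ _ (H.sym s1); grind) s2 p1 p2 q1 q2 r1 r2 s1 hx

end Pla

end Pool.Agent.P.MP_0e1fd4_co
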