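import Pool.Agent.P.MP_0e1fd4_co.Dis
import Pool.Agent.P.MP_5fbfb9_co.Defs2
import Pool.Agent.P.MP_da739a_co.Main

/-! The induction along clique cutsets and reducible sets. -/

namespace Pool.Agent.P.MP_0e1fd4_co

open Finset SimpleGraph MP_5fbfb9_co

lemma pl_of_planar {V : Type} [DecidableEq V] [Fintype V] {G : SimpleGraph V} (h : Planar G) :
    Pl G := by
  classical
  obtain ⟨p, γ, hp, hγ, hx⟩ := h
  let s : G.edgeSet → V := fun e => e.1.out.1
  let t : G.edgeSet → V := fun e => e.1.out.2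
  have hst : ∀ e : G.edgeSet, s(s e, t e) = e.1 := fun e => Quot.out_eq e.1
  have hadj : ∀ e : G.edgeSet, G.Adj (s e) (t e) := fun e => by
    rw [← mem_edgeSet, hst]; exact e.2
  have hne : ∀ e, s e ≠ t e := fun e => (hadj e).ne
  obtain ⟨U, r, hU, hr, hE⟩ := MP_da739a_co.grid_of_drawing s t hne p (fun e => γ (s e) (t e)) hp
    (fun e => (hγ _ _ (hadj e)).1) (fun e => (hγ _ _ (hadj e)).2.1)
    (fun e => (hγ _ _ (hadj e)).2.2.1) (fun e => (hγ _ _ (hadj e)).2.2.2.1)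
    (fun e => (hγ _ _ (hadj e)).2.2.2.2)
    (fun e f hef => hx _ _ _ _ (hadj e) (hadj f) (by
      rw [hst, hst]; exact fun h => hef (Subtype.ext h)))
  obtain ⟨F, L, R, hF1, hF2⟩ := MP_da739a_co.dual_of_grid s t hne (by
    rintro e e' (⟨h1, h2⟩ | ⟨h1, h2⟩)
    · apply Subtype.ext; rw [← hst, ← hst, h1, h2]
    · apply Subtype.ext; rw [← hst, ← hst, h1, h2, Sym2.eq_swap]) U hU r hr hE
  let T : Finset F := univ.image L ∪ univ.image R
  let g : F → G.edgeSet → K2 := fun f e => (if L e = f then 1 else 0) + if R e = f then 1 else 0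
  let c : T → EF V := fun f => ∑ e, g f e • El (s e) (t e)
  have e1 : ∀ e u v, El (s e) (t e) u v ≠ 0 → e.1 = s(u, v) := fun e u v h => by
    rw [← hst]
    rcases El_ne h with ⟨rfl, rfl⟩ | ⟨rfl, rfl⟩
    exacts [rfl, Sym2.eq_swap]
  have e2 : ∀ f u v, c f u v ≠ 0 → ∃ e : G.edgeSet, e.1 = s(u, v) ∧ g f e ≠ 0 := fun f u v h => by
    simp only [c, Finset.sum_apply, Pi.smul_apply, smul_eq_mul] at h
    obtain ⟨e, -, he⟩ := exists_ne_zero_of_sum_ne_zero h
    exact ⟨e, e1 e u v (right_ne_zero_of_mul he), left_ne_zero_of_mul he⟩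
  refine ⟨T, inferInstance, c, fun f => ⟨fun u v => ?_, fun u v h => ?_, fun v => ?_⟩, ?_,
    fun l hl => ?_⟩
  · simp only [c, Finset.sum_apply, Pi.smul_apply, El_symm _ _ u v]
  · obtain ⟨e, he, -⟩ := e2 f u v h
    rw [← mem_edgeSet, ← he]; exact e.2
  · simp only [c, Finset.sum_apply, Pi.smul_apply, smul_eq_mul]
    rw [sum_comm]
    simp only [← mul_sum, sum_El (hne _)]
    have := congrArg (Int.cast : ℤ → K2) (hF2 (fun k => if k = f.1 then 1 else 0) v)
    simp only [MP_da739a_co.bdry] at this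
    push_cast at this
    refine Eq.trans (sum_congr rfl fun e _ => ?_) this
    simp only [g, CharTwo.sub_eq_add, @eq_comm _ v, mul_add, mul_ite, mul_one, mul_zero]
  · intro u v f1 f2 f3 h1 h2 h3
    obtain ⟨a1, b1, c1⟩ := e2 _ _ _ h1
    obtain ⟨a2, b2, c2⟩ := e2 _ _ _ h2
    obtain ⟨a3, b3, c3⟩ := e2 _ _ _ h3
    obtain rfl : a1 = a2 := Subtype.ext (b1.trans b2.symm)
    obtain rfl : a1 = a3 := Subtype.ext (b1.trans b3.symm)
    have k : ∀ f, g f a1 ≠ 0 → L a1 = f ∨ R a1 = f := fun f h => by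
      by_contra hc
      push Not at hc
      simp [g, hc.1, hc.2] at h
    have := k _ c1
    have := k _ c2
    have := k _ c3
    simp only [Subtype.ext_iff]
    grind
  · obtain ⟨φ, hφ⟩ := MP_da739a_co.potential s t 2 (fun e => (l (El (s e) (t e))).val) (by
      intro z hz
      obtain ⟨w, hw⟩ := hF1 z hz
      apply (ZMod.intCast_zmod_eq_zero_iff_dvd _ 2).1
      have : ∑ f : T, (w f : K2) * l (c f) = 0 := by simp [hl]
      rw [← this]
      simp only [c, map_sum, map_smul, smul_eq_mul, mul_sum]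
      rw [sum_comm]
      push_cast
      refine sum_congr rfl fun e _ => ?_
      simp only [← mul_assoc, ← sum_mul, hw, ZMod.natCast_val, ZMod.cast_id', id_eq]
      rw [mul_comm]
      congr 1
      rw [sum_coe_sort T fun f => (w f : K2) * g f e]
      simp [g, mul_add, sum_add_distrib, T, CharTwo.sub_eq_add])
    refine ⟨fun v => φ v, fun u v huv => ?_⟩
    have h1 := (ZMod.intCast_zmod_eq_zero_iff_dvd _ 2).2 (hφ ⟨s(u, v), huv⟩)
    have h2 := hst ⟨s(u, v), huv⟩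
    push_cast at h1
    simp only [ZMod.natCast_val, ZMod.cast_id', id_eq, CharTwo.sub_eq_add] at h1
    rcases Sym2.eq_iff.1 h2 with ⟨a, b⟩ | ⟨a, b⟩ <;> rw [a, b] at h1
    · exact (K2_eq h1).symm
    · rw [El_comm, add_comm]; exact (K2_eq h1).symm

variable {V C : Type} [DecidableEq V] [Fintype V] {M : V → C → V → C → Prop}

def res (G : SimpleGraph V) (B : Finset V) : SimpleGraph V :=
  ⟨fun u v => G.Adj u v ∧ u ∈ B ∧ v ∈ B, ⟨fun _ _ h => ⟨h.1.symm, h.2.2, h.2.1⟩⟩,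
    ⟨fun _ h => h.1.ne rfl⟩⟩

open Classical in
def Ext (M : V → C → V → C → Prop) (f : V → C → ℕ) (G : SimpleGraph V) (A : Finset V) : Prop :=
  ∀ K ⊆ A, G.IsClique (K : Set V) → #K ≤ 3 → ∀ ψ : V → C, ∃ φ : V → C, ∃ r : V → ℕ,
    (∀ v ∈ K, φ v = ψ v) ∧ ∀ v ∈ A, v ∉ K →
      #(A.filter fun w => G.Adj v w ∧ M v (φ v) w (φ w) ∧ (w ∈ K ∨ r w ≤ r v)) < f v (φ v)

theorem ext [Inhabited C] (hM : Mat M) (U : Finset C) (f : V → C → ℕ) (f2 : ∀ v a, f v a ≤ 2)
    (hL : ∀ v, 4 ≤ ∑ a ∈ U, f v a) (A : Finset V) :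
    ∀ G : SimpleGraph V, Supp G A → Pl G → (∀ a b c d e f, G.Adj a b → G.Adj b c → G.Adj c d →
      G.Adj d e → G.Adj e f → G.Adj f a → [a, b, c, d, e, f].Pairwise (· ≠ ·) → ¬ G.Adj a c ∧
      ¬ G.Adj a d) → Ext M f G A := by
  classical
  induction A using Finset.strongInduction with
  | H A ih =>
  intro G hA hP h6 K KA hK h3 ψ
  have sub : ∀ B ⊂ A, Ext M f G B := by
    intro B hB K KB hK h3 ψ
    obtain ⟨φ, r, q1, q2⟩ := ih B hB (res G B) (fun _ _ h => h.2.1) (hP.mono fun _ _ h => h.1)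
      (fun a b c d e f h1 h2 h3 h4 h5 h6' h7 =>
        (h6 a b c d e f h1.1 h2.1 h3.1 h4.1 h5.1 h6'.1 h7).imp (mt fun h => h.1) (mt fun h => h.1))
      K KB (fun x hx y hy xy => ⟨hK hx hy xy, KB hx, KB hy⟩) h3 ψ
    refine ⟨φ, r, q1, fun v hv vK => lt_of_le_of_lt (card_le_card fun w hw => ?_) (q2 v hv vK)⟩
    rw [mem_filter] at hw ⊢
    exact ⟨hw.1, ⟨hw.2.1, hv, hw.1⟩, hw.2.2⟩
  by_contra no
  have join : ∀ (X : Finset V) (φ χ : V → C) (r s : V → ℕ), (∀ v ∈ K, v ∉ X) →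
      (∀ v ∈ K, φ v = ψ v) → (∀ v ∈ A \ X, v ∉ K → #((A \ X).filter fun w => G.Adj v w ∧
        M v (φ v) w (φ w) ∧ (w ∈ K ∨ r w ≤ r v)) < f v (φ v)) →
      (∀ v ∈ X, #(A.filter fun w => G.Adj v w ∧ (w ∈ X ∧ M v (χ v) w (χ w) ∧ s w ≤ s v ∨
        w ∉ X ∧ M v (χ v) w (φ w))) < f v (χ v)) → False := by
    intro X φ χ r s KX q1 q2 q3
    refine no ⟨fun v => if v ∈ X then χ v else φ v,
      fun v => if v ∈ X then A.sup r + 1 + s v else r v, fun v hv => ?_, fun v hv vK => ?_⟩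
    · simp only [if_neg (KX v hv), q1 v hv]
    · by_cases a : v ∈ X
      · simp only [if_pos a]
        refine lt_of_le_of_lt (card_le_card fun w hw => ?_) (q3 v a)
        rw [mem_filter] at hw ⊢
        obtain ⟨h1, h2, h4, h5⟩ := hw
        refine ⟨h1, h2, ?_⟩
        by_cases b : w ∈ X
        · simp only [if_pos b] at h4 h5
          exact Or.inl ⟨b, h4, by have := h5.resolve_left fun h => KX w h b; omega⟩
        · simp only [if_neg b] at h4
          exact Or.inr ⟨b, h4⟩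
      · simp only [if_neg a]
        refine lt_of_le_of_lt (card_le_card fun w hw => ?_) (q2 v (mem_sdiff.2 ⟨hv, a⟩) vK)
        rw [mem_filter] at hw ⊢
        obtain ⟨h1, h2, h4, h5⟩ := hw
        by_cases b : w ∈ X
        · simp only [if_pos b] at h5
          have := h5.resolve_left fun h => KX w h b
          have := le_sup (f := r) hv
          omega
        · simp only [if_neg b] at h4 h5
          exact ⟨mem_sdiff.2 ⟨h1, b⟩, h2, h4, h5⟩
  have hmin : ∀ X : Finset V, X.Nonempty → (∀ v ∈ X, v ∈ A ∧ v ∉ K) →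
      ¬ Red G.Adj M X fun v => 4 - dg G v := by
    intro X hX XA hR
    obtain ⟨φ, r, q1, q2⟩ := sub (A \ X) (sdiff_ssubset (fun v hv => (XA v hv).1) hX) K
      (fun v hv => mem_sdiff.2 ⟨KA hv, fun h => (XA v h).2 hv⟩) hK h3 ψ
    obtain ⟨χ, s, r1⟩ := hR U (fun v a => f v a - #((nb G v \ X).filter fun w => M v a w (φ w)))
      (fun v a => (Nat.sub_le _ _).trans (f2 v a)) (by
      intro v _
      have e1 : ∑ a ∈ U, f v a ≤ ∑ a ∈ U, (f v a - #((nb G v \ X).filter fun w => M v a w (φ w))) +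
          ∑ a ∈ U, #((nb G v \ X).filter fun w => M v a w (φ w)) := by
        rw [← sum_add_distrib]
        exact sum_le_sum fun a _ => by omega
      have e2 : ∑ a ∈ U, #((nb G v \ X).filter fun w => M v a w (φ w)) ≤ #(nb G v \ X) * 1 := by
        simp only [card_filter]
        rw [sum_comm]
        refine sum_le_card_nsmul _ _ _ fun w _ => ?_
        rw [← card_filter]
        exact card_le_one.2 fun a ha b hb => hM.uniq _ _ _ _ _ (hM.symm _ _ _ _ (mem_filter.1 ha).2)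
          (hM.symm _ _ _ _ (mem_filter.1 hb).2)
      have e3 := card_sdiff_add_card_inter (nb G v) X
      have e4 : nb G v ∩ X = X.filter (G.Adj v) := by ext; simp [and_comm]
      have := hL v
      rw [e4] at e3
      simp only [dg]
      omega)
    refine join X φ χ r s (fun v hv h => (XA v h).2 hv) q1 q2 fun v hv => ?_
    have e1 := (r1 v hv).2
    have e2 : #(A.filter fun w => G.Adj v w ∧ (w ∈ X ∧ M v (χ v) w (χ w) ∧ s w ≤ s v ∨
        w ∉ X ∧ M v (χ v) w (φ w))) ≤ cnt G.Adj M X χ s v +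
        #((nb G v \ X).filter fun w => M v (χ v) w (φ w)) := by
      refine le_trans (card_le_card fun w hw => ?_) (card_union_le _ _)
      simp only [mem_filter, mem_union, mem_sdiff, mem_nb] at hw ⊢
      tauto
    beta_reduce at e1
    omega
  have glue : ∀ S D E : Finset V, G.IsClique (S : Set V) → #S ≤ 3 → D ⊆ A → E ⊆ A → D.Nonempty →
      E.Nonempty → (∀ v ∈ A, v ∉ D → v ∉ E → v ∈ S) → (∀ v ∈ D, v ∉ E) → (∀ v ∈ D, v ∉ S) →
      (∀ v ∈ E, v ∉ S) → (∀ u ∈ D, ∀ w ∈ E, ¬ G.Adj u w) → (∀ v ∈ K, v ∉ D) → False := by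
    intro S D E hS S3 DA EA hD hE cov DE DS ES nad KD
    obtain ⟨φ, r, q1, q2⟩ := sub (A \ D) (sdiff_ssubset DA hD) K
      (fun v hv => mem_sdiff.2 ⟨KA hv, KD v hv⟩) hK h3 ψ
    obtain ⟨χ, s, r1, r2⟩ := sub (A \ E) (sdiff_ssubset EA hE) (S ∩ A)
      (fun v hv => mem_sdiff.2 ⟨(mem_inter.1 hv).2, fun h => ES v h (mem_inter.1 hv).1⟩)
      (hS.subset (by simp)) ((card_le_card inter_subset_left).trans S3) φ
    refine join D φ χ r s KD q1 q2 fun v hv => lt_of_le_of_lt (card_le_card fun w hw => ?_)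
      (r2 v (mem_sdiff.2 ⟨DA hv, DE v hv⟩) fun h => DS v hv (mem_inter.1 h).1)
    rw [mem_filter] at hw ⊢
    obtain ⟨h1, h2, h4⟩ := hw
    have wE : w ∉ E := fun e => nad v hv w e h2
    refine ⟨mem_sdiff.2 ⟨h1, wE⟩, h2, ?_⟩
    rcases h4 with ⟨-, h4, h5⟩ | ⟨h4, h5⟩
    · exact ⟨h4, Or.inr h5⟩
    · have := mem_inter.2 ⟨cov w h1 h4 wE, h1⟩
      exact ⟨r1 w this ▸ h5, Or.inl this⟩
  refine core ⟨hA, fun S hS S3 p hp q hq pS qS => ?_, KA, hK, h3, fun v hv vK => ?_, ?_, h6⟩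
    hP hM hmin
  · by_contra pq
    let D := A.filter fun v => v ∉ S ∧ Rch G S p v
    let E := A.filter fun v => v ∉ S ∧ ¬ Rch G S p v
    have nad : ∀ u ∈ D, ∀ w ∈ E, ¬ G.Adj u w := fun u hu w hw h => by
      simp only [D, E, mem_filter] at hu hw
      exact hw.2.2 (hu.2.2.tail ⟨h, hu.2.1, hw.2.1⟩)
    have hD : D.Nonempty := ⟨p, mem_filter.2 ⟨hp, pS, Relation.ReflTransGen.refl⟩⟩
    have hE : E.Nonempty := ⟨q, mem_filter.2 ⟨hq, qS, pq⟩⟩
    have cov : ∀ v ∈ A, v ∉ D → v ∉ E → v ∈ S := fun v hv a b => by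
      simp only [D, E, mem_filter] at a b
      tauto
    have DE : ∀ v ∈ D, v ∉ E := fun v a b => (mem_filter.1 b).2.2 (mem_filter.1 a).2.2
    have DS : ∀ v ∈ D, v ∉ S := fun v a => (mem_filter.1 a).2.1
    have ES : ∀ v ∈ E, v ∉ S := fun v a => (mem_filter.1 a).2.1
    by_cases e : ∀ v ∈ K, v ∉ D
    · exact glue S D E hS S3 (filter_subset _ _) (filter_subset _ _) hD hE cov DE DS ES nad e
    · push Not at e
      obtain ⟨v, vK, vD⟩ := e
      exact glue S E D hS S3 (filter_subset _ _) (filter_subset _ _) hE hD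
        (fun v hv a b => cov v hv b a) (fun v a b => DE v b a) ES DS
        (fun u hu w hw h => nad w hw u hu h.symm) fun w wK wE =>
          nad v vD w wE (hK vK wK (by rintro rfl; exact DE _ vD wE))
  · by_contra hd
    refine hmin {v} (by simp) (by simp [hv, vK]) (Red.col hM (fun _ _ h => h.symm)
      (fun _ => G.irrefl) (mem_singleton_self v) (by omega) ?_)
    rw [erase_singleton]
    exact Red.empty
  · by_contra hc
    push Not at hc
    exact no ⟨ψ, fun _ => 0, fun _ _ => rfl, fun v hv vK => absurd (hc v hv) vK⟩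

omit [DecidableEq V] [Fintype V] in
lemma noC6_of {G : SimpleGraph V} (h : ∀ (v : V) (c : G.Walk v v), c.IsCycle → c.length = 6 →
      ∀ x ∈ c.support, ∀ y ∈ c.support, G.Adj x y → s(x, y) ∈ c.edges) (a b c d e f : V)
    (ab : G.Adj a b) (bc : G.Adj b c) (cd : G.Adj c d) (de : G.Adj d e) (ef : G.Adj e f)
    (fa : G.Adj f a) (nd : [a, b, c, d, e, f].Pairwise (· ≠ ·)) : ¬ G.Adj a c ∧ ¬ G.Adj a d := by
  simp only [List.pairwise_cons, List.mem_cons, List.not_mem_nil, or_false, forall_eq_or_imp,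
    forall_eq] at nd
  have k := h a (.cons ab (.cons bc (.cons cd (.cons de (.cons ef (.cons fa .nil)))))) (by
    simp only [Walk.isCycle_def, Walk.isTrail_def]
    simp
    grind) rfl
  constructor <;> intro hh
  · have := k a (by simp) c (by simp) hh
    simp at this
    grind
  · have := k a (by simp) d (by simp) hh
    simp at this
    grind

theorem main2 {V : Type} [Fintype V] (G : SimpleGraph V) (hp : Planar G)
    (h6 : ∀ (v : V) (c : G.Walk v v), c.IsCycle → c.length = 6 →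
      ∀ x ∈ c.support, ∀ y ∈ c.support, G.Adj x y → s(x, y) ∈ c.edges)
    (s : ℕ) (H : SimpleGraph (V × Fin s)) (h1 : ∀ x y, H.Adj x y → G.Adj x.1 y.1)
    (h2 : ∀ x y y', H.Adj x y → H.Adj x y' → y.1 = y'.1 → y = y') (f : V × Fin s → ℕ)
    (f1 : ∀ x, f x ≤ 2) (f2 : ∀ v, 4 ≤ ∑ i, f (v, i)) :
    ∃ T : V → Fin s, ∀ Γ : H.Subgraph, Γ.verts.Nonempty → (∀ x ∈ Γ.verts, x.2 = T x.1) →
      ∃ x ∈ Γ.verts, (Γ.neighborSet x).ncard < f x := by
  classical
  rcases isEmpty_or_nonempty V with hV | ⟨⟨v0⟩⟩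
  · exact ⟨fun v => isEmptyElim v, fun _ ⟨x, _⟩ => isEmptyElim x.1⟩
  obtain ⟨i0, -⟩ := exists_ne_zero_of_sum_ne_zero
    (show ∑ i, f (v0, i) ≠ 0 by have := f2 v0; omega)
  let _ : Inhabited (Fin s) := ⟨i0⟩
  obtain ⟨φ, r, -, q⟩ := ext (M := fun u a w b => H.Adj (u, a) (w, b))
    ⟨fun _ _ _ _ h => h.symm, fun u a w b b' h h' => (Prod.ext_iff.1 (h2 _ _ _ h h' rfl)).2⟩
    univ (fun v a => f (v, a)) (fun v a => f1 _) f2 univ G (fun _ _ _ => mem_univ _)
    (pl_of_planar hp) (noC6_of h6) ∅ (empty_subset _) (by simp) (by simp) (fun _ => i0)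
  refine ⟨φ, fun Γ hne hT => ?_⟩
  obtain ⟨x, hx, hmax⟩ := Set.exists_max_image Γ.verts (fun x => r x.1) (Set.toFinite _) hne
  have ex : ∀ y ∈ Γ.verts, (y.1, φ y.1) = y := fun y hy => Prod.ext rfl (hT y hy).symm
  refine ⟨x, hx, lt_of_le_of_lt ?_
    ((q x.1 (mem_univ _) (notMem_empty _)).trans_eq (congrArg f (ex x hx)))⟩
  rw [← Set.ncard_coe_finset]
  refine Set.ncard_le_ncard_of_injOn Prod.fst (fun y hy => ?_) (fun y hy y' hy' e => ?_)
    (Set.toFinite _)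
  · have a1 : y ∈ Γ.verts := Γ.edge_vert hy.symm
    have a2 : H.Adj x y := Γ.adj_sub hy
    simp only [coe_filter, mem_univ, true_and, Set.mem_ofPred_eq, ex x hx, ex y a1]
    exact ⟨h1 _ _ a2, a2, Or.inr (hmax y a1)⟩
  · exact h2 x _ _ (Γ.adj_sub hy) (Γ.adj_sub hy') e

theorem main {V : Type} [Fintype V] (G : SimpleGraph V) (hp : Planar G)
    (h6 : ∀ (v : V) (c : G.Walk v v), c.IsCycle → c.length = 6 →
      ∀ x ∈ c.support, ∀ y ∈ c.support, G.Adj x y → s(x, y) ∈ c.edges)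
    (s : ℕ) (H : SimpleGraph (V × Fin s)) (h1 : ∀ x y, H.Adj x y → G.Adj x.1 y.1)
    (h2 : ∀ x y y', H.Adj x y → H.Adj x y' → y.1 = y'.1 → y = y') (f : V × Fin s → ℕ)
    (f1 : ∀ x, f x ≤ 1) (f2 : ∀ v, 4 ≤ ∑ i, f (v, i)) :
    ∃ T : V → Fin s, (∀ v, f (v, T v) = 1) ∧ ∀ u v, ¬ H.Adj (u, T u) (v, T v) := by
  obtain ⟨T, hT⟩ := main2 G hp h6 s H h1 h2 f (fun x => (f1 x).trans one_le_two) f2
  refine ⟨T, fun v => ?_, fun u v h => ?_⟩
  · obtain ⟨x, hx, h⟩ := hT (H.singletonSubgraph (v, T v)) ⟨_, rfl⟩ (by rintro _ rfl; rfl)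
    obtain rfl : x = (v, T v) := hx
    have := f1 (v, T v)
    omega
  · obtain ⟨x, hx, h3⟩ := hT (H.subgraphOfAdj h) ⟨(u, T u), by simp⟩ (by
      intro x hx
      rcases hx with rfl | rfl <;> rfl)
    have := f1 x
    have h4 : ((H.subgraphOfAdj h).neighborSet x).ncard = 1 := by
      rcases hx with rfl | rfl <;> simp
    omega

end Pool.Agent.P.MP_0e1fd4_co
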