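import Pool.Agent.P.MP_0e1fd4_co.Col

/-! The online game: basic strategies. -/

namespace Pool.Agent.P.MP_0e1fd4_co.On

open Finset
open scoped Classical

variable {ι : Type}

/-- the vertices that wait -/
def rem (S : Finset ι) (c : ι → Option ℕ) : Finset ι := S.filter fun v => c v = none

@[simp] lemma mem_rem {S : Finset ι} {c : ι → Option ℕ} {v : ι} :
    v ∈ rem S c ↔ v ∈ S ∧ c v = none := by simp [rem]

/-- a legal answer -/
def Resp (R : ι → ι → Prop) (M : ι → ℕ → ι → ℕ → Prop) (L : ι → Finset ℕ) (S : Finset ι)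
    (c : ι → Option ℕ) : Prop :=
  (∀ v ∈ S, ∀ a, c v = some a → a ∈ L v) ∧
    ∀ u ∈ S, ∀ v ∈ S, ∀ a b, R u v → c u = some a → c v = some b → ¬ M u a v b

/-- the painter survives `n` rounds -/
def Pt (R : ι → ι → Prop) : ℕ → Finset ι → (ι → ℕ) → Prop
  | 0, S, t => ∀ v ∈ S, 1 ≤ t v
  | n + 1, S, t => (∀ v ∈ S, 1 ≤ t v) ∧ ∀ M L, Mat M → (∀ v ∈ S, #(L v) ≤ t v) →
      ∃ c, Resp R M L S c ∧ Pt R n (rem S c) fun v => t v - #(L v)

variable {R : ι → ι → Prop} {n : ℕ} {S T X : Finset ι} {s t : ι → ℕ}

lemma Pt.pos (h : Pt R n S t) : ∀ v ∈ S, 1 ≤ t v := by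
  cases n
  exacts [h, h.1]

lemma shrink (L : ι → Finset ℕ) (t : ι → ℕ) :
    ∃ L' : ι → Finset ℕ, ∀ v, L' v ⊆ L v ∧ #(L' v) = min #(L v) (t v) := by
  have : ∀ v, ∃ A, A ⊆ L v ∧ #A = min #(L v) (t v) := fun v =>
    exists_subset_card_eq (min_le_left _ _)
  choose L' h using this
  exact ⟨L', h⟩

lemma Pt.mono (h : Pt R n S s) (hs : ∀ v ∈ S, s v ≤ t v) : Pt R n S t := by
  induction n generalizing S s t with
  | zero => exact fun v hv => (h v hv).trans (hs v hv)
  | succ n ih =>
    refine ⟨fun v hv => (h.1 v hv).trans (hs v hv), fun M L hM hL => ?_⟩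
    obtain ⟨L', h'⟩ := shrink L s
    obtain ⟨c, c1, c2⟩ := h.2 M L' hM fun v _ => by rw [(h' v).2]; exact min_le_right _ _
    refine ⟨c, ⟨fun v hv a e => (h' v).1 (c1.1 v hv a e), c1.2⟩, ih c2 fun v hv => ?_⟩
    have := hs v (mem_rem.1 hv).1
    have := (h' v).2
    omega

lemma Pt.round (h : Pt R (n + 1) S t) {M : ι → ℕ → ι → ℕ → Prop} (hM : Mat M)
    (L : ι → Finset ℕ) : ∃ c, Resp R M L S c ∧ Pt R n (rem S c) fun v => t v - #(L v) := by
  obtain ⟨L', h'⟩ := shrink L t
  obtain ⟨c, c1, c2⟩ := h.2 M L' hM fun v _ => by rw [(h' v).2]; exact min_le_right _ _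
  refine ⟨c, ⟨fun v hv a e => (h' v).1 (c1.1 v hv a e), c1.2⟩, c2.mono fun v _ => ?_⟩
  have := (h' v).2
  omega

lemma Pt.empty : Pt R n ∅ t := by
  induction n generalizing t with
  | zero => simp [Pt]
  | succ n ih =>
    refine ⟨by simp, fun M L _ _ => ⟨fun _ => none, by simp [Resp], ?_⟩⟩
    rw [show rem (∅ : Finset ι) (fun _ => none) = ∅ by simp [rem]]
    exact ih

lemma Pt.single (hi : ∀ i, ¬ R i i) {u : ι} (h : 1 ≤ t u) : Pt R n {u} t := by
  induction n generalizing t with
  | zero => simpa [Pt] using h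
  | succ n ih =>
    refine ⟨by simpa using h, fun M L _ _ => ?_⟩
    rcases (L u).eq_empty_or_nonempty with e | ⟨a, ha⟩
    · refine ⟨fun _ => none, by simp [Resp], ?_⟩
      rw [show rem ({u} : Finset ι) (fun _ => none) = {u} by ext; simp]
      exact ih (by simpa [e] using h)
    · refine ⟨fun _ => some a, ⟨by simpa using ha, by simp [hi]⟩, ?_⟩
      rw [show rem ({u} : Finset ι) (fun _ => some a) = ∅ by ext; simp]
      exact Pt.empty

variable [DecidableEq ι]

lemma Pt.join (hs : ∀ i j, R i j → R j i) (hd : Disjoint T X) (hT : Pt R n T t) (hX : Pt R n X s)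
    (h : ∀ v ∈ X, s v + #(T.filter (R v)) ≤ t v) : Pt R n (T ∪ X) t := by
  have pos : ∀ {n T X s t}, Pt R n T t → Pt R n X s → (∀ v ∈ X, s v + #(T.filter (R v)) ≤ t v) →
      ∀ v ∈ T ∪ X, 1 ≤ t v := fun hT hX h v hv => (mem_union.1 hv).elim (hT.pos v) fun hv => by
    have := hX.pos v hv
    have := h v hv
    omega
  induction n generalizing T X s t with
  | zero => exact pos hT hX h
  | succ n ih =>
    refine ⟨pos hT hX h, fun M L hM _ => ?_⟩
    obtain ⟨c1, r1, p1⟩ := hT.round hM L
    let L' : ι → Finset ℕ := fun v =>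
      (L v).filter fun a => ¬ ∃ u ∈ T, R v u ∧ ∃ b, c1 u = some b ∧ M u b v a
    obtain ⟨c2, r2, p2⟩ := hX.round hM L'
    have nX : ∀ v ∈ X, v ∉ T := fun v hv h => disjoint_left.1 hd h hv
    refine ⟨fun v => if v ∈ T then c1 v else c2 v, ⟨fun v hv a e => ?_,
      fun u hu v hv a b uv e1 e2 => ?_⟩, ?_⟩
    · by_cases k : v ∈ T
      · exact r1.1 v k a (by simpa [k] using e)
      · exact (mem_filter.1 (r2.1 v ((mem_union.1 hv).resolve_left k) a (by simpa [k] using e))).1
    · by_cases k : u ∈ T <;> by_cases l : v ∈ T <;> simp only [k, l, if_true, if_false] at e1 e2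
      · exact r1.2 u k v l a b uv e1 e2
      · exact fun m => (mem_filter.1 (r2.1 v ((mem_union.1 hv).resolve_left l) b e2)).2
          ⟨u, k, hs _ _ uv, a, e1, m⟩
      · exact fun m => (mem_filter.1 (r2.1 u ((mem_union.1 hu).resolve_left k) a e1)).2
          ⟨v, l, uv, b, e2, hM.symm _ _ _ _ m⟩
      · exact r2.2 u ((mem_union.1 hu).resolve_left k) v ((mem_union.1 hv).resolve_left l) a b uv
          e1 e2
    · rw [show rem (T ∪ X) (fun v => if v ∈ T then c1 v else c2 v) = rem T c1 ∪ rem X c2 by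
        ext v
        simp only [mem_rem, mem_union]
        by_cases k : v ∈ T
        · simp [k, disjoint_left.1 hd k]
        · simp [k]]
      refine ih (disjoint_left.2 fun v a b => nX v (mem_rem.1 b).1 (mem_rem.1 a).1) p1 p2
        fun v hv => ?_
      have e1 := p2.pos v hv
      have e2 := h v (mem_rem.1 hv).1
      have e3 := card_filter_add_card_filter_not (s := T.filter (R v)) fun u => c1 u = none
      have e4 : (T.filter (R v)).filter (fun u => c1 u = none) = (rem T c1).filter (R v) := by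
        ext u; simp only [mem_filter, mem_rem]; tauto
      have e5 := card_filter_add_card_filter_not (s := L v)
        fun a => ∃ u ∈ T, R v u ∧ ∃ b, c1 u = some b ∧ M u b v a
      have e6 : #((L v).filter fun a => ∃ u ∈ T, R v u ∧ ∃ b, c1 u = some b ∧ M u b v a) ≤
          #((T.filter (R v)).filter fun u => ¬ c1 u = none) * 1 := by
        refine le_trans (card_le_card fun a ha => ?_) (card_biUnion_le_card_mul _
          (fun u => (L v).filter fun a => ∃ b, c1 u = some b ∧ M u b v a) 1 fun u _ => ?_)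
        · obtain ⟨h1, u, h2, h3, b, h4, h5⟩ := mem_filter.1 ha
          exact mem_biUnion.2 ⟨u, mem_filter.2 ⟨mem_filter.2 ⟨h2, h3⟩, by simp [h4]⟩,
            mem_filter.2 ⟨h1, b, h4, h5⟩⟩
        · refine card_le_one.2 fun a ha a' ha' => ?_
          obtain ⟨-, b, h1, h2⟩ := mem_filter.1 ha
          obtain ⟨-, b', h3, h4⟩ := mem_filter.1 ha'
          obtain rfl : b = b' := by simpa [h1] using h3
          exact hM.uniq _ _ _ _ _ h2 h4
      rw [e4] at e3
      simp only [L'] at e1 ⊢
      omega

lemma Pt.first (hs : ∀ i j, R i j → R j i) (hi : ∀ i, ¬ R i i) {u : ι} (hu : u ∉ T) (h1 : 1 ≤ t u)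
    (hT : Pt R n T s) (h : ∀ v ∈ T, s v + ind (R v u) ≤ t v) : Pt R n (insert u T) t := by
  rw [insert_eq]
  refine Pt.join hs (by simpa using hu) (Pt.single hi h1) hT fun v hv => le_trans ?_ (h v hv)
  rw [filter_singleton, ind]
  split_ifs <;> simp

lemma Pt.last (hs : ∀ i j, R i j → R j i) (hi : ∀ i, ¬ R i i) {u : ι} (hu : u ∉ T)
    (h1 : #(T.filter (R u)) < t u) (hT : Pt R n T t) : Pt R n (insert u T) t := by
  rw [insert_eq, union_comm]
  refine Pt.join hs (by simpa using hu) hT (Pt.single (t := fun _ => 1) hi le_rfl) fun v hv => ?_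
  rw [mem_singleton.1 hv]
  omega

lemma Pt.save (hs : ∀ i j, R i j → R j i) (hi : ∀ i, ¬ R i i) {u w : ι} (hu : u ∉ T) (hw : w ∈ T)
    (h1 : t w < t u) (hT : Pt R n T s) (h2 : s w ≤ t w)
    (h : ∀ v ∈ T, v ≠ w → s v + ind (R v u) ≤ t v) : Pt R n (insert u T) t := by
  have le : ∀ {T : Finset ι} {s t : ι → ℕ}, s w ≤ t w →
      (∀ v ∈ T, v ≠ w → s v + ind (R v u) ≤ t v) → ∀ v ∈ T, s v ≤ t v := fun h2 h v hv => by
    by_cases e : v = w
    · rw [e]; exact h2
    · exact le_trans (Nat.le_add_right _ _) (h v hv e)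
  have pos : ∀ {n} {T : Finset ι} {s t : ι → ℕ}, t w < t u → Pt R n T s → s w ≤ t w →
      (∀ v ∈ T, v ≠ w → s v + ind (R v u) ≤ t v) → ∀ v ∈ insert u T, 1 ≤ t v :=
    fun h1 hT h2 h v hv => (mem_insert.1 hv).elim (fun e => by rw [e]; omega)
      fun hv => (hT.pos v hv).trans (le h2 h v hv)
  induction n generalizing T s t with
  | zero => exact pos h1 hT h2 h
  | succ n ih =>
    refine ⟨pos h1 hT h2 h, fun M L hM hL => ?_⟩
    have ne : ∀ v ∈ T, v ≠ u := fun v hv e => hu (e ▸ hv)
    by_cases big : #(L w) < #(L u)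
    · obtain ⟨a, a1, a2⟩ := unm big (m := fun a b => M u a w b) fun a a' b m m' =>
        hM.uniq _ _ _ _ _ (hM.symm _ _ _ _ m) (hM.symm _ _ _ _ m')
      let L' : ι → Finset ℕ := fun v => (L v).filter fun b => ¬ (R v u ∧ M u a v b)
      obtain ⟨c, r, p⟩ := hT.round hM L'
      refine ⟨Function.update c u (some a), ⟨fun v hv b e => ?_,
        fun v hv v' hv' b b' vv e1 e2 => ?_⟩, ?_⟩
      · rcases mem_insert.1 hv with rfl | hv
        · obtain rfl : a = b := by simpa using e
          exact a1
        · rw [Function.update_of_ne (ne v hv)] at e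
          exact (mem_filter.1 (r.1 v hv b e)).1
      · rcases mem_insert.1 hv with rfl | kv <;> rcases mem_insert.1 hv' with e | kv'
        · exact absurd (e ▸ vv) (hi _)
        · obtain rfl : a = b := by simpa using e1
          rw [Function.update_of_ne (ne _ kv')] at e2
          exact fun m => (mem_filter.1 (r.1 _ kv' _ e2)).2 ⟨hs _ _ vv, m⟩
        · subst e
          obtain rfl : a = b' := by simpa using e2
          rw [Function.update_of_ne (ne _ kv)] at e1
          exact fun m => (mem_filter.1 (r.1 _ kv _ e1)).2 ⟨vv, hM.symm _ _ _ _ m⟩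
        · rw [Function.update_of_ne (ne _ kv)] at e1
          rw [Function.update_of_ne (ne _ kv')] at e2
          exact r.2 _ kv _ kv' _ _ vv e1 e2
      · rw [show rem (insert u T) (Function.update c u (some a)) = rem T c by
          ext v
          by_cases e : v = u
          · simp [e, hu]
          · simp [e]]
        refine p.mono fun v hv => ?_
        have hv := (mem_rem.1 hv).1
        by_cases e : v = w
        · subst e
          have : L' v = L v := filter_true_of_mem fun b hb m => a2 b hb m.2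
          rw [this]
          omega
        · have e1 := h v hv e
          by_cases k : R v u
          · have := card_filter_not_le (L := L v) (P := fun b => R v u ∧ M u a v b)
              fun b b' m m' => hM.uniq _ _ _ _ _ m.2 m'.2
            simp only [ind, k, if_true] at e1
            have e2 : #(L v) ≤ #(L' v) + 1 := by convert this
            omega
          · have : L' v = L v := filter_true_of_mem fun b hb m => k m.1
            rw [this]
            omega
    · obtain ⟨c, r, p⟩ := hT.round hM L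
      refine ⟨Function.update c u none, ⟨fun v hv b e => ?_,
        fun v hv v' hv' b b' vv e1 e2 => ?_⟩, ?_⟩
      · rcases mem_insert.1 hv with rfl | hv
        · simp at e
        · rw [Function.update_of_ne (ne v hv)] at e
          exact r.1 v hv b e
      · rcases mem_insert.1 hv with rfl | hv
        · simp at e1
        rcases mem_insert.1 hv' with rfl | hv'
        · simp at e2
        rw [Function.update_of_ne (ne _ hv)] at e1
        rw [Function.update_of_ne (ne _ hv')] at e2
        exact r.2 _ hv _ hv' _ _ vv e1 e2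
      · rw [show rem (insert u T) (Function.update c u none) = insert u (rem T c) by
          ext v
          by_cases e : v = u
          · simp [e]
          · simp [e]]
        have lw := hL w (mem_insert_of_mem hw)
        have nu : u ∉ rem T c := fun h => hu (mem_rem.1 h).1
        have k : ∀ v ∈ rem T c, v ≠ w → s v - #(L v) + ind (R v u) ≤ t v - #(L v) :=
          fun v hv e => by
            have := p.pos v hv
            have := h v (mem_rem.1 hv).1 e
            omega
        by_cases e : w ∈ rem T c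
        · exact ih nu e (by omega) p (by omega) k
        · exact Pt.first hs hi nu (by omega) p fun v hv => k v hv fun e' => e (e' ▸ hv)

lemma Pt.deg (hs : ∀ i j, R i j → R j i) (hi : ∀ i, ¬ R i i) (r : ι → ℕ) (ρ : ℕ)
    (hT : Pt R n T s) (W : Finset ι) : ∀ t : ι → ℕ, (∀ w ∈ W, w ∉ T) →
      (∀ v ∈ T, s v + #(W.filter fun w => R v w ∧ r w ≤ ρ) ≤ t v) →
      (∀ w ∈ W, #(W.filter fun j => R w j ∧ r j ≤ r w) + #(T.filter fun j => R w j ∧ ρ ≤ r w) <
        t w) → Pt R n (T ∪ W) t := by
  induction W using Finset.strongInduction with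
  | H W ih =>
  intro t hd h1 h2
  rcases W.eq_empty_or_nonempty with rfl | ne
  · rw [union_empty]
    exact hT.mono fun v hv => by simpa using h1 v hv
  have ins : ∀ w ∈ W, T ∪ W = insert w (T ∪ W.erase w) ∧ w ∉ T ∪ W.erase w := fun w hw =>
    ⟨by rw [← union_insert, insert_erase hw], by simp [hd w hw]⟩
  obtain ⟨w, hw, mx⟩ := exists_max_image W r ne
  by_cases big : ρ ≤ r w
  · rw [(ins w hw).1]
    refine Pt.last hs hi (ins w hw).2 (lt_of_le_of_lt ?_ (h2 w hw)) (ih _ (erase_ssubset hw) t
      (fun v hv => hd v (mem_of_mem_erase hv)) (fun v hv => le_trans ?_ (h1 v hv))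
      fun v hv => lt_of_le_of_lt ?_ (h2 v (mem_of_mem_erase hv)))
    · refine le_trans (card_le_card fun j hj => ?_) (card_union_le _ _)
      simp only [mem_filter, mem_union, mem_erase] at hj ⊢
      rcases hj with ⟨a | a, b⟩
      exacts [Or.inr ⟨a, b, big⟩, Or.inl ⟨a.2, b, mx j a.2⟩]
    · gcongr
      exact erase_subset _ _
    · gcongr
      exact erase_subset _ _
  obtain ⟨u, hu, mn⟩ := exists_min_image W r ne
  have cut : ∀ (P : ι → Prop) [DecidablePred P],
      #(W.filter P) = #((W.erase u).filter P) + ind (P u) := fun P _ => by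
    conv_lhs => rw [← insert_erase hu, filter_insert]
    unfold ind
    split_ifs
    · rw [card_insert_of_notMem (by simp)]
    · rfl
  rw [(ins u hu).1]
  have key : ∀ v ∈ T ∪ W.erase u, ind (R v u) ≤ t v := fun v hv => by
    rcases mem_union.1 hv with hv | hv
    · have e1 := h1 v hv
      have := mx u hu
      rw [cut] at e1
      have : ind (R v u) ≤ ind (R v u ∧ r u ≤ ρ) := ind_mono fun h => ⟨h, by omega⟩
      omega
    · have e1 := h2 v (mem_of_mem_erase hv)
      rw [cut] at e1
      have : ind (R v u) ≤ ind (R v u ∧ r u ≤ r v) :=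
        ind_mono fun h => ⟨h, mn v (mem_of_mem_erase hv)⟩
      omega
  refine Pt.first hs hi (ins u hu).2 (by have := h2 u hu; omega) (ih _ (erase_ssubset hu)
    (fun v => t v - ind (R v u)) (fun v hv => hd v (mem_of_mem_erase hv)) (fun v hv => ?_)
    fun v hv => ?_) fun v hv => by have := key v hv; omega
  · have e1 := h1 v hv
    have := mx u hu
    rw [cut] at e1
    have : ind (R v u) ≤ ind (R v u ∧ r u ≤ ρ) := ind_mono fun h => ⟨h, by omega⟩
    omega
  · have e1 := h2 v (mem_of_mem_erase hv)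
    rw [cut] at e1
    have : ind (R v u) ≤ ind (R v u ∧ r u ≤ r v) :=
      ind_mono fun h => ⟨h, mn v (mem_of_mem_erase hv)⟩
    omega

end Pool.Agent.P.MP_0e1fd4_co.On
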