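import Pool.Agent.P.MP_0e1fd4_co.OnW

/-! The absorbing wheel in the online game. -/

namespace Pool.Agent.P.MP_0e1fd4_co.On

open Finset
open scoped Classical

variable {ι : Type} [DecidableEq ι] {R : ι → ι → Prop} {n : ℕ} {T : Finset ι} {s t : ι → ℕ}
  {M : ι → ℕ → ι → ℕ → Prop} {z c y o x : ι}

/-- the wheel hangs at `z` -/
structure Hang (R : ι → ι → Prop) (T : Finset ι) (z c y o x : ι) : Prop where
  nd : [z, c, y, o, x].Nodup
  zo : ¬ R z o
  yx : ¬ R y x
  out : ∀ v ∈ ({c, y, o, x} : Finset ι), v ∉ T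
  cl : ∀ k ∈ T, k ≠ z → ¬ R c k ∧ ¬ R y k ∧ ¬ R o k ∧ ¬ R x k

lemma Hang.sub (h : Hang R T z c y o x) {T' : Finset ι} (hT : T' ⊆ T) : Hang R T' z c y o x :=
  ⟨h.nd, h.zo, h.yx, fun v hv k => h.out v hv (hT k), fun k hk => h.cl k (hT hk)⟩

lemma finish (hs : ∀ i j, R i j → R j i) (hi : ∀ i, ¬ R i i) (H : Hang R T z c y o x)
    (hT : Pt R n T s) (ψ : ι → Option ℕ) (r : ι → ℕ) (τ : ℕ) (hz : z ∈ T → ψ z = none)
    (h0 : ∀ v ∈ T, s v + (if v = z then τ else 0) ≤ t v)
    (q0 : ind (Mo M c (ψ c) z (ψ z) ∧ r c ≤ r z) + ind (Mo M z (ψ z) y (ψ y) ∧ r y ≤ r z) +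
      ind (Mo M x (ψ x) z (ψ z) ∧ r x ≤ r z) < τ + 1)
    (q1 : ψ c = none → ind (Mo M c (ψ c) z (ψ z) ∧ r z ≤ r c) +
      ind (Mo M c (ψ c) y (ψ y) ∧ r y ≤ r c) + ind (Mo M c (ψ c) o (ψ o) ∧ r o ≤ r c) +
      ind (Mo M c (ψ c) x (ψ x) ∧ r x ≤ r c) < t c)
    (q2 : ψ y = none → ind (Mo M c (ψ c) y (ψ y) ∧ r c ≤ r y) +
      ind (Mo M z (ψ z) y (ψ y) ∧ r z ≤ r y) + ind (Mo M y (ψ y) o (ψ o) ∧ r o ≤ r y) < t y)
    (q3 : ψ o = none → ind (Mo M c (ψ c) o (ψ o) ∧ r c ≤ r o) +
      ind (Mo M y (ψ y) o (ψ o) ∧ r y ≤ r o) + ind (Mo M o (ψ o) x (ψ x) ∧ r x ≤ r o) < t o)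
    (q4 : ψ x = none → ind (Mo M c (ψ c) x (ψ x) ∧ r c ≤ r x) +
      ind (Mo M o (ψ o) x (ψ x) ∧ r o ≤ r x) + ind (Mo M x (ψ x) z (ψ z) ∧ r z ≤ r x) < t x) :
    Pt R n (T ∪ rem {c, y, o, x} ψ) t := by
  have bd : ∀ (u : ι) (l : List ι), (∀ j ∈ ({c, y, o, x} : Finset ι), R u j → j ∈ l) →
      #((rem {c, y, o, x} ψ).filter fun j => R u j ∧ r j ≤ r u) ≤
        (l.map fun j => ind (ψ j = none ∧ r j ≤ r u)).sum := fun u l hl => by
    have := card_le_add (S := {c, y, o, x}) (S' := ∅)
      (P := fun j => ψ j = none ∧ R u j ∧ r j ≤ r u) (P' := fun _ => False) l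
      fun j hj h => Or.inl (hl j hj h.2.1)
    rw [rem, filter_filter]
    refine this.trans ?_
    simp only [filter_empty, card_empty, zero_add]
    exact List.sum_le_sum fun j _ => ind_mono fun h => ⟨h.1, h.2.2⟩
  have bz : ∀ u, (∀ k ∈ T, k ≠ z → ¬ R u k) → #(T.filter fun j => R u j ∧ r z ≤ r u) ≤
      ind (R u z ∧ ψ z = none ∧ r z ≤ r u) := fun u hu => by
    by_cases k : z ∈ T
    · have := card_le_add (S := T) (S' := ∅) (P := fun j => R u j ∧ r z ≤ r u)
        (P' := fun _ => False) [z] fun j hj h => Or.inl (by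
          by_contra e
          exact hu j hj (by simpa using e) h.1)
      refine this.trans ?_
      simp only [filter_empty, card_empty, zero_add, List.map_cons, List.map_nil, List.sum_cons,
        List.sum_nil, add_zero]
      exact ind_mono fun h => ⟨h.1, hz k, h.2⟩
    · rw [filter_false_of_mem fun j hj h => hu j hj (fun e => k (e ▸ hj)) h.1]
      simp
  have mo : ∀ u v, ψ u = none → ∀ p : Prop, ind (ψ v = none ∧ p) ≤ ind (Mo M u (ψ u) v (ψ v) ∧ p) ∧
      ind (ψ v = none ∧ p) ≤ ind (Mo M v (ψ v) u (ψ u) ∧ p) := fun u v h p =>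
    ⟨ind_mono fun k => ⟨Or.inl ⟨h, k.1⟩, k.2⟩, ind_mono fun k => ⟨Or.inl ⟨k.1, h⟩, k.2⟩⟩
  have dr : ∀ p q : Prop, ind (p ∧ q) ≤ ind q := fun p q => ind_mono fun h => h.2
  refine Pt.deg hs hi r (r z) hT _ t (fun w hw => H.out w (mem_rem.1 hw).1) (fun v hv => ?_)
    fun w hw => ?_
  · have e0 := h0 v hv
    by_cases e : v = z
    · subst e
      have e1 := bd v [c, y, x] (by
        simp only [mem_insert, mem_singleton]
        rintro j (rfl | rfl | rfl | rfl) h <;> first | exact absurd h H.zo | simp)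
      simp only [List.map_cons, List.map_nil, List.sum_cons, List.sum_nil, if_true] at e0 e1
      have := (mo v c (hz hv) (r c ≤ r v)).2
      have := (mo v y (hz hv) (r y ≤ r v)).1
      have := (mo v x (hz hv) (r x ≤ r v)).2
      omega
    · obtain ⟨a1, a2, a3, a4⟩ := H.cl v hv e
      rw [filter_false_of_mem]
      · simpa [e] using e0
      · intro j hj h
        have := (mem_rem.1 hj).1
        simp only [mem_insert, mem_singleton] at this
        rcases this with rfl | rfl | rfl | rfl
        exacts [a1 (hs _ _ h.1), a2 (hs _ _ h.1), a3 (hs _ _ h.1), a4 (hs _ _ h.1)]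
  · obtain ⟨w1, w2⟩ := mem_rem.1 hw
    simp only [mem_insert, mem_singleton] at w1
    rcases w1 with rfl | rfl | rfl | rfl
    · have e1 := bd w [y, o, x] (by
        simp only [mem_insert, mem_singleton]
        rintro j (rfl | rfl | rfl | rfl) h <;> first | exact absurd h (hi _) | simp)
      have e2 := (bz w fun k hk e => (H.cl k hk e).1).trans (dr _ _)
      simp only [List.map_cons, List.map_nil, List.sum_cons, List.sum_nil] at e1
      have := q1 w2
      have := (mo w z w2 (r z ≤ r w)).1
      have := (mo w y w2 (r y ≤ r w)).1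
      have := (mo w o w2 (r o ≤ r w)).1
      have := (mo w x w2 (r x ≤ r w)).1
      omega
    · have e1 := bd w [c, o] (by
        simp only [mem_insert, mem_singleton]
        rintro j (rfl | rfl | rfl | rfl) h <;>
          first | exact absurd h (hi _) | exact absurd h H.yx | simp)
      have e2 := (bz w fun k hk e => (H.cl k hk e).2.1).trans (dr _ _)
      simp only [List.map_cons, List.map_nil, List.sum_cons, List.sum_nil] at e1
      have := q2 w2
      have := (mo w z w2 (r z ≤ r w)).2
      have := (mo w c w2 (r c ≤ r w)).2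
      have := (mo w o w2 (r o ≤ r w)).1
      omega
    · have e1 := bd w [c, y, x] (by
        simp only [mem_insert, mem_singleton]
        rintro j (rfl | rfl | rfl | rfl) h <;> first | exact absurd h (hi _) | simp)
      have e2 := (bz w fun k hk e => (H.cl k hk e).2.2.1).trans
        (ind_false fun h => H.zo (hs _ _ h.1)).le
      simp only [List.map_cons, List.map_nil, List.sum_cons, List.sum_nil] at e1
      have := q3 w2
      have := (mo w c w2 (r c ≤ r w)).2
      have := (mo w y w2 (r y ≤ r w)).2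
      have := (mo w x w2 (r x ≤ r w)).1
      omega
    · have e1 := bd w [c, o] (by
        simp only [mem_insert, mem_singleton]
        rintro j (rfl | rfl | rfl | rfl) h <;>
          first | exact absurd h (hi _) | exact absurd (hs _ _ h) H.yx | simp)
      have e2 := (bz w fun k hk e => (H.cl k hk e).2.2.2).trans (dr _ _)
      simp only [List.map_cons, List.map_nil, List.sum_cons, List.sum_nil] at e1
      have := q4 w2
      have := (mo w z w2 (r z ≤ r w)).1
      have := (mo w c w2 (r c ≤ r w)).2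
      have := (mo w o w2 (r o ≤ r w)).2
      omega

/-- weights of the options in one round -/
noncomputable def wgt (L : ι → Finset ℕ) (t : ι → ℕ) (v : ι) : Option ℕ → ℕ
  | none => t v - #(L v)
  | some a => ind (a ∈ L v)

omit [DecidableEq ι] in
lemma sum_wgt (L : ι → Finset ℕ) (t : ι → ℕ) (v : ι) {B : Finset ℕ} (h : L v ⊆ B) :
    ∑ a ∈ B, wgt L t v (some a) = #(L v) := by
  show ∑ a ∈ B, ind (a ∈ L v) = _
  rw [← sum_subset h fun a _ k => ind_false k, card_eq_sum_ones]
  exact sum_congr rfl fun a k => if_pos k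

lemma nm {p : Prop} (a b : ℕ) (h : p) (h1 : ind (p ∧ a ≤ b) = 0) (h2 : ind (p ∧ b ≤ a) = 0) :
    False := by
  unfold ind at h1 h2
  split_ifs at h1 h2 with k1 k2
  rcases le_total a b with e | e
  exacts [k1 ⟨h, e⟩, k2 ⟨h, e⟩]

lemma Pt.absorb (hs : ∀ i j, R i j → R j i) (hi : ∀ i, ¬ R i i) (H : Hang R T z c y o x)
    (hT : Pt R n T s) (h0 : ∀ v ∈ T, s v + (if v = z then 2 else 0) ≤ t v) (bc : 4 ≤ t c)
    (by' : 2 ≤ t y) (bo : 3 ≤ t o) (bx : 2 ≤ t x) : Pt R n (T ∪ {c, y, o, x}) t := by
  have nd := H.nd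
  simp only [List.nodup_cons, List.mem_cons, List.not_mem_nil, or_false, not_or,
    not_false_eq_true, List.nodup_nil, and_true] at nd
  obtain ⟨⟨n1, n2, n3, n4⟩, ⟨n5, n6, n7⟩, ⟨n8, n9⟩, n10⟩ := nd
  have pos : ∀ {n} {T : Finset ι} {s t : ι → ℕ}, Pt R n T s →
      (∀ v ∈ T, s v + (if v = z then 2 else 0) ≤ t v) → 4 ≤ t c → 2 ≤ t y → 3 ≤ t o → 2 ≤ t x →
      ∀ v ∈ T ∪ {c, y, o, x}, 1 ≤ t v := fun hT h0 bc by' bo bx v hv => by
    rcases mem_union.1 hv with hv | hv
    · have := hT.pos v hv
      have := h0 v hv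
      omega
    · simp only [mem_insert, mem_singleton] at hv
      rcases hv with rfl | rfl | rfl | rfl <;> omega
  induction n generalizing T s t with
  | zero => exact pos hT h0 bc by' bo bx
  | succ n ih =>
  by_cases zT : z ∉ T
  · let ψ : ι → Option ℕ := fun v => if v = z then some 0 else none
    let r : ι → ℕ := fun v => if v = c then 2 else if v = o then 1 else 0
    have vz : ψ z = some 0 := by simp [ψ]
    have vc : ψ c = none ∧ r c = 2 := by simp [ψ, r, Ne.symm n1]
    have vy : ψ y = none ∧ r y = 0 := by simp [ψ, r, Ne.symm n2, Ne.symm n5, n8]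
    have vo : ψ o = none ∧ r o = 1 := by simp [ψ, r, Ne.symm n3, Ne.symm n6]
    have vx : ψ x = none ∧ r x = 0 := by simp [ψ, r, Ne.symm n4, Ne.symm n7, Ne.symm n10]
    have i8 := ind8 (fun _ _ _ _ => False) z c y o x (some 0) none none none none
    have := finish (M := fun _ _ _ _ => False) (t := t) hs hi H hT ψ r 0 (fun h => absurd h zT)
      (fun v hv => by have := h0 v hv; split_ifs at * <;> omega)
      (by simp only [vz, vc, vy, vx, ind_and, ind_sn, ind_ns]; simp)
      (fun _ => by simp only [vz, vc, vy, vo, vx, ind_and, ind_ns]; norm_num; omega)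
      (fun _ => by simp only [vz, vc, vy, vo, ind_and, ind_sn]; norm_num; omega)
      (fun _ => by simp only [vc, vy, vo, vx, ind_and]; norm_num; omega)
      (fun _ => by simp only [vz, vc, vo, vx, ind_and, ind_ns]; norm_num; omega)
    rwa [show rem {c, y, o, x} ψ = {c, y, o, x} from filter_true_of_mem fun v hv => by
      simp only [mem_insert, mem_singleton] at hv
      rcases hv with rfl | rfl | rfl | rfl
      exacts [vc.1, vy.1, vo.1, vx.1]] at this
  rw [not_not] at zT
  refine ⟨pos hT h0 bc by' bo bx, fun M L hM hL => ?_⟩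
  have rm : ∀ c1 ψ : ι → Option ℕ, rem (T ∪ {c, y, o, x}) (fun v => if v ∈ T then c1 v else ψ v) =
      rem T c1 ∪ rem {c, y, o, x} ψ := fun c1 ψ => by
    ext v
    rw [mem_union, mem_rem, mem_rem, mem_rem, mem_union]
    by_cases k : v ∈ T
    · have : v ∉ ({c, y, o, x} : Finset ι) := fun h => H.out v h k
      simp only [k, this, if_true, true_and, false_and, or_false]
    · simp only [k, if_false, false_and, false_or]
  by_cases emp : #(L c) + #(L y) + #(L o) + #(L x) = 0
  · obtain ⟨c1, r1, p1⟩ := hT.round hM L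
    refine ⟨fun v => if v ∈ T then c1 v else none, ⟨fun v _ a e => ?_,
      fun u _ v _ a b uv e1 e2 => ?_⟩, ?_⟩
    · by_cases k : v ∈ T
      · exact r1.1 v k a (by simpa [k] using e)
      · simp [k] at e
    · by_cases k : u ∈ T <;> by_cases l : v ∈ T <;> simp only [k, l, if_true, if_false] at e1 e2
      · exact r1.2 u k v l a b uv e1 e2
      all_goals simp at e1 e2
    · rw [rm c1 fun _ => none, show rem {c, y, o, x} (fun _ => none) = {c, y, o, x} from
        filter_true_of_mem fun _ _ => rfl]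
      refine ih (H.sub (filter_subset _ _)) p1 (fun v hv => ?_) (by omega) (by omega) (by omega)
        (by omega)
      have := p1.pos v hv
      have := h0 v (mem_rem.1 hv).1
      omega
  let B := L z ∪ L c ∪ L y ∪ L o ∪ L x
  let f := wgt L t
  have f1 : ∀ i a, f i (some a) ≤ 1 := fun i a => ind_le _
  have sz : ∑ a ∈ B, f z (some a) = #(L z) := sum_wgt L t z fun a h => by simp [B, h]
  have sc : ∑ a ∈ B, f c (some a) = #(L c) := sum_wgt L t c fun a h => by simp [B, h]
  have sy : ∑ a ∈ B, f y (some a) = #(L y) := sum_wgt L t y fun a h => by simp [B, h]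
  have so : ∑ a ∈ B, f o (some a) = #(L o) := sum_wgt L t o fun a h => by simp [B, h]
  have sx : ∑ a ∈ B, f x (some a) = #(L x) := sum_wgt L t x fun a h => by simp [B, h]
  have fn : ∀ v, f v none = t v - #(L v) := fun v => rfl
  let g : Option ℕ → ℕ := fun a =>
    Nat.findGreatest (fun τ => ¬ WEx (Mo M) (insertNone B) f z c y o x a τ) (f z a)
  have g1 : ∀ a, g a ≤ f z a := fun a => Nat.findGreatest_le _
  have bad : ∑ a ∈ insertNone B, g a ≤ 2 := by
    by_contra hb
    have lc := hL c (by simp)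
    have ly := hL y (by simp)
    have lo := hL o (by simp)
    have lx := hL x (by simp)
    obtain ⟨a, -, a2⟩ := wheel3 hM z c y o x (B := B) (f := f) (g := g) f1
      (fun a => (g1 _).trans (f1 z a)) (by omega) (by rw [sum_insertNone, sc, fn]; omega)
      (by rw [sum_insertNone, sy, fn]; omega) (by rw [sum_insertNone, so, fn]; omega)
      (by rw [sum_insertNone, sx, fn]; omega) (by omega)
    refine Nat.findGreatest_spec (P := fun τ => ¬ WEx (Mo M) (insertNone B) f z c y o x a τ)
      (Nat.zero_le _) ?_ a2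
    rintro ⟨k, -, b, -, d, -, e, -, rz, rc, ry, ro, rx, q, -⟩
    omega
  rw [sum_insertNone] at bad
  let L' : ι → Finset ℕ := Function.update L z ((L z).filter fun a => g (some a) = 0)
  have Lz : L' z = (L z).filter fun a => g (some a) = 0 := Function.update_self ..
  have Lv : ∀ v, v ≠ z → L' v = L v := fun v e => Function.update_of_ne e ..
  have Ls : ∀ v, L' v ⊆ L v := fun v => by
    by_cases e : v = z
    · rw [e, Lz]; exact filter_subset _ _
    · rw [Lv v e]
  have cnt' : #(L z) ≤ #(L' z) + ∑ a ∈ B, g (some a) := by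
    have e1 := card_filter_add_card_filter_not (s := L z) fun a => g (some a) = 0
    have e2 : #((L z).filter fun a => ¬ g (some a) = 0) ≤ ∑ a ∈ B, g (some a) := by
      rw [card_eq_sum_ones]
      refine le_trans (sum_le_sum fun a ha => ?_) (sum_le_sum_of_subset fun a ha => ?_)
      · have := (mem_filter.1 ha).2
        omega
      · simp [B, (mem_filter.1 ha).1]
    rw [Lz]
    omega
  obtain ⟨c1, r1, p1⟩ := hT.round hM L'
  have tz := h0 z zT
  rw [if_pos rfl] at tz
  have lt : g (c1 z) + 1 ≤ f z (c1 z) := by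
    rcases e : c1 z with _ | a
    · have := p1.pos z (mem_rem.2 ⟨zT, e⟩)
      rw [fn]
      omega
    · have := r1.1 z zT a e
      rw [Lz, mem_filter] at this
      rw [this.2]
      exact (if_pos this.1).ge
  obtain ⟨k, -, b, -, d, -, e, -, rz, rc, ry, ro, rx, q0, q1, q2, q3, q4⟩ :
      WEx (Mo M) (insertNone B) f z c y o x (c1 z) (g (c1 z) + 1) :=
    not_not.1 (Nat.findGreatest_is_greatest
      (P := fun τ => ¬ WEx (Mo M) (insertNone B) f z c y o x (c1 z) τ) (Nat.lt_succ_self _) lt)
  let ψ : ι → Option ℕ := fun i => if i = c then k else if i = y then b else if i = o then d else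
    if i = x then e else c1 z
  let r : ι → ℕ := fun i => if i = c then rc else if i = y then ry else if i = o then ro else
    if i = x then rx else rz
  have vz : ψ z = c1 z ∧ r z = rz := by simp [ψ, r, n1, n2, n3, n4]
  have vc : ψ c = k ∧ r c = rc := by simp [ψ, r]
  have vy : ψ y = b ∧ r y = ry := by simp [ψ, r, Ne.symm n5]
  have vo : ψ o = d ∧ r o = ro := by simp [ψ, r, Ne.symm n6, Ne.symm n8]
  have vx : ψ x = e ∧ r x = rx := by simp [ψ, r, Ne.symm n7, Ne.symm n9, Ne.symm n10]
  have five : ∀ u, u = z ∨ u ∈ ({c, y, o, x} : Finset ι) → ∀ v, v = z ∨ v ∈ ({c, y, o, x} : Finset ι) →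
      ∀ a a', R u v → ψ u = some a → ψ v = some a' → ¬ M u a v a' := by
    have msy := (Mo.mat hM).symm
    intro u hu v hv a a' uv e1 e2 m
    have mm : Mo M u (ψ u) v (ψ v) := Or.inr ⟨a, a', e1, e2, m⟩
    have w1 : f u (ψ u) ≤ 1 := e1 ▸ f1 u a
    have w2 : f v (ψ v) ≤ 1 := e2 ▸ f1 v a'
    simp only [mem_insert, mem_singleton] at hu hv
    rcases hu with rfl | rfl | rfl | rfl | rfl <;> rcases hv with h | h | h | h | h <;>
      rw [h] at uv mm w2 <;> simp only [vz, vc, vy, vo, vx] at mm w1 w2 <;>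
      first
        | exact hi _ uv
        | exact H.zo uv
        | exact H.zo (hs _ _ uv)
        | exact H.yx uv
        | exact H.yx (hs _ _ uv)
        | exact nm rc rz mm (by omega) (by omega)
        | exact nm rc rz (msy _ _ _ _ mm) (by omega) (by omega)
        | exact nm ry rz mm (by omega) (by omega)
        | exact nm ry rz (msy _ _ _ _ mm) (by omega) (by omega)
        | exact nm rx rz mm (by omega) (by omega)
        | exact nm rx rz (msy _ _ _ _ mm) (by omega) (by omega)
        | exact nm rc ry mm (by omega) (by omega)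
        | exact nm rc ry (msy _ _ _ _ mm) (by omega) (by omega)
        | exact nm rc ro mm (by omega) (by omega)
        | exact nm rc ro (msy _ _ _ _ mm) (by omega) (by omega)
        | exact nm rc rx mm (by omega) (by omega)
        | exact nm rc rx (msy _ _ _ _ mm) (by omega) (by omega)
        | exact nm ry ro mm (by omega) (by omega)
        | exact nm ry ro (msy _ _ _ _ mm) (by omega) (by omega)
        | exact nm rx ro mm (by omega) (by omega)
        | exact nm rx ro (msy _ _ _ _ mm) (by omega) (by omega)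
  have cross : ∀ u ∈ T, ∀ v ∈ ({c, y, o, x} : Finset ι), R v u → u = z := fun u hu v hv h => by
    by_contra e
    obtain ⟨a1, a2, a3, a4⟩ := H.cl u hu e
    simp only [mem_insert, mem_singleton] at hv
    rcases hv with rfl | rfl | rfl | rfl
    exacts [a1 h, a2 h, a3 h, a4 h]
  refine ⟨fun v => if v ∈ T then c1 v else ψ v, ⟨fun v hv a e1 => ?_,
    fun u hu v hv a a' uv e1 e2 => ?_⟩, ?_⟩
  · by_cases l : v ∈ T
    · exact Ls v (r1.1 v l a (by simpa [l] using e1))
    · simp only [l, if_false] at e1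
      have p : 0 < f v (ψ v) := by
        have := (mem_union.1 hv).resolve_left l
        simp only [mem_insert, mem_singleton] at this
        rcases this with rfl | rfl | rfl | rfl <;> simp only [vc, vy, vo, vx] <;> omega
      rw [e1] at p
      by_contra h
      exact p.ne' (ind_false h)
  · by_cases l : u ∈ T <;> by_cases l' : v ∈ T <;> simp only [l, l', if_true, if_false] at e1 e2
    · exact r1.2 u l v l' a a' uv e1 e2
    · have hv' := (mem_union.1 hv).resolve_left l'
      obtain rfl := cross u l v hv' (hs _ _ uv)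
      exact five _ (Or.inl rfl) v (Or.inr hv') a a' uv (vz.1.trans e1) e2
    · have hu' := (mem_union.1 hu).resolve_left l
      obtain rfl := cross v l' u hu' uv
      exact five _ (Or.inr hu') _ (Or.inl rfl) a a' uv e1 (vz.1.trans e2)
    · exact five _ (Or.inr ((mem_union.1 hu).resolve_left l)) _
        (Or.inr ((mem_union.1 hv).resolve_left l')) a a' uv e1 e2
  · rw [rm]
    refine finish (M := M) hs hi (H.sub (filter_subset _ _)) p1 ψ r (g (c1 z))
      (fun h => vz.1.trans (mem_rem.1 h).2) (fun v hv => ?_)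
      (by simp only [vz, vc, vy, vx]; exact q0)
      (fun h => by simp only [vz, vc, vy, vo, vx] at h ⊢; exact q1.trans_eq (h ▸ fn c))
      (fun h => by simp only [vz, vc, vy, vo] at h ⊢; exact q2.trans_eq (h ▸ fn y))
      (fun h => by simp only [vc, vy, vo, vx] at h ⊢; exact q3.trans_eq (h ▸ fn o))
      (fun h => by simp only [vz, vc, vo, vx] at h ⊢; exact q4.trans_eq (h ▸ fn x))
    have e1 := p1.pos v hv
    have e2 := h0 v (mem_rem.1 hv).1
    by_cases l : v = z
    · subst l
      rw [(mem_rem.1 hv).2, if_pos rfl]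
      omega
    · rw [Lv v l]
      simp only [l, if_false] at e2 ⊢
      omega

end Pool.Agent.P.MP_0e1fd4_co.On
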