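import Pool.Agent.P.MP_0e1fd4_co.OnE
import Pool.Agent.P.MP_0e1fd4_co.Dis

/-! Copy of the parts of `Poor` and `Dis` that use the minimal counterexample. -/

namespace Pool.Agent.P.MP_0e1fd4_co.On

section
open Finset
open scoped Classical

variable {V C : Type} [Fintype V] {G : SimpleGraph V} {M : V → C → V → C → Prop} {I : V → Prop}

namespace Glob

variable (g : Glob G M I)
include g

lemma nac {x a b c d : V} (P : Pth G x a b c d) : ¬ G.Adj a c :=
  fun h => g.k4 x a b c P.va P.vb P.vc P.ab h P.bc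

lemma nbd {x a b c d : V} (P : Pth G x a b c d) : ¬ G.Adj b d := fun h => g.nac P.rev h.symm

lemma rim {x a b c d : V} (P : Pth G x a b c d) : ¬ Inner G a b ∧ ¬ Inner G b c := by
  have n1 := g.nac P
  have n2 := g.nbd P
  constructor <;> intro h <;> obtain ⟨t, t1, t2, t3⟩ := h.other x
  · exact (g.c6.out P.va t2 t3.symm P.bc P.cd P.vd.symm t1.symm P.vb.ne P.vc.ne P.ab.ne P.ac P.ad
      (by rintro rfl; exact n1 t2) (by rintro rfl; exact n2 t3) P.bd).2 P.vb
  · exact (g.c6.out P.va P.ab t2 t3.symm P.cd P.vd.symm P.vb.ne t1.symm P.vc.ne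
      (by rintro rfl; exact n1 t3.symm) P.ac P.ad P.bc.ne P.bd (by rintro rfl; exact n2 t2)).1 P.vb

lemma inn {x w : V} (h : Poor G I x) (xw : G.Adj x w) (hi : Inner G x w) :
    ∃ a c d, Pth G x a w c d := by
  obtain ⟨hl, a, b, c, d, P⟩ := h
  have key : ∀ a b c d, Pth G x a b c d → Inner G x a → Pth G x d a b c := by
    intro a b c d P hi
    obtain ⟨t, t1, t2, t3⟩ := hi.other b
    rcases P.mem hl.1 t2 with rfl | rfl | rfl | rfl
    · exact absurd rfl t3.ne
    · exact absurd rfl t1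
    · exact absurd t3 (g.nac P)
    · exact ⟨P.vd, P.va, P.vb, P.vc, t3.symm, P.ab, P.bc, P.bd.symm, P.ac, P.cd.ne.symm⟩
  rcases P.mem hl.1 xw with rfl | rfl | rfl | rfl
  exacts [⟨_, _, _, key _ _ _ _ P hi⟩, ⟨_, _, _, P⟩, ⟨_, _, _, P.rev⟩, ⟨_, _, _, key _ _ _ _ P.rev hi⟩]

omit g in
lemma out {x w : V} (h : Poor G I x) (xw : G.Adj x w) (hi : ¬ Inner G x w) :
    ∃ b c d, Fan G x w b c d := by
  obtain ⟨hl, a, b, c, d, P⟩ := h
  have key : ∀ a b c d, Pth G x a b c d → ¬ Inner G x a → Fan G x a b c d :=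
    fun a b c d P hi => ⟨P, fun h => hi ⟨b, d, P.bd, P.vb, P.ab, P.vd, h⟩⟩
  rcases P.mem hl.1 xw with rfl | rfl | rfl | rfl
  exacts [⟨_, _, _, key _ _ _ _ P hi⟩, absurd P.inb hi, absurd P.rev.inb hi,
    ⟨_, _, _, key _ _ _ _ P.rev hi⟩]

lemma p1 {x w a : V} (h : Poor G I x) (xw : G.Adj x w) (hi : Inner G x w) (xa : G.Adj x a)
    (wa : G.Adj w a) : ¬ Inner G w a := by
  obtain ⟨a', c, d, P⟩ := g.inn h xw hi
  rcases P.mem h.1.1 xa with rfl | rfl | rfl | rfl
  exacts [fun h => (g.rim P).1 h.symm, absurd rfl wa.ne, (g.rim P).2, absurd wa (g.nbd P)]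

lemma p2 {x w a : V} (h : Poor G I x) (xw : G.Adj x w) (hi : Inner G x w) (xa : G.Adj x a)
    (wa : G.Adj w a) : ¬ Poor G I a := by
  intro ha
  obtain ⟨b, c, d, P⟩ := out ha wa.symm fun k => g.p1 h xw hi xa wa k.symm
  rcases P.mem ha.1.1 xa.symm with rfl | rfl | rfl | rfl
  · exact xw.ne rfl
  · exact g.p1 ha xa.symm P.inb wa.symm xw hi
  · exact g.nac P.toPth xw.symm
  · exact P.nad xw.symm

lemma p3 {x b : V} (h : Poor G I x) (xb : G.Adj x b) (hi : Inner G x b) : ¬ Poor G I b := by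
  intro hb
  obtain ⟨a, c, d, P⟩ := g.inn h xb hi
  exact g.p1 hb xb.symm hi.symm P.bc P.vc P.rev.inb

lemma q1 {x w : V} (h : Poor G I x) (wx : G.Adj w x) (hi : ¬ Inner G w x) :
    ∃ b, G.Adj x b ∧ G.Adj w b ∧ Inner G x b ∧ ¬ Inner G w b ∧ ¬ Poor G I b := by
  obtain ⟨b, c, d, P⟩ := out h wx.symm fun k => hi k.symm
  exact ⟨b, P.vb, P.ab, P.inb, (g.rim P.toPth).1, g.p3 h P.vb P.inb⟩

omit g in
lemma dbl (u : V) (Z : Finset V) (hZ : ∀ a ∈ Z, ¬ Inner G u a) :
    ∑ v ∈ nb G u, (#(Z.filter (G.Adj v)) : ℤ) ≤ #Z := by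
  have : ∑ v ∈ nb G u, #(Z.filter (G.Adj v)) = ∑ a ∈ Z, #((nb G u).filter fun v => G.Adj v a) := by
    simp only [card_filter]
    exact sum_comm
  have h2 : ∑ a ∈ Z, #((nb G u).filter fun v => G.Adj v a) ≤ ∑ a ∈ Z, 1 :=
    sum_le_sum fun a ha => card_le_one.2 fun p hp q hq => by
      by_contra e
      simp only [mem_filter, mem_nb] at hp hq
      exact hZ a ha ⟨p, q, e, hp.1, hp.2.symm, hq.1, hq.2.symm⟩
  simp only [sum_const, smul_eq_mul, mul_one] at h2
  exact_mod_cast this.trans_le h2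

lemma cost_big (u : V) : ∑ v ∈ nb G u, cost G I u v ≤ dg G u := by
  let Z := (nb G u).filter fun a => ¬ Inner G u a ∧ ¬ Poor G I a
  have h1 := dbl u Z fun a ha => (mem_filter.1 ha).2.1
  have h2 : ∑ v ∈ nb G u, cost G I u v ≤ ∑ v ∈ nb G u,
      (1 - (if ¬ Inner G u v ∧ ¬ Poor G I v then 1 else 0) + #(Z.filter (G.Adj v)) : ℤ) := by
    refine sum_le_sum fun v hv => ?_
    obtain ⟨c1, c2, c3, -⟩ := cost_le (G := G) (I := I) u v
    have uv := mem_nb.1 hv
    by_cases e : Inner G u v ∧ Poor G I v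
    · obtain ⟨a, b, ab, h1, h2, h3, h4⟩ := id e.1
      have : 1 < #(Z.filter (G.Adj v)) := one_lt_card.2 ⟨a, by
        simp [Z, h1, h2, g.p1 e.2 uv.symm e.1.symm h2 h1, g.p2 e.2 uv.symm e.1.symm h2 h1], b, by
        simp [Z, h3, h4, g.p1 e.2 uv.symm e.1.symm h4 h3, g.p2 e.2 uv.symm e.1.symm h4 h3], ab⟩
      rw [if_neg (by tauto)]
      omega
    · have := c2 e
      split_ifs with h
      · have := c1 h.1 h.2; omega
      · omega
  rw [sum_add_distrib, sum_sub_distrib, sum_boole] at h2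
  simp only [sum_const, nsmul_eq_mul, mul_one] at h2
  unfold dg
  linarith

lemma cost_flat {u : V} (h : ∀ v, G.Adj u v → ¬ Inner G u v) :
    2 * ∑ v ∈ nb G u, cost G I u v ≤ dg G u := by
  let Z := (nb G u).filter fun a => ¬ Inner G u a ∧ ¬ Poor G I a
  have h1 := dbl u Z fun a ha => (mem_filter.1 ha).2.1
  have h2 : ∑ v ∈ nb G u, 2 * cost G I u v ≤ ∑ v ∈ nb G u,
      (1 - (if ¬ Inner G u v ∧ ¬ Poor G I v then 1 else 0) + #(Z.filter (G.Adj v)) : ℤ) := by
    refine sum_le_sum fun v hv => ?_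
    obtain ⟨c1, c2, c3, -⟩ := cost_le (G := G) (I := I) u v
    have uv := mem_nb.1 hv
    have := c2 fun k => h v uv k.1
    split_ifs with e
    · have := c1 e.1 e.2; omega
    · obtain ⟨b, b1, b2, -, b4, b5⟩ := g.q1 (by_contra fun k => e ⟨h v uv, k⟩) uv (h v uv)
      have : 0 < #(Z.filter (G.Adj v)) := card_pos.2 ⟨b, by simp [Z, b1, b2, b4, b5]⟩
      omega
  rw [sum_add_distrib, sum_sub_distrib, sum_boole, ← mul_sum] at h2
  simp only [sum_const, nsmul_eq_mul, mul_one] at h2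
  unfold dg
  linarith

omit g in
lemma ext5 {u x a b : V} (h : dg G u = 5) (ux : G.Adj u x) (ua : G.Adj u a) (ub : G.Adj u b)
    (xa : x ≠ a) (xb : x ≠ b) (ab : a ≠ b) : ∃ p q, G.Adj u p ∧ G.Adj u q ∧
      [x, a, b, p, q].Pairwise (· ≠ ·) ∧ ∀ r : V → ℤ,
      ∑ v ∈ nb G u, r v = r x + r a + r b + r p + r q := by
  have s : ({x, a, b} : Finset V) ⊆ nb G u := by simp [insert_subset_iff, *]
  obtain ⟨p, q, pq, e⟩ := card_eq_two.1 (show #(nb G u \ {x, a, b}) = 2 by
    rw [card_sdiff_of_subset s, card_eq_three.2 ⟨x, a, b, xa, xb, ab, rfl⟩]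
    unfold dg at h; omega)
  have hp : p ∈ nb G u \ {x, a, b} := by simp [e]
  have hq : q ∈ nb G u \ {x, a, b} := by simp [e]
  simp only [mem_sdiff, mem_nb, mem_insert, mem_singleton, not_or] at hp hq
  refine ⟨p, q, hp.1, hq.1, by simp [*, Ne.symm], fun r => ?_⟩
  rw [← sum_sdiff s, e, sum_pair pq, sum_insert (by simp [*]), sum_pair ab]
  ring

lemma cost_five (hw : ∀ {w a b d e}, Whl G w a b d e → dg G w ≤ 4) {u : V} (h : Five G I u) :
    ∑ v ∈ nb G u, cost G I u v ≤ 3 := by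
  by_cases h1 : ∃ x, G.Adj u x ∧ Inner G u x ∧ Poor G I x
  · obtain ⟨x, ux, hi, hp⟩ := h1
    obtain ⟨a, b, ab, ua, xa, ub, xb⟩ := id hi
    obtain ⟨p, q, up, uq, nd, e⟩ := ext5 h.2 ux ua ub xa.ne xb.ne ab
    have a1 := g.p1 hp ux.symm hi.symm xa ua
    have a2 := g.p2 hp ux.symm hi.symm xa ua
    have b1 := g.p1 hp ux.symm hi.symm xb ub
    have b2 := g.p2 hp ux.symm hi.symm xb ub
    have key : ∀ p q, G.Adj u p → G.Adj u q → [x, a, b, p, q].Pairwise (· ≠ ·) →
        ∀ t, G.Adj u t → G.Adj p t → t = q := by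
      intro p q up uq nd t ut pt
      have := mem_of_dg (G := G) nd (by simp [*]) h.2.le ut
      simp only [List.mem_cons, List.not_mem_nil, or_false] at this
      simp only [List.pairwise_cons, List.mem_cons, List.not_mem_nil, or_false, forall_eq_or_imp,
        forall_eq] at nd
      rcases this with rfl | rfl | rfl | rfl | rfl
      · have := g.t3 u t a b p ut ua xa ub xb up pt.symm; tauto
      · exact absurd ⟨x, p, nd.1.2.2.1, ux, xa.symm, up, pt.symm⟩ a1
      · exact absurd ⟨x, p, nd.1.2.2.1, ux, xb.symm, up, pt.symm⟩ b1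
      · exact absurd rfl pt.ne
      · rfl
    have nd' : [x, a, b, q, p].Pairwise (· ≠ ·) := by
      simp only [List.pairwise_cons, List.mem_cons, List.not_mem_nil, or_false, forall_eq_or_imp,
        forall_eq] at nd ⊢
      tauto
    have np : ¬ Inner G u p := fun k => by
      obtain ⟨t, t1, t2, t3⟩ := k.other q
      exact t1 (key p q up uq nd t t2 t3)
    have nq : ¬ Inner G u q := fun k => by
      obtain ⟨t, t1, t2, t3⟩ := k.other p
      exact t1 (key q p uq up nd' t t2 t3)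
    have pq : Poor G I p → ¬ Poor G I q := fun k => by
      obtain ⟨t, t1, t2, -, -, t5⟩ := g.q1 k up np
      rwa [key p q up uq nd t t2 t1] at t5
    have lp : Poor G I p → Link G I u := fun k => ⟨p, up, k, np⟩
    have lq : Poor G I q → Link G I u := fun k => ⟨q, uq, k, nq⟩
    rw [e]
    simp only [cost, tau, hi, hp, h, a1, a2, b1, b2, np, nq, if_true, if_false]
    split_ifs <;> first | omega | tauto
  have le1 : ∀ v ∈ nb G u, cost G I u v ≤ 1 := fun v hv =>
    (cost_le u v).2.1 fun k => h1 ⟨v, mem_nb.1 hv, k⟩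
  have two : ∀ a b, a ≠ b → G.Adj u a → G.Adj u b → cost G I u a = 0 → cost G I u b = 0 →
      ∑ v ∈ nb G u, cost G I u v ≤ 3 := by
    intro a b ab ua ub ca cb
    have s : ({a, b} : Finset V) ⊆ nb G u := by simp [insert_subset_iff, *]
    have := sum_le_card_nsmul (nb G u \ {a, b}) (cost G I u) 1 fun v hv => le1 v (mem_sdiff.1 hv).1
    rw [card_sdiff_of_subset s, card_pair ab, show #(nb G u) = 5 from h.2] at this
    rw [← sum_sdiff s, sum_pair ab, ca, cb]
    simpa using this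
  have zero : ∀ x a, G.Adj u x → Inner G u x → G.Adj u a → G.Adj x a → ¬ Inner G u a →
      cost G I u a = 0 := by
    intro x a ux hi ua xa na
    refine (cost_le u a).1 na fun k => ?_
    obtain ⟨t, t1, t2, -, t4, -⟩ := g.q1 k ua na
    exact na ⟨x, t, by rintro rfl; exact t4 hi, ux, xa.symm, t2, t1⟩
  have fan : ∀ x a b, G.Adj u x → G.Adj u a → G.Adj u b → G.Adj x a → G.Adj x b → a ≠ b →
      Inner G u a → ∑ v ∈ nb G u, cost G I u v ≤ 3 := by
    intro x a b ux ua ub xa xb ab ia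
    obtain ⟨t, t1, t2, t3⟩ := ia.other x
    have P : Pth G u b x a t := ⟨ub, ux, ua, t2, xb.symm, xa, t3, ab.symm, t1.symm, by
      rintro rfl; exact g.k4 u x a b ux ua ub xa xb t3⟩
    have key : ∀ b x a t, Pth G u b x a t → ¬ Inner G u b := by
      intro b x a t P k
      obtain ⟨s, s1, s2, s3⟩ := k.other x
      by_cases e : s = t
      · subst e
        have := hw ⟨P.va, P.vb, P.vc, P.vd, P.ab, P.bc, P.cd, s3.symm, P.ac, P.bd⟩
        have := h.2
        omega
      exact (g.c6.out s2 s3.symm P.ab P.bc P.cd P.vd.symm P.va.ne P.vb.ne P.vc.ne s1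
        (by rintro rfl; exact g.nac P s3) e P.ac P.ad P.bd).1 P.va
    exact two b t P.ad ub t2 (zero x b ux P.inb ub xb (key _ _ _ _ P))
      (zero a t ua ia t2 t3 (key _ _ _ _ P.rev))
  by_cases h2 : ∃ x, G.Adj u x ∧ Inner G u x
  · obtain ⟨x, ux, hi⟩ := h2
    obtain ⟨a, b, ab, ua, xa, ub, xb⟩ := id hi
    by_cases ia : Inner G u a
    · exact fan x a b ux ua ub xa xb ab ia
    by_cases ib : Inner G u b
    · exact fan x b a ux ub ua xb xa ab.symm ib
    exact two a b ab ua ub (zero x a ux hi ua xa ia) (zero x b ux hi ub xb ib)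
  · have := g.cost_flat (u := u) fun v uv k => h2 ⟨v, uv, k⟩
    have := h.2
    omega

lemma allTri {c z y o x : V} (W : Whl G c z y o x) (hc : Lo G I 4 c) (h5 : Five G I y)
    (hl : Link G I y) : AllTri G y := by
  obtain ⟨p, yp, pp, np⟩ := hl
  obtain ⟨b, pb, yb, -, -, nb'⟩ := g.q1 pp yp np
  have pc : Poor G I c := ⟨hc, _, _, _, _, W.pth⟩
  have ic := W.pth.inb
  have z1 := g.p1 pc W.cy ic W.cz W.zy.symm
  have z2 := g.p2 pc W.cy ic W.cz W.zy.symm
  have o1 := g.p1 pc W.cy ic W.co W.yo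
  have o2 := g.p2 pc W.cy ic W.co W.yo
  have cp : c ≠ p := by rintro rfl; exact np ic.symm
  have cb : c ≠ b := by rintro rfl; exact nb' pc
  have zp : z ≠ p := by rintro rfl; exact z2 pp
  have op : o ≠ p := by rintro rfl; exact o2 pp
  have zb : z ≠ b := by rintro rfl; exact z1 ⟨c, p, cp, W.cy.symm, W.cz.symm, yp, pb.symm⟩
  have ob : o ≠ b := by rintro rfl; exact o1 ⟨c, p, cp, W.cy.symm, W.co.symm, yp, pb.symm⟩
  intro t ht
  have := mem_of_dg (G := G) (v := y) (l := [c, z, o, p, b])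
    (by simp [*, W.cz.ne, W.co.ne, W.zo, pb.ne]) (by simp [*, W.cy.symm, W.zy.symm, W.yo]) h5.2.le ht
  simp only [List.mem_cons, List.not_mem_nil, or_false] at this
  rcases this with rfl | rfl | rfl | rfl | rfl
  exacts [⟨z, W.zy.symm, W.cz⟩, ⟨c, W.cy.symm, W.cz.symm⟩, ⟨c, W.cy.symm, W.co.symm⟩, ⟨b, yb, pb⟩,
    ⟨p, yp, pb.symm⟩]

end Glob

end

open Finset MP_5fbfb9_co
open scoped Classical

section
variable {V C : Type} [Fintype V] {G : SimpleGraph V} {M : V → C → V → C → Prop} {I : V → Prop}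
  [Inhabited C]

namespace Glob

variable (g : Glob G M I)
include g

omit [Inhabited C] in
lemma pay_end {v a b c d : V} (P : Fan G v a b c d) (hv : Lo G I 4 v) :
    1 ≤ tau G I a v ∨ Eff G I v b a := by
  have pv : Poor G I v := ⟨hv, _, _, _, _, P.toPth⟩
  have na : ¬ Inner G a v := fun k => by
    obtain ⟨t, t1, t2, t3⟩ := k.other b
    rcases P.mem hv.1 t3 with rfl | rfl | rfl | rfl
    exacts [t2.ne rfl, t1 rfl, g.nac P.toPth t2, P.nad t2]
  by_cases h4 : Lo G I 4 a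
  · exact Or.inr (Or.inl h4)
  by_cases h5 : Five G I a ∧ Heavy G I a
  · obtain ⟨h5, k, y, o, x, W, hk, h⟩ := h5
    have pk : Poor G I k := ⟨hk, _, _, _, _, W.pth⟩
    have ik := W.rot.rot.rot.pth.inb
    refine Or.inr (Or.inr ⟨h5.lo, k, y, o, x, W, hk, ?_, ?_, ?_, ?_⟩)
    · rintro rfl; exact g.p2 pk W.cz ik W.cy W.zy pv
    · rintro rfl; exact g.p2 pk W.cz ik W.cx W.xz.symm pv
    · rintro rfl; exact g.p3 pv P.vb P.inb pk
    · rcases h with h | h | ⟨h1, h2, h3, h4, h5⟩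
      exacts [Or.inl h, Or.inr (Or.inl h), Or.inr (Or.inr ⟨h1, h2.lo, h3.lo, g.allTri W hk h2 h4,
        g.allTri W.rev hk h3 h5⟩)]
  · left
    simp only [tau, pv, h4, na, if_true, if_false]
    split_ifs <;> first | omega | tauto

omit g [Inhabited C] in
lemma pay_in {v b : V} (pv : Poor G I v) (hi : Inner G v b) :
    Lo G I 4 b ∨ (Lo G I 5 b ∧ 1 ≤ tau G I b v) ∨ 2 ≤ tau G I b v := by
  by_cases h4 : Lo G I 4 b
  · exact Or.inl h4
  by_cases h5 : Five G I b
  · refine Or.inr (Or.inl ⟨h5.lo, ?_⟩)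
    simp only [tau, pv, h4, h5, hi.symm, if_true, if_false]
    split_ifs <;> omega
  · simp [tau, pv, h4, h5, hi.symm]

lemma fan_in {v a b c d : V} (P : Fan G v a b c d) (hv : Lo G I 4 v) :
    2 ≤ tau G I a v + tau G I b v + tau G I c v + tau G I d v := by
  have pv : Poor G I v := ⟨hv, _, _, _, _, P.toPth⟩
  have := tau_nonneg (G := G) (I := I) a v
  have := tau_nonneg (G := G) (I := I) b v
  have := tau_nonneg (G := G) (I := I) c v
  have := tau_nonneg (G := G) (I := I) d v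
  rcases pay_in pv P.inb with hb | ⟨hb, tb⟩ | tb <;>
    rcases pay_in pv P.rev.inb with hc | ⟨hc, tc⟩ | tc <;>
    rcases g.pay_end P hv with ha | ha <;> rcases g.pay_end P.rev hv with hd | hd <;>
    first
    | omega
    | exact (red1 g P hv hb hc ha).elim
    | exact (red1 g P.rev hv hc hb hd).elim
    | exact (red2 g P hv hb hc ha hd).elim
    | exact (red2 g P.rev hv hc hb hd ha).elim

omit g [Inhabited C] in
lemma pay_rim {c z y o x : V} (W : Whl G c z y o x) (hc : Lo G I 4 c) (hz : ¬ Lo G I 4 z) :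
    1 ≤ tau G I z c ∧ (Heavy G I z ∨ ¬ (Five G I z ∧ Link G I z) → 2 ≤ tau G I z c) := by
  have pc : Poor G I c := ⟨hc, _, _, _, _, W.pth⟩
  have ic := W.rot.rot.rot.pth.inb.symm
  have w : ∃ z y o x, Whl G c z y o x := ⟨_, _, _, _, W⟩
  simp only [tau, pc, hz, ic, w, if_true, if_false, true_and]
  split_ifs <;> first | omega | tauto

omit g [Inhabited C] in
lemma pay_two {c z y o x : V} (W : Whl G c z y o x) (hc : Lo G I 4 c) (hz : ¬ Lo G I 4 z)
    (h : Lo G I 4 y ∧ Lo G I 4 o ∨ Lo G I 4 y ∧ Lo G I 4 x ∨ Lo G I 4 x ∧ Lo G I 4 o) :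
    2 ≤ tau G I z c := by
  refine (pay_rim W hc hz).2 (Or.inl ?_)
  rcases h with h | h | h
  exacts [⟨c, y, o, x, W, hc, Or.inl h⟩, ⟨c, y, o, x, W, hc, Or.inr (Or.inl h)⟩,
    ⟨c, x, o, y, W.rev, hc, Or.inl h⟩]

omit g [Inhabited C] in
lemma pay_one {c z y o x : V} (W : Whl G c z y o x) (hc : Lo G I 4 c) (hz : ¬ Lo G I 4 z)
    (hy : ¬ Lo G I 4 y) (ho : Lo G I 4 o) (hx : ¬ Lo G I 4 x) :
    4 ≤ tau G I z c + tau G I y c + tau G I x c := by
  obtain ⟨z1, z2⟩ := pay_rim W hc hz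
  obtain ⟨y1, y2⟩ := pay_rim W.rot hc hy
  obtain ⟨x1, x2⟩ := pay_rim W.rot.rot.rot hc hx
  by_cases a : Five G I y ∧ Link G I y
  · by_cases b : Five G I x ∧ Link G I x
    · have := z2 (Or.inl ⟨c, y, o, x, W, hc, Or.inr (Or.inr ⟨ho, a.1, b.1, a.2, b.2⟩)⟩)
      omega
    · have := x2 (Or.inr b); omega
  · have := y2 (Or.inr a); omega

lemma whl_in {c z y o x : V} (W : Whl G c z y o x) (hc : Lo G I 4 c) :
    4 ≤ tau G I z c + tau G I y c + tau G I o c + tau G I x c := by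
  have d : ∀ {z y o x}, Whl G c z y o x → Lo G I 4 z → Lo G I 4 y → ¬ Lo G I 4 o :=
    fun W h1 h2 h3 => diamond g W.cz W.cy W.co W.zy W.yo W.zo hc h1 h2 h3
  have d1 := d W
  have d2 := d W.rot
  have d3 := d W.rot.rot
  have d4 := d W.rot.rot.rot
  have a1 := fun h => (pay_rim W hc h).1
  have a2 := fun h => (pay_rim W.rot hc h).1
  have a3 := fun h => (pay_rim W.rot.rot hc h).1
  have a4 := fun h => (pay_rim W.rot.rot.rot hc h).1
  have b1 := pay_two W hc
  have b2 := pay_two W.rot hc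
  have b3 := pay_two W.rot.rot hc
  have b4 := pay_two W.rot.rot.rot hc
  have c1 := pay_one W hc
  have c2 := pay_one W.rot hc
  have c3 := pay_one W.rot.rot hc
  have c4 := pay_one W.rot.rot.rot hc
  have := tau_nonneg (G := G) (I := I) z c
  have := tau_nonneg (G := G) (I := I) y c
  have := tau_nonneg (G := G) (I := I) o c
  have := tau_nonneg (G := G) (I := I) x c
  by_cases h1 : Lo G I 4 z <;> by_cases h2 : Lo G I 4 y <;> by_cases h3 : Lo G I 4 o <;>
    by_cases h4 : Lo G I 4 x <;>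
    simp only [h1, h2, h3, h4, not_true_eq_false, not_false_eq_true, forall_true_left, and_self,
      and_true, and_false, or_false, or_true, or_self, IsEmpty.forall_iff] at * <;> omega

omit g [Inhabited C] in
lemma sum4 {u a b c d : V} (h : dg G u ≤ 4) (ua : G.Adj u a) (ub : G.Adj u b) (uc : G.Adj u c)
    (ud : G.Adj u d) (nd : [a, b, c, d].Pairwise (· ≠ ·)) (r : V → ℤ) :
    ∑ v ∈ nb G u, r v = r a + r b + r c + r d := by
  have : nb G u = [a, b, c, d].toFinset := by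
    ext t
    rw [mem_nb, List.mem_toFinset]
    refine ⟨mem_of_dg nd (by simp [*]) h, ?_⟩
    simp only [List.mem_cons, List.not_mem_nil, or_false]
    rintro (rfl | rfl | rfl | rfl) <;> assumption
  rw [this, List.sum_toFinset _ nd]
  simp [add_assoc]

lemma four {u : V} (h : Lo G I 4 u) (h4 : dg G u = 4) :
    0 ≤ ∑ v ∈ nb G u, (nu G u v + 5 * tau G I v u) := by
  have e : ex G u = 0 := by simp [ex, h4]
  have lo : ∀ v, -5 ≤ nu G u v ∧ (¬ Inner G u v → 0 ≤ nu G u v) ∧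
      (¬ Inner G u v → Free G u v → 5 ≤ nu G u v) := fun v => by
    unfold nu; rw [e]; split_ifs <;> simp_all
  by_cases hp : Poor G I u
  · obtain ⟨-, a, b, c, d, P⟩ := hp
    rw [sum4 h.1 P.va P.vb P.vc P.vd (by simp [P.ab.ne, P.ac, P.ad, P.bc.ne, P.bd, P.cd.ne])]
    have := (lo a).1; have := (lo b).1; have := (lo c).1; have := (lo d).1
    by_cases ad : G.Adj a d
    · have := g.whl_in ⟨P.va, P.vb, P.vc, P.vd, P.ab, P.bc, P.cd, ad.symm, P.ac, P.bd⟩ h
      omega
    · have key : ∀ a b c d, Fan G u a b c d → ¬ Inner G u a := fun a b c d P k => by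
        obtain ⟨t, t1, t2, t3⟩ := k.other b
        rcases P.mem h.1 t2 with rfl | rfl | rfl | rfl
        exacts [t3.ne rfl, t1 rfl, g.nac P.toPth t3, P.nad t3]
      have F : Fan G u a b c d := ⟨P, ad⟩
      have := g.fan_in F h
      have := (lo a).2.1 (key _ _ _ _ F)
      have := (lo d).2.1 (key _ _ _ _ F.rev)
      omega
  have t0 : ∀ v, tau G I v u = 0 := fun v => by simp [tau, hp]
  simp only [t0, mul_zero, add_zero]
  by_cases hi : ∃ y, G.Adj u y ∧ Inner G u y
  swap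
  · exact sum_nonneg fun v hv => (lo v).2.1 fun k => hi ⟨v, mem_nb.1 hv, k⟩
  obtain ⟨y, uy, a, b, ab, ua, ya, ub, yb⟩ := hi
  obtain ⟨t, ut, ht⟩ := exists_mem_notMem_of_card_lt_card (s := {y, a, b}) (t := nb G u)
    (by have : #({y, a, b} : Finset V) ≤ 3 := card_le_three
        unfold dg at h4; omega)
  simp only [mem_insert, mem_singleton, not_or] at ht
  rw [mem_nb] at ut
  have key : ∀ a b, a ≠ b → G.Adj u a → G.Adj u b → G.Adj y a → G.Adj y b → ¬ Inner G u a := by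
    intro a b ab ua ub ya yb k
    obtain ⟨s, s1, s2, s3⟩ := k.other y
    exact hp ⟨h, b, y, a, s, ub, uy, ua, s2, yb.symm, ya, s3, ab.symm, s1.symm, by
      rintro rfl; exact g.k4 u y a b uy ua ub ya yb s3⟩
  have na := key a b ab ua ub ya yb
  have nb' := key b a ab.symm ub ua yb ya
  have nd : [y, a, b, t].Pairwise (· ≠ ·) := by simp [ya.ne, yb.ne, ab, Ne.symm, ht]
  have nt : ¬ Inner G u t := fun k => by
    obtain ⟨s, s1, s2, s3⟩ := k.other y
    have := mem_of_dg (G := G) nd (by simp [*]) h.1 s2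
    simp only [List.mem_cons, List.not_mem_nil, or_false] at this
    rcases this with rfl | rfl | rfl | rfl
    · exact s1 rfl
    · exact na ⟨y, t, Ne.symm ht.1, uy, ya.symm, ut, s3.symm⟩
    · exact nb' ⟨y, t, Ne.symm ht.1, uy, yb.symm, ut, s3.symm⟩
    · exact s3.ne rfl
  rw [sum4 h.1 uy ua ub ut nd]
  have := (lo y).1
  have := (lo a).2.1 na
  have := (lo b).2.1 nb'
  have := (lo t).2.2 nt ⟨h.1, y, a, b, uy, ua, ub, ya, yb, ab, ht.1, ht.2.1, ht.2.2, na, nb'⟩
  omega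

end Glob

end

variable {V C : Type} [DecidableEq V] [Fintype V] {G : SimpleGraph V} {A K : Finset V}
  {M : V → C → V → C → Prop} [Inhabited C]

theorem core (H : Conn G A K) (hp : Pl G) (hM : Mat M)
    (hmin : ∀ X : Finset V, X.Nonempty → (∀ v ∈ X, v ∈ A ∧ v ∉ K) →
      ¬ Red G.Adj M X fun v => 4 - dg G v) : False := by
  obtain ⟨F, _, c, hc, h0⟩ := hp.norm
  have P : Pla G A K c := ⟨H, hc, h0⟩
  let I : V → Prop := fun v => v ∈ A ∧ v ∉ K
  have g : Glob G M I := ⟨hM, H.c6, P.k4, P.t3, hmin⟩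
  have hw : ∀ {w a b d e}, Whl G w a b d e → dg G w ≤ 4 := fun W =>
    P.whl W.cz W.cy W.co W.cx W.zy W.yo W.ox W.xz W.zo W.yx
  let ch : V → ℤ := fun u => 15 * ((dg G u : ℤ) - 4) +
    ∑ v ∈ nb G u, (nu G u v + 5 * tau G I v u - 5 * tau G I u v)
  have out : ∀ u ∈ (univ : Finset V), u ∉ A → nb G u = ∅ := fun u _ hu =>
    eq_empty_iff_forall_notMem.2 fun v hv => hu (H.supp _ _ (mem_nb.1 hv))
  have e0 : ∀ r : V → V → ℤ, ∑ u ∈ A, ∑ v ∈ nb G u, r u v = ∑ u, ∑ v ∈ nb G u, r u v := fun r =>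
    sum_subset (subset_univ _) fun u h1 h2 => by simp [out u h1 h2]
  have tot : ∑ u ∈ A, ch u ≤ -120 := by
    have := P.charge
    simp only [ch, sum_add_distrib, sum_sub_distrib, e0] at this ⊢
    rw [Pla.sum_swap fun u v => 5 * tau G I u v]
    linarith
  have lo : ∀ u, 15 * ((dg G u : ℤ) - 4) - 5 * ∑ v ∈ nb G u, cost G I u v - dg G u * ex G u ≤
      ch u := by
    intro u
    have : ∑ v ∈ nb G u, (-5 * cost G I u v - ex G u) ≤
        ∑ v ∈ nb G u, (nu G u v + 5 * tau G I v u - 5 * tau G I u v) := sum_le_sum fun v _ => by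
      have := tau_nonneg (G := G) (I := I) v u
      unfold nu cost
      split_ifs <;> omega
    rw [sum_sub_distrib, ← mul_sum, sum_const, nsmul_eq_mul] at this
    simp only [ch, dg] at this ⊢
    linarith
  have b1 : ∀ u ∈ A \ K, 0 ≤ ch u := by
    intro u hu
    have iu : I u := mem_sdiff.1 hu
    have d := H.deg u iu.1 iu.2
    by_cases h4 : dg G u = 4
    · have l : Lo G I 4 u := ⟨h4.le, iu⟩
      have := g.four l h4
      have t0 : ∀ v, tau G I u v = 0 := fun v => by simp [tau, l]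
      simpa [ch, t0, h4] using this
    have l := lo u
    rw [show ex G u = 0 by unfold ex; split_ifs <;> omega] at l
    by_cases h5 : dg G u = 5
    · have := g.cost_five hw ⟨iu, h5⟩
      omega
    · have := g.cost_big u
      omega
  have b2 : ∀ u ∈ K, -39 ≤ ch u := by
    intro u hu
    have d := H.two_le (H.sub hu)
    have l := lo u
    have := g.cost_big u
    by_cases h2 : dg G u = 2
    · have nt : ∀ v t, G.Adj u v → G.Adj u t → ¬ G.Adj v t := fun v t uv ut vt =>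
        H.no2 uv ut vt fun x hx => by
          simpa using mem_of_dg (G := G) (l := [v, t]) (by simp [vt.ne]) (by simp [*]) h2.le hx
      have : ∑ v ∈ nb G u, cost G I u v = 0 := sum_eq_zero fun v hv => by
        have uv := mem_nb.1 hv
        have ni : ¬ Inner G u v := fun ⟨a, _, _, h1, h2, _⟩ => nt v a uv h1 h2
        refine (cost_le u v).1 ni fun k => ?_
        obtain ⟨b, b1, b2, -⟩ := g.q1 k uv ni
        exact nt v b uv b2 b1
      simp only [ex, h2] at l
      omega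
    by_cases h3 : dg G u = 3
    · simp only [ex, h3] at l
      omega
    · simp only [ex, h2, h3, if_false] at l
      omega
  rw [← sum_sdiff H.sub] at tot
  have s1 := sum_nonneg b1
  have s2 : #K • (-39 : ℤ) ≤ ∑ u ∈ K, ch u := card_nsmul_le_sum K ch _ b2
  have := H.card
  rw [nsmul_eq_mul] at s2
  omega

end Pool.Agent.P.MP_0e1fd4_co.On
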