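import Mathlib

/-! The online DP-colouring game. -/

namespace Pool.Agent.P.MP_0e1fd4_co.On

/-- `Survives G n S t`: the uncoloured vertices are those of `S`, vertex `v` has `t v` tokens,
and the painter can play `n` more rounds so that no uncoloured vertex is ever without a token.
In a round the lister shows a cover `H` of `G` and lists `L v` of at most `t v` colours; the
painter colours some uncoloured vertices from their lists with colours that are pairwise
non-adjacent in `H`; every other vertex loses as many tokens as it was shown colours. -/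
def Survives {V : Type} (G : SimpleGraph V) : ℕ → Set V → (V → ℕ) → Prop
  | 0, S, t => ∀ v ∈ S, 1 ≤ t v
  | n + 1, S, t => (∀ v ∈ S, 1 ≤ t v) ∧
      ∀ (H : SimpleGraph (V × ℕ)) (L : V → Finset ℕ),
        (∀ x y, H.Adj x y → G.Adj x.1 y.1) →
        (∀ x y y', H.Adj x y → H.Adj x y' → y.1 = y'.1 → y = y') →
        (∀ v ∈ S, (L v).card ≤ t v) →
        ∃ c : V → Option ℕ, (∀ v a, c v = some a → v ∈ S ∧ a ∈ L v) ∧
          (∀ u a v b, c u = some a → c v = some b → ¬ H.Adj (u, a) (v, b)) ∧
          Survives G n {v ∈ S | c v = none} fun v => t v - (L v).card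

end Pool.Agent.P.MP_0e1fd4_co.On
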