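import Pool.Agent.P.MP_0e1fd4_co.OnR
import Pool.Agent.P.MP_0e1fd4_co.Cfg

/-! Copy of the soundness part of `Eng` and of the end of `Cfg` for the online game. -/

namespace Pool.Agent.P.MP_0e1fd4_co.On

open Finset

structure Glob {V : Type} [Fintype V] (G : SimpleGraph V) {C : Type} (M : V → C → V → C → Prop) 
    (I : V → Prop) : Prop where
  mat : Mat M
  c6 : NoC6 G
  k4 : ∀ a b c d, G.Adj a b → G.Adj a c → G.Adj a d → G.Adj b c → G.Adj b d → ¬ G.Adj c d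
  t3 : ∀ a b c d e, G.Adj a b → G.Adj a c → G.Adj b c → G.Adj a d → G.Adj b d → G.Adj a e →
    G.Adj b e → c = d ∨ c = e ∨ d = e
  min : ∀ X : Finset V, X.Nonempty → (∀ v ∈ X, I v) → ¬ Red G.Adj M X fun v => 4 - dg G v


variable {V C : Type} [Fintype V] {G : SimpleGraph V} {M : V → C → V → C → Prop} {I : V → Prop}
  {φ : ℕ → V}

lemma conSound (g : Glob G M I) {v : Vw} (h : v.Ok G φ) {dl : List (ℕ × ℕ)} {al : List ℕ}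
    (hd : ∀ p ∈ dl, dg G (φ p.1) ≤ p.2 ∧ I (φ p.1)) (ha : ∀ i ∈ al, AllTri G (φ i)) (w : Con) :
    w.chk v dl al = true → False := by
  cases w <;> simp only [Con.chk, Bool.and_eq_true, Bool.or_eq_true, List.all_eq_true,
    bne_iff_ne, Nat.blt_eq, Nat.ble_eq, List.elem_eq_mem, decide_eq_true_eq, and_imp]
  · exact fun h1 => (h.a _ _ h1).ne rfl
  · exact fun h1 h2 => h.n _ _ h2 (h.a _ _ h1)
  · intro h1 h2 h3 h4
    have := le_dg (G := G) (h.pw h4) (by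
      simp only [List.mem_map]; rintro _ ⟨y, hy, rfl⟩; exact h.a _ _ (h3 y hy))
    have := (hd _ (lk_mem h1)).1
    simp only [List.length_map] at *
    omega
  · exact fun h1 h2 h3 h4 h5 h6 => g.k4 _ _ _ _ (h.a _ _ h1) (h.a _ _ h2) (h.a _ _ h3)
      (h.a _ _ h4) (h.a _ _ h5) (h.a _ _ h6)
  · intro h1 h2 h3 h4 h5 h6 h7 h8
    have := g.t3 _ _ _ _ _ (h.a _ _ h1) (h.a _ _ h2) (h.a _ _ h3) (h.a _ _ h4) (h.a _ _ h5)
      (h.a _ _ h6) (h.a _ _ h7)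
    have h9 := h.pw h8
    simp at h9
    tauto
  · intro h1 h2 h3 h4 h5 h6 h7 h8
    have := g.c6 _ _ _ _ _ _ (h.a _ _ h1) (h.a _ _ h2) (h.a _ _ h3) (h.a _ _ h4) (h.a _ _ h5)
      (h.a _ _ h6) (h.pw h8)
    rcases h7 with h7 | h7
    exacts [this.1 (h.a _ _ h7), this.2 (h.a _ _ h7)]
  · rename_i i j l
    intro h1 h2 h3 h4 h5 h6
    obtain ⟨t, t1, t2⟩ := ha i h1 (φ j) (h.a _ _ (h4 i (by simp))).symm
    have := mem_of_dg (G := G) (h.pw h5) (by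
      simp only [List.mem_map]; rintro _ ⟨y, hy, rfl⟩; exact h.a _ _ (h4 y hy))
      (by simpa using (hd _ (lk_mem h2)).1.trans h3) t2
    simp only [List.map_cons, List.mem_cons, List.mem_map] at this
    rcases this with rfl | ⟨y, hy, rfl⟩
    exacts [t1.ne rfl, h.n _ _ (h6 y hy) t1]

omit [Fintype V] in
lemma run_sound [Inhabited C] (hM : Mat M) {v : Vw} (h : v.Ok G φ) (ops : List Op) :
    ∀ (S : List ℕ) (σ : ℕ → ℤ), S.Nodup → run v ops S σ = true →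
      Red (fun i j => G.Adj (φ i) (φ j)) (fun i a j b => M (φ i) a (φ j) b) S.toFinset σ := by
  have hM' : Mat fun i a j b => M (φ i) a (φ j) b :=
    ⟨fun _ _ _ _ => hM.symm _ _ _ _, fun _ _ _ _ _ => hM.uniq _ _ _ _ _⟩
  have hs : ∀ i j, G.Adj (φ i) (φ j) → G.Adj (φ j) (φ i) := fun _ _ => G.symm.symm _ _
  have hi : ∀ i, ¬ G.Adj (φ i) (φ i) := fun _ => G.irrefl
  induction ops with
  | nil =>
    intro S σ _ hr
    simp only [run, List.isEmpty_iff] at hr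
    subst hr
    exact Red.empty
  | cons op r ih =>
    intro S σ hS hr
    cases op <;> simp only [run, Bool.and_eq_true, Bool.or_eq_true, List.all_eq_true,
      List.elem_eq_mem, decide_eq_true_eq] at hr
    · obtain ⟨⟨h1, h2⟩, h3⟩ := hr
      refine Red.col hM' hs hi (List.mem_toFinset.2 h1) (by linarith [low_le h hS ‹ℕ›]) ?_
      rw [← rm_fin]; exact ih _ _ (hS.filter _) h3
    · rename_i u w
      obtain ⟨⟨⟨⟨⟨h1, h2⟩, h3⟩, h4⟩, h5⟩, h6⟩ := hr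
      refine Red.save hM' hs hi (List.mem_toFinset.2 h1) (List.mem_toFinset.2 h2) (h.a _ _ h3)
        (by linarith [low_le h hS u]) (by linarith [low_le h hS u, le_upp h S w]) ?_
      rw [← rm_fin]; exact ih _ _ (hS.filter _) h6
    · rename_i z c y o x
      obtain ⟨⟨⟨⟨⟨⟨⟨⟨⟨⟨⟨⟨h1, h2⟩, h3⟩, h4⟩, h5⟩, h6⟩, h7⟩, h8⟩, h9⟩, h10⟩, h11⟩, h12⟩, h13⟩ := hr
      have m : ∀ k ∈ [z, c, y, o, x], k ∈ S.toFinset := fun k hk => List.mem_toFinset.2 (h1 k hk)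
      refine Red.absorb hM' hs hi (m z (by simp)) (m c (by simp)) (m y (by simp)) (m o (by simp))
        (m x (by simp)) (List.Nodup.of_map φ (h.pw h2)) (h.a _ _ h3) (h.a _ _ h4) (h.a _ _ h5)
        (h.n _ _ h6) (h.n _ _ h7) (fun k hk hk' => ?_) (by linarith [low_le h hS c])
        (by linarith [low_le h hS y]) (by linarith [low_le h hS o])
        (by linarith [low_le h hS x]) ?_
      · obtain ⟨⟨⟨a1, a2⟩, a3⟩, a4⟩ := (h8 k (List.mem_toFinset.1 hk)).resolve_left hk'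
        exact ⟨h.n _ _ a1, h.n _ _ a2, h.n _ _ a3, h.n _ _ a4⟩
      · simp only [← rm_fin]
        exact ih _ _ ((((hS.filter _).filter _).filter _).filter _) h13

lemma certSound [Inhabited C] (g : Glob G M I) {dl : List (ℕ × ℕ)} {al : List ℕ}
    (hd : ∀ p ∈ dl, dg G (φ p.1) ≤ p.2 ∧ I (φ p.1)) (ha : ∀ i ∈ al, AllTri G (φ i)) (c : Cert) :
    ∀ a n d, (∀ i j, tb a i j = true → G.Adj (φ i) (φ j)) →
      (∀ i j, tb n i j = true → ¬ G.Adj (φ i) (φ j)) → (∀ i j, tb d i j = true → φ i ≠ φ j) →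
      c.chk dl al a n d = true → False := by
  classical
  have ok : ∀ a n d, (∀ i j, tb a i j = true → G.Adj (φ i) (φ j)) →
      (∀ i j, tb n i j = true → ¬ G.Adj (φ i) (φ j)) → (∀ i j, tb d i j = true → φ i ≠ φ j) →
      (vw a n d).Ok G φ := fun a n d h1 h2 h3 => ⟨h1, h2, fun i j h => by
        simp only [vw, Bool.or_eq_true] at h
        exact h.elim (h3 i j) fun h => (h1 i j h).ne⟩
  have up : ∀ (P : V → V → Prop), (∀ x y, P x y → P y x) → ∀ m i j, i < 16 → j < 16 →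
      P (φ i) (φ j) → (∀ i j, tb m i j = true → P (φ i) (φ j)) →
      ∀ a b, tb (ins m i j) a b = true → P (φ a) (φ b) := by
    intro P hP m i j hi hj h1 h2 a b h
    rcases tb_ins hi hj h with h | ⟨rfl, rfl⟩ | ⟨rfl, rfl⟩
    exacts [h2 _ _ h, h1, hP _ _ h1]
  induction c with
  | con w => exact fun a n d h1 h2 h3 => conSound g (ok a n d h1 h2 h3) hd ha w
  | dis i j w r ih =>
    intro a n d h1 h2 h3 h
    simp only [Cert.chk, Bool.and_eq_true, Nat.blt_eq] at h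
    obtain ⟨⟨⟨hi, hj⟩, h4⟩, h5⟩ := h
    have ne : φ i ≠ φ j := fun e => conSound g ((ok a n d h1 h2 h3).mg e) hd ha w h4
    exact ih _ _ _ h1 h2 (up (· ≠ ·) (fun _ _ => Ne.symm) d i j hi hj ne h3) h5
  | spl i j r s ih1 ih2 =>
    intro a n d h1 h2 h3 h
    simp only [Cert.chk, Bool.and_eq_true, Nat.blt_eq] at h
    obtain ⟨⟨⟨hi, hj⟩, h4⟩, h5⟩ := h
    by_cases e : G.Adj (φ i) (φ j)
    · exact ih1 _ _ _ (up G.Adj (fun _ _ h => h.symm) a i j hi hj e h1) h2 h3 h4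
    · exact ih2 _ _ _ h1 (up (fun x y => ¬ G.Adj x y) (fun _ _ h h' => h h'.symm) n i j hi hj e h2)
        h3 h5
  | col S ops =>
    intro a n d h1 h2 h3 h
    simp only [Cert.chk, Bool.and_eq_true, List.all_eq_true, bne_iff_ne, Bool.not_eq_true',
      List.isEmpty_eq_false_iff] at h
    obtain ⟨⟨⟨h4, h5⟩, h6⟩, h7⟩ := h
    have o := ok a n d h1 h2 h3
    have nd : (S.map φ).Nodup := o.pw h5
    have r := run_sound (M := M) g.mat o ops S _ (List.Nodup.of_map φ nd) h7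
    refine g.min (S.toFinset.image φ) ?_ ?_ (Red.image φ ?_ (r.mono fun i hi => ?_))
    · simpa using h4
    · simp only [mem_image, List.mem_toFinset]
      rintro _ ⟨i, hi, rfl⟩
      exact (hd _ (lk_mem (h6 i hi))).2
    · intro i hi j hj e
      exact List.inj_on_of_nodup_map nd (by simpa using hi) (by simpa using hj) e
    · have := (hd _ (lk_mem (h6 i (List.mem_toFinset.1 hi)))).1
      simp only at this ⊢
      omega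

theorem engine [Inhabited C] (g : Glob G M I) (φ : ℕ → V) (la ln ld dl : List (ℕ × ℕ))
    (al : List ℕ) (c : Cert) (hc : c.chk dl al (mk la) (mk ln) (mk ld) = true)
    (h1 : la.Forall fun p => G.Adj (φ p.1) (φ p.2))
    (h2 : ln.Forall fun p => ¬ G.Adj (φ p.1) (φ p.2)) (h3 : ld.Forall fun p => φ p.1 ≠ φ p.2)
    (hd : dl.Forall fun p => dg G (φ p.1) ≤ p.2 ∧ I (φ p.1))
    (ha : al.Forall fun i => AllTri G (φ i)) : False := by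
  rw [List.forall_iff_forall_mem] at h1 h2 h3 hd ha
  refine certSound g hd ha c _ _ _ (fun i j h => ?_) (fun i j h => ?_) (fun i j h => ?_) hc
  · exact (tb_mk h).elim (h1 _) fun h => (h1 _ h).symm
  · exact (tb_mk h).elim (h2 _) fun h h' => h2 _ h h'.symm
  · exact (tb_mk h).elim (h3 _) fun h => (h3 _ h).symm

variable [Inhabited C]

lemma diamond (g : Glob G M I) {v a b c : V} (va : G.Adj v a) (vb : G.Adj v b) (vc : G.Adj v c)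
    (ab : G.Adj a b) (bc : G.Adj b c) (ac : a ≠ c) (hv : Lo G I 4 v) (ha : Lo G I 4 a)
    (hb : Lo G I 4 b) (hc : Lo G I 4 c) : False :=
  engine g (fun i => [v, a, b, c].getD i v) [(0, 1), (0, 2), (0, 3), (1, 2), (2, 3)] [] [(1, 3)]
    [(0, 4), (1, 4), (2, 4), (3, 4)] []
    (.spl 1 3 (.con (.k4 0 1 2 3)) (.col [0, 1, 2, 3] [.save 0 1, .col 3, .col 2, .col 1]))
    (by decide +kernel) ⟨va, vb, vc, ab, bc⟩ trivial ac ⟨hv, ha, hb, hc⟩ trivial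

lemma red1 (g : Glob G M I) {v a b c d : V} (F : Fan G v a b c d) (hv : Lo G I 4 v)
    (hb : Lo G I 4 b) (hc : Lo G I 4 c) (h1 : Eff G I v b a) : False := by
  rcases h1 with z1 | ⟨z1, c1, y1, o1, x1, W1, k1, e1, f1, g1, ⟨p1, q1⟩ | ⟨p1, q1⟩ | ⟨p1, q1, r1, s1, t1⟩⟩
  · exact engine g (fun i => [v, a, b, c, d].getD i v) _ _ _ _ _ _ c14_ok
      ⟨F.va, F.vb, F.vc, F.vd, F.ab, F.bc, F.cd⟩
      F.nad ⟨F.ac, F.bd, F.ad⟩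
      ⟨hv, hb, hc, z1⟩ trivial
  · exact engine g (fun i => [v, a, b, c, d, c1, y1, o1, x1].getD i v) _ _ _ _ _ _ c1adj_ok
      ⟨F.va, F.vb, F.vc, F.vd, F.ab, F.bc, F.cd, W1.cz, W1.cy, W1.co, W1.cx, W1.zy, W1.yo, W1.ox, W1.xz⟩
      F.nad ⟨F.ac, F.bd, F.ad, W1.zo, W1.yx, e1, f1, g1⟩
      ⟨hv, hb, hc, z1, k1, p1, q1⟩ trivial
  · exact engine g (fun i => [v, a, b, c, d, c1, y1, o1, x1].getD i v) _ _ _ _ _ _ c1opp_ok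
      ⟨F.va, F.vb, F.vc, F.vd, F.ab, F.bc, F.cd, W1.cz, W1.cy, W1.co, W1.cx, W1.zy, W1.yo, W1.ox, W1.xz⟩
      F.nad ⟨F.ac, F.bd, F.ad, W1.zo, W1.yx, e1, f1, g1⟩
      ⟨hv, hb, hc, z1, k1, p1, q1⟩ trivial
  · exact engine g (fun i => [v, a, b, c, d, c1, y1, o1, x1].getD i v) _ _ _ _ _ _ c1B_ok
      ⟨F.va, F.vb, F.vc, F.vd, F.ab, F.bc, F.cd, W1.cz, W1.cy, W1.co, W1.cx, W1.zy, W1.yo, W1.ox, W1.xz⟩
      F.nad ⟨F.ac, F.bd, F.ad, W1.zo, W1.yx, e1, f1, g1⟩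
      ⟨hv, hb, hc, z1, k1, p1, q1, r1⟩ ⟨s1, t1⟩

lemma red2 (g : Glob G M I) {v a b c d : V} (F : Fan G v a b c d) (hv : Lo G I 4 v)
    (hb : Lo G I 5 b) (hc : Lo G I 4 c) (h1 : Eff G I v b a) (h2 : Eff G I v c d) : False := by
  rcases h1 with z1 | ⟨z1, c1, y1, o1, x1, W1, k1, e1, f1, g1, ⟨p1, q1⟩ | ⟨p1, q1⟩ | ⟨p1, q1, r1, s1, t1⟩⟩ <;>
  rcases h2 with z2 | ⟨z2, c2, y2, o2, x2, W2, k2, e2, f2, g2, ⟨p2, q2⟩ | ⟨p2, q2⟩ | ⟨p2, q2, r2, s2, t2⟩⟩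
  · exact engine g (fun i => [v, a, b, c, d].getD i v) _ _ _ _ _ _ c244_ok
      ⟨F.va, F.vb, F.vc, F.vd, F.ab, F.bc, F.cd⟩
      F.nad ⟨F.ac, F.bd, F.ad⟩
      ⟨hv, hb, hc, z1, z2⟩ trivial
  · exact engine g (fun i => [v, a, b, c, d, c2, y2, o2, x2].getD i v) _ _ _ _ _ _ c24adj_ok
      ⟨F.va, F.vb, F.vc, F.vd, F.ab, F.bc, F.cd, W2.cz, W2.cy, W2.co, W2.cx, W2.zy, W2.yo, W2.ox, W2.xz⟩
      F.nad ⟨F.ac, F.bd, F.ad, W2.zo, W2.yx, e2, f2, g2⟩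
      ⟨hv, hb, hc, z1, z2, k2, p2, q2⟩ trivial
  · exact engine g (fun i => [v, a, b, c, d, c2, y2, o2, x2].getD i v) _ _ _ _ _ _ c24opp_ok
      ⟨F.va, F.vb, F.vc, F.vd, F.ab, F.bc, F.cd, W2.cz, W2.cy, W2.co, W2.cx, W2.zy, W2.yo, W2.ox, W2.xz⟩
      F.nad ⟨F.ac, F.bd, F.ad, W2.zo, W2.yx, e2, f2, g2⟩
      ⟨hv, hb, hc, z1, z2, k2, p2, q2⟩ trivial
  · exact engine g (fun i => [v, a, b, c, d, c2, y2, o2, x2].getD i v) _ _ _ _ _ _ c24B_ok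
      ⟨F.va, F.vb, F.vc, F.vd, F.ab, F.bc, F.cd, W2.cz, W2.cy, W2.co, W2.cx, W2.zy, W2.yo, W2.ox, W2.xz⟩
      F.nad ⟨F.ac, F.bd, F.ad, W2.zo, W2.yx, e2, f2, g2⟩
      ⟨hv, hb, hc, z1, z2, k2, p2, q2, r2⟩ ⟨s2, t2⟩
  · exact engine g (fun i => [v, a, b, c, d, c1, y1, o1, x1].getD i v) _ _ _ _ _ _ c2adj4_ok
      ⟨F.va, F.vb, F.vc, F.vd, F.ab, F.bc, F.cd, W1.cz, W1.cy, W1.co, W1.cx, W1.zy, W1.yo, W1.ox, W1.xz⟩
      F.nad ⟨F.ac, F.bd, F.ad, W1.zo, W1.yx, e1, f1, g1⟩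
      ⟨hv, hb, hc, z1, k1, p1, q1, z2⟩ trivial
  · exact engine g (fun i => [v, a, b, c, d, c1, y1, o1, x1, c2, y2, o2, x2].getD i v) _ _ _ _ _ _ c2adjadj_ok
      ⟨F.va, F.vb, F.vc, F.vd, F.ab, F.bc, F.cd, W1.cz, W1.cy, W1.co, W1.cx, W1.zy, W1.yo, W1.ox, W1.xz, W2.cz, W2.cy, W2.co, W2.cx, W2.zy, W2.yo, W2.ox, W2.xz⟩
      F.nad ⟨F.ac, F.bd, F.ad, W1.zo, W1.yx, e1, f1, g1, W2.zo, W2.yx, e2, f2, g2⟩
      ⟨hv, hb, hc, z1, k1, p1, q1, z2, k2, p2, q2⟩ trivial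
  · exact engine g (fun i => [v, a, b, c, d, c1, y1, o1, x1, c2, y2, o2, x2].getD i v) _ _ _ _ _ _ c2adjopp_ok
      ⟨F.va, F.vb, F.vc, F.vd, F.ab, F.bc, F.cd, W1.cz, W1.cy, W1.co, W1.cx, W1.zy, W1.yo, W1.ox, W1.xz, W2.cz, W2.cy, W2.co, W2.cx, W2.zy, W2.yo, W2.ox, W2.xz⟩
      F.nad ⟨F.ac, F.bd, F.ad, W1.zo, W1.yx, e1, f1, g1, W2.zo, W2.yx, e2, f2, g2⟩
      ⟨hv, hb, hc, z1, k1, p1, q1, z2, k2, p2, q2⟩ trivial
  · exact engine g (fun i => [v, a, b, c, d, c1, y1, o1, x1, c2, y2, o2, x2].getD i v) _ _ _ _ _ _ c2adjB_ok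
      ⟨F.va, F.vb, F.vc, F.vd, F.ab, F.bc, F.cd, W1.cz, W1.cy, W1.co, W1.cx, W1.zy, W1.yo, W1.ox, W1.xz, W2.cz, W2.cy, W2.co, W2.cx, W2.zy, W2.yo, W2.ox, W2.xz⟩
      F.nad ⟨F.ac, F.bd, F.ad, W1.zo, W1.yx, e1, f1, g1, W2.zo, W2.yx, e2, f2, g2⟩
      ⟨hv, hb, hc, z1, k1, p1, q1, z2, k2, p2, q2, r2⟩ ⟨s2, t2⟩
  · exact engine g (fun i => [v, a, b, c, d, c1, y1, o1, x1].getD i v) _ _ _ _ _ _ c2opp4_ok
      ⟨F.va, F.vb, F.vc, F.vd, F.ab, F.bc, F.cd, W1.cz, W1.cy, W1.co, W1.cx, W1.zy, W1.yo, W1.ox, W1.xz⟩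
      F.nad ⟨F.ac, F.bd, F.ad, W1.zo, W1.yx, e1, f1, g1⟩
      ⟨hv, hb, hc, z1, k1, p1, q1, z2⟩ trivial
  · exact engine g (fun i => [v, a, b, c, d, c1, y1, o1, x1, c2, y2, o2, x2].getD i v) _ _ _ _ _ _ c2oppadj_ok
      ⟨F.va, F.vb, F.vc, F.vd, F.ab, F.bc, F.cd, W1.cz, W1.cy, W1.co, W1.cx, W1.zy, W1.yo, W1.ox, W1.xz, W2.cz, W2.cy, W2.co, W2.cx, W2.zy, W2.yo, W2.ox, W2.xz⟩
      F.nad ⟨F.ac, F.bd, F.ad, W1.zo, W1.yx, e1, f1, g1, W2.zo, W2.yx, e2, f2, g2⟩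
      ⟨hv, hb, hc, z1, k1, p1, q1, z2, k2, p2, q2⟩ trivial
  · exact engine g (fun i => [v, a, b, c, d, c1, y1, o1, x1, c2, y2, o2, x2].getD i v) _ _ _ _ _ _ c2oppopp_ok
      ⟨F.va, F.vb, F.vc, F.vd, F.ab, F.bc, F.cd, W1.cz, W1.cy, W1.co, W1.cx, W1.zy, W1.yo, W1.ox, W1.xz, W2.cz, W2.cy, W2.co, W2.cx, W2.zy, W2.yo, W2.ox, W2.xz⟩
      F.nad ⟨F.ac, F.bd, F.ad, W1.zo, W1.yx, e1, f1, g1, W2.zo, W2.yx, e2, f2, g2⟩
      ⟨hv, hb, hc, z1, k1, p1, q1, z2, k2, p2, q2⟩ trivial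
  · exact engine g (fun i => [v, a, b, c, d, c1, y1, o1, x1, c2, y2, o2, x2].getD i v) _ _ _ _ _ _ c2oppB_ok
      ⟨F.va, F.vb, F.vc, F.vd, F.ab, F.bc, F.cd, W1.cz, W1.cy, W1.co, W1.cx, W1.zy, W1.yo, W1.ox, W1.xz, W2.cz, W2.cy, W2.co, W2.cx, W2.zy, W2.yo, W2.ox, W2.xz⟩
      F.nad ⟨F.ac, F.bd, F.ad, W1.zo, W1.yx, e1, f1, g1, W2.zo, W2.yx, e2, f2, g2⟩
      ⟨hv, hb, hc, z1, k1, p1, q1, z2, k2, p2, q2, r2⟩ ⟨s2, t2⟩
  · exact engine g (fun i => [v, a, b, c, d, c1, y1, o1, x1].getD i v) _ _ _ _ _ _ c2B4_ok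
      ⟨F.va, F.vb, F.vc, F.vd, F.ab, F.bc, F.cd, W1.cz, W1.cy, W1.co, W1.cx, W1.zy, W1.yo, W1.ox, W1.xz⟩
      F.nad ⟨F.ac, F.bd, F.ad, W1.zo, W1.yx, e1, f1, g1⟩
      ⟨hv, hb, hc, z1, k1, p1, q1, r1, z2⟩ ⟨s1, t1⟩
  · exact engine g (fun i => [v, a, b, c, d, c1, y1, o1, x1, c2, y2, o2, x2].getD i v) _ _ _ _ _ _ c2Badj_ok
      ⟨F.va, F.vb, F.vc, F.vd, F.ab, F.bc, F.cd, W1.cz, W1.cy, W1.co, W1.cx, W1.zy, W1.yo, W1.ox, W1.xz, W2.cz, W2.cy, W2.co, W2.cx, W2.zy, W2.yo, W2.ox, W2.xz⟩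
      F.nad ⟨F.ac, F.bd, F.ad, W1.zo, W1.yx, e1, f1, g1, W2.zo, W2.yx, e2, f2, g2⟩
      ⟨hv, hb, hc, z1, k1, p1, q1, r1, z2, k2, p2, q2⟩ ⟨s1, t1⟩
  · exact engine g (fun i => [v, a, b, c, d, c1, y1, o1, x1, c2, y2, o2, x2].getD i v) _ _ _ _ _ _ c2Bopp_ok
      ⟨F.va, F.vb, F.vc, F.vd, F.ab, F.bc, F.cd, W1.cz, W1.cy, W1.co, W1.cx, W1.zy, W1.yo, W1.ox, W1.xz, W2.cz, W2.cy, W2.co, W2.cx, W2.zy, W2.yo, W2.ox, W2.xz⟩
      F.nad ⟨F.ac, F.bd, F.ad, W1.zo, W1.yx, e1, f1, g1, W2.zo, W2.yx, e2, f2, g2⟩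
      ⟨hv, hb, hc, z1, k1, p1, q1, r1, z2, k2, p2, q2⟩ ⟨s1, t1⟩
  · exact engine g (fun i => [v, a, b, c, d, c1, y1, o1, x1, c2, y2, o2, x2].getD i v) _ _ _ _ _ _ c2BB_ok
      ⟨F.va, F.vb, F.vc, F.vd, F.ab, F.bc, F.cd, W1.cz, W1.cy, W1.co, W1.cx, W1.zy, W1.yo, W1.ox, W1.xz, W2.cz, W2.cy, W2.co, W2.cx, W2.zy, W2.yo, W2.ox, W2.xz⟩
      F.nad ⟨F.ac, F.bd, F.ad, W1.zo, W1.yx, e1, f1, g1, W2.zo, W2.yx, e2, f2, g2⟩
      ⟨hv, hb, hc, z1, k1, p1, q1, r1, z2, k2, p2, q2, r2⟩ ⟨s1, t1, s2, t2⟩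

end Pool.Agent.P.MP_0e1fd4_co.On
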