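import Pool.Agent.P.MP_0e1fd4_co.OnD
import Pool.Agent.P.MP_0e1fd4_co.Main
import Pool.Agent.P.MP_0e1fd4_co.OnDefs

/-! The induction for the online game. -/

namespace Pool.Agent.P.MP_0e1fd4_co.On

open Finset SimpleGraph MP_5fbfb9_co

lemma Pt.congr {ι : Type} {R R' : ι → ι → Prop} {n : ℕ} : ∀ {S : Finset ι} {t : ι → ℕ},
    (∀ u ∈ S, ∀ v ∈ S, R u v → R' u v) → Pt R' n S t → Pt R n S t := by
  induction n with
  | zero => exact fun _ h => h
  | succ n ih =>
    intro S t hR h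
    refine ⟨h.1, fun M L hM hL => ?_⟩
    obtain ⟨c, r, p⟩ := h.2 M L hM hL
    exact ⟨c, ⟨r.1, fun u hu v hv a b uv => r.2 u hu v hv a b (hR u hu v hv uv)⟩,
      ih (fun u hu v hv => hR u (mem_rem.1 hu).1 v (mem_rem.1 hv).1) p⟩

variable {V : Type} [DecidableEq V] [Fintype V]

open Classical in
/-- the painter survives outside any small clique, whose vertices are coloured by an adversary -/
def Ext (n : ℕ) (G : SimpleGraph V) (A : Finset V) : Prop :=
  ∀ K ⊆ A, G.IsClique (K : Set V) → #K ≤ 3 →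
    Pt G.Adj n (A \ K) fun v => 4 - #(K.filter (G.Adj v))

theorem ext (n : ℕ) (A : Finset V) :
    ∀ G : SimpleGraph V, Supp G A → Pl G → (∀ a b c d e f, G.Adj a b → G.Adj b c → G.Adj c d →
      G.Adj d e → G.Adj e f → G.Adj f a → [a, b, c, d, e, f].Pairwise (· ≠ ·) → ¬ G.Adj a c ∧
      ¬ G.Adj a d) → Ext n G A := by
  classical
  let M : V → Unit → V → Unit → Prop := fun _ _ _ _ => False
  have hM : Mat M := ⟨fun _ _ _ _ h => h, fun _ _ _ _ _ _ _ => rfl⟩
  induction A using Finset.strongInduction with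
  | H A ih =>
  intro G hA hP h6 K KA hK h3
  have sub : ∀ B ⊂ A, Ext n G B := by
    intro B hB K KB hK h3
    have q := ih B hB (res G B) (fun _ _ h => h.2.1) (hP.mono fun _ _ h => h.1)
      (fun a b c d e f h1 h2 h3 h4 h5 h6' h7 =>
        (h6 a b c d e f h1.1 h2.1 h3.1 h4.1 h5.1 h6'.1 h7).imp (mt fun h => h.1) (mt fun h => h.1))
      K KB (fun x hx y hy xy => ⟨hK hx hy xy, KB hx, KB hy⟩) h3
    refine Pt.congr (fun u hu v hv h => ⟨h, (mem_sdiff.1 hu).1, (mem_sdiff.1 hv).1⟩)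
      (q.mono fun v hv => Nat.sub_le_sub_left (card_le_card fun w hw => ?_) _)
    rw [mem_filter] at hw ⊢
    exact ⟨hw.1, hw.2, (mem_sdiff.1 hv).1, KB hw.1⟩
  by_contra no
  have join : ∀ (X : Finset V) (s : V → ℕ), X.Nonempty → (∀ v ∈ X, v ∈ A ∧ v ∉ K) →
      Pt G.Adj n X s → (∀ v ∈ X, s v + #((A \ X).filter (G.Adj v)) ≤ 4) → False := by
    intro X s hX XA p q
    have q1 := sub (A \ X) (sdiff_ssubset (fun v hv => (XA v hv).1) hX) K
      (fun v hv => mem_sdiff.2 ⟨KA hv, fun h => (XA v h).2 hv⟩) hK h3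
    refine no ?_
    rw [show A \ K = (A \ X) \ K ∪ X by
      ext v
      simp only [mem_union, mem_sdiff]
      have := XA v
      tauto]
    refine Pt.join (fun _ _ h => h.symm)
      (disjoint_left.2 fun v a b => (mem_sdiff.1 (mem_sdiff.1 a).1).2 b) q1 p fun v hv => ?_
    have e1 := q v hv
    have e2 : #(((A \ X) \ K).filter (G.Adj v)) + #(K.filter (G.Adj v)) ≤
        #((A \ X).filter (G.Adj v)) := by
      rw [← card_union_of_disjoint (disjoint_left.2 fun w a b =>
        (mem_sdiff.1 (mem_filter.1 a).1).2 (mem_filter.1 b).1)]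
      refine card_le_card fun w hw => ?_
      simp only [mem_union, mem_filter, mem_sdiff] at hw ⊢
      rcases hw with h | h
      exacts [⟨h.1.1, h.2⟩, ⟨⟨KA h.1, fun k => (XA w k).2 h.1⟩, h.2⟩]
    omega
  have hmin : ∀ X : Finset V, X.Nonempty → (∀ v ∈ X, v ∈ A ∧ v ∉ K) →
      ¬ Red G.Adj M X fun v => 4 - dg G v := by
    intro X hX XA hR
    have p := hR n (fun v => ((4 : ℤ) - dg G v + #(X.filter (G.Adj v))).toNat)
      fun v _ => by convert Int.self_le_toNat _
    refine join X _ hX XA p fun v hv => ?_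
    have e0 := p.pos v hv
    have e2 : #((A \ X).filter (G.Adj v)) + #(X.filter (G.Adj v)) ≤ dg G v := by
      rw [← card_union_of_disjoint (disjoint_left.2 fun w a b =>
        (mem_sdiff.1 (mem_filter.1 a).1).2 (mem_filter.1 b).1)]
      refine card_le_card fun w hw => ?_
      simp only [mem_union, mem_filter, mem_nb] at hw ⊢
      tauto
    omega
  have glue : ∀ S D E : Finset V, G.IsClique (S : Set V) → #S ≤ 3 → D ⊆ A → E ⊆ A → D.Nonempty →
      E.Nonempty → (∀ v ∈ A, v ∉ D → v ∉ E → v ∈ S) → (∀ v ∈ D, v ∉ E) → (∀ v ∈ D, v ∉ S) →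
      (∀ v ∈ E, v ∉ S) → (∀ u ∈ D, ∀ w ∈ E, ¬ G.Adj u w) → (∀ v ∈ K, v ∉ D) → False := by
    intro S D E hS S3 DA EA hD hE cov DE DS ES nad KD
    have q := sub (A \ E) (sdiff_ssubset EA hE) (S ∩ A)
      (fun v hv => mem_sdiff.2 ⟨(mem_inter.1 hv).2, fun h => ES v h (mem_inter.1 hv).1⟩)
      (hS.subset (by simp)) ((card_le_card inter_subset_left).trans S3)
    rw [show (A \ E) \ (S ∩ A) = D by
      ext v
      simp only [mem_sdiff, mem_inter]
      have := cov v
      have := DE v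
      have := DS v
      have := @DA v
      tauto] at q
    refine join D _ hD (fun v hv => ⟨DA hv, fun k => KD v k hv⟩) q fun v hv => ?_
    have e0 := q.pos v hv
    have e2 : #((A \ D).filter (G.Adj v)) ≤ #((S ∩ A).filter (G.Adj v)) := by
      refine card_le_card fun w hw => ?_
      simp only [mem_filter, mem_sdiff, mem_inter] at hw ⊢
      exact ⟨⟨cov w hw.1.1 hw.1.2 fun e => nad v hv w e hw.2, hw.1.1⟩, hw.2⟩
    omega
  refine core ⟨hA, fun S hS S3 p hp q hq pS qS => ?_, KA, hK, h3, fun v hv vK => ?_, ?_, h6⟩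
    hP hM hmin
  · by_contra pq
    let D := A.filter fun v => v ∉ S ∧ Rch G S p v
    let E := A.filter fun v => v ∉ S ∧ ¬ Rch G S p v
    have nad : ∀ u ∈ D, ∀ w ∈ E, ¬ G.Adj u w := fun u hu w hw h => by
      simp only [D, E, mem_filter] at hu hw
      exact hw.2.2 (hu.2.2.tail ⟨h, hu.2.1, hw.2.1⟩)
    have hD : D.Nonempty := ⟨p, mem_filter.2 ⟨hp, pS, Relation.ReflTransGen.refl⟩⟩
    have hE : E.Nonempty := ⟨q, mem_filter.2 ⟨hq, qS, pq⟩⟩
    have cov : ∀ v ∈ A, v ∉ D → v ∉ E → v ∈ S := fun v hv a b => by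
      simp only [D, E, mem_filter] at a b
      tauto
    have DE : ∀ v ∈ D, v ∉ E := fun v a b => (mem_filter.1 b).2.2 (mem_filter.1 a).2.2
    have DS : ∀ v ∈ D, v ∉ S := fun v a => (mem_filter.1 a).2.1
    have ES : ∀ v ∈ E, v ∉ S := fun v a => (mem_filter.1 a).2.1
    by_cases e : ∀ v ∈ K, v ∉ D
    · exact glue S D E hS S3 (filter_subset _ _) (filter_subset _ _) hD hE cov DE DS ES nad e
    · push Not at e
      obtain ⟨v, vK, vD⟩ := e
      exact glue S E D hS S3 (filter_subset _ _) (filter_subset _ _) hE hD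
        (fun v hv a b => cov v hv b a) (fun v a b => DE v b a) ES DS
        (fun u hu w hw h => nad w hw u hu h.symm) fun w wK wE =>
          nad v vD w wE (hK vK wK (by rintro rfl; exact DE _ vD wE))
  · by_contra hd
    refine hmin {v} (by simp) (by simp [hv, vK]) (Red.col hM (fun _ _ h => h.symm)
      (fun _ => G.irrefl) (mem_singleton_self v) (by omega) ?_)
    rw [erase_singleton]
    exact Red.empty
  · by_contra hc
    push Not at hc
    refine no ?_
    rw [sdiff_eq_empty_iff_subset.2 hc]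
    exact Pt.empty

omit [DecidableEq V] [Fintype V] in
lemma survives_of {G : SimpleGraph V} {n : ℕ} : ∀ {S : Finset V} {t : V → ℕ},
    Pt G.Adj n S t → Survives G n (S : Set V) t := by
  classical
  induction n with
  | zero => exact fun h v hv => h v hv
  | succ n ih =>
    intro S t h
    refine ⟨fun v hv => h.1 v hv, fun H L h1 h2 hL => ?_⟩
    obtain ⟨c, r, p⟩ := h.2 (fun u a w b => H.Adj (u, a) (w, b)) L
      ⟨fun _ _ _ _ h => h.symm, fun u a w b b' h h' => (Prod.ext_iff.1 (h2 _ _ _ h h' rfl)).2⟩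
      fun v hv => hL v hv
    refine ⟨fun v => if v ∈ S then c v else none, fun v a e => ?_, fun u a v b e1 e2 m => ?_, ?_⟩
    · by_cases k : v ∈ S
      · exact ⟨k, r.1 v k a (by simpa [k] using e)⟩
      · simp [k] at e
    · by_cases k : u ∈ S
      · by_cases l : v ∈ S
        · exact r.2 u k v l a b (h1 _ _ m) (by simpa [k] using e1) (by simpa [l] using e2) m
        · simp [l] at e2
      · simp [k] at e1
    · convert ih p using 1
      ext v
      by_cases k : v ∈ S <;> simp [k]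

theorem main {V : Type} [Fintype V] (G : SimpleGraph V) (hp : Planar G)
    (h6 : ∀ (v : V) (c : G.Walk v v), c.IsCycle → c.length = 6 →
      ∀ x ∈ c.support, ∀ y ∈ c.support, G.Adj x y → s(x, y) ∈ c.edges) (K : Set V)
    (hK : G.IsClique K) (h3 : K.ncard ≤ 3) (n : ℕ) :
    Survives G n Kᶜ fun v => 4 - (G.neighborSet v ∩ K).ncard := by
  classical
  lift K to Finset V using Set.toFinite K
  have := survives_of (ext n univ G (fun _ _ _ => mem_univ _) (pl_of_planar hp) (noC6_of h6) K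
    (subset_univ _) hK (by simpa using h3))
  convert this using 1
  · ext v
    simp
  · funext v
    rw [← Set.ncard_coe_finset]
    congr 2
    ext w
    simp [and_comm]

omit [DecidableEq V] [Fintype V] in
lemma Survives.pred {G : SimpleGraph V} {n : ℕ} : ∀ {S : Set V} {t : V → ℕ},
    Survives G (n + 1) S t → Survives G n S t := by
  induction n with
  | zero => exact fun h => h.1
  | succ n ih =>
    intro S t h
    refine ⟨h.1, fun H L h1 h2 hL => ?_⟩
    obtain ⟨c, c1, c2, c3⟩ := h.2 H L h1 h2 hL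
    exact ⟨c, c1, c2, ih c3⟩

omit [DecidableEq V] [Fintype V] in
lemma Survives.anti {G : SimpleGraph V} {m n : ℕ} (h : m ≤ n) {S : Set V} {t : V → ℕ}
    (k : Survives G n S t) : Survives G m S t := by
  induction n, h using Nat.le_induction with
  | base => exact k
  | succ n _ ih => exact ih k.pred

/-- `W` is a set of positions from which the painter can always move back into `W` -/
def Safe {V : Type} (G : SimpleGraph V) (W : Set V → (V → ℕ) → Prop) : Prop :=
  ∀ S t, W S t → (∀ v ∈ S, 1 ≤ t v) ∧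
    ∀ (H : SimpleGraph (V × ℕ)) (L : V → Finset ℕ),
      (∀ x y, H.Adj x y → G.Adj x.1 y.1) →
      (∀ x y y', H.Adj x y → H.Adj x y' → y.1 = y'.1 → y = y') →
      (∀ v ∈ S, (L v).card ≤ t v) →
      ∃ c : V → Option ℕ, (∀ v a, c v = some a → v ∈ S ∧ a ∈ L v) ∧
        (∀ u a v b, c u = some a → c v = some b → ¬ H.Adj (u, a) (v, b)) ∧
        W {v ∈ S | c v = none} fun v => t v - (L v).card

theorem safe_all {V : Type} [Fintype V] (G : SimpleGraph V) :
    Safe G fun S t => ∀ n, Survives G n S t := by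
  classical
  intro S t h
  refine ⟨h 0, fun H L h1 h2 hL => ?_⟩
  by_contra no
  have : ∀ c : V → Option ℕ, ∃ n, (∀ v a, c v = some a → v ∈ S ∧ a ∈ L v) →
      (∀ u a v b, c u = some a → c v = some b → ¬ H.Adj (u, a) (v, b)) →
      ¬ Survives G n {v ∈ S | c v = none} fun v => t v - (L v).card := fun c => by
    by_contra k
    push Not at k
    exact no ⟨c, (k 0).1, (k 0).2.1, fun n => (k n).2.2⟩
  choose N hN using this
  obtain ⟨c, c1, c2, c3⟩ :=
    (h ((Fintype.piFinset fun v => insertNone (L v)).sup N + 1)).2 H L h1 h2 hL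
  refine hN c c1 c2 (c3.anti (le_sup (f := N) (Fintype.mem_piFinset.2 fun v => ?_)))
  rw [mem_insertNone]
  exact fun a e => (c1 v a e).2

omit [DecidableEq V] [Fintype V] in
lemma Safe.survives {G : SimpleGraph V} {W : Set V → (V → ℕ) → Prop} (h : Safe G W) (n : ℕ) :
    ∀ {S : Set V} {t : V → ℕ}, W S t → Survives G n S t := by
  induction n with
  | zero => exact fun k => (h _ _ k).1
  | succ n ih =>
    intro S t k
    refine ⟨(h _ _ k).1, fun H L h1 h2 hL => ?_⟩
    obtain ⟨c, c1, c2, c3⟩ := (h _ _ k).2 H L h1 h2 hL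
    exact ⟨c, c1, c2, ih c3⟩

theorem one_round {V : Type} {G : SimpleGraph V} (h : Survives G 1 Set.univ fun _ => 4)
    (s : ℕ) (H : SimpleGraph (V × Fin s)) (h1 : ∀ x y, H.Adj x y → G.Adj x.1 y.1)
    (h2 : ∀ x y y', H.Adj x y → H.Adj x y' → y.1 = y'.1 → y = y') (f : V × Fin s → ℕ)
    (f1 : ∀ x, f x = 0 ∨ f x = 1) (f2 : ∀ v, 4 ≤ ∑ i, f (v, i)) :
    ∃ T : V → Fin s, (∀ v, f (v, T v) = 1) ∧ ∀ u v, ¬ H.Adj (u, T u) (v, T v) := by
  classical
  let e : V × Fin s ↪ V × ℕ := ⟨fun x => (x.1, x.2), fun x y h => by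
    simp only [Prod.mk.injEq] at h
    exact Prod.ext h.1 (Fin.ext h.2)⟩
  have : ∀ v, ∃ A : Finset ℕ, A ⊆ (univ.filter fun i => f (v, i) = 1).map Fin.valEmbedding ∧
      #A = 4 := fun v => exists_subset_card_eq (by
    rw [card_map, card_filter]
    refine (f2 v).trans (sum_le_sum fun i _ => ?_)
    rcases f1 (v, i) with h | h <;> simp [h])
  choose L L1 L2 using this
  obtain ⟨c, c1, c2, c3⟩ := h.2 (H.map e) L (fun x y m => by
      obtain ⟨a, b, m0, rfl, rfl⟩ := (SimpleGraph.map_adj _ _ _ _).1 m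
      exact h1 _ _ m0) (fun x y y' m m' k => by
      obtain ⟨a, b, m0, rfl, rfl⟩ := (SimpleGraph.map_adj _ _ _ _).1 m
      obtain ⟨a', b', m1, k', rfl⟩ := (SimpleGraph.map_adj _ _ _ _).1 m'
      obtain rfl := e.injective k'
      rw [h2 _ _ _ m0 m1 k]) fun v _ => (L2 v).le
  have : ∀ v, ∃ i : Fin s, c v = some (i : ℕ) ∧ f (v, i) = 1 := fun v => by
    rcases k : c v with _ | a
    · have := c3 v ⟨trivial, k⟩
      simp [L2] at this
    · obtain ⟨i, i1, rfl⟩ := mem_map.1 (L1 v (c1 v a k).2)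
      exact ⟨i, rfl, (mem_filter.1 i1).2⟩
  choose T T1 T2 using this
  exact ⟨T, T2, fun u v m => c2 u _ v _ (T1 u) (T1 v)
    ((SimpleGraph.map_adj _ _ _ _).2 ⟨_, _, m, rfl, rfl⟩)⟩

theorem not_k5 : ¬ Survives (⊤ : SimpleGraph (Fin 5)) 1 Set.univ fun _ => 4 := by
  intro h
  obtain ⟨T, -, h2⟩ := one_round h 4
    ⟨fun x y => x.1 ≠ y.1 ∧ x.2 = y.2, ⟨fun _ _ h => ⟨h.1.symm, h.2.symm⟩⟩, ⟨fun _ h => h.1 rfl⟩⟩
    (fun _ _ h => h.1) (fun _ _ _ h h' k => Prod.ext k (h.2.symm.trans h'.2)) (fun _ => 1)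
    (fun _ => Or.inr rfl) (fun _ => by simp)
  obtain ⟨u, v, k1, k2⟩ := Fintype.exists_ne_map_eq_of_card_lt T (by simp)
  exact h2 u v ⟨k1, k2⟩

end Pool.Agent.P.MP_0e1fd4_co.On
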