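import Pool.Agent.P.MP_0e1fd4_co.OnB

/-! Reducibility in the online game. The argument `M` is not used; it keeps the shape of the
offline files. -/

namespace Pool.Agent.P.MP_0e1fd4_co.On

open Finset
open scoped Classical

variable {ι C : Type}

/-- The painter survives on `S` whenever the tokens exceed the degree inside `S` by `σ`. -/
def Red (R : ι → ι → Prop) (_M : ι → C → ι → C → Prop) (S : Finset ι) (σ : ι → ℤ) : Prop :=
  ∀ (n : ℕ) (t : ι → ℕ), (∀ i ∈ S, σ i + #(S.filter (R i)) ≤ (t i : ℕ)) → Pt R n S t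

variable {R : ι → ι → Prop} {M : ι → C → ι → C → Prop} {S : Finset ι} {σ : ι → ℤ}

lemma Red.empty : Red R M ∅ σ := fun _ _ _ => Pt.empty

lemma Red.mono {σ' : ι → ℤ} (h : Red R M S σ) (hσ : ∀ i ∈ S, σ i ≤ σ' i) : Red R M S σ' :=
  fun n t hL => h n t fun i hi => by linarith [hL i hi, hσ i hi]

variable [DecidableEq ι]

lemma colour (hs : ∀ i j, R i j → R j i) (hi : ∀ i, ¬ R i i) {u : ι} (hu : u ∈ S) {σ' : ι → ℤ}
    (h : Red R M (S.erase u) σ') {n : ℕ} {t : ι → ℕ} (h1 : 1 ≤ t u)
    (hL : ∀ i ∈ S.erase u, σ' i + #(S.filter (R i)) ≤ (t i : ℕ)) : Pt R n S t := by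
  have key : ∀ i ∈ S.erase u, σ' i + #((S.erase u).filter (R i)) + ind (R i u) ≤ (t i : ℕ) :=
    fun i hi => by
      have := hL i hi
      have := card_erase_filter (R := R) hu i
      unfold ind
      split_ifs at * <;> omega
  have p := h n (fun i => (σ' i + #((S.erase u).filter (R i))).toNat) fun i _ => Int.self_le_toNat _
  rw [← insert_erase hu]
  refine Pt.first hs hi (notMem_erase u S) h1 p fun v hv => ?_
  have := key v hv
  have := p.pos v hv
  omega

lemma Red.col (_hM : Mat M) (hs : ∀ i j, R i j → R j i) (hi : ∀ i, ¬ R i i) {u : ι} (hu : u ∈ S)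
    (h1 : 1 ≤ σ u + #(S.filter (R u))) (h : Red R M (S.erase u) σ) : Red R M S σ :=
  fun _ _ hL => colour hs hi hu h (by have := hL u hu; omega) fun i hi => hL i (mem_erase.1 hi).2

lemma Red.save (_hM : Mat M) (hs : ∀ i j, R i j → R j i) (hi : ∀ i, ¬ R i i) {u w : ι}
    (hu : u ∈ S) (hw : w ∈ S) (uw : R u w) (_h1 : 1 ≤ σ u + #(S.filter (R u)))
    (h2 : σ w + #(S.filter (R w)) < σ u + #(S.filter (R u)))
    (h : Red R M (S.erase u) fun k => if k = w then σ k + 1 else σ k) : Red R M S σ := by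
  intro n t hL
  have wu : w ≠ u := fun e => hi u (e ▸ uw)
  have hw' : w ∈ S.erase u := mem_erase.2 ⟨wu, hw⟩
  by_cases big : σ w + 1 + #(S.filter (R w)) ≤ (t w : ℕ)
  · refine colour hs hi hu h (by have := hL u hu; omega) fun i hi => ?_
    split_ifs with e
    · rw [e]; exact big
    · exact hL i (mem_erase.1 hi).2
  have p := h n (fun i => ((if i = w then σ i + 1 else σ i) + #((S.erase u).filter (R i))).toNat)
    fun i _ => Int.self_le_toNat _
  rw [← insert_erase hu]
  refine Pt.save hs hi (notMem_erase u S) hw' (by have := hL u hu; omega) p ?_ fun v hv e => ?_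
  · have := hL w hw
    have := card_erase_filter (R := R) hu w
    simp only [hs _ _ uw, if_true] at *
    omega
  · have := hL v (mem_erase.1 hv).2
    have := card_erase_filter (R := R) hu v
    have := p.pos v hv
    unfold ind
    simp only [e, if_false] at *
    split_ifs at * <;> omega

lemma Red.absorb (_hM : Mat M) (hs : ∀ i j, R i j → R j i) (hi : ∀ i, ¬ R i i) {z c y o x : ι}
    (hz : z ∈ S) (hc : c ∈ S) (hy : y ∈ S) (ho : o ∈ S) (hx : x ∈ S)
    (nd : [z, c, y, o, x].Nodup) (zc : R z c) (zy : R z y) (zx : R z x)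
    (zo : ¬ R z o) (yx : ¬ R y x)
    (cl : ∀ k ∈ S, k ∉ [z, c, y, o, x] → ¬ R c k ∧ ¬ R y k ∧ ¬ R o k ∧ ¬ R x k)
    (bc : 4 ≤ σ c + #(S.filter (R c))) (by' : 2 ≤ σ y + #(S.filter (R y)))
    (bo : 3 ≤ σ o + #(S.filter (R o))) (bx : 2 ≤ σ x + #(S.filter (R x)))
    (h : Red R M ((((S.erase c).erase y).erase o).erase x)
      fun k => if k = z then σ k + 1 else σ k) : Red R M S σ := by
  intro n t hL
  have nd' := nd
  simp only [List.nodup_cons, List.mem_cons, List.not_mem_nil, or_false, not_or,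
    not_false_eq_true, List.nodup_nil, and_true] at nd
  obtain ⟨⟨n1, n2, n3, n4⟩, ⟨n5, n6, n7⟩, ⟨n8, n9⟩, n10⟩ := nd
  have m1 : y ∈ S.erase c := mem_erase.2 ⟨Ne.symm n5, hy⟩
  have m2 : o ∈ (S.erase c).erase y := mem_erase.2 ⟨Ne.symm n8, mem_erase.2 ⟨Ne.symm n6, ho⟩⟩
  have m3 : x ∈ ((S.erase c).erase y).erase o :=
    mem_erase.2 ⟨Ne.symm n10, mem_erase.2 ⟨Ne.symm n9, mem_erase.2 ⟨Ne.symm n7, hx⟩⟩⟩
  have p := h n (fun i => ((if i = z then σ i + 1 else σ i) +
    #(((((S.erase c).erase y).erase o).erase x).filter (R i))).toNat) fun i _ => Int.self_le_toNat _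
  have e : S = (((S.erase c).erase y).erase o).erase x ∪ {c, y, o, x} := by
    ext v
    simp only [mem_union, mem_erase, mem_insert, mem_singleton]
    constructor
    · tauto
    · rintro (h | rfl | rfl | rfl | rfl)
      exacts [h.2.2.2.2, hc, hy, ho, hx]
  rw [e]
  refine Pt.absorb hs hi ⟨nd', zo, yx, fun v hv => ?_, fun k hk e => ?_⟩ p (fun i hi => ?_)
    (by have := hL c hc; omega) (by have := hL y hy; omega) (by have := hL o ho; omega)
    (by have := hL x hx; omega)
  · simp only [mem_erase, mem_insert, mem_singleton] at hv ⊢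
    tauto
  · simp only [mem_erase] at hk
    exact cl k hk.2.2.2.2 (by simp [e, hk.1, hk.2.1, hk.2.2.1, hk.2.2.2.1])
  · have e0 := p.pos i hi
    have e1 := card_erase_filter (R := R) hc i
    have e2 := card_erase_filter (R := R) m1 i
    have e3 := card_erase_filter (R := R) m2 i
    have e4 := card_erase_filter (R := R) m3 i
    have e5 := hL i (mem_of_mem_erase (mem_of_mem_erase (mem_of_mem_erase (mem_of_mem_erase hi))))
    by_cases e : i = z
    · subst e
      simp only [zc, zy, zx, zo, if_true, if_false] at *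
      omega
    · simp only [e, if_false] at e0 ⊢
      split_ifs at e1 e2 e3 e4 <;> omega

omit [DecidableEq ι] in
lemma Pt.image [Nonempty ι] {V : Type} [DecidableEq V] {G : V → V → Prop} (φ : ι → V) {n : ℕ} :
    ∀ {S : Finset ι} {t : V → ℕ}, Set.InjOn φ S →
      Pt (fun i j => G (φ i) (φ j)) n S (fun i => t (φ i)) → Pt G n (S.image φ) t := by
  have pos : ∀ {n} {S : Finset ι} {t : V → ℕ},
      Pt (fun i j => G (φ i) (φ j)) n S (fun i => t (φ i)) → ∀ v ∈ S.image φ, 1 ≤ t v :=
    fun h v hv => by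
      obtain ⟨i, hi, rfl⟩ := mem_image.1 hv
      exact h.pos i hi
  induction n with
  | zero => exact fun _ h => pos h
  | succ n ih =>
    intro S t hφ h
    refine ⟨pos h, fun N L hN _ => ?_⟩
    obtain ⟨c, r, p⟩ := h.round (M := fun i a j b => N (φ i) a (φ j) b)
      ⟨fun _ _ _ _ => hN.symm _ _ _ _, fun _ _ _ _ _ => hN.uniq _ _ _ _ _⟩ fun i => L (φ i)
    have inv : ∀ i ∈ S, Function.invFunOn φ S (φ i) = i := fun i hi =>
      hφ.leftInvOn_invFunOn hi
    refine ⟨fun v => c (Function.invFunOn φ S v), ⟨fun v hv a e => ?_,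
      fun u hu v hv a b uv e1 e2 => ?_⟩, ?_⟩
    · obtain ⟨i, hi, rfl⟩ := mem_image.1 hv
      exact r.1 i hi a (by simpa only [inv i hi] using e)
    · obtain ⟨i, hi, rfl⟩ := mem_image.1 hu
      obtain ⟨j, hj, rfl⟩ := mem_image.1 hv
      exact r.2 i hi j hj a b uv (by simpa only [inv i hi] using e1)
        (by simpa only [inv j hj] using e2)
    · rw [show rem (S.image φ) (fun v => c (Function.invFunOn φ S v)) = (rem S c).image φ by
        ext v
        simp only [mem_rem, mem_image]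
        constructor
        · rintro ⟨⟨i, hi, rfl⟩, e⟩
          exact ⟨i, ⟨hi, by simpa only [inv i hi] using e⟩, rfl⟩
        · rintro ⟨i, ⟨hi, e⟩, rfl⟩
          exact ⟨⟨i, hi, rfl⟩, by simpa only [inv i hi] using e⟩]
      exact ih (t := fun v => t v - #(L v)) (hφ.mono fun i hi => (mem_rem.1 hi).1) p

omit [DecidableEq ι] in
lemma Red.image [Nonempty ι] {V : Type} [DecidableEq V] {G : V → V → Prop}
    {N : V → C → V → C → Prop} (φ : ι → V) (hφ : Set.InjOn φ S) {τ : V → ℤ}
    (h : Red (fun i j => G (φ i) (φ j)) (fun i a j b => N (φ i) a (φ j) b) S fun i => τ (φ i)) :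
    Red G N (S.image φ) τ := by
  intro n t hL
  refine Pt.image φ hφ (h n _ fun i hi => ?_)
  have := hL (φ i) (mem_image_of_mem φ hi)
  rw [filter_image, card_image_of_injOn (hφ.mono (by simp [Set.subset_def]; tauto))] at this
  exact this

end Pool.Agent.P.MP_0e1fd4_co.On
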