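import Pool.Agent.P.MP_0e1fd4_co.OnA

/-! One round on the wheel: a vertex takes a colour or waits. -/

namespace Pool.Agent.P.MP_0e1fd4_co.On

open Finset
open scoped Classical

variable {ι : Type} {M : ι → ℕ → ι → ℕ → Prop}

/-- waiting conflicts with waiting, colours conflict as in `M` -/
def Mo (M : ι → ℕ → ι → ℕ → Prop) (u : ι) (a : Option ℕ) (v : ι) (b : Option ℕ) : Prop :=
  (a = none ∧ b = none) ∨ ∃ a' b', a = some a' ∧ b = some b' ∧ M u a' v b'

lemma Mo.mat (hM : Mat M) : Mat (Mo M) := by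
  constructor
  · rintro u a w b (⟨h1, h2⟩ | ⟨a', b', h1, h2, h3⟩)
    exacts [Or.inl ⟨h2, h1⟩, Or.inr ⟨b', a', h2, h1, hM.symm _ _ _ _ h3⟩]
  · rintro u a w b b' (⟨h1, h2⟩ | ⟨a', c, h1, h2, h3⟩) (⟨h4, h5⟩ | ⟨a'', c', h4, h5, h6⟩)
    · rw [h2, h5]
    · simp [h1] at h4
    · simp [h1] at h4
    · obtain rfl : a' = a'' := by simpa [h1] using h4
      rw [h2, h5, hM.uniq _ _ _ _ _ h3 h6]

lemma ind_and (p : Prop) (x y : ℕ) : ind (p ∧ x ≤ y) = if x ≤ y then ind p else 0 := by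
  by_cases h : x ≤ y <;> simp [h, ind]

lemma ind_le (p : Prop) : ind p ≤ 1 := by
  unfold ind
  split_ifs <;> omega

lemma ind_sn (u v : ι) (a : ℕ) : ind (Mo M u (some a) v none) = 0 := ind_false (by simp [Mo])

lemma ind_ns (u v : ι) (a : ℕ) : ind (Mo M u none v (some a)) = 0 := ind_false (by simp [Mo])

lemma gr {C : Type} {U : Finset C} {h : C → ℕ} (p q s : Prop) {P Q S : C → Prop}
    (hP : ∀ b b', P b → P b' → b = b') (hQ : ∀ b b', Q b → Q b' → b = b')
    (hS : ∀ b b', S b → S b' → b = b') (hh : ind p + ind q + ind s < ∑ a ∈ U, h a) :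
    ∃ b ∈ U, ind (p ∧ P b) + ind (q ∧ Q b) + ind (s ∧ S b) < h b := by
  have e1 := lose U h p hP
  have e2 := lose U (fun b => h b - ind (p ∧ P b)) q hQ
  have e3 := lose U (fun b => h b - ind (p ∧ P b) - ind (q ∧ Q b)) s hS
  obtain ⟨b, h1, h2⟩ := exists_ne_zero_of_sum_ne_zero
    (show ∑ b ∈ U, (h b - ind (p ∧ P b) - ind (q ∧ Q b) - ind (s ∧ S b)) ≠ 0 by omega)
  exact ⟨b, h1, by omega⟩

lemma gr3 {C : Type} {U : Finset C} {h : C → ℕ} {P Q S : C → Prop}
    (hP : ∀ b b', P b → P b' → b = b') (hQ : ∀ b b', Q b → Q b' → b = b')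
    (hS : ∀ b b', S b → S b' → b = b') (hh : 4 ≤ ∑ a ∈ U, h a) :
    ∃ b ∈ U, ind (P b) + ind (Q b) + ind (S b) < h b := by
  simpa using gr True True True hP hQ hS (h := h) (U := U) (by simp only [ind, if_true]; omega)

lemma gr2 {C : Type} {U : Finset C} {h : C → ℕ} {P Q : C → Prop}
    (hP : ∀ b b', P b → P b' → b = b') (hQ : ∀ b b', Q b → Q b' → b = b')
    (hh : 3 ≤ ∑ a ∈ U, h a) : ∃ b ∈ U, ind (P b) + ind (Q b) < h b := by
  simpa [ind_false] using gr True True False hP hQ hQ (h := h) (U := U)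
    (by simp only [ind, if_true, if_false]; omega)

lemma gr1 {C : Type} {U : Finset C} {h : C → ℕ} {P : C → Prop}
    (hP : ∀ b b', P b → P b' → b = b') (hh : 2 ≤ ∑ a ∈ U, h a) : ∃ b ∈ U, ind (P b) < h b := by
  simpa [ind_false] using gr True False False hP hP hP (h := h) (U := U)
    (by simp only [ind, if_true, if_false]; omega)

lemma ind8 (M : ι → ℕ → ι → ℕ → Prop) (z c y o x : ι) (a k b d e : Option ℕ) :
    ind (Mo M c k z a) ≤ 1 ∧ ind (Mo M z a y b) ≤ 1 ∧ ind (Mo M x e z a) ≤ 1 ∧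
    ind (Mo M c k y b) ≤ 1 ∧ ind (Mo M c k o d) ≤ 1 ∧ ind (Mo M c k x e) ≤ 1 ∧
    ind (Mo M y b o d) ≤ 1 ∧ ind (Mo M o d x e) ≤ 1 :=
  ⟨ind_le _, ind_le _, ind_le _, ind_le _, ind_le _, ind_le _, ind_le _, ind_le _⟩

lemma wheel3 (hM : Mat M) (z c y o x : ι) {B : Finset ℕ} {f : ι → Option ℕ → ℕ}
    {g : Option ℕ → ℕ} (f1 : ∀ i a, f i (some a) ≤ 1) (g1 : ∀ a, g (some a) ≤ 1)
    (hz : 3 ≤ ∑ a ∈ insertNone B, g a) (hc : 4 ≤ ∑ a ∈ insertNone B, f c a)
    (hy : 2 ≤ ∑ a ∈ insertNone B, f y a) (ho : 3 ≤ ∑ a ∈ insertNone B, f o a)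
    (hx : 2 ≤ ∑ a ∈ insertNone B, f x a)
    (ne : 0 < ∑ a ∈ B, f c (some a) + ∑ a ∈ B, f y (some a) + ∑ a ∈ B, f o (some a) +
      ∑ a ∈ B, f x (some a)) :
    ∃ a ∈ insertNone B, WEx (Mo M) (insertNone B) f z c y o x a (g a) := by
  have hO := Mo.mat hM
  have U : ∀ u a w b b', Mo M u a w b → Mo M u a w b' → b = b' := hO.uniq
  have U' : ∀ u w b a a', Mo M u a w b → Mo M u a' w b → a = a' := fun u w b a a' m m' =>
    hO.uniq _ _ _ _ _ (hO.symm _ _ _ _ m) (hO.symm _ _ _ _ m')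
  have N : (none : Option ℕ) ∈ insertNone B := by simp
  have real : ∀ h : Option ℕ → ℕ, ∑ a ∈ B, h (some a) ≠ 0 →
      ∃ a, some a ∈ insertNone B ∧ 0 < h (some a) := fun h hh => by
    obtain ⟨a, h1, h2⟩ := exists_ne_zero_of_sum_ne_zero hh
    exact ⟨a, by simpa using h1, by omega⟩
  have any : ∀ h : Option ℕ → ℕ, 1 ≤ ∑ a ∈ insertNone B, h a → ∃ a ∈ insertNone B, 0 < h a :=
    fun h hh => by
      obtain ⟨a, h1, h2⟩ := exists_ne_zero_of_sum_ne_zero
        (show ∑ a ∈ insertNone B, h a ≠ 0 by omega)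
      exact ⟨a, h1, by omega⟩
  have sz := sum_insertNone g B
  have sc := sum_insertNone (f c) B
  have sy := sum_insertNone (f y) B
  have so := sum_insertNone (f o) B
  have sx := sum_insertNone (f x) B
  by_cases A : ∑ a ∈ B, f o (some a) = 0
  · by_cases A1 : ∑ a ∈ B, f y (some a) ≠ 0
    · obtain ⟨b, b1, b2⟩ := real _ A1
      obtain ⟨e, e1, e2⟩ := any (f x) (by omega)
      obtain ⟨a, a1, a2⟩ := gr2 (U' z y (some b)) (U x e z) hz
      obtain ⟨k, k1, k2⟩ := gr3 (U' c z a) (U' c y (some b)) (U' c x e) hc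
      have := ind8 M z c y o x a k (some b) none e
      refine ⟨a, a1, k, k1, _, b1, _, N, e, e1, 2, 3, 0, 4, 1, ?_⟩
      simp only [ind_and, ind_sn, ind_ns]
      norm_num
      omega
    by_cases A2 : ∑ a ∈ B, f x (some a) ≠ 0
    · obtain ⟨e, e1, e2⟩ := real _ A2
      obtain ⟨b, b1, b2⟩ := any (f y) (by omega)
      obtain ⟨a, a1, a2⟩ := gr2 (U' z y b) (U x (some e) z) hz
      obtain ⟨k, k1, k2⟩ := gr3 (U' c z a) (U' c y b) (U' c x (some e)) hc
      have := ind8 M z c y o x a k b none (some e)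
      refine ⟨a, a1, k, k1, _, b1, _, N, _, e1, 2, 3, 0, 4, 1, ?_⟩
      simp only [ind_and, ind_sn, ind_ns]
      norm_num
      omega
    obtain ⟨k, k1, k2⟩ := real (f c) (by omega)
    obtain ⟨a, a1, a2⟩ := gr1 (h := g) (U := insertNone B) (U c (some k) z) (by omega)
    have := ind8 M z c y o x a (some k) none none none
    refine ⟨a, a1, _, k1, _, N, _, N, _, N, 1, 0, 2, 4, 3, ?_⟩
    simp only [ind_and, ind_sn, ind_ns]
    norm_num
    omega
  by_cases Z : ∑ a ∈ B, g (some a) = 0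
  · by_cases A1 : ∑ a ∈ B, f y (some a) ≠ 0
    · obtain ⟨b, b1, b2⟩ := real _ A1
      obtain ⟨e, e1, e2⟩ := any (f x) (by omega)
      obtain ⟨d, d1, d2⟩ := gr2 (U y (some b) o) (U' o x e) ho
      obtain ⟨k, k1, k2⟩ := gr3 (U' c o d) (U' c y (some b)) (U' c x e) hc
      have := ind8 M z c y o x none k (some b) d e
      refine ⟨_, N, k, k1, _, b1, d, d1, e, e1, 4, 3, 0, 2, 1, ?_⟩
      simp only [ind_and, ind_sn, ind_ns]
      norm_num
      omega
    by_cases A2 : ∑ a ∈ B, f x (some a) ≠ 0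
    · obtain ⟨e, e1, e2⟩ := real _ A2
      obtain ⟨b, b1, b2⟩ := any (f y) (by omega)
      obtain ⟨d, d1, d2⟩ := gr2 (U y b o) (U' o x (some e)) ho
      obtain ⟨k, k1, k2⟩ := gr3 (U' c o d) (U' c y b) (U' c x (some e)) hc
      have := ind8 M z c y o x none k b d (some e)
      refine ⟨_, N, k, k1, _, b1, d, d1, _, e1, 4, 3, 0, 2, 1, ?_⟩
      simp only [ind_and, ind_sn, ind_ns]
      norm_num
      omega
    by_cases A3 : ∑ a ∈ B, f c (some a) ≠ 0
    · obtain ⟨k, k1, k2⟩ := real _ A3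
      obtain ⟨d, d1, d2⟩ := gr1 (h := f o) (U := insertNone B) (U c (some k) o) (by omega)
      have := ind8 M z c y o x none (some k) none d none
      refine ⟨_, N, _, k1, _, N, d, d1, _, N, 4, 0, 2, 1, 3, ?_⟩
      simp only [ind_and, ind_sn, ind_ns]
      norm_num
      omega
    obtain ⟨d, d1, d2⟩ := real _ A
    have := ind8 M z c y o x none none none (some d) none
    refine ⟨_, N, _, N, _, N, _, d1, _, N, 1, 4, 2, 0, 3, ?_⟩
    simp only [ind_and, ind_sn, ind_ns]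
    norm_num
    omega
  by_cases C : ∑ a ∈ B, f c (some a) ≤ 1
  · obtain ⟨d, d1, d2⟩ := real _ A
    by_cases C1 : f y none = 0
    · obtain ⟨b, b1, b2⟩ := gr1 (U' y o (some d)) hy
      obtain _ | b := b
      · omega
      obtain ⟨e, e1, e2⟩ := gr1 (U o (some d) x) hx
      obtain ⟨a, a1, a2⟩ := gr2 (U' z y (some b)) (U x e z) hz
      have := ind8 M z c y o x a none (some b) (some d) e
      refine ⟨a, a1, _, N, _, b1, _, d1, e, e1, 3, 4, 1, 0, 2, ?_⟩
      simp only [ind_and, ind_sn, ind_ns]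
      norm_num
      omega
    by_cases C2 : f x none = 0
    · obtain ⟨e, e1, e2⟩ := gr1 (U o (some d) x) hx
      obtain _ | e := e
      · omega
      obtain ⟨b, b1, b2⟩ := gr1 (U' y o (some d)) hy
      obtain ⟨a, a1, a2⟩ := gr2 (U' z y b) (U x (some e) z) hz
      have := ind8 M z c y o x a none b (some d) (some e)
      refine ⟨a, a1, _, N, _, b1, _, d1, _, e1, 3, 4, 1, 0, 2, ?_⟩
      simp only [ind_and, ind_sn, ind_ns]
      norm_num
      omega
    obtain ⟨a, a1, a2⟩ := real _ Z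
    have := ind8 M z c y o x (some a) none none (some d) none
    refine ⟨_, a1, _, N, _, N, _, d1, _, N, 1, 4, 2, 0, 3, ?_⟩
    simp only [ind_and, ind_sn, ind_ns]
    norm_num
    omega
  have cap : ∀ h : Option ℕ → ℕ, (∀ a, h (some a) ≤ 1) →
      ∑ a ∈ insertNone B, min (h a) 2 = min (h none) 2 + ∑ a ∈ B, h (some a) := fun h hh => by
    rw [sum_insertNone (fun a => min (h a) 2) B]
    congr 1
    exact sum_congr rfl fun a _ => by have := hh a; omega
  obtain ⟨a, a1, k, k1, b, b1, d, d1, e, e1, rz, rc, ry, ro, rx, q0, q1, q2, q3, q4⟩ :=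
    wheel2 hO z c y o x (U := insertNone B) (f := fun i a => min (f i a) 2)
      (g := fun a => min (g a) 2) (fun _ _ => min_le_right _ _) (fun _ => min_le_right _ _)
      (by rw [cap g g1]; omega) (by rw [cap _ (f1 c)]; omega) (by rw [cap _ (f1 y)]; omega)
      (by rw [cap _ (f1 o)]; omega) (by rw [cap _ (f1 x)]; omega)
  exact ⟨a, a1, k, k1, b, b1, d, d1, e, e1, rz, rc, ry, ro, rx, q0.trans_le (min_le_left _ _),
    q1.trans_le (min_le_left _ _), q2.trans_le (min_le_left _ _), q3.trans_le (min_le_left _ _),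
    q4.trans_le (min_le_left _ _)⟩

end Pool.Agent.P.MP_0e1fd4_co.On
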