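import Pool.Agent.P.MP_0e1fd4_co.Cfg
import Pool.Agent.P.MP_0e1fd4_co.Chg

/-! Vertices of degree four that lie on several triangles, and the discharging rules. -/

namespace Pool.Agent.P.MP_0e1fd4_co

open Finset
open scoped Classical

variable {V C : Type} [Fintype V] {G : SimpleGraph V} {M : V → C → V → C → Prop} {I : V → Prop}

section
variable (G I)

def Poor (x : V) : Prop := Lo G I 4 x ∧ ∃ a b c d, Pth G x a b c d

def Five (w : V) : Prop := I w ∧ dg G w = 5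

def Link (w : V) : Prop := ∃ p, G.Adj w p ∧ Poor G I p ∧ ¬ Inner G w p

def Heavy (w : V) : Prop := ∃ c y o x, Whl G c w y o x ∧ Lo G I 4 c ∧
  (Lo G I 4 y ∧ Lo G I 4 o ∨ Lo G I 4 y ∧ Lo G I 4 x ∨
    Lo G I 4 o ∧ Five G I y ∧ Five G I x ∧ Link G I y ∧ Link G I x)

noncomputable def tau (w v : V) : ℤ :=
  if Poor G I v then
    if Lo G I 4 w then 0 else
    if Five G I w then
      if Inner G w v then
        if (∃ z y o x, Whl G v z y o x) ∧ (¬ Link G I w ∨ Heavy G I w) then 2 else 1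
      else if Heavy G I w then 0 else 1
    else if Inner G w v then 2 else 1
  else 0

noncomputable def cost (w v : V) : ℤ := (if Inner G w v then 1 else 0) + tau G I w v

end

omit [Fintype V] in
lemma Pth.rev {x a b c d : V} (P : Pth G x a b c d) : Pth G x d c b a :=
  ⟨P.vd, P.vc, P.vb, P.va, P.cd.symm, P.bc.symm, P.ab.symm, P.bd.symm, P.ac.symm, P.ad.symm⟩

omit [Fintype V] in
lemma Fan.rev {x a b c d : V} (P : Fan G x a b c d) : Fan G x d c b a :=
  ⟨P.toPth.rev, fun h => P.nad h.symm⟩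

omit [Fintype V] in
lemma Pth.inb {x a b c d : V} (P : Pth G x a b c d) : Inner G x b :=
  ⟨a, c, P.ac, P.va, P.ab.symm, P.vc, P.bc⟩

omit [Fintype V] in
lemma Whl.rot {c z y o x : V} (W : Whl G c z y o x) : Whl G c y o x z :=
  ⟨W.cy, W.co, W.cx, W.cz, W.yo, W.ox, W.xz, W.zy, W.yx, W.zo.symm⟩

omit [Fintype V] in
lemma Whl.rev {c z y o x : V} (W : Whl G c z y o x) : Whl G c z x o y :=
  ⟨W.cz, W.cx, W.co, W.cy, W.xz.symm, W.ox.symm, W.yo.symm, W.zy.symm, W.zo, W.yx.symm⟩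

omit [Fintype V] in
lemma Whl.pth {c z y o x : V} (W : Whl G c z y o x) : Pth G c z y o x :=
  ⟨W.cz, W.cy, W.co, W.cx, W.zy, W.yo, W.ox, W.zo, W.yx, W.xz.ne.symm⟩

omit [Fintype V] in
lemma Inner.other {u v : V} (h : Inner G u v) (x : V) : ∃ t, t ≠ x ∧ G.Adj u t ∧ G.Adj v t := by
  obtain ⟨a, b, ab, h1, h2, h3, h4⟩ := h
  by_cases e : a = x
  · exact ⟨b, fun e' => ab (e.trans e'.symm), h3, h4⟩
  · exact ⟨a, e, h1, h2⟩

lemma Pth.mem {x a b c d : V} (P : Pth G x a b c d) (h : dg G x ≤ 4) {t : V} (ht : G.Adj x t) :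
    t = a ∨ t = b ∨ t = c ∨ t = d := by
  simpa using mem_of_dg (G := G) (v := x) (l := [a, b, c, d])
    (by simp [P.ab.ne, P.ac, P.ad, P.bc.ne, P.bd, P.cd.ne]) (by simp [P.va, P.vb, P.vc, P.vd]) h ht

lemma tau_nonneg (w v : V) : 0 ≤ tau G I w v := by unfold tau; split_ifs <;> omega

lemma cost_le (w v : V) : (¬ Inner G w v → ¬ Poor G I v → cost G I w v = 0) ∧
    (¬ (Inner G w v ∧ Poor G I v) → cost G I w v ≤ 1) ∧ cost G I w v ≤ 3 ∧ 0 ≤ cost G I w v := by
  unfold cost tau; split_ifs <;> simp_all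

namespace Glob

variable (g : Glob G M I)
include g

lemma nac {x a b c d : V} (P : Pth G x a b c d) : ¬ G.Adj a c :=
  fun h => g.k4 x a b c P.va P.vb P.vc P.ab h P.bc

lemma nbd {x a b c d : V} (P : Pth G x a b c d) : ¬ G.Adj b d := fun h => g.nac P.rev h.symm

lemma rim {x a b c d : V} (P : Pth G x a b c d) : ¬ Inner G a b ∧ ¬ Inner G b c := by
  have n1 := g.nac P
  have n2 := g.nbd P
  constructor <;> intro h <;> obtain ⟨t, t1, t2, t3⟩ := h.other x
  · exact (g.c6.out P.va t2 t3.symm P.bc P.cd P.vd.symm t1.symm P.vb.ne P.vc.ne P.ab.ne P.ac P.ad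
      (by rintro rfl; exact n1 t2) (by rintro rfl; exact n2 t3) P.bd).2 P.vb
  · exact (g.c6.out P.va P.ab t2 t3.symm P.cd P.vd.symm P.vb.ne t1.symm P.vc.ne
      (by rintro rfl; exact n1 t3.symm) P.ac P.ad P.bc.ne P.bd (by rintro rfl; exact n2 t2)).1 P.vb

lemma inn {x w : V} (h : Poor G I x) (xw : G.Adj x w) (hi : Inner G x w) :
    ∃ a c d, Pth G x a w c d := by
  obtain ⟨hl, a, b, c, d, P⟩ := h
  have key : ∀ a b c d, Pth G x a b c d → Inner G x a → Pth G x d a b c := by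
    intro a b c d P hi
    obtain ⟨t, t1, t2, t3⟩ := hi.other b
    rcases P.mem hl.1 t2 with rfl | rfl | rfl | rfl
    · exact absurd rfl t3.ne
    · exact absurd rfl t1
    · exact absurd t3 (g.nac P)
    · exact ⟨P.vd, P.va, P.vb, P.vc, t3.symm, P.ab, P.bc, P.bd.symm, P.ac, P.cd.ne.symm⟩
  rcases P.mem hl.1 xw with rfl | rfl | rfl | rfl
  exacts [⟨_, _, _, key _ _ _ _ P hi⟩, ⟨_, _, _, P⟩, ⟨_, _, _, P.rev⟩, ⟨_, _, _, key _ _ _ _ P.rev hi⟩]

omit g in
lemma out {x w : V} (h : Poor G I x) (xw : G.Adj x w) (hi : ¬ Inner G x w) :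
    ∃ b c d, Fan G x w b c d := by
  obtain ⟨hl, a, b, c, d, P⟩ := h
  have key : ∀ a b c d, Pth G x a b c d → ¬ Inner G x a → Fan G x a b c d :=
    fun a b c d P hi => ⟨P, fun h => hi ⟨b, d, P.bd, P.vb, P.ab, P.vd, h⟩⟩
  rcases P.mem hl.1 xw with rfl | rfl | rfl | rfl
  exacts [⟨_, _, _, key _ _ _ _ P hi⟩, absurd P.inb hi, absurd P.rev.inb hi,
    ⟨_, _, _, key _ _ _ _ P.rev hi⟩]

lemma p1 {x w a : V} (h : Poor G I x) (xw : G.Adj x w) (hi : Inner G x w) (xa : G.Adj x a)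
    (wa : G.Adj w a) : ¬ Inner G w a := by
  obtain ⟨a', c, d, P⟩ := g.inn h xw hi
  rcases P.mem h.1.1 xa with rfl | rfl | rfl | rfl
  exacts [fun h => (g.rim P).1 h.symm, absurd rfl wa.ne, (g.rim P).2, absurd wa (g.nbd P)]

lemma p2 {x w a : V} (h : Poor G I x) (xw : G.Adj x w) (hi : Inner G x w) (xa : G.Adj x a)
    (wa : G.Adj w a) : ¬ Poor G I a := by
  intro ha
  obtain ⟨b, c, d, P⟩ := out ha wa.symm fun k => g.p1 h xw hi xa wa k.symm
  rcases P.mem ha.1.1 xa.symm with rfl | rfl | rfl | rfl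
  · exact xw.ne rfl
  · exact g.p1 ha xa.symm P.inb wa.symm xw hi
  · exact g.nac P.toPth xw.symm
  · exact P.nad xw.symm

lemma p3 {x b : V} (h : Poor G I x) (xb : G.Adj x b) (hi : Inner G x b) : ¬ Poor G I b := by
  intro hb
  obtain ⟨a, c, d, P⟩ := g.inn h xb hi
  exact g.p1 hb xb.symm hi.symm P.bc P.vc P.rev.inb

lemma q1 {x w : V} (h : Poor G I x) (wx : G.Adj w x) (hi : ¬ Inner G w x) :
    ∃ b, G.Adj x b ∧ G.Adj w b ∧ Inner G x b ∧ ¬ Inner G w b ∧ ¬ Poor G I b := by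
  obtain ⟨b, c, d, P⟩ := out h wx.symm fun k => hi k.symm
  exact ⟨b, P.vb, P.ab, P.inb, (g.rim P.toPth).1, g.p3 h P.vb P.inb⟩

omit g in
lemma dbl (u : V) (Z : Finset V) (hZ : ∀ a ∈ Z, ¬ Inner G u a) :
    ∑ v ∈ nb G u, (#(Z.filter (G.Adj v)) : ℤ) ≤ #Z := by
  have : ∑ v ∈ nb G u, #(Z.filter (G.Adj v)) = ∑ a ∈ Z, #((nb G u).filter fun v => G.Adj v a) := by
    simp only [card_filter]
    exact sum_comm
  have h2 : ∑ a ∈ Z, #((nb G u).filter fun v => G.Adj v a) ≤ ∑ a ∈ Z, 1 :=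
    sum_le_sum fun a ha => card_le_one.2 fun p hp q hq => by
      by_contra e
      simp only [mem_filter, mem_nb] at hp hq
      exact hZ a ha ⟨p, q, e, hp.1, hp.2.symm, hq.1, hq.2.symm⟩
  simp only [sum_const, smul_eq_mul, mul_one] at h2
  exact_mod_cast this.trans_le h2

lemma cost_big (u : V) : ∑ v ∈ nb G u, cost G I u v ≤ dg G u := by
  let Z := (nb G u).filter fun a => ¬ Inner G u a ∧ ¬ Poor G I a
  have h1 := dbl u Z fun a ha => (mem_filter.1 ha).2.1
  have h2 : ∑ v ∈ nb G u, cost G I u v ≤ ∑ v ∈ nb G u,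
      (1 - (if ¬ Inner G u v ∧ ¬ Poor G I v then 1 else 0) + #(Z.filter (G.Adj v)) : ℤ) := by
    refine sum_le_sum fun v hv => ?_
    obtain ⟨c1, c2, c3, -⟩ := cost_le (G := G) (I := I) u v
    have uv := mem_nb.1 hv
    by_cases e : Inner G u v ∧ Poor G I v
    · obtain ⟨a, b, ab, h1, h2, h3, h4⟩ := id e.1
      have : 1 < #(Z.filter (G.Adj v)) := one_lt_card.2 ⟨a, by
        simp [Z, h1, h2, g.p1 e.2 uv.symm e.1.symm h2 h1, g.p2 e.2 uv.symm e.1.symm h2 h1], b, by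
        simp [Z, h3, h4, g.p1 e.2 uv.symm e.1.symm h4 h3, g.p2 e.2 uv.symm e.1.symm h4 h3], ab⟩
      rw [if_neg (by tauto)]
      omega
    · have := c2 e
      split_ifs with h
      · have := c1 h.1 h.2; omega
      · omega
  rw [sum_add_distrib, sum_sub_distrib, sum_boole] at h2
  simp only [sum_const, nsmul_eq_mul, mul_one] at h2
  unfold dg
  linarith

lemma cost_flat {u : V} (h : ∀ v, G.Adj u v → ¬ Inner G u v) :
    2 * ∑ v ∈ nb G u, cost G I u v ≤ dg G u := by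
  let Z := (nb G u).filter fun a => ¬ Inner G u a ∧ ¬ Poor G I a
  have h1 := dbl u Z fun a ha => (mem_filter.1 ha).2.1
  have h2 : ∑ v ∈ nb G u, 2 * cost G I u v ≤ ∑ v ∈ nb G u,
      (1 - (if ¬ Inner G u v ∧ ¬ Poor G I v then 1 else 0) + #(Z.filter (G.Adj v)) : ℤ) := by
    refine sum_le_sum fun v hv => ?_
    obtain ⟨c1, c2, c3, -⟩ := cost_le (G := G) (I := I) u v
    have uv := mem_nb.1 hv
    have := c2 fun k => h v uv k.1
    split_ifs with e
    · have := c1 e.1 e.2; omega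
    · obtain ⟨b, b1, b2, -, b4, b5⟩ := g.q1 (by_contra fun k => e ⟨h v uv, k⟩) uv (h v uv)
      have : 0 < #(Z.filter (G.Adj v)) := card_pos.2 ⟨b, by simp [Z, b1, b2, b4, b5]⟩
      omega
  rw [sum_add_distrib, sum_sub_distrib, sum_boole, ← mul_sum] at h2
  simp only [sum_const, nsmul_eq_mul, mul_one] at h2
  unfold dg
  linarith

omit g in
lemma ext5 {u x a b : V} (h : dg G u = 5) (ux : G.Adj u x) (ua : G.Adj u a) (ub : G.Adj u b)
    (xa : x ≠ a) (xb : x ≠ b) (ab : a ≠ b) : ∃ p q, G.Adj u p ∧ G.Adj u q ∧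
      [x, a, b, p, q].Pairwise (· ≠ ·) ∧ ∀ r : V → ℤ,
      ∑ v ∈ nb G u, r v = r x + r a + r b + r p + r q := by
  have s : ({x, a, b} : Finset V) ⊆ nb G u := by simp [insert_subset_iff, *]
  obtain ⟨p, q, pq, e⟩ := card_eq_two.1 (show #(nb G u \ {x, a, b}) = 2 by
    rw [card_sdiff_of_subset s, card_eq_three.2 ⟨x, a, b, xa, xb, ab, rfl⟩]
    unfold dg at h; omega)
  have hp : p ∈ nb G u \ {x, a, b} := by simp [e]
  have hq : q ∈ nb G u \ {x, a, b} := by simp [e]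
  simp only [mem_sdiff, mem_nb, mem_insert, mem_singleton, not_or] at hp hq
  refine ⟨p, q, hp.1, hq.1, by simp [*, Ne.symm], fun r => ?_⟩
  rw [← sum_sdiff s, e, sum_pair pq, sum_insert (by simp [*]), sum_pair ab]
  ring

lemma cost_five (hw : ∀ {w a b d e}, Whl G w a b d e → dg G w ≤ 4) {u : V} (h : Five G I u) :
    ∑ v ∈ nb G u, cost G I u v ≤ 3 := by
  by_cases h1 : ∃ x, G.Adj u x ∧ Inner G u x ∧ Poor G I x
  · obtain ⟨x, ux, hi, hp⟩ := h1
    obtain ⟨a, b, ab, ua, xa, ub, xb⟩ := id hi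
    obtain ⟨p, q, up, uq, nd, e⟩ := ext5 h.2 ux ua ub xa.ne xb.ne ab
    have a1 := g.p1 hp ux.symm hi.symm xa ua
    have a2 := g.p2 hp ux.symm hi.symm xa ua
    have b1 := g.p1 hp ux.symm hi.symm xb ub
    have b2 := g.p2 hp ux.symm hi.symm xb ub
    have key : ∀ p q, G.Adj u p → G.Adj u q → [x, a, b, p, q].Pairwise (· ≠ ·) →
        ∀ t, G.Adj u t → G.Adj p t → t = q := by
      intro p q up uq nd t ut pt
      have := mem_of_dg (G := G) nd (by simp [*]) h.2.le ut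
      simp only [List.mem_cons, List.not_mem_nil, or_false] at this
      simp only [List.pairwise_cons, List.mem_cons, List.not_mem_nil, or_false, forall_eq_or_imp,
        forall_eq] at nd
      rcases this with rfl | rfl | rfl | rfl | rfl
      · have := g.t3 u t a b p ut ua xa ub xb up pt.symm; tauto
      · exact absurd ⟨x, p, nd.1.2.2.1, ux, xa.symm, up, pt.symm⟩ a1
      · exact absurd ⟨x, p, nd.1.2.2.1, ux, xb.symm, up, pt.symm⟩ b1
      · exact absurd rfl pt.ne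
      · rfl
    have nd' : [x, a, b, q, p].Pairwise (· ≠ ·) := by
      simp only [List.pairwise_cons, List.mem_cons, List.not_mem_nil, or_false, forall_eq_or_imp,
        forall_eq] at nd ⊢
      tauto
    have np : ¬ Inner G u p := fun k => by
      obtain ⟨t, t1, t2, t3⟩ := k.other q
      exact t1 (key p q up uq nd t t2 t3)
    have nq : ¬ Inner G u q := fun k => by
      obtain ⟨t, t1, t2, t3⟩ := k.other p
      exact t1 (key q p uq up nd' t t2 t3)
    have pq : Poor G I p → ¬ Poor G I q := fun k => by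
      obtain ⟨t, t1, t2, -, -, t5⟩ := g.q1 k up np
      rwa [key p q up uq nd t t2 t1] at t5
    have lp : Poor G I p → Link G I u := fun k => ⟨p, up, k, np⟩
    have lq : Poor G I q → Link G I u := fun k => ⟨q, uq, k, nq⟩
    rw [e]
    simp only [cost, tau, hi, hp, h, a1, a2, b1, b2, np, nq, if_true, if_false]
    split_ifs <;> first | omega | tauto
  have le1 : ∀ v ∈ nb G u, cost G I u v ≤ 1 := fun v hv =>
    (cost_le u v).2.1 fun k => h1 ⟨v, mem_nb.1 hv, k⟩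
  have two : ∀ a b, a ≠ b → G.Adj u a → G.Adj u b → cost G I u a = 0 → cost G I u b = 0 →
      ∑ v ∈ nb G u, cost G I u v ≤ 3 := by
    intro a b ab ua ub ca cb
    have s : ({a, b} : Finset V) ⊆ nb G u := by simp [insert_subset_iff, *]
    have := sum_le_card_nsmul (nb G u \ {a, b}) (cost G I u) 1 fun v hv => le1 v (mem_sdiff.1 hv).1
    rw [card_sdiff_of_subset s, card_pair ab, show #(nb G u) = 5 from h.2] at this
    rw [← sum_sdiff s, sum_pair ab, ca, cb]
    simpa using this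
  have zero : ∀ x a, G.Adj u x → Inner G u x → G.Adj u a → G.Adj x a → ¬ Inner G u a →
      cost G I u a = 0 := by
    intro x a ux hi ua xa na
    refine (cost_le u a).1 na fun k => ?_
    obtain ⟨t, t1, t2, -, t4, -⟩ := g.q1 k ua na
    exact na ⟨x, t, by rintro rfl; exact t4 hi, ux, xa.symm, t2, t1⟩
  have fan : ∀ x a b, G.Adj u x → G.Adj u a → G.Adj u b → G.Adj x a → G.Adj x b → a ≠ b →
      Inner G u a → ∑ v ∈ nb G u, cost G I u v ≤ 3 := by
    intro x a b ux ua ub xa xb ab ia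
    obtain ⟨t, t1, t2, t3⟩ := ia.other x
    have P : Pth G u b x a t := ⟨ub, ux, ua, t2, xb.symm, xa, t3, ab.symm, t1.symm, by
      rintro rfl; exact g.k4 u x a b ux ua ub xa xb t3⟩
    have key : ∀ b x a t, Pth G u b x a t → ¬ Inner G u b := by
      intro b x a t P k
      obtain ⟨s, s1, s2, s3⟩ := k.other x
      by_cases e : s = t
      · subst e
        have := hw ⟨P.va, P.vb, P.vc, P.vd, P.ab, P.bc, P.cd, s3.symm, P.ac, P.bd⟩
        have := h.2
        omega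
      exact (g.c6.out s2 s3.symm P.ab P.bc P.cd P.vd.symm P.va.ne P.vb.ne P.vc.ne s1
        (by rintro rfl; exact g.nac P s3) e P.ac P.ad P.bd).1 P.va
    exact two b t P.ad ub t2 (zero x b ux P.inb ub xb (key _ _ _ _ P))
      (zero a t ua ia t2 t3 (key _ _ _ _ P.rev))
  by_cases h2 : ∃ x, G.Adj u x ∧ Inner G u x
  · obtain ⟨x, ux, hi⟩ := h2
    obtain ⟨a, b, ab, ua, xa, ub, xb⟩ := id hi
    by_cases ia : Inner G u a
    · exact fan x a b ux ua ub xa xb ab ia
    by_cases ib : Inner G u b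
    · exact fan x b a ux ub ua xb xa ab.symm ib
    exact two a b ab ua ub (zero x a ux hi ua xa ia) (zero x b ux hi ub xb ib)
  · have := g.cost_flat (u := u) fun v uv k => h2 ⟨v, uv, k⟩
    have := h.2
    omega

lemma allTri {c z y o x : V} (W : Whl G c z y o x) (hc : Lo G I 4 c) (h5 : Five G I y)
    (hl : Link G I y) : AllTri G y := by
  obtain ⟨p, yp, pp, np⟩ := hl
  obtain ⟨b, pb, yb, -, -, nb'⟩ := g.q1 pp yp np
  have pc : Poor G I c := ⟨hc, _, _, _, _, W.pth⟩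
  have ic := W.pth.inb
  have z1 := g.p1 pc W.cy ic W.cz W.zy.symm
  have z2 := g.p2 pc W.cy ic W.cz W.zy.symm
  have o1 := g.p1 pc W.cy ic W.co W.yo
  have o2 := g.p2 pc W.cy ic W.co W.yo
  have cp : c ≠ p := by rintro rfl; exact np ic.symm
  have cb : c ≠ b := by rintro rfl; exact nb' pc
  have zp : z ≠ p := by rintro rfl; exact z2 pp
  have op : o ≠ p := by rintro rfl; exact o2 pp
  have zb : z ≠ b := by rintro rfl; exact z1 ⟨c, p, cp, W.cy.symm, W.cz.symm, yp, pb.symm⟩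
  have ob : o ≠ b := by rintro rfl; exact o1 ⟨c, p, cp, W.cy.symm, W.co.symm, yp, pb.symm⟩
  intro t ht
  have := mem_of_dg (G := G) (v := y) (l := [c, z, o, p, b])
    (by simp [*, W.cz.ne, W.co.ne, W.zo, pb.ne]) (by simp [*, W.cy.symm, W.zy.symm, W.yo]) h5.2.le ht
  simp only [List.mem_cons, List.not_mem_nil, or_false] at this
  rcases this with rfl | rfl | rfl | rfl | rfl
  exacts [⟨z, W.zy.symm, W.cz⟩, ⟨c, W.cy.symm, W.cz.symm⟩, ⟨c, W.cy.symm, W.co.symm⟩, ⟨b, yb, pb⟩,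
    ⟨p, yp, pb.symm⟩]

end Glob

end Pool.Agent.P.MP_0e1fd4_co
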