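import Pool.Agent.P.MP_0e1fd4_co.Face

/-! Short faces and the Euler inequality. -/

namespace Pool.Agent.P.MP_0e1fd4_co

open Finset MP_5fbfb9_co

variable {V : Type} [DecidableEq V] [Fintype V] {G : SimpleGraph V}

def zs (z : EF V) (v : V) : Finset V := univ.filter fun u => z v u ≠ 0

def sz (z : EF V) : ℕ := ∑ v, #(zs z v)

omit [DecidableEq V] in
@[simp] lemma mem_zs {z : EF V} {v u : V} : u ∈ zs z v ↔ z v u ≠ 0 := by simp [zs]

variable {z : EF V}

omit [DecidableEq V] in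
lemma zs_even (hz : Cyc G z) (v : V) : Even #(zs z v) := by
  have := hz.even v
  rw [← sum_subset (subset_univ (zs z v)) (fun r _ hr => by simpa using hr),
    sum_congr rfl fun r hr => K2_one (mem_zs.1 hr)] at this
  simpa [ZMod.natCast_eq_zero_iff_even] using this

omit [DecidableEq V] in
lemma zs_two (hz : Cyc G z) {v u : V} (h : z v u ≠ 0) : 2 ≤ #(zs z v) := by
  have h1 := zs_even hz v
  have h2 : 0 < #(zs z v) := card_pos.2 ⟨u, mem_zs.2 h⟩
  obtain ⟨k, hk⟩ := h1
  omega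

omit [DecidableEq V] in
lemma other (hz : Cyc G z) {v u : V} (h : z u v ≠ 0) : ∃ w, w ≠ u ∧ z v w ≠ 0 := by
  obtain ⟨w, h1, h2⟩ := exists_mem_ne (zs_two hz (hz.symm u v ▸ h)) u
  exact ⟨w, h2, mem_zs.1 h1⟩

lemma six (hz : Cyc G z) (l : List V) (nd : l.Nodup) (h : ∀ v ∈ l, ∃ u, z v u ≠ 0) :
    2 * l.length ≤ sz z := by
  rw [← List.toFinset_card_of_nodup nd, mul_comm, ← smul_eq_mul, ← sum_const]
  refine (sum_le_sum fun v hv => ?_).trans (sum_le_sum_of_subset (subset_univ _))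
  obtain ⟨u, hu⟩ := h v (List.mem_toFinset.1 hv)
  exact zs_two hz hu

lemma reg (hz : Cyc G z) (h : sz z < 12) (v : V) : #(zs z v) ≤ 2 := by
  by_contra hc
  obtain ⟨k, hk⟩ := zs_even hz v
  have h1 : ∑ u ∈ insert v (zs z v), #(zs z u) ≤ sz z := sum_le_sum_of_subset (subset_univ _)
  rw [sum_insert fun h => (hz.supp _ _ (mem_zs.1 h)).ne rfl] at h1
  have h2 : ∑ u ∈ zs z v, 2 ≤ ∑ u ∈ zs z v, #(zs z u) := sum_le_sum fun u hu =>
    zs_two hz (hz.symm v u ▸ mem_zs.1 hu)
  simp only [sum_const, smul_eq_mul] at h2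
  omega

lemma reg' (hz : Cyc G z) (h : sz z < 12) {v a b x : V} (ab : a ≠ b) (ha : z v a ≠ 0)
    (hb : z v b ≠ 0) (hx : z v x ≠ 0) : x = a ∨ x = b := by
  have : ({a, b} : Finset V) = zs z v := eq_of_subset_of_card_le
    (by intro y; simp only [mem_insert, mem_singleton, mem_zs]; rintro (rfl | rfl) <;> assumption)
    (by rw [card_pair ab]; exact reg hz h v)
  simpa [← this] using mem_zs.2 hx

lemma sz_eq (hz : Cyc G z) (h : sz z < 12) (l : List V) (nd : l.Nodup)
    (h1 : ∀ v ∈ l, ∃ u, z v u ≠ 0) (h2 : ∀ v u, z v u ≠ 0 → v ∈ l) : sz z = 2 * l.length := by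
  refine le_antisymm ?_ (six hz l nd h1)
  rw [← List.toFinset_card_of_nodup nd, mul_comm, ← smul_eq_mul, ← sum_const, sz,
    ← sum_subset (subset_univ l.toFinset) fun v _ hv => by
      rw [card_eq_zero, eq_empty_iff_forall_notMem]
      exact fun u hu => hv (List.mem_toFinset.2 (h2 v u (mem_zs.1 hu)))]
  exact sum_le_sum fun v _ => reg hz h v

lemma shape (hz : Cyc G z) {u v : V} (h : z u v ≠ 0) : 12 ≤ sz z ∨
    (sz z = 6 ∧ ∃ w, z v w ≠ 0 ∧ z w u ≠ 0) ∨
    (sz z = 8 ∧ ∃ w x, z v w ≠ 0 ∧ z w x ≠ 0 ∧ z x u ≠ 0 ∧ u ≠ w ∧ v ≠ x) ∨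
    (sz z = 10 ∧ ∃ w x y, z v w ≠ 0 ∧ z w x ≠ 0 ∧ z x y ≠ 0 ∧ z y u ≠ 0 ∧ u ≠ w ∧ u ≠ x ∧
      v ≠ x ∧ v ≠ y ∧ w ≠ y) := by
  rcases le_or_gt 12 (sz z) with hs | hs
  · exact Or.inl hs
  right
  have S : ∀ {a b}, z a b ≠ 0 → z b a ≠ 0 := fun {a b} h => hz.symm a b ▸ h
  have N : ∀ {a b}, z a b ≠ 0 → a ≠ b := fun h => (hz.supp _ _ h).ne
  have R := @reg' V _ _ G z hz hs
  have big : ∀ l : List V, l.Nodup → l.length = 6 → (∀ v ∈ l, ∃ u, z v u ≠ 0) → False :=
    fun l nd hl h => by have := six hz l nd h; omega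
  obtain ⟨w, w1, w2⟩ := other hz h
  obtain ⟨x, x1, x2⟩ := other hz w2
  have uv := N h
  have vw := N w2
  by_cases e1 : x = u
  · subst e1
    refine Or.inl ⟨sz_eq hz hs [x, v, w] (by simp [*, w1.symm]) (by
      simp only [List.mem_cons, List.not_mem_nil, or_false]
      rintro _ (rfl | rfl | rfl); exacts [⟨_, h⟩, ⟨_, w2⟩, ⟨_, x2⟩]) fun p q hp => ?_, w, w2, x2⟩
    by_contra hc
    simp only [List.mem_cons, List.not_mem_nil, or_false, not_or] at hc
    have key : ∀ p q, z p q ≠ 0 → p ≠ x → p ≠ v → p ≠ w → q ≠ x ∧ q ≠ v ∧ q ≠ w := by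
      intro p q hp a1 a2 a3
      refine ⟨?_, ?_, ?_⟩ <;> rintro rfl
      · have := R vw h (S x2) (S hp); tauto
      · have := R w1.symm (S h) w2 (S hp); tauto
      · have := R uv x2 (S w2) (S hp); tauto
    obtain ⟨r, r1, r2⟩ := other hz (S hp)
    have k1 := key p q hp hc.1 hc.2.1 hc.2.2
    have k2 := key p r r2 hc.1 hc.2.1 hc.2.2
    have := N hp
    have := N r2
    refine big [p, q, r, x, v, w] (by simp [*, w1.symm, r1.symm]) rfl ?_
    simp only [List.mem_cons, List.not_mem_nil, or_false]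
    rintro _ (rfl | rfl | rfl | rfl | rfl | rfl)
    exacts [⟨_, hp⟩, ⟨_, S hp⟩, ⟨_, S r2⟩, ⟨_, h⟩, ⟨_, w2⟩, ⟨_, x2⟩]
  obtain ⟨y, y1, y2⟩ := other hz x2
  have wx := N x2
  have ux : u ≠ x := Ne.symm e1
  have vx : v ≠ x := Ne.symm x1
  have uw : u ≠ w := Ne.symm w1
  by_cases e2 : y = u
  · subst e2
    refine Or.inr (Or.inl ⟨sz_eq hz hs [y, v, w, x] (by simp [*]) (by
      simp only [List.mem_cons, List.not_mem_nil, or_false]
      rintro _ (rfl | rfl | rfl | rfl); exacts [⟨_, h⟩, ⟨_, w2⟩, ⟨_, x2⟩, ⟨_, y2⟩])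
      fun p q hp => ?_, w, x, w2, x2, y2, uw, vx⟩)
    by_contra hc
    simp only [List.mem_cons, List.not_mem_nil, or_false, not_or] at hc
    have key : q ≠ y ∧ q ≠ v ∧ q ≠ w ∧ q ≠ x := by
      refine ⟨?_, ?_, ?_, ?_⟩ <;> rintro rfl
      · have := R vx h (S y2) (S hp); tauto
      · have := R uw (S h) w2 (S hp); tauto
      · have := R vx (S w2) x2 (S hp); tauto
      · have := R uw y2 (S x2) (S hp); tauto
    have := N hp
    refine big [p, q, y, v, w, x] (by simp [*]) rfl ?_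
    simp only [List.mem_cons, List.not_mem_nil, or_false]
    rintro _ (rfl | rfl | rfl | rfl | rfl | rfl)
    exacts [⟨_, hp⟩, ⟨_, S hp⟩, ⟨_, h⟩, ⟨_, w2⟩, ⟨_, x2⟩, ⟨_, y2⟩]
  obtain ⟨t, t1, t2⟩ := other hz y2
  have xy := N y2
  have uy : u ≠ y := Ne.symm e2
  have wy : w ≠ y := Ne.symm y1
  have vy : v ≠ y := by
    rintro rfl
    have := R uw (S h) w2 (S y2); tauto
  have all : ∀ p q, z p q ≠ 0 → p ∈ [u, v, w, x, y] := by
    intro p q hp
    by_contra hc
    simp only [List.mem_cons, List.not_mem_nil, or_false, not_or] at hc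
    refine big [p, u, v, w, x, y] (by simp [*]) rfl ?_
    simp only [List.mem_cons, List.not_mem_nil, or_false]
    rintro _ (rfl | rfl | rfl | rfl | rfl | rfl)
    exacts [⟨_, hp⟩, ⟨_, h⟩, ⟨_, w2⟩, ⟨_, x2⟩, ⟨_, y2⟩, ⟨_, t2⟩]
  have tu : t = u := by
    have := all _ _ (S t2)
    simp only [List.mem_cons, List.not_mem_nil, or_false] at this
    rcases this with rfl | rfl | rfl | rfl | rfl
    · rfl
    · have := R uw (S h) w2 (S t2); tauto
    · have := R vx (S w2) x2 (S t2); tauto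
    · exact absurd rfl t1
    · exact absurd rfl (N t2)
  subst tu
  refine Or.inr (Or.inr ⟨sz_eq hz hs [t, v, w, x, y] (by simp [*]) ?_ all,
    w, x, y, w2, x2, y2, t2, uw, ux, vx, vy, wy⟩)
  simp only [List.mem_cons, List.not_mem_nil, or_false]
  rintro _ (rfl | rfl | rfl | rfl | rfl)
  exacts [⟨_, h⟩, ⟨_, w2⟩, ⟨_, x2⟩, ⟨_, y2⟩, ⟨_, t2⟩]

lemma sum_quad (hz : Cyc G z) (h : sz z = 8) {a b d e : V} (ab : z a b ≠ 0) (bd : z b d ≠ 0)
    (de : z d e ≠ 0) (ea : z e a ≠ 0) (ad : a ≠ d) (be : b ≠ e) (w : V → V → ℤ) :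
    ∑ u, ∑ v ∈ zs z u, w u v =
      w a b + w b a + (w b d + w d b) + (w d e + w e d) + (w e a + w a e) := by
  have S : ∀ {a b}, z a b ≠ 0 → z b a ≠ 0 := fun {a b} h => hz.symm a b ▸ h
  have N : ∀ {a b}, z a b ≠ 0 → a ≠ b := fun h => (hz.supp _ _ h).ne
  have R : ∀ {v a b}, a ≠ b → z v a ≠ 0 → z v b ≠ 0 → zs z v = {a, b} := by
    intro v a b ab ha hb
    ext x
    simp only [mem_zs, mem_insert, mem_singleton]
    exact ⟨reg' hz (by omega) ab ha hb, by rintro (rfl | rfl) <;> assumption⟩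
  have := N ab; have := N bd; have := N de; have := (N ea).symm
  rw [← sum_subset (subset_univ {a, b, d, e}) fun p _ hp => ?_]
  · rw [sum_insert (by simp [*]), sum_insert (by simp [*]), sum_pair (N de), R be ab (S ea),
      R ad (S ab) bd, R be (S bd) de, R ad ea (S de), sum_pair be, sum_pair ad, sum_pair be,
      sum_pair ad]
    ring
  · refine sum_eq_zero fun q hq => ?_
    simp only [mem_insert, mem_singleton, not_or] at hp
    have := six hz [p, a, b, d, e] (by simp [*]) (by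
      simp only [List.mem_cons, List.not_mem_nil, or_false]
      rintro _ (rfl | rfl | rfl | rfl | rfl)
      exacts [⟨_, mem_zs.1 hq⟩, ⟨_, ab⟩, ⟨_, bd⟩, ⟨_, de⟩, ⟨_, ea⟩])
    simp at this
    omega

variable {F : Type} [Fintype F] {c : F → EF V} {A : Finset V}

open scoped Classical in
lemma euler (h : Fa G c) (h0 : ∑ f, c f = 0) (hA : Supp G A) {a : V} (ha : a ∈ A) {f0 : F}
    (hf : c f0 ≠ 0) : ∑ v, dg G v + 4 ≤ 2 * #A + 2 * #{f | c f ≠ 0} := by
  let s : G.edgeSet → V := fun e => e.1.out.1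
  let t : G.edgeSet → V := fun e => e.1.out.2
  have hst : ∀ e : G.edgeSet, s(s e, t e) = e.1 := fun e => Quot.out_eq e.1
  have hadj : ∀ e : G.edgeSet, G.Adj (s e) (t e) := fun e => by
    rw [← G.mem_edgeSet, hst]; exact e.2
  let N : Finset F := (univ.filter fun f => c f ≠ 0).erase f0
  let Φ : (G.edgeSet → K2) →ₗ[K2] (N → K2) :=
    { toFun := fun x f => ∑ e, x e * c f (s e) (t e)
      map_add' := fun x y => by ext f; simp [add_mul, sum_add_distrib]
      map_smul' := fun r x => by ext f; simp [mul_sum, mul_assoc] }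
  let ex : (A.erase a → K2) → V → K2 := fun φ v => if h : v ∈ A.erase a then φ ⟨v, h⟩ else 0
  let Δ : (A.erase a → K2) →ₗ[K2] (G.edgeSet → K2) :=
    { toFun := fun φ e => ex φ (s e) + ex φ (t e)
      map_add' := fun x y => by
        ext e; simp only [ex, Pi.add_apply]; split_ifs <;> ring
      map_smul' := fun r x => by
        ext e; simp only [ex, Pi.smul_apply, smul_eq_mul, RingHom.id_apply]; split_ifs <;> ring }
  have key : LinearMap.ker Φ ≤ LinearMap.range Δ := by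
    intro x hx
    let l : EF V →ₗ[K2] K2 := ∑ e, x e • evl (s e) (t e)
    have hl : ∀ z, l z = ∑ e, x e * z (s e) (t e) := fun z => by simp [l, evl]
    have h1 : ∀ f, f ≠ f0 → l (c f) = 0 := fun f e => by
      by_cases hz : c f = 0
      · rw [hz, map_zero]
      · rw [hl]; exact congrFun hx ⟨f, by simp [N, e, hz]⟩
    obtain ⟨φ, hφ⟩ := h.pot l fun f => by
      by_cases e : f = f0
      · have := congrArg l h0
        rw [map_sum, map_zero, Fintype.sum_eq_single f0 h1] at this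
        rwa [e]
      · exact h1 f e
    refine ⟨fun v => φ v + φ a, ?_⟩
    ext e
    have e1 : ∀ v ∈ A, ex (fun v => φ v + φ a) v = φ v + φ a := fun v hv => by
      simp only [ex]
      split_ifs with h
      · rfl
      · obtain rfl : v = a := by simpa [hv] using h
        exact (K2_add _).symm
    have e2 := hφ _ _ (hadj e)
    rw [hl, Fintype.sum_eq_single e fun e' he => ?_, El_self, mul_one] at e2
    · simp only [Δ, LinearMap.coe_mk, AddHom.coe_mk, e1 _ (hA _ _ (hadj e)),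
        e1 _ (hA _ _ (hadj e).symm), e2]
      linear_combination K2_add (φ a)
    · have : El (s e) (t e) (s e') (t e') = 0 := by
        by_contra hc
        apply he
        apply Subtype.ext
        rw [← hst, ← hst]
        rcases El_ne hc with ⟨h1, h2⟩ | ⟨h1, h2⟩ <;> rw [h1, h2]
        exact Sym2.eq_swap
      rw [this, mul_zero]
  have d1 := Φ.finrank_range_add_finrank_ker
  have d2 := Submodule.finrank_mono key
  have d3 := Δ.finrank_range_le
  have d4 := Submodule.finrank_le (LinearMap.range Φ)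
  simp only [Module.finrank_fintype_fun_eq_card, Fintype.card_coe] at d1 d3 d4
  have d5 : #N + 1 = #{f | c f ≠ 0} := card_erase_add_one (by simpa using hf)
  have d6 : #(A.erase a) + 1 = #A := card_erase_add_one ha
  have d7 : ∑ v, dg G v = 2 * Fintype.card G.edgeSet := by
    rw [← G.edgeFinset_card, ← G.sum_degrees_eq_twice_card_edges]
    refine sum_congr rfl fun v _ => ?_
    rw [← G.card_neighborFinset_eq_degree]
    unfold dg
    congr 1
    ext; simp
  omega

end Pool.Agent.P.MP_0e1fd4_co
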