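import Pool.Agent.P.MP_0e1fd4_co.Main

namespace Pool.Agent.P.MP_0e1fd4_co.VariantDPFourColourable

/-- Every planar graph without chorded 6-cycles is DP-4-colourable. -/
theorem result :
    ∀ (V : Type) [Fintype V] (G : SimpleGraph V),
      (∃ (p : V → ℝ × ℝ) (γ : V → V → ℝ → ℝ × ℝ),
        Function.Injective p ∧
        (∀ u v, G.Adj u v →
          ContinuousOn (γ u v) (Set.Icc 0 1) ∧ Set.InjOn (γ u v) (Set.Icc 0 1) ∧
          γ u v 0 = p u ∧ γ u v 1 = p v ∧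
          ∀ t ∈ Set.Ioo (0 : ℝ) 1, ∀ w, γ u v t ≠ p w) ∧
        (∀ u v u' v', G.Adj u v → G.Adj u' v' → s(u, v) ≠ s(u', v') →
          ∀ t ∈ Set.Ioo (0 : ℝ) 1, ∀ t' ∈ Set.Ioo (0 : ℝ) 1, γ u v t ≠ γ u' v' t')) →
      (∀ (v : V) (c : G.Walk v v), c.IsCycle → c.length = 6 →
        ∀ x ∈ c.support, ∀ y ∈ c.support, G.Adj x y → s(x, y) ∈ c.edges) →
      ∀ (s : ℕ) (H : SimpleGraph (V × Fin s)),
        (∀ x y, H.Adj x y → G.Adj x.1 y.1) →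
        (∀ x y y', H.Adj x y → H.Adj x y' → y.1 = y'.1 → y = y') →
        ∀ f : V × Fin s → ℕ, (∀ x, f x = 0 ∨ f x = 1) → (∀ v, 4 ≤ ∑ i, f (v, i)) →
          ∃ T : V → Fin s, (∀ v, f (v, T v) = 1) ∧ ∀ u v, ¬ H.Adj (u, T u) (v, T v) :=
  fun _ _ G hp h6 s H h1 h2 f f1 f2 =>
    Pool.Agent.P.MP_0e1fd4_co.main G hp h6 s H h1 h2 f (fun x => by rcases f1 x with h | h <;> omega)
      f2

end Pool.Agent.P.MP_0e1fd4_co.VariantDPFourColourable
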