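import Mathlib

/-! A checker for decision trees on the weighted wheel. Vertices: 0 = z, 1 = hub, 2 = y, 3 = o,
4 = x. -/

namespace Pool.Agent.P.MP_0e1fd4_co

open Classical in
/-- indicator -/
noncomputable def ind (p : Prop) : ℕ := if p then 1 else 0

/-- an ordering `r` of the wheel in which every vertex has fewer than `w` earlier neighbours -/
def WOk (m : ℕ → Prop) (r w : ℕ → ℕ) : Prop :=
  ind (m 0 ∧ r 1 ≤ r 0) + ind (m 4 ∧ r 2 ≤ r 0) + ind (m 7 ∧ r 4 ≤ r 0) < w 0 ∧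
  ind (m 0 ∧ r 0 ≤ r 1) + ind (m 1 ∧ r 2 ≤ r 1) + ind (m 2 ∧ r 3 ≤ r 1) +
    ind (m 3 ∧ r 4 ≤ r 1) < w 1 ∧
  ind (m 1 ∧ r 1 ≤ r 2) + ind (m 4 ∧ r 0 ≤ r 2) + ind (m 5 ∧ r 3 ≤ r 2) < w 2 ∧
  ind (m 2 ∧ r 1 ≤ r 3) + ind (m 5 ∧ r 2 ≤ r 3) + ind (m 6 ∧ r 4 ≤ r 3) < w 3 ∧
  ind (m 3 ∧ r 1 ≤ r 4) + ind (m 6 ∧ r 3 ≤ r 4) + ind (m 7 ∧ r 0 ≤ r 4) < w 4

lemma ind_mono {p q : Prop} (h : p → q) : ind p ≤ ind q := by
  unfold ind
  split_ifs <;> tauto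

lemma ind_false {p : Prop} (h : ¬ p) : ind p = 0 := if_neg h

def bi (b : Bool) (x y : ℕ) : ℕ := cond (b && Nat.ble x y) 1 0

lemma ind_le_bi {p : Prop} {b : Bool} (h : p → b = true) (x y : ℕ) :
    ind (p ∧ x ≤ y) ≤ bi b x y := by
  unfold ind bi
  split_ifs with h'
  · rw [h h'.1, Nat.ble_eq_true_of_le h'.2]
    exact le_rfl
  · exact Nat.zero_le _

def eu (e : ℕ) : ℕ := [1, 1, 1, 1, 0, 2, 3, 4].getD e 0

def ev (e : ℕ) : ℕ := [0, 2, 3, 4, 2, 3, 4, 0].getD e 0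

def bOk (m : ℕ → Bool) (r w : ℕ → ℕ) : Bool :=
  Nat.blt (bi (m 0) (r 1) (r 0) + bi (m 4) (r 2) (r 0) + bi (m 7) (r 4) (r 0)) (w 0) &&
  Nat.blt (bi (m 0) (r 0) (r 1) + bi (m 1) (r 2) (r 1) + bi (m 2) (r 3) (r 1) +
    bi (m 3) (r 4) (r 1)) (w 1) &&
  Nat.blt (bi (m 1) (r 1) (r 2) + bi (m 4) (r 0) (r 2) + bi (m 5) (r 3) (r 2)) (w 2) &&
  Nat.blt (bi (m 2) (r 1) (r 3) + bi (m 5) (r 2) (r 3) + bi (m 6) (r 4) (r 3)) (w 3) &&
  Nat.blt (bi (m 3) (r 1) (r 4) + bi (m 6) (r 3) (r 4) + bi (m 7) (r 0) (r 4)) (w 4)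

lemma bOk_pos {m : ℕ → Bool} {r w : ℕ → ℕ} (h : bOk m r w = true) : ∀ v < 5, 0 < w v := by
  simp only [bOk, Bool.and_eq_true, Nat.blt_eq] at h
  intro v hv
  interval_cases v <;> omega

lemma bOk_sound {m : ℕ → Bool} {r w : ℕ → ℕ} (h : bOk m r w = true) {p : ℕ → Prop}
    (hp : ∀ e < 8, p e → m e = true) : WOk p r w := by
  simp only [bOk, Bool.and_eq_true, Nat.blt_eq] at h
  obtain ⟨⟨⟨⟨h0, h1⟩, h2⟩, h3⟩, h4⟩ := h
  have k := fun e he => ind_le_bi (hp e he)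
  exact ⟨lt_of_le_of_lt (add_le_add (add_le_add (k 0 (by omega) _ _) (k 4 (by omega) _ _))
      (k 7 (by omega) _ _)) h0,
    lt_of_le_of_lt (add_le_add (add_le_add (add_le_add (k 0 (by omega) _ _) (k 1 (by omega) _ _))
      (k 2 (by omega) _ _)) (k 3 (by omega) _ _)) h1,
    lt_of_le_of_lt (add_le_add (add_le_add (k 1 (by omega) _ _) (k 4 (by omega) _ _))
      (k 5 (by omega) _ _)) h2,
    lt_of_le_of_lt (add_le_add (add_le_add (k 2 (by omega) _ _) (k 5 (by omega) _ _))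
      (k 6 (by omega) _ _)) h3,
    lt_of_le_of_lt (add_le_add (add_le_add (k 3 (by omega) _ _) (k 6 (by omega) _ _))
      (k 7 (by omega) _ _)) h4⟩

def lt4 (c v : ℕ) : ℕ := c / 4 ^ v % 4

def leafOk (w : ℕ → ℕ → ℕ) (Q c : ℕ) : Bool :=
  bOk (fun e => !(Q.testBit (16 * e + 4 * lt4 c (eu e) + lt4 c (ev e))))
    (fun v => c / 1024 / 8 ^ v % 8) fun v => w v (lt4 c v)

def cmask (a : ℕ) : ℕ := ((15 <<< (4 * (a / 4 % 4))) ^^^ (4369 <<< (a % 4))) <<< (16 * (a / 16))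

lemma cmask_spec : ∀ a < 128, ∀ b < 128, (cmask a).testBit b = true → b / 16 = a / 16 ∧
    (b / 4 % 4 = a / 4 % 4 ∧ b % 4 ≠ a % 4 ∨ b / 4 % 4 ≠ a / 4 % 4 ∧ b % 4 = a % 4) := by
  decide +kernel

def frc {α : Type} (x : ℕ) (f : ℕ → α) : α := Nat.casesOn x (f 0) fun k => f (k + 1)

lemma frc_eq {α : Type} (x : ℕ) (f : ℕ → α) : frc x f = f x := by
  cases x <;> rfl

def trOk (w : ℕ → ℕ → ℕ) : ℕ → ℕ → ℕ → Option ℕ
  | 0, _, _ => none
  | n + 1, Q, c => cond (Nat.beq (c % 2) 0)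
      (frc (c / 2 % 33554432) fun l => cond (leafOk w Q l) (some (c / 67108864)) none)
      (frc (c / 2 % 128) fun a => frc (Q ||| cmask a) fun Q1 => frc (c / 256) fun c1 =>
        (trOk w n Q1 c1).bind fun c2 => frc c2 fun c3 => frc (Q ||| 2 ^ a) fun Q2 =>
          trOk w n Q2 c3)

lemma trOk_sound {w : ℕ → ℕ → ℕ} {A : ℕ → Prop} {G : Prop}
    (hA : ∀ a < 128, ∀ b < 128, A a → (cmask a).testBit b = true → ¬ A b)
    (hl : ∀ Q c, (∀ b < 128, Q.testBit b = true → ¬ A b) → leafOk w Q c = true → G) :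
    ∀ n Q c, (∀ b < 128, Q.testBit b = true → ¬ A b) → (trOk w n Q c).isSome = true → G := by
  intro n
  induction n with
  | zero => intro Q c _ h; simp [trOk] at h
  | succ n ih =>
    intro Q c hQ h
    simp only [trOk, frc_eq] at h
    cases h1 : Nat.beq (c % 2) 0
    · rw [h1, cond_false] at h
      have ha : c / 2 % 128 < 128 := Nat.mod_lt _ (by norm_num)
      cases h2 : trOk w n (Q ||| cmask (c / 2 % 128)) (c / 256) with
      | none => rw [h2] at h; simp at h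
      | some c2 =>
        rw [h2, Option.bind_some] at h
        by_cases h3 : A (c / 2 % 128)
        · refine ih (Q ||| cmask (c / 2 % 128)) (c / 256) (fun b hb h4 => ?_) (by rw [h2]; rfl)
          rw [Nat.testBit_or, Bool.or_eq_true] at h4
          exact h4.elim (hQ b hb) (hA _ ha b hb h3)
        · refine ih _ _ (fun b hb h4 => ?_) h
          rw [Nat.testBit_or, Bool.or_eq_true, Nat.testBit_two_pow, decide_eq_true_eq] at h4
          exact h4.elim (hQ b hb) fun e => e ▸ h3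
    · rw [h1, cond_true] at h
      cases h2 : leafOk w Q (c / 2 % 33554432)
      · rw [h2] at h; simp at h
      · exact hl Q _ hQ h2

def wt (p n i : ℕ) : ℕ := cond (Nat.blt i p) 2 (cond (Nat.blt i n) 1 0)

def tot (v : ℕ) : ℕ := [3, 4, 2, 3, 2].getD v 0

def twos (k v : ℕ) : ℕ := [k % 2, k / 16, k / 2 % 2, k / 4 % 2, k / 8 % 2].getD v 0

def wts (k v i : ℕ) : ℕ := wt (twos k v) (tot v - twos k v) i

theorem wheel_fin {ι C : Type} {M : ι → C → ι → C → Prop}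
    (hs : ∀ u a w b, M u a w b → M w b u a) (hu : ∀ u a w b b', M u a w b → M u a w b' → b = b')
    (vt : ℕ → ι) (col : ℕ → ℕ → C) {w : ℕ → ℕ → ℕ}
    (hi : ∀ v < 5, ∀ i j, 0 < w v i → 0 < w v j → col v i = col v j → i = j) {c : ℕ}
    (h : (trOk w 40 0 c).isSome = true) :
    ∃ t r : ℕ → ℕ, (∀ v < 5, 0 < w v (t v)) ∧ WOk (fun e => M (vt (eu e)) (col (eu e) (t (eu e)))
      (vt (ev e)) (col (ev e) (t (ev e)))) r fun v => w v (t v) := by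
  have b5 : ∀ e, eu e < 5 ∧ ev e < 5 := fun e => by
    by_cases he : e < 8
    · interval_cases e <;> decide
    · simp [eu, ev, not_lt.1 he]
  refine trOk_sound (A := fun b => 0 < w (eu (b / 16)) (b / 4 % 4) ∧ 0 < w (ev (b / 16)) (b % 4) ∧
    M (vt (eu (b / 16))) (col (eu (b / 16)) (b / 4 % 4)) (vt (ev (b / 16)))
      (col (ev (b / 16)) (b % 4))) (fun a ha b hb h1 h2 h3 => ?_) (fun Q c hQ h1 => ?_) 40 0 c
    (by simp) h
  · obtain ⟨e1, e2⟩ := cmask_spec a ha b hb h2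
    rw [e1] at h3
    rcases e2 with ⟨e2, e3⟩ | ⟨e2, e3⟩
    · rw [e2] at h3
      exact e3 (hi _ (b5 _).2 _ _ h3.2.1 h1.2.1 (hu _ _ _ _ _ h3.2.2 h1.2.2))
    · rw [e3] at h3
      exact e2 (hi _ (b5 _).1 _ _ h3.1 h1.1 (hu _ _ _ _ _ (hs _ _ _ _ h3.2.2) (hs _ _ _ _ h1.2.2)))
  · have hp := bOk_pos h1
    refine ⟨lt4 c, _, hp, bOk_sound h1 fun e he hm => ?_⟩
    have l4 : ∀ v, lt4 c v < 4 := fun v => Nat.mod_lt _ (by norm_num)
    have a1 := l4 (eu e)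
    have a2 := l4 (ev e)
    rw [Bool.not_eq_true', ← Bool.not_eq_true]
    intro hq
    refine hQ _ (by omega) hq ?_
    have e1 : (16 * e + 4 * lt4 c (eu e) + lt4 c (ev e)) / 16 = e := by omega
    have e2 : (16 * e + 4 * lt4 c (eu e) + lt4 c (ev e)) / 4 % 4 = lt4 c (eu e) := by omega
    have e3 : (16 * e + 4 * lt4 c (eu e) + lt4 c (ev e)) % 4 = lt4 c (ev e) := by omega
    rw [e1, e2, e3]
    exact ⟨hp _ (b5 e).1, hp _ (b5 e).2, hm⟩

end Pool.Agent.P.MP_0e1fd4_co
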